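import Mathlib

/-! # Stability of the functional equation of straight 4-webs -/

namespace Pool.Agent.Lib.MP_a768d2_coT

/-- second difference with step `h` -/
def D2 (f : ℕ → ℝ) (h j : ℕ) : ℝ := f (j + 2 * h) - 2 * f (j + h) + f j

theorem two_point (m : ℕ) (f : ℕ → ℝ) (X : ℝ) (h0 : f 0 = 0) (hm : f m = 0)
    (hX : ∀ j h, j + 2 * h ≤ m → |D2 f h j| ≤ X) (j : ℕ) (hj : j ≤ m) : |f j| ≤ X := by
  obtain ⟨j0, hj0, hmax⟩ := Finset.exists_max_image (Finset.range (m + 1)) (fun j => |f j|)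
    ⟨0, by simp⟩
  have hj0' : j0 ≤ m := by have := Finset.mem_range.mp hj0; omega
  have hle : |f j| ≤ |f j0| := hmax j (Finset.mem_range.mpr (by omega))
  refine hle.trans ?_
  rcases Nat.lt_or_ge m (2 * j0) with h | h
  · have h1 := hX (2 * j0 - m) (m - j0) (by omega)
    have e1 : 2 * j0 - m + 2 * (m - j0) = m := by omega
    have e2 : 2 * j0 - m + (m - j0) = j0 := by omega
    unfold D2 at h1
    rw [e1, e2, hm] at h1
    have h2 := hmax (2 * j0 - m) (Finset.mem_range.mpr (by omega))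
    have h3 : |2 * f j0| ≤ |0 - 2 * f j0 + f (2 * j0 - m)| + |f (2 * j0 - m)| := by
      have := abs_sub (0 - 2 * f j0 + f (2 * j0 - m)) (f (2 * j0 - m))
      have e : 0 - 2 * f j0 + f (2 * j0 - m) - f (2 * j0 - m) = -(2 * f j0) := by ring
      rw [e, abs_neg] at this
      exact this
    rw [abs_mul, abs_two] at h3
    linarith
  · have h1 := hX 0 j0 (by omega)
    unfold D2 at h1
    rw [zero_add, zero_add, h0] at h1
    have h2 := hmax (2 * j0) (Finset.mem_range.mpr (by omega))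
    have h3 : |2 * f j0| ≤ |f (2 * j0) - 2 * f j0 + 0| + |f (2 * j0)| := by
      have := abs_sub (f (2 * j0) - 2 * f j0 + 0) (f (2 * j0))
      have e : f (2 * j0) - 2 * f j0 + 0 - f (2 * j0) = -(2 * f j0) := by ring
      rw [e, abs_neg] at this
      exact this
    rw [abs_mul, abs_two] at h3
    linarith

/-- the hypotheses of the functional equation -/
structure Web (M : ℕ) (μ : ℝ) (G1 G2 : ℕ → ℕ → ℝ) (a b p q : ℕ → ℝ) : Prop where
  h1 : ∀ i j, i ≤ M → j ≤ M → |G2 i j - (b j + i * p j)| ≤ μ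
  h2 : ∀ i j, i ≤ M → j ≤ M → |G1 i j - (a i + j * q i)| ≤ μ
  h3 : ∀ i j h, i + 2 * h ≤ M → j + 2 * h ≤ M →
    |(G2 (i + 2 * h) (j + 2 * h) - G1 (i + 2 * h) (j + 2 * h)) -
      2 * (G2 (i + h) (j + h) - G1 (i + h) (j + h)) + (G2 i j - G1 i j)| ≤ μ
  h4 : ∀ i j h, i + 2 * h ≤ M → j + 2 * h ≤ M →
    |(G1 (i + 2 * h) j + G2 (i + 2 * h) j) -
      2 * (G1 (i + h) (j + h) + G2 (i + h) (j + h)) + (G1 i (j + 2 * h) + G2 i (j + 2 * h))| ≤ μ
  h5 : ∀ j, j < M → |p (j + 1) - p j| ≤ μ / M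
  h6 : ∀ j, j < M → |q (j + 1) - q j| ≤ μ / M

variable {M : ℕ} {μ : ℝ} {G1 G2 : ℕ → ℕ → ℝ} {a b p q : ℕ → ℝ}

theorem Web.swap (W : Web M μ G1 G2 a b p q) :
    Web M μ (fun i j => G2 j i) (fun i j => G1 j i) b a q p where
  h1 := fun i j hi hj => W.h2 j i hj hi
  h2 := fun i j hi hj => W.h1 j i hj hi
  h3 := fun i j h hi hj => by
    have := W.h3 j i h hj hi
    rw [← abs_neg] at this
    refine le_trans (le_of_eq ?_) this
    congr 1
    ring
  h4 := fun i j h hi hj => by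
    have := W.h4 j i h hj hi
    refine le_trans (le_of_eq ?_) this
    congr 1
    ring
  h5 := W.h6
  h6 := W.h5

theorem Web.eqI (W : Web M μ G1 G2 a b p q) (i j h : ℕ) (hi : i + 2 * h ≤ M)
    (hj : j + 2 * h ≤ M) :
    |D2 b h j + (i + h) * D2 p h j - h * (q (i + 2 * h) - q i)| ≤ 9 * μ := by
  have a1 := abs_le.mp (W.h3 i j h hi hj)
  have a2 := abs_le.mp (W.h4 i j h hi hj)
  have b1 := abs_le.mp (W.h1 (i + 2 * h) (j + 2 * h) hi hj)
  have b2 := abs_le.mp (W.h1 (i + h) (j + h) (by omega) (by omega))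
  have b3 := abs_le.mp (W.h1 i j (by omega) (by omega))
  have b4 := abs_le.mp (W.h1 (i + 2 * h) j hi (by omega))
  have b5 := abs_le.mp (W.h1 i (j + 2 * h) (by omega) hj)
  have c1 := abs_le.mp (W.h2 (i + 2 * h) (j + 2 * h) hi hj)
  have c2 := abs_le.mp (W.h2 (i + h) (j + h) (by omega) (by omega))
  have c3 := abs_le.mp (W.h2 i j (by omega) (by omega))
  have c4 := abs_le.mp (W.h2 (i + 2 * h) j hi (by omega))
  have c5 := abs_le.mp (W.h2 i (j + 2 * h) (by omega) hj)
  push_cast at b1 b2 b3 b4 b5 c1 c2 c3 c4 c5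
  unfold D2
  rw [abs_le]
  constructor <;> nlinarith

theorem Web.eqII (W : Web M μ G1 G2 a b p q) (i j h : ℕ) (hi : i + 2 * h ≤ M)
    (hj : j + 2 * h ≤ M) :
    |D2 a h i + (j + h) * D2 q h i - h * (p (j + 2 * h) - p j)| ≤ 9 * μ :=
  W.swap.eqI j i h hj hi


/-- the second difference of `p` does not depend on the position -/
theorem Web.dp_const (W : Web M μ G1 G2 a b p q) (hM : 0 < M) (j j' h : ℕ) (h4 : 4 * h ≤ M)
    (hj : j + 2 * h ≤ M) (hj' : j' + 2 * h ≤ M) :
    |D2 p h j - D2 p h j'| ≤ 72 * μ / M := by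
  have a1 := abs_le.mp (W.eqI 0 j h (by omega) hj)
  have a2 := abs_le.mp (W.eqI (M - 2 * h) j h (by omega) hj)
  have a3 := abs_le.mp (W.eqI 0 j' h (by omega) hj')
  have a4 := abs_le.mp (W.eqI (M - 2 * h) j' h (by omega) hj')
  have e1 : ((M - 2 * h : ℕ) : ℝ) = M - 2 * h := by
    rw [Nat.cast_sub (by omega)]; push_cast; ring
  rw [e1] at a2 a4
  have e2 : M - 2 * h + 2 * h = M := by omega
  rw [e2] at a2 a4
  have hM' : (0 : ℝ) < M := by exact_mod_cast hM
  have h4' : 4 * (h : ℝ) ≤ M := by exact_mod_cast h4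
  push_cast at a1 a2 a3 a4
  have key : ((M : ℝ) - 2 * h) * |D2 p h j - D2 p h j'| ≤ 36 * μ := by
    have h0 : 0 ≤ (M : ℝ) - 2 * h := by have : (0 : ℝ) ≤ h := Nat.cast_nonneg h; linarith
    have e3 : ((M : ℝ) - 2 * h) * |D2 p h j - D2 p h j'| =
        |((M : ℝ) - 2 * h) * (D2 p h j - D2 p h j')| := by
      rw [abs_mul, abs_of_nonneg h0]
    rw [e3, abs_le]
    constructor <;> linarith
  rw [le_div_iff₀ hM']
  have h5 : (M : ℝ) / 2 * |D2 p h j - D2 p h j'| ≤
      ((M : ℝ) - 2 * h) * |D2 p h j - D2 p h j'| :=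
    mul_le_mul_of_nonneg_right (by linarith) (abs_nonneg _)
  linarith

theorem D2_double (f : ℕ → ℝ) (h j : ℕ) :
    D2 f (2 * h) j = D2 f h (j + 2 * h) + 2 * D2 f h (j + h) + D2 f h j := by
  unfold D2
  have e1 : j + 2 * (2 * h) = j + 2 * h + 2 * h := by ring
  have e2 : j + h + 2 * h = j + 2 * h + h := by ring
  have e3 : j + h + h = j + 2 * h := by ring
  rw [e1, e2, e3]
  ring

/-- the first relation between the second differences -/
theorem Web.rel (W : Web M μ G1 G2 a b p q) (hM : 0 < M) (h : ℕ) (h4 : 4 * h ≤ M)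
    (h8 : M ≤ 8 * h) : |4 * D2 p h 0 - 2 * D2 q h 0| ≤ 360 * μ / M := by
  have hM' : (0 : ℝ) < M := by exact_mod_cast hM
  have hh : 0 < h := by omega
  have hh' : (0 : ℝ) < h := by exact_mod_cast hh
  have h8' : (M : ℝ) ≤ 8 * h := by exact_mod_cast h8
  have hμ : 0 ≤ μ := le_trans (abs_nonneg _) (W.h1 0 0 (by omega) (by omega))
  have a1 := abs_le.mp (W.eqII 0 0 h (by omega) (by omega))
  have a2 := abs_le.mp (W.eqII 0 (2 * h) h (by omega) (by omega))
  have b1 := abs_le.mp (W.dp_const hM (2 * h) 0 h h4 (by omega) (by omega))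
  have b2 := abs_le.mp (W.dp_const hM h 0 h h4 (by omega) (by omega))
  have c1 := D2_double p h 0
  have e0 : D2 p (2 * h) 0 = (p (2 * h + 2 * h) - p (2 * h)) - (p (2 * h) - p 0) := by
    unfold D2
    have e1 : 0 + 2 * (2 * h) = 2 * h + 2 * h := by ring
    have e2 : 0 + 2 * h = 2 * h := by ring
    rw [e1, e2]
    ring
  rw [zero_add, zero_add] at c1
  rw [zero_add] at a1
  push_cast at a1 a2
  -- h * D2 p (2h) 0 = 2 h D2 q h 0 + O(18 μ)
  have k1 : |(h : ℝ) * (D2 p (2 * h) 0 - 2 * D2 q h 0)| ≤ 18 * μ := by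
    rw [e0, abs_le]
    constructor <;> nlinarith
  have k2 : |D2 p (2 * h) 0 - 2 * D2 q h 0| ≤ 144 * μ / M := by
    rw [abs_mul, abs_of_pos hh'] at k1
    rw [le_div_iff₀ hM']
    have : |D2 p (2 * h) 0 - 2 * D2 q h 0| * M ≤ |D2 p (2 * h) 0 - 2 * D2 q h 0| * (8 * h) :=
      mul_le_mul_of_nonneg_left h8' (abs_nonneg _)
    linarith
  have k3 := abs_le.mp k2
  have e5 : 360 * μ / M = 144 * μ / M + 3 * (72 * μ / M) := by ring
  rw [e5, abs_le]
  constructor <;> linarith

theorem Web.small (W : Web M μ G1 G2 a b p q) (hM : 0 < M) (h : ℕ) (h4 : 4 * h ≤ M)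
    (h8 : M ≤ 8 * h) : |D2 p h 0| ≤ 180 * μ / M := by
  have r1 := abs_le.mp (W.rel hM h h4 h8)
  have r2 := abs_le.mp (W.swap.rel hM h h4 h8)
  have e : 180 * μ / M = (360 * μ / M) / 2 := by ring
  rw [e, abs_le]
  constructor <;> linarith

/-- shift invariance of the increments of `p` -/
theorem Web.shift (W : Web M μ G1 G2 a b p q) (hM : 0 < M) (h j j' : ℕ) (h4 : 4 * h ≤ M)
    (h8 : M ≤ 8 * h) (hj : j + 2 * h ≤ M) (hj' : j' + 2 * h ≤ M) :
    |(p (j + 2 * h) - p j) - (p (j' + 2 * h) - p j')| ≤ 1584 * μ / M := by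
  have hM' : (0 : ℝ) < M := by exact_mod_cast hM
  have hh : 0 < h := by omega
  have hh' : (0 : ℝ) < h := by exact_mod_cast hh
  have h8' : (M : ℝ) ≤ 8 * h := by exact_mod_cast h8
  have a1 := abs_le.mp (W.eqII 0 j h (by omega) hj)
  have a2 := abs_le.mp (W.eqII 0 j' h (by omega) hj')
  have s := W.swap.small hM h h4 h8
  have k0 : |((j : ℝ) - j') * D2 q h 0| ≤ 180 * μ := by
    rw [abs_mul]
    have e1 : |(j : ℝ) - j'| ≤ M := by
      have x1 : (j : ℝ) ≤ M := by exact_mod_cast (by omega : j ≤ M)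
      have x2 : (j' : ℝ) ≤ M := by exact_mod_cast (by omega : j' ≤ M)
      have x3 : (0 : ℝ) ≤ j := Nat.cast_nonneg _
      have x4 : (0 : ℝ) ≤ j' := Nat.cast_nonneg _
      rw [abs_le]; constructor <;> linarith
    calc |(j : ℝ) - j'| * |D2 q h 0| ≤ M * (180 * μ / M) :=
          mul_le_mul e1 s (abs_nonneg _) hM'.le
      _ = 180 * μ := by field_simp
  have k0' := abs_le.mp k0
  have k1 : |(h : ℝ) * ((p (j + 2 * h) - p j) - (p (j' + 2 * h) - p j'))| ≤ 198 * μ := by
    rw [abs_le]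
    constructor <;> nlinarith
  rw [abs_mul, abs_of_pos hh'] at k1
  rw [le_div_iff₀ hM']
  have : |(p (j + 2 * h) - p j) - (p (j' + 2 * h) - p j')| * M ≤
      |(p (j + 2 * h) - p j) - (p (j' + 2 * h) - p j')| * (8 * h) :=
    mul_le_mul_of_nonneg_left h8' (abs_nonneg _)
  linarith


theorem lip_sum (f : ℕ → ℝ) (X : ℝ) (M : ℕ) (h : ∀ j, j < M → |f (j + 1) - f j| ≤ X) (n : ℕ)
    (hn : n ≤ M) : |f n - f 0| ≤ n * X := by
  induction n with
  | zero => simp
  | succ n ih =>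
    have h1 := ih (by omega)
    have h2 := h n (by omega)
    have h3 := abs_add_le (f (n + 1) - f n) (f n - f 0)
    have e : f (n + 1) - f n + (f n - f 0) = f (n + 1) - f 0 := by ring
    rw [e] at h3
    push_cast
    linarith

/-- `p` is affine up to `O(μ / M)` -/
theorem Web.affine (W : Web M μ G1 G2 a b p q) (m : ℕ) (hm : 0 < m) (hM : M = 16 * m) :
    ∃ s : ℝ, ∀ i, i ≤ M → |p i - (p 0 + i * s)| ≤ 4800 * μ / M := by
  have hM0 : 0 < M := by omega
  have hM' : (0 : ℝ) < M := by exact_mod_cast hM0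
  have hm' : (0 : ℝ) < m := by exact_mod_cast hm
  have hμ : 0 ≤ μ := le_trans (abs_nonneg _) (W.h1 0 0 (by omega) (by omega))
  have hμM : 0 ≤ μ / M := div_nonneg hμ hM'.le
  set ν := 1584 * μ / M with hν
  -- small second differences with even step
  have hsmall : ∀ j h', j + 4 * h' ≤ 8 * m → |D2 p (2 * h') j| ≤ 2 * ν := by
    intro j h' hj
    have a1 := abs_le.mp (W.shift hM0 (2 * m) (j + 4 * h') (j + 2 * h') (by omega) (by omega)
      (by omega) (by omega))
    have a2 := abs_le.mp (W.shift hM0 (2 * m + h') (j + 2 * h') j (by omega) (by omega)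
      (by omega) (by omega))
    have e1 : j + 4 * h' + 2 * (2 * m) = j + 2 * h' + 2 * (2 * m + h') := by ring
    have e2 : j + 2 * h' + 2 * (2 * m) = j + 2 * (2 * m + h') := by ring
    rw [e1, e2] at a1
    unfold D2
    have e3 : j + 2 * (2 * h') = j + 4 * h' := by ring
    rw [e3, abs_le]
    constructor <;> linarith
  set s : ℝ := (p (8 * m) - p 0) / (8 * m) with hs
  refine ⟨s, ?_⟩
  have heven : ∀ j, j ≤ 4 * m → |p (2 * j) - (p 0 + (2 * j : ℕ) * s)| ≤ 2 * ν := by
    have h8 : (8 * (m : ℝ)) ≠ 0 := by positivity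
    have key := two_point (4 * m) (fun j => p (2 * j) - (p 0 + (2 * j : ℕ) * s)) (2 * ν)
      (by simp) (by
        have e : 2 * (4 * m) = 8 * m := by ring
        simp only [e, hs]
        push_cast
        field_simp
        ring)
      (by
        intro j h hj
        have e : D2 (fun j => p (2 * j) - (p 0 + (2 * j : ℕ) * s)) h j = D2 p (2 * h) (2 * j) := by
          unfold D2
          have e1 : 2 * (j + 2 * h) = 2 * j + 2 * (2 * h) := by ring
          have e2 : 2 * (j + h) = 2 * j + 2 * h := by ring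
          simp only [e1, e2]
          push_cast
          ring
        rw [e]
        exact hsmall (2 * j) h (by omega))
    exact key
  have hsb : |s| ≤ μ / M := by
    have h1 := lip_sum p (μ / M) M W.h5 (8 * m) (by omega)
    rw [hs, abs_div, abs_of_pos (by positivity : 0 < 8 * (m : ℝ)), div_le_iff₀ (by positivity)]
    push_cast at h1
    linarith
  have hlow : ∀ i, i ≤ 8 * m → |p i - (p 0 + i * s)| ≤ 2 * ν + 2 * (μ / M) := by
    intro i hi
    rcases Nat.even_or_odd' i with ⟨j, hj | hj⟩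
    · have := heven j (by omega)
      rw [hj]
      linarith
    · have h1 := abs_le.mp (heven j (by omega))
      have h2 := abs_le.mp (W.h5 (2 * j) (by omega))
      have h3 := abs_le.mp hsb
      rw [hj]
      push_cast at h1 ⊢
      rw [abs_le]
      constructor <;> nlinarith
  intro i hi
  have e48 : 4800 * μ / M = 3 * ν + 48 * (μ / M) := by rw [hν]; ring
  rw [e48]
  have hν0 : 0 ≤ ν := by rw [hν]; positivity
  rcases Nat.lt_or_ge (8 * m) i with h | h
  · have h1 := abs_le.mp (W.shift hM0 (4 * m) (i - 8 * m) 0 (by omega) (by omega) (by omega)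
      (by omega))
    have e1 : i - 8 * m + 2 * (4 * m) = i := by omega
    have e2 : 0 + 2 * (4 * m) = 8 * m := by ring
    rw [e1, e2] at h1
    have h2 := abs_le.mp (hlow (i - 8 * m) (by omega))
    have e3 : ((i - 8 * m : ℕ) : ℝ) = i - 8 * m := by
      rw [Nat.cast_sub h.le]; push_cast; ring
    rw [e3] at h2
    have e4 : p (8 * m) - p 0 = 8 * m * s := by
      rw [hs]; field_simp
    rw [e4] at h1
    rw [abs_le]
    constructor <;> nlinarith
  · refine (hlow i h).trans ?_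
    linarith

theorem Web.quad (W : Web M μ G1 G2 a b p q) (m : ℕ) (hm : 0 < m) (hM : M = 16 * m)
    (s s' : ℝ) (hs : ∀ i, i ≤ M → |p i - (p 0 + i * s)| ≤ 4800 * μ / M)
    (hs' : ∀ i, i ≤ M → |q i - (q 0 + i * s')| ≤ 4800 * μ / M) :
    ∃ t : ℝ, ∀ i j, i ≤ M → j ≤ M →
      |G2 i j - (b 0 + t * j + s' * j ^ 2 + i * p 0 + i * j * s)| ≤ 20000 * μ := by
  have hM0 : 0 < M := by omega
  have hM' : (0 : ℝ) < M := by exact_mod_cast hM0
  have hμ : 0 ≤ μ := le_trans (abs_nonneg _) (W.h1 0 0 (by omega) (by omega))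
  have hμM : 0 ≤ μ / M := div_nonneg hμ hM'.le
  set e := 4800 * μ / M with he
  have he0 : 0 ≤ e := by rw [he]; positivity
  have heM : e * M = 4800 * μ := by rw [he]; field_simp
  set t : ℝ := (b M - b 0 - s' * M ^ 2) / M with ht
  refine ⟨t, ?_⟩
  have hb : ∀ j, j ≤ M → |b j - b 0 - s' * j ^ 2 - t * j| ≤ 14500 * μ := by
    refine two_point M (fun j => b j - b 0 - s' * j ^ 2 - t * j) (14500 * μ) ?_ ?_ ?_
    · simp
    · simp only [ht]
      field_simp
      ring
    · intro j h hj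
      have e1 : D2 (fun j => b j - b 0 - s' * j ^ 2 - t * j) h j = D2 b h j - 2 * h ^ 2 * s' := by
        unfold D2
        push_cast
        ring
      rw [e1]
      have h2h : 2 * (h : ℝ) ≤ M := by exact_mod_cast (by omega : 2 * h ≤ M)
      have hh0 : (0 : ℝ) ≤ h := Nat.cast_nonneg h
      have a1 := abs_le.mp (W.eqI 0 j h (by omega) hj)
      rw [zero_add] at a1
      push_cast at a1
      have a2 := abs_le.mp (hs' (2 * h) (by omega))
      have a3 := abs_le.mp (hs (j + 2 * h) hj)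
      have a4 := abs_le.mp (hs (j + h) (by omega))
      have a5 := abs_le.mp (hs j (by omega))
      push_cast at a2 a3 a4 a5
      have a6 : |D2 p h j| ≤ 4 * e := by
        unfold D2
        rw [abs_le]
        constructor <;> nlinarith
      have a7 : |(h : ℝ) * D2 p h j| ≤ 9600 * μ := by
        rw [abs_mul, abs_of_nonneg hh0]
        calc (h : ℝ) * |D2 p h j| ≤ h * (4 * e) := mul_le_mul_of_nonneg_left a6 hh0
          _ = 2 * e * (2 * h) := by ring
          _ ≤ 2 * e * M := mul_le_mul_of_nonneg_left h2h (by positivity)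
          _ = 9600 * μ := by rw [mul_assoc, heM]; ring
      have a8 : |(h : ℝ) * (q (2 * h) - q 0 - 2 * h * s')| ≤ 2400 * μ := by
        rw [abs_mul, abs_of_nonneg hh0]
        have : |q (2 * h) - q 0 - 2 * h * s'| ≤ e := by
          rw [abs_le]; constructor <;> linarith
        calc (h : ℝ) * |q (2 * h) - q 0 - 2 * h * s'| ≤ h * e :=
              mul_le_mul_of_nonneg_left this hh0
          _ = e / 2 * (2 * h) := by ring
          _ ≤ e / 2 * M := mul_le_mul_of_nonneg_left h2h (by positivity)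
          _ = 2400 * μ := by rw [div_mul_eq_mul_div, heM]; ring
      have a7' := abs_le.mp a7
      have a8' := abs_le.mp a8
      rw [abs_le]
      constructor <;> nlinarith
  intro i j hi hj
  have c1 := abs_le.mp (W.h1 i j hi hj)
  have c2 := abs_le.mp (hb j hj)
  have c3 := hs j hj
  have c4 : |(i : ℝ) * (p j - (p 0 + j * s))| ≤ 4800 * μ := by
    rw [abs_mul, abs_of_nonneg (Nat.cast_nonneg i)]
    have hi' : (i : ℝ) ≤ M := by exact_mod_cast hi
    calc (i : ℝ) * |p j - (p 0 + j * s)| ≤ M * e :=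
          mul_le_mul hi' c3 (abs_nonneg _) hM'.le
      _ = 4800 * μ := by rw [mul_comm, heM]
  have c4' := abs_le.mp c4
  rw [abs_le]
  constructor <;> nlinarith

/-- a web vanishing at the four corners is small -/
theorem Web.bound (W : Web M μ G1 G2 a b p q) (m : ℕ) (hm : 0 < m) (hM : M = 16 * m)
    (c1 : G1 0 0 = 0) (c2 : G1 M 0 = 0) (c3 : G1 0 M = 0) (c4 : G1 M M = 0)
    (d1 : G2 0 0 = 0) (d2 : G2 M 0 = 0) (d3 : G2 0 M = 0) (d4 : G2 M M = 0)
    (i j : ℕ) (hi : i ≤ M) (hj : j ≤ M) :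
    |G1 i j| ≤ 10 ^ 6 * μ ∧ |G2 i j| ≤ 10 ^ 6 * μ := by
  have hM0 : 0 < M := by omega
  have hM' : (0 : ℝ) < M := by exact_mod_cast hM0
  have hμ : 0 ≤ μ := le_trans (abs_nonneg _) (W.h1 0 0 (by omega) (by omega))
  obtain ⟨s, hs⟩ := W.affine m hm hM
  obtain ⟨s', hs'⟩ := W.swap.affine m hm hM
  obtain ⟨t, ht⟩ := W.quad m hm hM s s' hs hs'
  obtain ⟨t', ht'⟩ := W.swap.quad m hm hM s' s hs' hs
  have x1 := abs_le.mp (ht 0 0 (by omega) (by omega))
  have x2 := abs_le.mp (ht M 0 (by omega) (by omega))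
  have x3 := abs_le.mp (ht 0 M (by omega) (by omega))
  have x4 := abs_le.mp (ht M M (by omega) (by omega))
  have y1 := abs_le.mp (ht' 0 0 (by omega) (by omega))
  have y2 := abs_le.mp (ht' M 0 (by omega) (by omega))
  have y3 := abs_le.mp (ht' 0 M (by omega) (by omega))
  have y4 := abs_le.mp (ht' M M (by omega) (by omega))

  rw [d1] at x1
  rw [d2] at x2
  rw [d3] at x3
  rw [d4] at x4
  rw [c1] at y1
  rw [c3] at y2
  rw [c2] at y3
  rw [c4] at y4
  push_cast at x1 x2 x3 x4 y1 y2 y3 y4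
  have final : ∀ (G : ℝ) (B T S P S2 : ℝ) (i j : ℕ), i ≤ M → j ≤ M →
      |G - (B + T * j + S * j ^ 2 + i * P + i * j * S2)| ≤ 20000 * μ →
      |B| ≤ 20000 * μ → |T * M| ≤ 120000 * μ → |S * M ^ 2| ≤ 80000 * μ →
      |M * P| ≤ 40000 * μ → |M * M * S2| ≤ 80000 * μ → |G| ≤ 10 ^ 6 * μ := by
    intro G B T S P S2 i j hi hj hG hB hT hS hP hS2
    have hi' : (i : ℝ) ≤ M := by exact_mod_cast hi
    have hj' : (j : ℝ) ≤ M := by exact_mod_cast hj
    have hi0 : (0 : ℝ) ≤ i := Nat.cast_nonneg i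
    have hj0 : (0 : ℝ) ≤ j := Nat.cast_nonneg j
    have f1 : |T * j| ≤ 120000 * μ := by
      refine le_trans ?_ hT
      rw [abs_mul, abs_mul, abs_of_nonneg hj0, abs_of_pos hM']
      exact mul_le_mul_of_nonneg_left hj' (abs_nonneg _)
    have f2 : |S * j ^ 2| ≤ 80000 * μ := by
      refine le_trans ?_ hS
      rw [abs_mul, abs_mul, abs_of_nonneg (by positivity : (0 : ℝ) ≤ (j : ℝ) ^ 2),
        abs_of_nonneg (by positivity : (0 : ℝ) ≤ (M : ℝ) ^ 2)]
      exact mul_le_mul_of_nonneg_left (pow_le_pow_left₀ hj0 hj' 2) (abs_nonneg _)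
    have f3 : |i * P| ≤ 40000 * μ := by
      refine le_trans ?_ hP
      rw [abs_mul, abs_mul, abs_of_nonneg hi0, abs_of_pos hM']
      exact mul_le_mul_of_nonneg_right hi' (abs_nonneg _)
    have f4 : |i * j * S2| ≤ 80000 * μ := by
      refine le_trans ?_ hS2
      rw [abs_mul, abs_mul (M * M : ℝ), abs_of_nonneg (by positivity : (0 : ℝ) ≤ (i : ℝ) * j),
        abs_of_nonneg (by positivity : (0 : ℝ) ≤ (M : ℝ) * M)]
      exact mul_le_mul_of_nonneg_right (mul_le_mul hi' hj' hj0 hM'.le) (abs_nonneg _)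
    have g0 := abs_le.mp hG
    have g1 := abs_le.mp hB
    have g2 := abs_le.mp f1
    have g3 := abs_le.mp f2
    have g4 := abs_le.mp f3
    have g5 := abs_le.mp f4
    rw [abs_le]
    constructor <;> linarith
  constructor
  · refine final _ (a 0) t' s (q 0) s' j i hj hi (ht' j i hj hi) ?_ ?_ ?_ ?_ ?_
    all_goals
      rw [abs_le]
      constructor <;> nlinarith
  · refine final _ (b 0) t s' (p 0) s i j hi hj (ht i j hi hj) ?_ ?_ ?_ ?_ ?_
    all_goals
      rw [abs_le]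
      constructor <;> nlinarith

end Pool.Agent.Lib.MP_a768d2_coT
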