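import Pool.Agent.Lib.MP_a768d2_coT.Lock3

/-! # One row of a straight grid: the locking theorem -/

namespace Pool.Agent.Lib.MP_a768d2_coT

/-- hypotheses of the locking theorem, with a modulus of continuity `ρ` down to the noise level `ε` -/
structure RowM (Ψ : ℤ → ℤ → ℝ) (N S : ℕ) (c : ℝ) (s00 : ℕ) (ρ : ℝ → ℝ) (ε : ℝ) : Prop where
  z0 : Ψ 0 0 = 0
  z1 : Ψ 1 0 = 0
  hb : ∀ s t : ℤ, 0 ≤ s → s ≤ S → 2 * |t| ≤ S → |Ψ (s + 1) t - Ψ s t| ≤ 1 / 8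
  hc : ∀ s t : ℤ, 0 ≤ s → s ≤ S → 2 * |t| ≤ S →
    1 / 2 ≤ Ψ s (t + 1) - Ψ s t ∧ Ψ s (t + 1) - Ψ s t ≤ 2
  dm : ∀ κ : ℝ, ε ≤ κ → ∀ s t s' t' : ℤ, 0 ≤ s → s ≤ S → 2 * |t| ≤ S → 0 ≤ s' → s' ≤ S →
    2 * |t'| ≤ S → |(s : ℝ) - s'| ≤ ρ κ * N → |(t : ℝ) - t'| ≤ ρ κ * N →
    |(Ψ (s + 1) t - Ψ s t) - (Ψ (s' + 1) t' - Ψ s' t')| ≤ κ
  em : ∀ κ : ℝ, ε ≤ κ → ∀ s t s' t' : ℤ, 0 ≤ s → s ≤ S → 2 * |t| ≤ S → 0 ≤ s' → s' ≤ S →
    2 * |t'| ≤ S → |(s : ℝ) - s'| ≤ ρ κ * N → |(t : ℝ) - t'| ≤ ρ κ * N →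
    |(Ψ s (t + 1) - Ψ s t) - (Ψ s' (t' + 1) - Ψ s' t')| ≤ κ
  void : ∀ s t : ℤ, s00 ≤ s → s ≤ S → |t| ≤ s → 2 * |t| ≤ S → c * (s : ℝ) ^ 2 ≤ N ^ 2 * |Ψ s t|

theorem exists_nat_div_lt (v : ℝ) (hv : 0 < v) (Q2 : ℕ) :
    ∃ Q : ℕ, 1 ≤ Q ∧ Q2 ≤ Q ∧ 2 / (Q : ℝ) < v / 2 := by
  refine ⟨max (max 1 Q2) (⌈4 / v⌉₊ + 1), le_max_of_le_left (le_max_left _ _),
    le_max_of_le_left (le_max_right _ _), ?_⟩
  have h1 : 4 / v < ((max (max 1 Q2) (⌈4 / v⌉₊ + 1) : ℕ) : ℝ) := by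
    have h2 : 4 / v < ((⌈4 / v⌉₊ + 1 : ℕ) : ℝ) := by
      push_cast
      linarith [Nat.le_ceil (4 / v)]
    refine lt_of_lt_of_le h2 ?_
    exact_mod_cast le_max_right _ _
  have h0 : 0 < 4 / v := by positivity
  have h3 : (0 : ℝ) < ((max (max 1 Q2) (⌈4 / v⌉₊ + 1) : ℕ) : ℝ) := h0.trans h1
  rw [div_lt_iff₀ hv] at h1
  rw [div_lt_div_iff₀ h3 (by norm_num)]
  linarith

theorem lock (c : ℝ) (hc : 0 < c) (s00 : ℕ) (ρ : ℝ → ℝ) (hρ : ∀ κ, 0 < κ → 0 < ρ κ) (δ : ℝ)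
    (hδ : 0 < δ) : ∃ ε, 0 < ε ∧ ε ≤ δ ∧ ∃ N0 : ℕ, ∀ N : ℕ, N0 ≤ N → ∀ S : ℕ, N ≤ 8 * S → S ≤ N →
      ∀ Ψ : ℤ → ℤ → ℝ, ∀ ε', ε' ≤ ε → RowM Ψ N S c s00 ρ ε' →
        ∀ s : ℤ, 0 ≤ s → s ≤ S → |Ψ (s + 1) 0 - Ψ s 0| ≤ δ := by
  have hρB : 0 < ρ (δ / 4) := hρ _ (by positivity)
  set ρB := ρ (δ / 4) with hρBdef
  obtain ⟨Q2, hQ2, _, hQ2v⟩ := exists_nat_div_lt (c / 256) (by positivity) 1
  have hQ2' : (1 : ℝ) ≤ Q2 := by exact_mod_cast hQ2
  have hQ20 : (0 : ℝ) < Q2 := by linarith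
  set κA := min (δ / 32) (min (ρB / 64) (1 / (8 * Q2))) with hκA
  have hκA0 : 0 < κA := by
    rw [hκA]; refine lt_min (by positivity) (lt_min (by positivity) (by positivity))
  have hκA1 : κA ≤ δ / 32 := min_le_left _ _
  have hκA2 : κA ≤ ρB / 64 := (min_le_right _ _).trans (min_le_left _ _)
  have hκA3 : κA ≤ 1 / (8 * Q2) := (min_le_right _ _).trans (min_le_right _ _)
  have hρA : 0 < ρ κA := hρ _ hκA0
  set ρA := ρ κA with hρAdef
  set r1 := min ρA (1 / 32) / 2 with hr1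
  have hr10 : 0 < r1 := by
    rw [hr1]; exact half_pos (lt_min hρA (by norm_num))
  have hr1A : r1 ≤ ρA := by
    rw [hr1]; linarith [min_le_left ρA (1 / 32), hρA, lt_min hρA (show (0:ℝ) < 1 / 32 by norm_num)]
  have hr1B : r1 ≤ 1 / 64 := by
    rw [hr1]; linarith [min_le_right ρA (1 / 32)]
  set v1 := c * r1 ^ 2 / 16 with hv1
  have hv10 : 0 < v1 := by rw [hv1]; positivity
  obtain ⟨Q1, hQ1, hQ12, hQ1v⟩ := exists_nat_div_lt v1 hv10 Q2
  have hQ1' : (1 : ℝ) ≤ Q1 := by exact_mod_cast hQ1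
  have hQ10 : (0 : ℝ) < Q1 := by linarith
  set σ := min (δ / 16) (min (ρB / 64) (min (1 / (8 * (Q1 * Q1))) (1 / (8 * Q2)))) with hσ
  have hσ0 : 0 < σ := by
    rw [hσ]
    exact lt_min (by positivity) (lt_min (by positivity) (lt_min (by positivity) (by positivity)))
  have hσ1 : σ ≤ δ / 16 := min_le_left _ _
  have hσ2 : σ ≤ ρB / 64 := (min_le_right _ _).trans (min_le_left _ _)
  have hσ3 : σ ≤ 1 / (8 * (Q1 * Q1)) :=
    (min_le_right _ _).trans ((min_le_right _ _).trans (min_le_left _ _))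
  have hσ4 : σ ≤ 1 / (8 * Q2) :=
    (min_le_right _ _).trans ((min_le_right _ _).trans (min_le_right _ _))
  set H : ℕ := ⌈(4 / σ + 1) * Q1⌉₊ + 5 with hH
  have hH1 : (4 / σ + 1) * Q1 ≤ H := by
    rw [hH]; push_cast
    linarith [Nat.le_ceil ((4 / σ + 1) * (Q1 : ℝ))]
  set W := 2 * (4 / σ + 1) * Q1 with hW
  have hW0 : 0 < W := by rw [hW]; positivity
  set ε := min (min (δ / 4) κA) (min (1 / (24 * (Q1 * Q1)))
    (min (ρB / 2048) (min (v1 / (4 * W)) (c / 256 / (4 * W))))) with hε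
  have hε0 : 0 < ε := by
    rw [hε]
    refine lt_min (lt_min (by positivity) hκA0) (lt_min (by positivity) (lt_min (by positivity)
      (lt_min (by positivity) (by positivity))))
  have hε1 : ε ≤ δ / 4 := (min_le_left _ _).trans (min_le_left _ _)
  have hε2 : ε ≤ κA := (min_le_left _ _).trans (min_le_right _ _)
  have hε3 : ε ≤ 1 / (24 * (Q1 * Q1)) := (min_le_right _ _).trans (min_le_left _ _)
  have hε4 : ε ≤ ρB / 2048 :=
    (min_le_right _ _).trans ((min_le_right _ _).trans (min_le_left _ _))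
  have hε5 : ε ≤ v1 / (4 * W) := (min_le_right _ _).trans ((min_le_right _ _).trans
    ((min_le_right _ _).trans (min_le_left _ _)))
  have hε6 : ε ≤ c / 256 / (4 * W) := (min_le_right _ _).trans ((min_le_right _ _).trans
    ((min_le_right _ _).trans (min_le_right _ _)))
  have hρε : 0 < ρ ε := hρ _ hε0
  set r := min (min (ρ ε) r1) (min ρB 1) with hr
  have hr0 : 0 < r := lt_min (lt_min hρε hr10) (lt_min hρB one_pos)
  have hra : r ≤ ρ ε := (min_le_left _ _).trans (min_le_left _ _)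
  have hrb : r ≤ r1 := (min_le_left _ _).trans (min_le_right _ _)
  have hrc : r ≤ ρB := (min_le_right _ _).trans (min_le_left _ _)
  have hrd : r ≤ 1 := (min_le_right _ _).trans (min_le_right _ _)
  set K : ℕ := 100 * (H + s00 + 10) with hK
  refine ⟨ε, hε0, by linarith, ⌈(K : ℝ) / r⌉₊ + 1, ?_⟩
  intro N hN0 S hS1 hS2 Ψ ε' hε' R s hs0 hs
  have hN1 : (K : ℝ) / r ≤ N := by
    have h1 : ((⌈(K : ℝ) / r⌉₊ + 1 : ℕ) : ℝ) ≤ N := by exact_mod_cast hN0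
    push_cast at h1
    linarith [Nat.le_ceil ((K : ℝ) / r)]
  rw [div_le_iff₀ hr0] at hN1
  have hNpos : 0 < N := by omega
  have hN' : (0 : ℝ) < N := by exact_mod_cast hNpos
  have na : (K : ℝ) ≤ ρ ε * N := by
    have := mul_le_mul_of_nonneg_left hra hN'.le
    linarith
  have nb : (K : ℝ) ≤ r1 * N := by
    have := mul_le_mul_of_nonneg_left hrb hN'.le
    linarith
  have nc : (K : ℝ) ≤ ρB * N := by
    have := mul_le_mul_of_nonneg_left hrc hN'.le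
    linarith
  have nd : (K : ℝ) ≤ N := by
    have := mul_le_mul_of_nonneg_left hrd hN'.le
    linarith
  have nd' : K ≤ N := by exact_mod_cast nd
  have hKH : (100 : ℝ) * H + 1000 ≤ K := by
    rw [hK]; push_cast
    have : (0 : ℝ) ≤ s00 := Nat.cast_nonneg _
    linarith
  have hH0 : (5 : ℝ) ≤ H := by rw [hH]; push_cast; linarith [Nat.cast_nonneg (α := ℝ) ⌈(4 / σ + 1) * (Q1 : ℝ)⌉₊]
  set s1 : ℕ := ⌊r1 * N⌋₊ with hs1
  have hs1a : (s1 : ℝ) ≤ r1 * N := Nat.floor_le (by positivity)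
  have hs1b : r1 * N < s1 + 1 := Nat.lt_floor_add_one _
  have hs1K : K ≤ s1 + 1 := by
    have : (K : ℝ) < s1 + 1 := by linarith
    have h2 : K < s1 + 1 := by exact_mod_cast this
    omega
  have hs1N : 64 * s1 ≤ N := by
    have h1 := mul_le_mul_of_nonneg_right hr1B hN'.le
    have : (64 : ℝ) * s1 ≤ N := by linarith
    exact_mod_cast this
  have hρA' : (s1 : ℝ) ≤ ρA * N := by
    have h1 := mul_le_mul_of_nonneg_right hr1A hN'.le
    linarith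
  have hv1' : v1 * N ^ 2 ≤ c * ((s1 : ℝ) - H) ^ 2 := by
    have h1 : r1 * N / 2 ≤ (s1 : ℝ) - H := by linarith
    have h2 : (r1 * N / 2) ^ 2 ≤ ((s1 : ℝ) - H) ^ 2 := pow_le_pow_left₀ (by positivity) h1 2
    have h3 := mul_le_mul_of_nonneg_left h2 hc.le
    have h4 : v1 * N ^ 2 = c * (r1 * N / 2) ^ 2 / 4 := by rw [hv1]; ring
    have h5 : 0 ≤ c * (r1 * N / 2) ^ 2 := by positivity
    linarith
  have hv2' : c / 256 * (N : ℝ) ^ 2 ≤ c * (((S - H : ℕ) : ℝ) - H) ^ 2 := by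
    have h0 : ((S - H : ℕ) : ℝ) = S - H := by rw [Nat.cast_sub (by omega)]
    rw [h0]
    have hS1' : (N : ℝ) ≤ 8 * S := by exact_mod_cast hS1
    have h1 : (N : ℝ) / 16 ≤ (S : ℝ) - H - H := by linarith
    have h2 : ((N : ℝ) / 16) ^ 2 ≤ ((S : ℝ) - H - H) ^ 2 := pow_le_pow_left₀ (by positivity) h1 2
    have h3 := mul_le_mul_of_nonneg_left h2 hc.le
    have h4 : c / 256 * (N : ℝ) ^ 2 = c * ((N : ℝ) / 16) ^ 2 := by ring
    rw [h4]
    exact h3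
  have Rw : Row Ψ N S c s00 ε κA (δ / 4) (ρ ε) ρA ρB :=
    ⟨R.z0, R.z1, R.hb, R.hc, R.dm ε hε', R.em ε hε', R.dm κA (hε'.trans hε2),
      R.dm (δ / 4) (hε'.trans hε1), R.void⟩
  have hWε1 : W * ε ≤ v1 / 4 := by
    have := mul_le_mul_of_nonneg_left hε5 hW0.le
    have e : W * (v1 / (4 * W)) = v1 / 4 := by field_simp
    linarith
  have hWε2 : W * ε ≤ c / 256 / 4 := by
    have := mul_le_mul_of_nonneg_left hε6 hW0.le
    have e : W * (c / 256 / (4 * W)) = c / 256 / 4 := by field_simp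
    linarith
  have hcore := Rw.core H s1 (S - H) Q1 Q2 σ v1 (c / 256) hQ2 hQ12 hσ0 hε0.le hc hNpos hH1
    (by
      have : 2 * (4 / σ + 1) * Q1 * ε = W * ε := by rw [hW]
      rw [this]; linarith)
    (by
      have h1 : 2 * (4 / σ + 1) * Q2 * ε ≤ W * ε := by
        rw [hW]
        apply mul_le_mul_of_nonneg_right _ hε0.le
        apply mul_le_mul_of_nonneg_left _ (by positivity)
        exact_mod_cast hQ12
      have hc256 : 0 < c / 256 := by positivity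
      linarith)
    (by
      have e1 : 1 / (8 * ((Q1 : ℝ) * Q1)) = 1 / 8 * (1 / (Q1 * Q1)) := by field_simp
      have e2 : 1 / (24 * ((Q1 : ℝ) * Q1)) = 1 / 24 * (1 / (Q1 * Q1)) := by field_simp
      have e3 : 0 < 1 / ((Q1 : ℝ) * Q1) := by positivity
      rw [e1] at hσ3
      rw [e2] at hε3
      linarith)
    (by
      have e1 : 1 / (8 * (Q2 : ℝ)) = 1 / 8 * (1 / Q2) := by field_simp
      have e3 : 0 < 1 / (Q2 : ℝ) := by positivity
      rw [e1] at hκA3 hσ4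
      linarith)
    (by rw [hH]; omega) (by linarith) (by omega) (by omega) (by omega) (by omega) (by omega)
    hρA' hv1' hv2' (max σ (2 * κA)) (le_max_left _ _) (le_max_right _ _)
  have hX1 : max σ (2 * κA) ≤ δ / 16 := max_le hσ1 (by linarith)
  have hX2 : max σ (2 * κA) ≤ ρB / 32 := max_le (by linarith) (by linarith)
  -- the row itself, s ≤ S - H
  have main : ∀ s : ℤ, 0 ≤ s → s ≤ (S - H : ℕ) → |Ψ (s + 1) 0 - Ψ s 0| ≤ δ / 8 + δ / 4 := by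
    intro s hs0 hs
    obtain ⟨t, ht1, ht2, ht3⟩ := hcore s hs0 hs
    have hsN : (s : ℝ) ≤ N := by
      have : s ≤ (N : ℤ) := by omega
      exact_mod_cast this
    have hs0' : (0 : ℝ) ≤ s := by exact_mod_cast hs0
    have h1 : |(t : ℝ)| ≤ ρB * N := by
      refine ht1.trans ?_
      have h2 : s * (max σ (2 * κA) + 18 * ε) ≤ N * (ρB / 32 + 18 * (ρB / 2048)) := by
        gcongr
      have h3 : (N : ℝ) * (ρB / 32 + 18 * (ρB / 2048)) ≤ ρB * N / 2 := by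
        have : 0 ≤ ρB * N := by positivity
        linarith
      linarith
    have h2 := R.dm (δ / 4) (hε'.trans hε1) s 0 s t hs0 (by omega) (by simp) hs0 (by omega) ht2
      (by rw [sub_self, abs_zero]; positivity) (by rw [Int.cast_zero, zero_sub, abs_neg]; exact h1)
    have h3 := abs_le.mp h2
    have h4 := abs_le.mp ht3
    rw [abs_le]
    constructor <;> linarith
  rcases le_or_gt s ((S - H : ℕ) : ℤ) with h | h
  · exact (main s hs0 h).trans (by linarith)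
  · have h1 := main ((S - H : ℕ) : ℤ) (by omega) le_rfl
    have h2 := R.dm ε hε' s 0 ((S - H : ℕ) : ℤ) 0 hs0 hs (by simp) (by omega) (by omega) (by simp)
      (by
        have h3 : |s - ((S - H : ℕ) : ℤ)| ≤ H := by rw [abs_le]; constructor <;> omega
        have h4 : |(s : ℝ) - (((S - H : ℕ) : ℤ) : ℝ)| ≤ H := by exact_mod_cast h3
        linarith)
      (by rw [sub_self, abs_zero]; positivity)
    have h3 := abs_le.mp h1
    have h4 := abs_le.mp h2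
    rw [abs_le]
    constructor <;> linarith

end Pool.Agent.Lib.MP_a768d2_coT
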