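import Pool.Agent.Lib.MP_a768d2_coG.Cross
import Pool.Agent.Lib.MP_a768d2_coT.Lock4

/-! # Nearly straight grids: directions, frames, octagons -/

namespace Pool.Agent.Lib.MP_a768d2_coT

open Pool.Agent.Lib.MP_a768d2_coG

noncomputable section

/-- the eight directions `e` with a complementary vector `g`, `det (e, g) = 1` -/
def Dir (e1 e2 g1 g2 : ℤ) : Prop :=
  (e1 = 1 ∧ e2 = 0 ∧ g1 = 0 ∧ g2 = 1) ∨ (e1 = -1 ∧ e2 = 0 ∧ g1 = 0 ∧ g2 = -1) ∨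
  (e1 = 0 ∧ e2 = 1 ∧ g1 = -1 ∧ g2 = 0) ∨ (e1 = 0 ∧ e2 = -1 ∧ g1 = 1 ∧ g2 = 0) ∨
  (e1 = 1 ∧ e2 = 1 ∧ g1 = 0 ∧ g2 = 1) ∨ (e1 = -1 ∧ e2 = -1 ∧ g1 = 0 ∧ g2 = -1) ∨
  (e1 = 1 ∧ e2 = -1 ∧ g1 = 0 ∧ g2 = 1) ∨ (e1 = -1 ∧ e2 = 1 ∧ g1 = 0 ∧ g2 = -1)

theorem Dir.neg {e1 e2 g1 g2 : ℤ} (h : Dir e1 e2 g1 g2) : Dir (-e1) (-e2) (-g1) (-g2) := by
  rcases h with ⟨rfl, rfl, rfl, rfl⟩ | ⟨rfl, rfl, rfl, rfl⟩ | ⟨rfl, rfl, rfl, rfl⟩ |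
    ⟨rfl, rfl, rfl, rfl⟩ | ⟨rfl, rfl, rfl, rfl⟩ | ⟨rfl, rfl, rfl, rfl⟩ | ⟨rfl, rfl, rfl, rfl⟩ |
    ⟨rfl, rfl, rfl, rfl⟩ <;> simp [Dir]

theorem Dir.bd {e1 e2 g1 g2 : ℤ} (h : Dir e1 e2 g1 g2) :
    (-1 ≤ e1 ∧ e1 ≤ 1) ∧ (-1 ≤ e2 ∧ e2 ≤ 1) ∧ (-1 ≤ g1 ∧ g1 ≤ 1) ∧ (-1 ≤ g2 ∧ g2 ≤ 1) := by
  rcases h with ⟨rfl, rfl, rfl, rfl⟩ | ⟨rfl, rfl, rfl, rfl⟩ | ⟨rfl, rfl, rfl, rfl⟩ |
    ⟨rfl, rfl, rfl, rfl⟩ | ⟨rfl, rfl, rfl, rfl⟩ | ⟨rfl, rfl, rfl, rfl⟩ | ⟨rfl, rfl, rfl, rfl⟩ |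
    ⟨rfl, rfl, rfl, rfl⟩ <;> norm_num

/-- normal form: a grid with frames close to the standard basis, without small angles -/
structure NF (P : ℤ → ℤ → ℂ) (N : ℕ) (κ c lam : ℝ) : Prop where
  fx : ∀ x y : ℤ, |x| ≤ N → |y| ≤ N → ‖P (x + 1) y - P x y - 1‖ ≤ κ
  fy : ∀ x y : ℤ, |x| ≤ N → |y| ≤ N → ‖P x (y + 1) - P x y - Complex.I‖ ≤ κ
  void : ∀ x y x' y' x'' y'' : ℤ, |x| ≤ N → |y| ≤ N → |x'| ≤ N → |y'| ≤ N → |x''| ≤ N →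
    |y''| ≤ N → P x y ≠ P x' y' → lam * ‖P x' y' - P x y‖ ≤ ‖P x'' y'' - P x y‖ →
    c * ‖P x'' y'' - P x y‖ ^ 2 ≤ N ^ 2 * |det2 (P x' y' - P x y) (P x'' y'' - P x y)|

theorem lineC (f : ℤ → ℂ) (x0 : ℤ) (k : ℕ) (D : ℂ) (ε : ℝ)
    (h : ∀ i : ℕ, i < k → ‖f (x0 + i + 1) - f (x0 + i) - D‖ ≤ ε) :
    ‖f (x0 + k) - f x0 - k * D‖ ≤ k * ε := by
  induction k with
  | zero => simp
  | succ k ih =>
    have h1 := ih (fun i hi => h i (by omega))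
    have h2 := h k (by omega)
    have e : x0 + ((k + 1 : ℕ) : ℤ) = x0 + k + 1 := by push_cast; ring
    have e2 : f (x0 + k + 1) - f x0 - ((k + 1 : ℕ) : ℂ) * D =
        (f (x0 + k + 1) - f (x0 + k) - D) + (f (x0 + k) - f x0 - k * D) := by
      push_cast; ring
    rw [e, e2]
    refine (norm_add_le _ _).trans ?_
    push_cast
    linarith

variable {P : ℤ → ℤ → ℂ} {N : ℕ} {κ c lam : ℝ}

theorem NF.lipx (F : NF P N κ c lam) {x x' y : ℤ} (h1 : |x| ≤ N) (h2 : |x'| ≤ N) (h3 : |y| ≤ N) :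
    ‖P x' y - P x y - ((x' - x : ℤ) : ℂ)‖ ≤ κ * |((x' - x : ℤ) : ℝ)| := by
  have h1' := abs_le.mp h1
  have h2' := abs_le.mp h2
  rcases le_total x x' with h | h
  · have h4 := lineC (fun z => P z y) x (x' - x).toNat 1 κ
      (fun i hi => F.fx _ _ (by rw [abs_le]; constructor <;> omega) h3)
    have e : x + (((x' - x).toNat : ℕ) : ℤ) = x' := by omega
    have e2 : (((x' - x).toNat : ℕ) : ℝ) = ((x' - x : ℤ) : ℝ) := by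
      rw [← Int.cast_natCast, Int.toNat_of_nonneg (by omega)]
    have e3 : (((x' - x).toNat : ℕ) : ℂ) = ((x' - x : ℤ) : ℂ) := by
      rw [← Int.cast_natCast, Int.toNat_of_nonneg (by omega)]
    rw [e, e2, e3, mul_one] at h4
    have h5 : (0 : ℝ) ≤ ((x' - x : ℤ) : ℝ) := by exact_mod_cast (by omega : 0 ≤ x' - x)
    rw [abs_of_nonneg h5]
    linarith
  · have h4 := lineC (fun z => P z y) x' (x - x').toNat 1 κ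
      (fun i hi => F.fx _ _ (by rw [abs_le]; constructor <;> omega) h3)
    have e : x' + (((x - x').toNat : ℕ) : ℤ) = x := by omega
    have e2 : (((x - x').toNat : ℕ) : ℝ) = ((x - x' : ℤ) : ℝ) := by
      rw [← Int.cast_natCast, Int.toNat_of_nonneg (by omega)]
    have e3 : (((x - x').toNat : ℕ) : ℂ) = ((x - x' : ℤ) : ℂ) := by
      rw [← Int.cast_natCast, Int.toNat_of_nonneg (by omega)]
    rw [e, e2, e3, mul_one] at h4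
    have h5 : (0 : ℝ) ≤ ((x - x' : ℤ) : ℝ) := by exact_mod_cast (by omega : 0 ≤ x - x')
    have e4 : ((x' - x : ℤ) : ℝ) = -((x - x' : ℤ) : ℝ) := by push_cast; ring
    rw [e4, abs_neg, abs_of_nonneg h5]
    have e5 : P x' y - P x y - ((x' - x : ℤ) : ℂ) = -(P x y - P x' y - ((x - x' : ℤ) : ℂ)) := by
      push_cast; ring
    rw [e5, norm_neg]
    linarith

theorem NF.lipy (F : NF P N κ c lam) {x y y' : ℤ} (h1 : |y| ≤ N) (h2 : |y'| ≤ N) (h3 : |x| ≤ N) :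
    ‖P x y' - P x y - ((y' - y : ℤ) : ℂ) * Complex.I‖ ≤ κ * |((y' - y : ℤ) : ℝ)| := by
  have h1' := abs_le.mp h1
  have h2' := abs_le.mp h2
  rcases le_total y y' with h | h
  · have h4 := lineC (fun z => P x z) y (y' - y).toNat Complex.I κ
      (fun i hi => F.fy _ _ h3 (by rw [abs_le]; constructor <;> omega))
    have e : y + (((y' - y).toNat : ℕ) : ℤ) = y' := by omega
    have e2 : (((y' - y).toNat : ℕ) : ℝ) = ((y' - y : ℤ) : ℝ) := by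
      rw [← Int.cast_natCast, Int.toNat_of_nonneg (by omega)]
    have e3 : (((y' - y).toNat : ℕ) : ℂ) = ((y' - y : ℤ) : ℂ) := by
      rw [← Int.cast_natCast, Int.toNat_of_nonneg (by omega)]
    rw [e, e2, e3] at h4
    have h5 : (0 : ℝ) ≤ ((y' - y : ℤ) : ℝ) := by exact_mod_cast (by omega : 0 ≤ y' - y)
    rw [abs_of_nonneg h5]
    linarith
  · have h4 := lineC (fun z => P x z) y' (y - y').toNat Complex.I κ
      (fun i hi => F.fy _ _ h3 (by rw [abs_le]; constructor <;> omega))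
    have e : y' + (((y - y').toNat : ℕ) : ℤ) = y := by omega
    have e2 : (((y - y').toNat : ℕ) : ℝ) = ((y - y' : ℤ) : ℝ) := by
      rw [← Int.cast_natCast, Int.toNat_of_nonneg (by omega)]
    have e3 : (((y - y').toNat : ℕ) : ℂ) = ((y - y' : ℤ) : ℂ) := by
      rw [← Int.cast_natCast, Int.toNat_of_nonneg (by omega)]
    rw [e, e2, e3] at h4
    have h5 : (0 : ℝ) ≤ ((y - y' : ℤ) : ℝ) := by exact_mod_cast (by omega : 0 ≤ y - y')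
    have e4 : ((y' - y : ℤ) : ℝ) = -((y - y' : ℤ) : ℝ) := by push_cast; ring
    rw [e4, abs_neg, abs_of_nonneg h5]
    have e5 : P x y' - P x y - ((y' - y : ℤ) : ℂ) * Complex.I =
        -(P x y - P x y' - ((y - y' : ℤ) : ℂ) * Complex.I) := by
      push_cast; ring
    rw [e5, norm_neg]
    linarith

theorem NF.lip (F : NF P N κ c lam) {x y x' y' : ℤ} (h1 : |x| ≤ N) (h2 : |y| ≤ N)
    (h3 : |x'| ≤ N) (h4 : |y'| ≤ N) :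
    ‖P x' y' - P x y - (((x' - x : ℤ) : ℂ) + ((y' - y : ℤ) : ℂ) * Complex.I)‖ ≤
      κ * (|((x' - x : ℤ) : ℝ)| + |((y' - y : ℤ) : ℝ)|) := by
  have a1 := F.lipx h1 h3 h2
  have a2 := F.lipy h2 h4 h3
  have e : P x' y' - P x y - (((x' - x : ℤ) : ℂ) + ((y' - y : ℤ) : ℂ) * Complex.I) =
      (P x' y' - P x' y - ((y' - y : ℤ) : ℂ) * Complex.I) +
      (P x' y - P x y - ((x' - x : ℤ) : ℂ)) := by ring
  rw [e]
  refine (norm_add_le _ _).trans ?_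
  linarith

/-- frame in the direction `(e1, e2)` -/
def Fr (P : ℤ → ℤ → ℂ) (e1 e2 x y : ℤ) : ℂ := P (x + e1) (y + e2) - P x y

/-- a lattice vector as a complex number -/
def vec (e1 e2 : ℤ) : ℂ := (e1 : ℂ) + (e2 : ℂ) * Complex.I

theorem vec_re (e1 e2 : ℤ) : (vec e1 e2).re = e1 := by simp [vec]

theorem vec_im (e1 e2 : ℤ) : (vec e1 e2).im = e2 := by simp [vec]

theorem norm_vec_sq (e1 e2 : ℤ) : ‖vec e1 e2‖ ^ 2 = (e1 : ℝ) ^ 2 + (e2 : ℝ) ^ 2 := by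
  rw [← Complex.normSq_eq_norm_sq, Complex.normSq_apply, vec_re, vec_im]; ring

theorem norm_vec_le (e1 e2 : ℤ) : ‖vec e1 e2‖ ≤ |(e1 : ℝ)| + |(e2 : ℝ)| := by
  unfold vec
  refine (norm_add_le _ _).trans ?_
  rw [norm_mul, Complex.norm_I, mul_one, Complex.norm_intCast, Complex.norm_intCast]

theorem Dir.det {e1 e2 g1 g2 : ℤ} (h : Dir e1 e2 g1 g2) :
    det2 (vec e1 e2) (vec g1 g2) = 1 := by
  unfold det2
  rw [vec_re, vec_im, vec_re, vec_im]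
  rcases h with ⟨rfl, rfl, rfl, rfl⟩ | ⟨rfl, rfl, rfl, rfl⟩ | ⟨rfl, rfl, rfl, rfl⟩ |
    ⟨rfl, rfl, rfl, rfl⟩ | ⟨rfl, rfl, rfl, rfl⟩ | ⟨rfl, rfl, rfl, rfl⟩ | ⟨rfl, rfl, rfl, rfl⟩ |
    ⟨rfl, rfl, rfl, rfl⟩ <;> norm_num

theorem Dir.norm_e {e1 e2 g1 g2 : ℤ} (h : Dir e1 e2 g1 g2) :
    1 ≤ ‖vec e1 e2‖ ∧ ‖vec e1 e2‖ ≤ 3 / 2 ∧ ‖vec g1 g2‖ = 1 := by
  have key : (‖vec e1 e2‖ ^ 2 = 1 ∨ ‖vec e1 e2‖ ^ 2 = 2) ∧ ‖vec g1 g2‖ ^ 2 = 1 := by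
    rw [norm_vec_sq, norm_vec_sq]
    rcases h with ⟨rfl, rfl, rfl, rfl⟩ | ⟨rfl, rfl, rfl, rfl⟩ | ⟨rfl, rfl, rfl, rfl⟩ |
      ⟨rfl, rfl, rfl, rfl⟩ | ⟨rfl, rfl, rfl, rfl⟩ | ⟨rfl, rfl, rfl, rfl⟩ | ⟨rfl, rfl, rfl, rfl⟩ |
      ⟨rfl, rfl, rfl, rfl⟩ <;> norm_num
  have h3 := norm_nonneg (vec e1 e2)
  have h4 := norm_nonneg (vec g1 g2)
  obtain ⟨h1 | h1, h2⟩ := key
  · exact ⟨by nlinarith, by nlinarith, by nlinarith⟩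
  · exact ⟨by nlinarith, by nlinarith, by nlinarith⟩

end

end Pool.Agent.Lib.MP_a768d2_coT
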