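import Pool.Agent.Lib.MP_a768d2_coT.Geo

/-! # Nearly straight grids: the rows are nearly straight (locking applied) -/

namespace Pool.Agent.Lib.MP_a768d2_coT

open Pool.Agent.Lib.MP_a768d2_coG

noncomputable section

variable {P : ℤ → ℤ → ℂ} {N : ℕ} {κ c lam : ℝ}

theorem NF.frame (F : NF P N κ c lam) (hκ : 0 ≤ κ) {e1 e2 x y : ℤ} (h1 : |e1| ≤ 1)
    (h2 : |e2| ≤ 1) (hx : |x| < N) (hy : |y| < N) : ‖Fr P e1 e2 x y - vec e1 e2‖ ≤ 2 * κ := by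
  have a1 := abs_le.mp h1
  have a2 := abs_le.mp h2
  have a3 := abs_lt.mp hx
  have a4 := abs_lt.mp hy
  have h := F.lip (x := x) (y := y) (x' := x + e1) (y' := y + e2) hx.le hy.le
    (by rw [abs_le]; constructor <;> omega) (by rw [abs_le]; constructor <;> omega)
  rw [add_sub_cancel_left, add_sub_cancel_left] at h
  refine h.trans ?_
  have b1 : |(e1 : ℝ)| ≤ 1 := by exact_mod_cast h1
  have b2 : |(e2 : ℝ)| ≤ 1 := by exact_mod_cast h2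
  nlinarith

theorem det_close {A B a b : ℂ} {η : ℝ} (hA : ‖A - a‖ ≤ η) (hB : ‖B - b‖ ≤ η) :
    |det2 A B - det2 a b| ≤ η * (‖a‖ + ‖b‖) + η ^ 2 := by
  have hη : 0 ≤ η := (norm_nonneg _).trans hA
  have e : det2 A B - det2 a b = det2 (A - a) b + (det2 a (B - b) + det2 (A - a) (B - b)) := by
    simp only [det2, Complex.sub_re, Complex.sub_im]; ring
  rw [e]
  have h1 := det2_le' hA (le_refl ‖b‖)
  have h2 := det2_le' (le_refl ‖a‖) hB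
  have h3 := det2_le' hA hB
  have h4 := abs_add_le (det2 (A - a) b) (det2 a (B - b) + det2 (A - a) (B - b))
  have h5 := abs_add_le (det2 a (B - b)) (det2 (A - a) (B - b))
  nlinarith

theorem NF.norm_frame (F : NF P N κ c lam) (hκ : 0 ≤ κ) (hκ1 : κ ≤ 1 / 100) {e1 e2 g1 g2 x y : ℤ}
    (hd : Dir e1 e2 g1 g2) (hx : |x| < N) (hy : |y| < N) :
    1 / 2 ≤ ‖Fr P e1 e2 x y‖ ∧ ‖Fr P e1 e2 x y‖ ≤ 2 := by
  have hb := hd.bd
  have h := F.frame hκ (abs_le.mpr hb.1) (abs_le.mpr hb.2.1) hx hy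
  have hn := hd.norm_e
  have h1 : ‖vec e1 e2‖ ≤ ‖Fr P e1 e2 x y‖ + ‖Fr P e1 e2 x y - vec e1 e2‖ := by
    have := norm_sub_le (Fr P e1 e2 x y) (Fr P e1 e2 x y - vec e1 e2)
    rwa [sub_sub_cancel] at this
  have h2 : ‖Fr P e1 e2 x y‖ ≤ ‖Fr P e1 e2 x y - vec e1 e2‖ + ‖vec e1 e2‖ := by
    have := norm_add_le (Fr P e1 e2 x y - vec e1 e2) (vec e1 e2)
    rwa [sub_add_cancel] at this
  constructor <;> linarith [hn.1, hn.2.1]

/-- lower bound for distances in a chart -/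
theorem NF.far (F : NF P N κ c lam) (hκ1 : κ ≤ 1 / 100) {e1 e2 g1 g2 x y s t : ℤ}
    (hd : Dir e1 e2 g1 g2) (hx : |x| ≤ N) (hy : |y| ≤ N) (hx' : |x + s * e1 + t * g1| ≤ N)
    (hy' : |y + s * e2 + t * g2| ≤ N) (hs : 0 ≤ s) (ht : |t| ≤ s) :
    (s : ℝ) / 2 ≤ ‖P (x + s * e1 + t * g1) (y + s * e2 + t * g2) - P x y‖ := by
  have h := F.lip hx hy hx' hy'
  have ex : x + s * e1 + t * g1 - x = s * e1 + t * g1 := by ring
  have ey : y + s * e2 + t * g2 - y = s * e2 + t * g2 := by ring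
  rw [ex, ey] at h
  set m := s * e1 + t * g1 with hm
  set n := s * e2 + t * g2 with hn
  have ht' := abs_le.mp ht
  have key : s ≤ max |m| |n| ∧ |m| + |n| ≤ 3 * s := by
    rcases hd with ⟨rfl, rfl, rfl, rfl⟩ | ⟨rfl, rfl, rfl, rfl⟩ | ⟨rfl, rfl, rfl, rfl⟩ |
      ⟨rfl, rfl, rfl, rfl⟩ | ⟨rfl, rfl, rfl, rfl⟩ | ⟨rfl, rfl, rfl, rfl⟩ | ⟨rfl, rfl, rfl, rfl⟩ |
      ⟨rfl, rfl, rfl, rfl⟩ <;>
    (rcases abs_cases m with ⟨a1, _⟩ | ⟨a1, _⟩ <;> rcases abs_cases n with ⟨a2, _⟩ | ⟨a2, _⟩ <;>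
      rw [a1, a2] <;> constructor <;> omega)
  have hvec : (s : ℝ) ≤ ‖vec m n‖ := by
    have h1 := Complex.abs_re_le_norm (vec m n)
    have h2 := Complex.abs_im_le_norm (vec m n)
    rw [vec_re] at h1
    rw [vec_im] at h2
    rcases le_max_iff.mp key.1 with h3 | h3
    · have : (s : ℝ) ≤ |(m : ℝ)| := by exact_mod_cast h3
      linarith
    · have : (s : ℝ) ≤ |(n : ℝ)| := by exact_mod_cast h3
      linarith
  have hsum : |(m : ℝ)| + |(n : ℝ)| ≤ 3 * s := by exact_mod_cast key.2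
  have hs' : (0 : ℝ) ≤ s := by exact_mod_cast hs
  have h3 : κ * (|(m : ℝ)| + |(n : ℝ)|) ≤ 1 / 100 * (3 * s) :=
    mul_le_mul hκ1 hsum (by positivity) (by norm_num)
  have h4 : ‖vec m n‖ ≤ ‖P (x + s * e1 + t * g1) (y + s * e2 + t * g2) - P x y‖ +
      ‖P (x + s * e1 + t * g1) (y + s * e2 + t * g2) - P x y - vec m n‖ := by
    have := norm_sub_le (P (x + s * e1 + t * g1) (y + s * e2 + t * g2) - P x y)
      (P (x + s * e1 + t * g1) (y + s * e2 + t * g2) - P x y - vec m n)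
    rwa [sub_sub_cancel] at this
  have h5 : ‖P (x + s * e1 + t * g1) (y + s * e2 + t * g2) - P x y - vec m n‖ ≤
      κ * (|(m : ℝ)| + |(n : ℝ)|) := h
  linarith

/-- modulus of continuity of the frames, down to the noise level `ε` -/
structure Mod (P : ℤ → ℤ → ℂ) (N : ℕ) (ρ : ℝ → ℝ) (ε : ℝ) : Prop where
  mx : ∀ κ' : ℝ, ε ≤ κ' → ∀ x y x' y' : ℤ, |x| ≤ N → |y| ≤ N → |x'| ≤ N → |y'| ≤ N →
    |(x : ℝ) - x'| ≤ ρ κ' * N → |(y : ℝ) - y'| ≤ ρ κ' * N →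
    ‖(P (x + 1) y - P x y) - (P (x' + 1) y' - P x' y')‖ ≤ κ'
  my : ∀ κ' : ℝ, ε ≤ κ' → ∀ x y x' y' : ℤ, |x| ≤ N → |y| ≤ N → |x'| ≤ N → |y'| ≤ N →
    |(x : ℝ) - x'| ≤ ρ κ' * N → |(y : ℝ) - y'| ≤ ρ κ' * N →
    ‖(P x (y + 1) - P x y) - (P x' (y' + 1) - P x' y')‖ ≤ κ'

theorem Mod.horiz {ρ : ℝ → ℝ} {ε : ℝ} (M : Mod P N ρ ε) {κ' : ℝ} (hκ : ε ≤ κ') (hκ0 : 0 ≤ κ')
    {e x y x' y' : ℤ} (he : |e| ≤ 1) (hx : |x| < N) (hy : |y| ≤ N) (hx' : |x'| < N)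
    (hy' : |y'| ≤ N) (h1 : |(x : ℝ) - x'| ≤ ρ κ' * N) (h2 : |(y : ℝ) - y'| ≤ ρ κ' * N) :
    ‖(P (x + e) y - P x y) - (P (x' + e) y' - P x' y')‖ ≤ κ' := by
  have a1 := abs_le.mp he
  have a3 := abs_lt.mp hx
  have a4 := abs_lt.mp hx'
  have he' : e = 1 ∨ e = 0 ∨ e = -1 := by omega
  rcases he' with rfl | rfl | rfl
  · exact M.mx κ' hκ x y x' y' hx.le hy hx'.le hy' h1 h2
  · simpa using hκ0
  · have := M.mx κ' hκ (x - 1) y (x' - 1) y' (by rw [abs_le]; constructor <;> omega) hy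
      (by rw [abs_le]; constructor <;> omega) hy' (by push_cast; simpa using h1) h2
    rw [sub_add_cancel, sub_add_cancel] at this
    rw [← norm_neg]
    refine le_trans (le_of_eq ?_) this
    congr 1
    have e1 : x + -1 = x - 1 := by ring
    have e2 : x' + -1 = x' - 1 := by ring
    rw [e1, e2]
    ring

theorem Mod.vert {ρ : ℝ → ℝ} {ε : ℝ} (M : Mod P N ρ ε) {κ' : ℝ} (hκ : ε ≤ κ') (hκ0 : 0 ≤ κ')
    {e x y x' y' : ℤ} (he : |e| ≤ 1) (hx : |x| ≤ N) (hy : |y| < N) (hx' : |x'| ≤ N)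
    (hy' : |y'| < N) (h1 : |(x : ℝ) - x'| ≤ ρ κ' * N) (h2 : |(y : ℝ) - y'| ≤ ρ κ' * N) :
    ‖(P x (y + e) - P x y) - (P x' (y' + e) - P x' y')‖ ≤ κ' := by
  have a1 := abs_le.mp he
  have a3 := abs_lt.mp hy
  have a4 := abs_lt.mp hy'
  have he' : e = 1 ∨ e = 0 ∨ e = -1 := by omega
  rcases he' with rfl | rfl | rfl
  · exact M.my κ' hκ x y x' y' hx hy.le hx' hy'.le h1 h2
  · simpa using hκ0
  · have := M.my κ' hκ x (y - 1) x' (y' - 1) hx (by rw [abs_le]; constructor <;> omega) hx'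
      (by rw [abs_le]; constructor <;> omega) h1 (by push_cast; simpa using h2)
    rw [sub_add_cancel, sub_add_cancel] at this
    rw [← norm_neg]
    refine le_trans (le_of_eq ?_) this
    congr 1
    have e1 : y + -1 = y - 1 := by ring
    have e2 : y' + -1 = y' - 1 := by ring
    rw [e1, e2]
    ring

theorem Mod.fr {ρ : ℝ → ℝ} {ε : ℝ} (M : Mod P N ρ ε) {κ' : ℝ} (hκ : ε ≤ κ') (hκ0 : 0 ≤ κ')
    {e1 e2 x y x' y' : ℤ} (he1 : |e1| ≤ 1) (he2 : |e2| ≤ 1) (hx : |x| < N) (hy : |y| < N)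
    (hx' : |x'| < N) (hy' : |y'| < N) (h1 : |(x : ℝ) - x'| ≤ ρ κ' * N)
    (h2 : |(y : ℝ) - y'| ≤ ρ κ' * N) : ‖Fr P e1 e2 x y - Fr P e1 e2 x' y'‖ ≤ 2 * κ' := by
  have a1 := abs_le.mp he1
  have a3 := abs_lt.mp hx
  have a4 := abs_lt.mp hx'
  have b1 := M.horiz hκ hκ0 (e := e1) he1 hx hy.le hx' hy'.le h1 h2
  have b2 := M.vert hκ hκ0 (e := e2) (x := x + e1) (x' := x' + e1) he2
    (by rw [abs_le]; constructor <;> omega) hy (by rw [abs_le]; constructor <;> omega) hy'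
    (by push_cast; rw [add_sub_add_right_eq_sub]; exact h1) h2
  have e : Fr P e1 e2 x y - Fr P e1 e2 x' y' =
      ((P (x + e1) (y + e2) - P (x + e1) y) - (P (x' + e1) (y' + e2) - P (x' + e1) y')) +
      ((P (x + e1) y - P x y) - (P (x' + e1) y' - P x' y')) := by
    unfold Fr; ring
  rw [e]
  refine (norm_add_le _ _).trans ?_
  linarith

end

end Pool.Agent.Lib.MP_a768d2_coT
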