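import Pool.Agent.Lib.MP_a768d2_coT.Sign

/-! # One row of a straight grid: locking of the slope at a rational -/

namespace Pool.Agent.Lib.MP_a768d2_coT

theorem line_lin (f : ℤ → ℝ) (x0 : ℤ) (H : ℕ) (D ε : ℝ)
    (h : ∀ x : ℤ, |x - x0| ≤ H → |f (x + 1) - f x - D| ≤ ε) (m : ℤ) (hm : |m| ≤ H) :
    |f (x0 + m) - f x0 - m * D| ≤ |(m : ℝ)| * ε := by
  have pos : ∀ k : ℕ, k ≤ H → |f (x0 + k) - f x0 - k * D| ≤ k * ε := by
    intro k
    induction k with
    | zero => intro _; simp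
    | succ k ih =>
      intro hk
      have h1 := abs_le.mp (ih (by omega))
      have h2 := abs_le.mp (h (x0 + k) (by rw [abs_le]; constructor <;> omega))
      have e : x0 + ((k + 1 : ℕ) : ℤ) = x0 + k + 1 := by push_cast; ring
      rw [e]
      push_cast
      rw [abs_le]
      constructor <;> linarith
  have neg : ∀ k : ℕ, k ≤ H → |f (x0 - k) - f x0 + k * D| ≤ k * ε := by
    intro k
    induction k with
    | zero => intro _; simp
    | succ k ih =>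
      intro hk
      have h1 := abs_le.mp (ih (by omega))
      have h2 := abs_le.mp (h (x0 - (k + 1 : ℕ)) (by rw [abs_le]; constructor <;> omega))
      have e : x0 - ((k + 1 : ℕ) : ℤ) + 1 = x0 - k := by push_cast; ring
      rw [e] at h2
      push_cast at h2 ⊢
      rw [abs_le]
      constructor <;> linarith
  rcases le_total 0 m with h0 | h0
  · obtain ⟨k, rfl⟩ := Int.eq_ofNat_of_zero_le h0
    have hk : k ≤ H := by
      rw [abs_of_nonneg h0] at hm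
      exact_mod_cast hm
    have := pos k hk
    simpa using this
  · obtain ⟨k, hk0⟩ := Int.eq_ofNat_of_zero_le (neg_nonneg.mpr h0)
    have hmk : m = -(k : ℤ) := by omega
    have hk : k ≤ H := by
      rw [abs_of_nonpos h0] at hm
      omega
    have := neg k hk
    rw [hmk]
    have e1 : x0 + -(k : ℤ) = x0 - k := by ring
    rw [e1]
    push_cast
    rw [abs_neg, Nat.abs_cast]
    have e2 : f (x0 - k) - f x0 - -(k : ℝ) * D = f (x0 - k) - f x0 + k * D := by ring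
    rw [e2]
    exact this

theorem box_lin (Ψ : ℤ → ℤ → ℝ) (s t : ℤ) (H : ℕ) (D E ε : ℝ)
    (hD : ∀ s' t' : ℤ, |s' - s| ≤ H → |t' - t| ≤ H → |Ψ (s' + 1) t' - Ψ s' t' - D| ≤ ε)
    (hE : ∀ s' t' : ℤ, |s' - s| ≤ H → |t' - t| ≤ H → |Ψ s' (t' + 1) - Ψ s' t' - E| ≤ ε)
    (m n : ℤ) (hm : |m| ≤ H) (hn : |n| ≤ H) :
    |Ψ (s + m) (t + n) - Ψ s t - (m * D + n * E)| ≤ (|(m : ℝ)| + |(n : ℝ)|) * ε := by
  have h1 := line_lin (fun x => Ψ x t) s H D ε (fun x hx => hD x t hx (by simp)) m hm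
  have h2 := line_lin (fun y => Ψ (s + m) y) t H E ε
    (fun y hy => hE (s + m) y (by simpa using hm) hy) n hn
  have e : Ψ (s + m) (t + n) - Ψ s t - (m * D + n * E) =
      (Ψ (s + m) (t + n) - Ψ (s + m) t - n * E) + (Ψ (s + m) t - Ψ s t - m * D) := by ring
  rw [e]
  refine (abs_add_le _ _).trans ?_
  linarith

/-- at a point near the line the slope is close to a rational of bounded height -/
theorem lock_point (Ψ : ℤ → ℤ → ℝ) (s t : ℤ) (Q H : ℕ) (D E ε σ v : ℝ) (hQ : 1 ≤ Q)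
    (hσ : 0 < σ) (hε : 0 ≤ ε) (hE1 : 1 / 2 ≤ E) (hE2 : E ≤ 2) (hD1 : |D| ≤ 1 / 8)
    (hD : ∀ s' t' : ℤ, |s' - s| ≤ H → |t' - t| ≤ H → |Ψ (s' + 1) t' - Ψ s' t' - D| ≤ ε)
    (hE : ∀ s' t' : ℤ, |s' - s| ≤ H → |t' - t| ≤ H → |Ψ s' (t' + 1) - Ψ s' t' - E| ≤ ε)
    (hΨ1 : -2 ≤ Ψ s t) (hΨ2 : Ψ s t ≤ 0)
    (hv : ∀ m n : ℤ, |m| ≤ H → |n| ≤ H → v ≤ |Ψ (s + m) (t + n)|)
    (hH : (4 / σ + 1) * Q ≤ H) (hvQ : 2 / Q + 2 * (4 / σ + 1) * Q * ε < v) :
    ∃ r : ℚ, r.den ≤ Q ∧ |D / E - r| < σ := by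
  have hE0 : 0 < E := by linarith
  obtain ⟨r, hr1, hr2⟩ := Real.exists_rat_abs_sub_le_and_den_le (D / E) (show 0 < Q from hQ)
  refine ⟨r, hr2, ?_⟩
  by_contra hcon
  have hcon' := not_lt.mp hcon
  have hden : (0 : ℝ) < r.den := by exact_mod_cast r.den_pos
  have hden1 : (1 : ℝ) ≤ r.den := by exact_mod_cast r.den_pos
  have hdenQ : (r.den : ℝ) ≤ Q := by exact_mod_cast hr2
  have hQ' : (1 : ℝ) ≤ Q := by exact_mod_cast hQ
  have hQ0 : (0 : ℝ) < Q := by linarith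
  -- the linear form
  set q : ℝ := (r.den : ℝ) with hq
  set p : ℝ := (r.num : ℝ) with hp
  have hrpq : (r : ℝ) = p / q := by rw [hp, hq]; exact_mod_cast (Rat.num_div_den r).symm
  set Δ : ℝ := q * D - p * E with hΔ
  have hΔ' : Δ = q * E * (D / E - r) := by
    rw [hΔ, hrpq]; field_simp
  have hΔabs : |Δ| = q * E * |D / E - r| := by
    rw [hΔ', abs_mul, abs_of_pos (by positivity)]
  have hΔlow : σ / 2 ≤ |Δ| := by
    rw [hΔabs]
    have : 1 * (1 / 2) * σ ≤ q * E * |D / E - r| := by gcongr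
    linarith
  have hΔup : |Δ| ≤ 2 / Q := by
    rw [hΔabs]
    have h1 : q * E * |D / E - r| ≤ q * 2 * (1 / ((Q + 1) * r.den)) := by gcongr
    have h2 : q * 2 * (1 / ((Q + 1) * r.den)) = 2 / (Q + 1) := by
      rw [← hq]; field_simp
    rw [h2] at h1
    refine h1.trans ?_
    apply div_le_div_of_nonneg_left (by norm_num) hQ0
    linarith
  have hΔ0 : 0 < |Δ| := by linarith [half_pos hσ]
  -- the numerator
  have hx : |D / E| ≤ 1 / 4 := by
    rw [abs_div, abs_of_pos hE0, div_le_iff₀ hE0]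
    linarith
  have hpq : |p| ≤ q := by
    have h1 : |(r : ℝ)| ≤ |D / E| + |D / E - r| := by
      have := abs_sub (D / E) (D / E - r)
      rwa [sub_sub_cancel] at this
    have h2 : |D / E - r| ≤ 1 / 2 := by
      refine hr1.trans ?_
      apply div_le_div_of_nonneg_left (by norm_num) (by norm_num)
      nlinarith
    have e : |(r : ℝ)| = |p| / q := by rw [hrpq, abs_div, abs_of_pos (show 0 < q from hden)]
    have h3 : |p| / q ≤ 1 := by rw [← e]; linarith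
    rwa [div_le_one (show 0 < q from hden)] at h3
  have hpint : |r.num| ≤ (r.den : ℤ) := by
    have : ((|r.num| : ℤ) : ℝ) ≤ ((r.den : ℤ) : ℝ) := by
      push_cast; exact hpq
    exact_mod_cast this
  -- the number of steps
  set k : ℕ := ⌈-(Ψ s t) / |Δ|⌉₊ with hk
  have hk1 : -(Ψ s t) / |Δ| ≤ k := Nat.le_ceil _
  have hk2 : (k : ℝ) < -(Ψ s t) / |Δ| + 1 :=
    Nat.ceil_lt_add_one (div_nonneg (by linarith) hΔ0.le)
  have hk3 : -(Ψ s t) ≤ k * |Δ| := by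
    rwa [div_le_iff₀ hΔ0] at hk1
  have hk4 : (k : ℝ) * |Δ| ≤ -(Ψ s t) + |Δ| := by
    have h1 : (k : ℝ) * |Δ| ≤ (-(Ψ s t) / |Δ| + 1) * |Δ| :=
      mul_le_mul_of_nonneg_right hk2.le hΔ0.le
    have h2 : (-(Ψ s t) / |Δ| + 1) * |Δ| = -(Ψ s t) + |Δ| := by field_simp
    linarith
  have hk5 : (k : ℝ) ≤ 4 / σ + 1 := by
    have h1 : -(Ψ s t) / |Δ| ≤ 2 / (σ / 2) := by gcongr; linarith
    have h2 : (2 : ℝ) / (σ / 2) = 4 / σ := by field_simp; norm_num
    linarith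
  have hkQ : (k : ℝ) * Q ≤ H := by
    refine le_trans ?_ hH
    exact mul_le_mul_of_nonneg_right hk5 hQ0.le
  have hkQ' : k * Q ≤ H := by exact_mod_cast hkQ
  -- the sign
  obtain ⟨ς, hς1, hς2⟩ : ∃ ς : ℤ, |ς| = 1 ∧ (ς : ℝ) * Δ = |Δ| := by
    rcases le_total 0 Δ with h | h
    · exact ⟨1, by simp, by rw [abs_of_nonneg h]; simp⟩
    · exact ⟨-1, by simp, by rw [abs_of_nonpos h]; push_cast; ring⟩
  have hm : |ς * k * r.den| ≤ (H : ℤ) := by
    rw [abs_mul, abs_mul, hς1, one_mul, Nat.abs_cast, Nat.abs_cast]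
    have : k * r.den ≤ k * Q := Nat.mul_le_mul_left k hr2
    exact_mod_cast this.trans hkQ'
  have hn : |-(ς * k * r.num)| ≤ (H : ℤ) := by
    rw [abs_neg, abs_mul, abs_mul, hς1, one_mul, Nat.abs_cast]
    have h1 : (k : ℤ) * |r.num| ≤ k * r.den := mul_le_mul_of_nonneg_left hpint (by positivity)
    have h2 : (k : ℤ) * r.den ≤ k * Q := by exact_mod_cast Nat.mul_le_mul_left k hr2
    have h3 : (k : ℤ) * Q ≤ H := by exact_mod_cast hkQ'
    exact h1.trans (h2.trans h3)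
  have hbox := box_lin Ψ s t H D E ε hD hE (ς * k * r.den) (-(ς * k * r.num)) hm hn
  have hvv := hv (ς * k * r.den) (-(ς * k * r.num)) hm hn
  push_cast at hbox
  have e1 : (ς : ℝ) * k * r.den * D + -(ς * k * r.num) * E = k * |Δ| := by
    rw [← hς2, hΔ, hp, hq]; ring
  rw [e1] at hbox
  have hςr : |(ς : ℝ)| = 1 := by
    have : ((|ς| : ℤ) : ℝ) = 1 := by rw [hς1]; norm_num
    rwa [Int.cast_abs] at this
  have e2 : |(ς : ℝ) * k * r.den| + |-((ς : ℝ) * k * r.num)| ≤ 2 * (k * Q) := by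
    rw [abs_neg, abs_mul, abs_mul, abs_mul, abs_mul, hςr, one_mul, Nat.abs_cast, Nat.abs_cast]
    have h1 : (k : ℝ) * r.den ≤ k * Q := mul_le_mul_of_nonneg_left hdenQ (Nat.cast_nonneg k)
    have h2 : (k : ℝ) * |(r.num : ℝ)| ≤ k * Q :=
      mul_le_mul_of_nonneg_left (hpq.trans hdenQ) (Nat.cast_nonneg k)
    linarith
  have e3 : (|(ς : ℝ) * k * r.den| + |-((ς : ℝ) * k * r.num)|) * ε ≤
      2 * (4 / σ + 1) * Q * ε := by
    apply mul_le_mul_of_nonneg_right _ hε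
    refine e2.trans ?_
    have : (k : ℝ) * Q ≤ (4 / σ + 1) * Q := mul_le_mul_of_nonneg_right hk5 hQ0.le
    linarith
  have h1 := abs_le.mp (hbox.trans e3)
  have h2 : |Ψ (s + ς * k * r.den) (t + -(ς * k * r.num))| ≤ 2 / Q + 2 * (4 / σ + 1) * Q * ε := by
    rw [abs_le]
    constructor
    · have : 0 ≤ 2 / (Q : ℝ) := by positivity
      linarith [h1.1]
    · linarith [h1.2]
  linarith

end Pool.Agent.Lib.MP_a768d2_coT
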