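import Pool.Agent.Lib.MP_a768d2_coT.Lock

/-! # One row of a straight grid: the slope is locked at zero -/

namespace Pool.Agent.Lib.MP_a768d2_coT

theorem cross (f : ℤ → ℝ) (T : ℕ) (X : ℝ)
    (hinc : ∀ t : ℤ, |t| ≤ T → 1 / 2 ≤ f (t + 1) - f t ∧ f (t + 1) - f t ≤ 2)
    (h0 : |f 0| ≤ X) (hT : 2 * X + 1 ≤ T) :
    ∃ t : ℤ, |(t : ℝ)| ≤ 2 * X + 1 ∧ f t ≤ 0 ∧ 0 < f (t + 1) := by
  classical
  have hX : 0 ≤ X := (abs_nonneg _).trans h0
  set K : ℕ := ⌊2 * X⌋₊ + 1 with hK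
  have hK1 : 2 * X < K := by rw [hK]; push_cast; exact Nat.lt_floor_add_one _
  have hK2 : (K : ℝ) ≤ 2 * X + 1 := by
    rw [hK]; push_cast
    have := Nat.floor_le (show 0 ≤ 2 * X by positivity)
    linarith
  have hKT : K ≤ T := by
    have : (K : ℝ) ≤ T := hK2.trans hT
    exact_mod_cast this
  have h0' := abs_le.mp h0
  rcases le_or_gt (f 0) 0 with hneg | hpos
  · have hex : ∃ k : ℕ, 0 < f k := by
      refine ⟨K, ?_⟩
      have i1 := inc f 0 K (fun i hi => hinc _ (by rw [abs_of_nonneg (by omega)]; omega))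
      simp only [zero_add] at i1
      linarith [i1.1]
    have hmin := Nat.find_min' hex (m := K) (by
      have i1 := inc f 0 K (fun i hi => hinc _ (by rw [abs_of_nonneg (by omega)]; omega))
      simp only [zero_add] at i1
      linarith [i1.1])
    have hfind := Nat.find_spec hex
    have hpos : 0 < Nat.find hex := by
      rcases Nat.eq_zero_or_pos (Nat.find hex) with h | h
      · rw [h] at hfind
        simp only [Nat.cast_zero] at hfind
        linarith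
      · exact h
    refine ⟨(Nat.find hex : ℤ) - 1, ?_, ?_, ?_⟩
    · have h1 : ((Nat.find hex : ℕ) : ℝ) ≤ K := by exact_mod_cast hmin
      have h2 : (1 : ℝ) ≤ (Nat.find hex : ℕ) := by exact_mod_cast hpos
      push_cast
      rw [abs_of_nonneg (by linarith)]
      linarith
    · have := Nat.find_min hex (m := Nat.find hex - 1) (by omega)
      have e : ((Nat.find hex - 1 : ℕ) : ℤ) = (Nat.find hex : ℤ) - 1 := by omega
      rw [e] at this
      exact not_lt.mp this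
    · rw [sub_add_cancel]; exact hfind
  · have hex : ∃ k : ℕ, f (-(k : ℤ)) ≤ 0 := by
      refine ⟨K, ?_⟩
      have i1 := inc f (-K) K (fun i hi => hinc _ (by rw [abs_le]; constructor <;> omega))
      simp only [neg_add_cancel] at i1
      linarith [i1.1]
    have hmin := Nat.find_min' hex (m := K) (by
      have i1 := inc f (-K) K (fun i hi => hinc _ (by rw [abs_le]; constructor <;> omega))
      simp only [neg_add_cancel] at i1
      linarith [i1.1])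
    have hfind := Nat.find_spec hex
    have hpos' : 0 < Nat.find hex := by
      rcases Nat.eq_zero_or_pos (Nat.find hex) with h | h
      · rw [h] at hfind
        simp only [Nat.cast_zero, neg_zero] at hfind
        linarith
      · exact h
    refine ⟨-(Nat.find hex : ℤ), ?_, hfind, ?_⟩
    · have h1 : ((Nat.find hex : ℕ) : ℝ) ≤ K := by exact_mod_cast hmin
      push_cast
      rw [abs_neg, Nat.abs_cast]
      linarith
    · have := Nat.find_min hex (m := Nat.find hex - 1) (by omega)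
      have e : -((Nat.find hex - 1 : ℕ) : ℤ) = -(Nat.find hex : ℤ) + 1 := by omega
      rw [e] at this
      exact not_le.mp this

theorem rat_eq (r r' : ℚ) (Q Q' : ℕ) (h : r.den ≤ Q) (h' : r'.den ≤ Q')
    (hlt : |(r : ℝ) - r'| < 1 / (Q * Q')) : r = r' := by
  by_contra hne
  have hd : (0 : ℝ) < r.den := by exact_mod_cast r.den_pos
  have hd' : (0 : ℝ) < r'.den := by exact_mod_cast r'.den_pos
  have e : (r : ℝ) - r' = ((r.num * r'.den - r'.num * r.den : ℤ) : ℝ) / (r.den * r'.den) := by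
    have e1 : (r : ℝ) = r.num / r.den := by exact_mod_cast (Rat.num_div_den r).symm
    have e2 : (r' : ℝ) = r'.num / r'.den := by exact_mod_cast (Rat.num_div_den r').symm
    rw [e1, e2]
    push_cast
    field_simp
  have hnum : (r.num * r'.den - r'.num * r.den : ℤ) ≠ 0 := by
    intro h0
    rw [h0] at e
    simp only [Int.cast_zero, zero_div] at e
    apply hne
    have : (r : ℝ) = r' := by linarith
    exact_mod_cast this
  have hnum1 : (1 : ℝ) ≤ |((r.num * r'.den - r'.num * r.den : ℤ) : ℝ)| := by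
    have := Int.one_le_abs hnum
    exact_mod_cast this
  rw [e, abs_div, abs_of_pos (mul_pos hd hd')] at hlt
  have h1 : 1 / ((r.den : ℝ) * r'.den) ≤
      |((r.num * r'.den - r'.num * r.den : ℤ) : ℝ)| / (r.den * r'.den) :=
    div_le_div_of_nonneg_right hnum1 (mul_pos hd hd').le
  have h2 : 1 / ((Q : ℝ) * Q') ≤ 1 / ((r.den : ℝ) * r'.den) := by
    apply div_le_div_of_nonneg_left (by norm_num) (mul_pos hd hd')
    have g1 : (r.den : ℝ) ≤ Q := by exact_mod_cast h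
    have g2 : (r'.den : ℝ) ≤ Q' := by exact_mod_cast h'
    exact mul_le_mul g1 g2 hd'.le (hd.le.trans g1)
  linarith

theorem rat_small (r : ℚ) (Q : ℕ) (h : r.den ≤ Q) (hlt : |(r : ℝ)| < 1 / Q) : r = 0 := by
  refine rat_eq r 0 Q 1 h (by simp) ?_
  simpa using hlt

/-- data of a row, with the numerical parameters of the argument -/
structure Row (Ψ : ℤ → ℤ → ℝ) (N S : ℕ) (c : ℝ) (s00 : ℕ) (ε κA κB ρε ρA ρB : ℝ) : Prop where
  z0 : Ψ 0 0 = 0
  z1 : Ψ 1 0 = 0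
  hb : ∀ s t : ℤ, 0 ≤ s → s ≤ S → 2 * |t| ≤ S → |Ψ (s + 1) t - Ψ s t| ≤ 1 / 8
  hc : ∀ s t : ℤ, 0 ≤ s → s ≤ S → 2 * |t| ≤ S →
    1 / 2 ≤ Ψ s (t + 1) - Ψ s t ∧ Ψ s (t + 1) - Ψ s t ≤ 2
  dε : ∀ s t s' t' : ℤ, 0 ≤ s → s ≤ S → 2 * |t| ≤ S → 0 ≤ s' → s' ≤ S → 2 * |t'| ≤ S →
    |(s : ℝ) - s'| ≤ ρε * N → |(t : ℝ) - t'| ≤ ρε * N →
    |(Ψ (s + 1) t - Ψ s t) - (Ψ (s' + 1) t' - Ψ s' t')| ≤ ε
  eε : ∀ s t s' t' : ℤ, 0 ≤ s → s ≤ S → 2 * |t| ≤ S → 0 ≤ s' → s' ≤ S → 2 * |t'| ≤ S →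
    |(s : ℝ) - s'| ≤ ρε * N → |(t : ℝ) - t'| ≤ ρε * N →
    |(Ψ s (t + 1) - Ψ s t) - (Ψ s' (t' + 1) - Ψ s' t')| ≤ ε
  dA : ∀ s t s' t' : ℤ, 0 ≤ s → s ≤ S → 2 * |t| ≤ S → 0 ≤ s' → s' ≤ S → 2 * |t'| ≤ S →
    |(s : ℝ) - s'| ≤ ρA * N → |(t : ℝ) - t'| ≤ ρA * N →
    |(Ψ (s + 1) t - Ψ s t) - (Ψ (s' + 1) t' - Ψ s' t')| ≤ κA
  dB : ∀ s t s' t' : ℤ, 0 ≤ s → s ≤ S → 2 * |t| ≤ S → 0 ≤ s' → s' ≤ S → 2 * |t'| ≤ S →
    |(s : ℝ) - s'| ≤ ρB * N → |(t : ℝ) - t'| ≤ ρB * N →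
    |(Ψ (s + 1) t - Ψ s t) - (Ψ (s' + 1) t' - Ψ s' t')| ≤ κB
  void : ∀ s t : ℤ, s00 ≤ s → s ≤ S → |t| ≤ s → 2 * |t| ≤ S → c * (s : ℝ) ^ 2 ≤ N ^ 2 * |Ψ s t|

theorem div_lip {D E D' E' ε : ℝ} (hE : 1 / 2 ≤ E) (hE' : 1 / 2 ≤ E') (hD : |D| ≤ 1 / 8)
    (h1 : |D' - D| ≤ ε) (h2 : |E' - E| ≤ ε) : |D' / E' - D / E| ≤ 3 * ε := by
  have hE0 : 0 < E := by linarith
  have hE0' : 0 < E' := by linarith
  have e : D' / E' - D / E = (D' - D) / E' + D * (E - E') / (E * E') := by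
    field_simp; ring
  rw [e]
  refine (abs_add_le _ _).trans ?_
  rw [abs_div, abs_div, abs_mul, abs_of_pos hE0', abs_of_pos (mul_pos hE0 hE0')]
  have hε : 0 ≤ ε := (abs_nonneg _).trans h1
  have a1 : |D' - D| / E' ≤ ε / (1 / 2) := div_le_div₀ hε h1 (by norm_num) hE'
  rw [abs_sub_comm] at h2
  have a2 : |D| * |E - E'| / (E * E') ≤ (1 / 8 * ε) / (1 / 2 * (1 / 2)) := by
    apply div_le_div₀ (by positivity) _ (by norm_num) _
    · exact mul_le_mul hD h2 (abs_nonneg _) (by norm_num)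
    · exact mul_le_mul hE hE' (by norm_num) hE0.le
  have e1 : ε / (1 / 2) + (1 / 8 * ε) / (1 / 2 * (1 / 2)) = 5 / 2 * ε := by ring
  linarith

end Pool.Agent.Lib.MP_a768d2_coT
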