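import Pool.Agent.Lib.MP_a768d2_coT.Lock2

/-! # One row of a straight grid: the locking argument with explicit parameters -/

namespace Pool.Agent.Lib.MP_a768d2_coT

variable {Ψ : ℤ → ℤ → ℝ} {N S : ℕ} {c : ℝ} {s00 : ℕ} {ε κA κB ρε ρA ρB : ℝ}

theorem Row.path (R : Row Ψ N S c s00 ε κA κB ρε ρA ρB) (hS : 6 ≤ S) (s : ℤ) (hs0 : 0 ≤ s)
    (hs : s ≤ S) : ∃ t : ℤ, |(t : ℝ)| ≤ (s : ℝ) / 4 + 1 ∧ Ψ s t ≤ 0 ∧ 0 < Ψ s (t + 1) := by
  have h1 : |Ψ s 0| ≤ (s : ℝ) / 8 := by
    have h := step_sum (fun s => Ψ s 0) (1 / 8) 0 s.toNat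
      (fun i hi => R.hb _ _ (by omega) (by omega) (by simp))
    simp only [zero_add, R.z0, sub_zero] at h
    rw [Int.toNat_of_nonneg hs0] at h
    have e : ((s.toNat : ℕ) : ℝ) = (s : ℝ) := by
      rw [← Int.cast_natCast, Int.toNat_of_nonneg hs0]
    rw [e] at h
    linarith
  have hsS : (s : ℝ) ≤ S := by exact_mod_cast hs
  obtain ⟨t, ht1, ht2, ht3⟩ := cross (Ψ s) (S / 2) (s / 8)
    (fun t ht => R.hc s t hs0 hs (by omega)) h1 (by
      have h2 : S ≤ 2 * (S / 2) + 1 := by omega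
      have h3 : (S : ℝ) ≤ 2 * ((S / 2 : ℕ) : ℝ) + 1 := by exact_mod_cast h2
      have h4 : (6 : ℝ) ≤ S := by exact_mod_cast hS
      linarith)
  refine ⟨t, ?_, ht2, ht3⟩
  linarith

theorem two_abs {t : ℤ} {S : ℕ} (h1 : -(S : ℤ) ≤ 2 * t) (h2 : 2 * t ≤ S) : 2 * |t| ≤ S := by
  rcases abs_cases t with ⟨h, _⟩ | ⟨h, _⟩ <;> omega

theorem of_four_abs {t s : ℤ} (h : 4 * |(t : ℝ)| ≤ s + 4) : -(s + 4) ≤ 4 * t ∧ 4 * t ≤ s + 4 := by
  have h1 : 4 * |t| ≤ s + 4 := by exact_mod_cast h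
  rcases abs_cases t with ⟨h, _⟩ | ⟨h, _⟩ <;> constructor <;> omega

theorem Row.core (R : Row Ψ N S c s00 ε κA κB ρε ρA ρB) (H s1 s2 Q1 Q2 : ℕ) (σ v1 v2 : ℝ)
    (hQ2 : 1 ≤ Q2) (hQ12 : Q2 ≤ Q1) (hσ : 0 < σ) (hε : 0 ≤ ε) (hc0 : 0 < c) (hN : 0 < N)
    (p1 : (4 / σ + 1) * Q1 ≤ H) (p2 : 2 / Q1 + 2 * (4 / σ + 1) * Q1 * ε < v1)
    (p3 : 2 / Q2 + 2 * (4 / σ + 1) * Q2 * ε < v2) (p4 : 2 * σ + 3 * ε < 1 / (Q1 * Q1))
    (p5 : 2 * κA + σ < 1 / Q2) (hH : 5 ≤ H) (hHρ : (H : ℝ) ≤ ρε * N) (r1 : s00 + H ≤ s1)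
    (r2 : 8 * H + 4 ≤ 3 * s1) (r3 : s1 ≤ s2) (r4 : s2 + H ≤ S) (r5 : 20 + 4 * H ≤ S)
    (r6 : (s1 : ℝ) ≤ ρA * N) (u1 : v1 * N ^ 2 ≤ c * ((s1 : ℝ) - H) ^ 2)
    (u2 : v2 * N ^ 2 ≤ c * ((s2 : ℝ) - H) ^ 2) (X : ℝ) (hX1 : σ ≤ X) (hX2 : 2 * κA ≤ X)
    (s : ℤ) (hs0 : 0 ≤ s) (hs : s ≤ s2) :
    ∃ t : ℤ, |(t : ℝ)| ≤ 9 + s * (X + 18 * ε) ∧ 2 * |t| ≤ S ∧
      |Ψ (s + 1) t - Ψ s t| ≤ 2 * X := by
  have hQ1' : (1 : ℝ) ≤ Q1 := by exact_mod_cast hQ2.trans hQ12
  have hQ2' : (1 : ℝ) ≤ Q2 := by exact_mod_cast hQ2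
  have hN' : (0 : ℝ) < N := by exact_mod_cast hN
  have hex : ∀ s : ℤ, 0 ≤ s → s ≤ S → ∃ t : ℤ, |(t : ℝ)| ≤ (s : ℝ) / 4 + 1 ∧ Ψ s t ≤ 0 ∧
      0 < Ψ s (t + 1) := fun s h1 h2 => R.path (by omega) s h1 h2
  choose! t ht using hex
  -- ranges
  have tr : ∀ s : ℤ, 0 ≤ s → s ≤ S → -(s + 4) ≤ 4 * t s ∧ 4 * t s ≤ s + 4 := by
    intro s h1 h2
    have := (ht s h1 h2).1
    exact of_four_abs (by linarith)
  have tS : ∀ s : ℤ, 0 ≤ s → s ≤ S → 2 * |t s| ≤ S := by
    intro s h1 h2
    have := tr s h1 h2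
    exact two_abs (by omega) (by omega)
  have hΨ1 : ∀ s : ℤ, 0 ≤ s → s ≤ S → -2 ≤ Ψ s (t s) ∧ Ψ s (t s) ≤ 0 := by
    intro s h1 h2
    have h3 := ht s h1 h2
    have h5 := R.hc s (t s) h1 h2 (tS s h1 h2)
    constructor <;> linarith [h5.2, h3.2.1, h3.2.2]
  have tdiff : ∀ s : ℤ, 0 ≤ s → s + 1 ≤ S → -4 ≤ t (s + 1) - t s ∧ t (s + 1) - t s ≤ 4 := by
    intro s h1 h2
    have a1 := tr s h1 (by omega)
    have a2 := tr (s + 1) (by omega) h2
    have b1 := hΨ1 s h1 (by omega)
    have b2 := hΨ1 (s + 1) (by omega) h2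
    have b3 := abs_le.mp (R.hb s (t s) h1 (by omega) (tS s h1 (by omega)))
    constructor
    · by_contra hcon
      have i1 := inc (fun y => Ψ (s + 1) y) (t (s + 1)) (t s - t (s + 1)).toNat
        (fun i hi => R.hc (s + 1) _ (by omega) h2 (two_abs (by omega) (by omega)))
      have e : t (s + 1) + (((t s - t (s + 1)).toNat : ℕ) : ℤ) = t s := by omega
      rw [e] at i1
      have h5 : (5 : ℝ) ≤ ((t s - t (s + 1)).toNat : ℕ) := by
        have : 5 ≤ (t s - t (s + 1)).toNat := by omega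
        exact_mod_cast this
      linarith [i1.1]
    · by_contra hcon
      have i1 := inc (fun y => Ψ (s + 1) y) (t s) (t (s + 1) - t s).toNat
        (fun i hi => R.hc (s + 1) _ (by omega) h2 (two_abs (by omega) (by omega)))
      have e : t s + (((t (s + 1) - t s).toNat : ℕ) : ℤ) = t (s + 1) := by omega
      rw [e] at i1
      have h5 : (5 : ℝ) ≤ ((t (s + 1) - t s).toNat : ℕ) := by
        have : 5 ≤ (t (s + 1) - t s).toNat := by omega
        exact_mod_cast this
      linarith [i1.1]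
  set D : ℤ → ℝ := fun s => Ψ (s + 1) (t s) - Ψ s (t s) with hDdef
  set E : ℤ → ℝ := fun s => Ψ s (t s + 1) - Ψ s (t s) with hEdef
  have hDb : ∀ s : ℤ, 0 ≤ s → s ≤ S → |D s| ≤ 1 / 8 := fun s h1 h2 => R.hb s _ h1 h2 (tS s h1 h2)
  have hEb : ∀ s : ℤ, 0 ≤ s → s ≤ S → 1 / 2 ≤ E s ∧ E s ≤ 2 :=
    fun s h1 h2 => R.hc s _ h1 h2 (tS s h1 h2)
  have hHρ' : (4 : ℝ) ≤ ρε * N := by
    have : (5 : ℝ) ≤ H := by exact_mod_cast hH
    linarith
  -- consecutive slopes
  have adj : ∀ s : ℤ, 0 ≤ s → s + 1 ≤ S → |D (s + 1) - D s| ≤ ε ∧ |E (s + 1) - E s| ≤ ε := by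
    intro s h1 h2
    have td := tdiff s h1 h2
    have c1 : |((s + 1 : ℤ) : ℝ) - s| ≤ ρε * N := by
      push_cast
      rw [add_sub_cancel_left, abs_one]; linarith
    have c2 : |((t (s + 1) : ℤ) : ℝ) - t s| ≤ ρε * N := by
      refine le_trans ?_ hHρ'
      rw [abs_le]
      constructor
      · exact_mod_cast td.1
      · exact_mod_cast td.2
    exact ⟨R.dε _ _ _ _ (by omega) h2 (tS _ (by omega) h2) h1 (by omega) (tS _ h1 (by omega)) c1 c2,
      R.eε _ _ _ _ (by omega) h2 (tS _ (by omega) h2) h1 (by omega) (tS _ h1 (by omega)) c1 c2⟩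
  -- locking
  have lock : ∀ (Q : ℕ) (v : ℝ) (s : ℤ), 1 ≤ Q → Q ≤ Q1 → s1 ≤ s → s ≤ s2 →
      v * N ^ 2 ≤ c * ((s : ℝ) - H) ^ 2 → 2 / Q + 2 * (4 / σ + 1) * Q * ε < v →
      ∃ r : ℚ, r.den ≤ Q ∧ |D s / E s - r| < σ := by
    intro Q v s hQ hQQ1 h1 h2 hv hvQ
    have a1 := tr s (by omega) (by omega)
    have rng : ∀ s' t' : ℤ, |s' - s| ≤ H → |t' - t s| ≤ H → 0 ≤ s' ∧ s' ≤ S ∧ 2 * |t'| ≤ S ∧
        |t'| ≤ s' ∧ (s00 : ℤ) ≤ s' ∧ (s : ℤ) - H ≤ s' := by
      intro s' t' h3 h4
      have h3' := abs_le.mp h3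
      have h4' := abs_le.mp h4
      refine ⟨by omega, by omega, two_abs (by omega) (by omega), ?_, by omega, by omega⟩
      rw [abs_le]
      constructor <;> omega
    refine lock_point Ψ s (t s) Q H (D s) (E s) ε σ v hQ hσ hε (hEb s (by omega) (by omega)).1
      (hEb s (by omega) (by omega)).2 (hDb s (by omega) (by omega)) ?_ ?_
      (hΨ1 s (by omega) (by omega)).1 (hΨ1 s (by omega) (by omega)).2 ?_ ?_ hvQ
    · intro s' t' h3 h4
      obtain ⟨g1, g2, g3, _, _, _⟩ := rng s' t' h3 h4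
      refine R.dε _ _ _ _ g1 g2 g3 (by omega) (by omega) (tS _ (by omega) (by omega)) ?_ ?_
      · refine le_trans ?_ hHρ
        exact_mod_cast h3
      · refine le_trans ?_ hHρ
        exact_mod_cast h4
    · intro s' t' h3 h4
      obtain ⟨g1, g2, g3, _, _, _⟩ := rng s' t' h3 h4
      refine R.eε _ _ _ _ g1 g2 g3 (by omega) (by omega) (tS _ (by omega) (by omega)) ?_ ?_
      · refine le_trans ?_ hHρ
        exact_mod_cast h3
      · refine le_trans ?_ hHρ
        exact_mod_cast h4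
    · intro m n hm hn
      obtain ⟨g1, g2, g3, g4, g5, g6⟩ := rng (s + m) (t s + n) (by simpa using hm) (by simpa using hn)
      have h3 := R.void (s + m) (t s + n) g5 g2 g4 g3
      have h4 : ((s : ℝ) - H) ^ 2 ≤ ((s + m : ℤ) : ℝ) ^ 2 := by
        apply pow_le_pow_left₀
        · have : (0 : ℤ) ≤ s - H := by omega
          exact_mod_cast this
        · exact_mod_cast g6
      have h5 : v * N ^ 2 ≤ |Ψ (s + m) (t s + n)| * N ^ 2 := by
        refine hv.trans ?_
        have := mul_le_mul_of_nonneg_left h4 hc0.le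
        linarith
      exact le_of_mul_le_mul_right h5 (by positivity)
    · refine le_trans ?_ p1
      apply mul_le_mul_of_nonneg_left _ (by positivity)
      exact_mod_cast hQQ1
  have hvmono : ∀ s : ℤ, (s1 : ℤ) ≤ s → v1 * N ^ 2 ≤ c * ((s : ℝ) - H) ^ 2 := by
    intro s h1
    refine u1.trans ?_
    apply mul_le_mul_of_nonneg_left _ hc0.le
    apply pow_le_pow_left₀
    · have : (H : ℝ) ≤ s1 := by exact_mod_cast (by omega : H ≤ s1)
      linarith
    · have : (s1 : ℝ) ≤ s := by exact_mod_cast h1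
      linarith
  obtain ⟨r, hr1, hr2⟩ := lock Q1 v1 s1 (hQ2.trans hQ12) le_rfl le_rfl (by exact_mod_cast r3)
    (hvmono s1 le_rfl) p2
  have chain : ∀ k : ℕ, s1 + k ≤ s2 → |D (s1 + k) / E (s1 + k) - r| < σ := by
    intro k
    induction k with
    | zero => intro _; simpa using hr2
    | succ k ih =>
      intro hk
      have i1 := ih (by omega)
      have e : (s1 : ℤ) + ((k + 1 : ℕ) : ℤ) = s1 + k + 1 := by push_cast; ring
      rw [e]
      obtain ⟨r', g1, g2⟩ := lock Q1 v1 (s1 + k + 1) (hQ2.trans hQ12) le_rfl (by omega) (by omega)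
        (hvmono _ (by omega)) p2
      have a1 := adj (s1 + k) (by omega) (by omega)
      have a2 := div_lip (hEb (s1 + k) (by omega) (by omega)).1
        (hEb (s1 + k + 1) (by omega) (by omega)).1 (hDb (s1 + k) (by omega) (by omega)) a1.1 a1.2
      have heq : r = r' := by
        refine rat_eq r r' Q1 Q1 hr1 g1 ?_
        refine lt_of_le_of_lt ?_ p4
        have b1 := abs_lt.mp i1
        have b2 := abs_lt.mp g2
        have b3 := abs_le.mp a2
        rw [abs_le]
        constructor <;> linarith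
      rw [heq]
      exact g2
  obtain ⟨r2', hr21, hr22⟩ := lock Q2 v2 s2 hQ2 hQ12 (by exact_mod_cast r3) le_rfl u2 p3
  have hr0 : r = 0 := by
    have h1 := chain (s2 - s1) (by omega)
    have e : (s1 : ℤ) + ((s2 - s1 : ℕ) : ℤ) = s2 := by omega
    rw [e] at h1
    have h2 : r = r2' := by
      refine rat_eq r r2' Q1 Q2 hr1 hr21 ?_
      have b1 := abs_lt.mp h1
      have b2 := abs_lt.mp hr22
      have b3 : 1 / ((Q1 : ℝ) * Q1) ≤ 1 / (Q1 * Q2) := by
        apply div_le_div_of_nonneg_left (by norm_num) (by positivity)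
        apply mul_le_mul_of_nonneg_left _ (by positivity)
        exact_mod_cast hQ12
      rw [abs_lt]
      constructor <;> linarith
    have h3 : r.den ≤ Q2 := by rw [h2]; exact hr21
    refine rat_small r Q2 h3 (lt_of_le_of_lt ?_ p5)
    have h4 : |D s1| ≤ κA := by
      have a1 := ht s1 (by omega) (by omega)
      have h6 : |D s1 - (Ψ (0 + 1) 0 - Ψ 0 0)| ≤ κA := by
        refine R.dA _ _ _ _ (by omega) (by omega) (tS _ (by omega) (by omega)) le_rfl (by omega)
          (by simp) ?_ ?_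
        · simpa using r6
        · refine le_trans ?_ r6
          have a2 := abs_le.mp a1.1
          have a4 : (8 : ℝ) ≤ s1 := by
            have : 8 ≤ s1 := by omega
            exact_mod_cast this
          push_cast at a2 ⊢
          rw [abs_le]
          constructor <;> linarith
      rw [zero_add, R.z1, R.z0, sub_zero, sub_zero] at h6
      exact h6
    have h5 : |D s1 / E s1| ≤ 2 * κA := by
      have hE := hEb s1 (by omega) (by omega)
      have hE0 : 0 < E s1 := by linarith [hE.1]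
      rw [abs_div, abs_of_pos hE0, div_le_iff₀ hE0]
      have : 0 ≤ κA := (abs_nonneg _).trans h4
      nlinarith [hE.1]
    have b1 := abs_lt.mp hr2
    have b2 := abs_le.mp h5
    rw [abs_le]
    constructor <;> linarith
  -- bound for all slopes
  have xb : ∀ s : ℤ, 0 ≤ s → s ≤ s2 → |D s / E s| ≤ X := by
    intro s h1 h2
    rcases le_total s s1 with h | h
    · have h4 : |D s| ≤ κA := by
        have a1 := ht s (by omega) (by omega)
        have hss1 : (s : ℝ) ≤ s1 := by exact_mod_cast h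
        have hs0' : (0 : ℝ) ≤ s := by exact_mod_cast h1
        have h6 : |D s - (Ψ (0 + 1) 0 - Ψ 0 0)| ≤ κA := by
          refine R.dA _ _ _ _ (by omega) (by omega) (tS _ (by omega) (by omega)) le_rfl (by omega)
            (by simp) ?_ ?_
          · refine le_trans ?_ r6
            simp only [Int.cast_zero, sub_zero]
            rw [abs_of_nonneg hs0']
            exact hss1
          · refine le_trans ?_ r6
            have a2 := abs_le.mp a1.1
            have a4 : (8 : ℝ) ≤ s1 := by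
              have : 8 ≤ s1 := by omega
              exact_mod_cast this
            push_cast at a2 ⊢
            rw [abs_le]
            constructor <;> linarith
        rw [zero_add, R.z1, R.z0, sub_zero, sub_zero] at h6
        exact h6
      have hE := hEb s (by omega) (by omega)
      have hE0 : 0 < E s := by linarith [hE.1]
      rw [abs_div, abs_of_pos hE0, div_le_iff₀ hE0]
      have : 0 ≤ κA := (abs_nonneg _).trans h4
      nlinarith [hE.1]
    · have h1 := chain (s - s1).toNat (by omega)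
      have e : (s1 : ℤ) + (((s - s1).toNat : ℕ) : ℤ) = s := by omega
      rw [e, hr0] at h1
      simp only [Rat.cast_zero, sub_zero] at h1
      exact h1.le.trans hX1
  have hX0 : 0 ≤ X := hσ.le.trans hX1
  -- drift
  have drift : ∀ k : ℕ, k ≤ s2 → |(t k : ℝ) - Ψ k (t k) / E k| ≤ 5 + k * (X + 18 * ε) := by
    intro k
    induction k with
    | zero =>
      intro _
      have a1 := (ht 0 le_rfl (by omega)).1
      have a2 := hΨ1 0 le_rfl (by omega)
      have a3 := hEb 0 le_rfl (by omega)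
      have hE0 : 0 < E 0 := by linarith [a3.1]
      have a4 : |Ψ 0 (t 0) / E 0| ≤ 4 := by
        rw [abs_div, abs_of_pos hE0, div_le_iff₀ hE0, abs_of_nonpos a2.2]
        linarith [a2.1, a3.1]
      have a5 := abs_le.mp a1
      have a6 := abs_le.mp a4
      simp only [Nat.cast_zero, Int.cast_zero, zero_div, zero_add, zero_mul, add_zero] at a5 ⊢
      rw [abs_le]
      constructor <;> linarith
    | succ k ih =>
      intro hk
      have i1 := ih (by omega)
      have hk1 : (0 : ℤ) ≤ k := by omega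
      have td := tdiff k hk1 (by omega)
      have a1 := adj k hk1 (by omega)
      have e0 := hEb k hk1 (by omega)
      have e1 := hEb (k + 1) (by omega) (by omega)
      have hE0 : 0 < E k := by linarith [e0.1]
      have hE1 : 0 < E (k + 1) := by linarith [e1.1]
      have y0 := hΨ1 k hk1 (by omega)
      have y1 := hΨ1 (k + 1) (by omega) (by omega)
      have tk := tr k hk1 (by omega)
      -- vertical move at column k + 1
      have vert := line_lin (fun y => Ψ (k + 1) y) (t k) 4 (E k) ε (fun y hy => by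
        have hy' := abs_le.mp hy
        refine R.eε _ _ _ _ (by omega) (by omega) (two_abs (by omega) (by omega)) hk1 (by omega)
          (tS k hk1 (by omega)) ?_ ?_
        · push_cast
          rw [add_sub_cancel_left, abs_one]; linarith
        · refine le_trans ?_ hHρ'
          exact_mod_cast hy) (t (k + 1) - t k) (by rw [abs_le]; constructor <;> omega)
      have e3 : t k + (t (k + 1) - t k) = t (k + 1) := by ring
      rw [e3] at vert
      have hn4 : |((t (k + 1) - t k : ℤ) : ℝ)| ≤ 4 := by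
        rw [abs_le]
        constructor
        · exact_mod_cast td.1
        · exact_mod_cast td.2
      have vert2 := vert.trans (mul_le_mul_of_nonneg_right hn4 hε)
      -- the identity
      set n : ℝ := ((t (k + 1) - t k : ℤ) : ℝ) with hn
      have hDk : Ψ (k + 1) (t k) = Ψ k (t k) + D k := by simp only [hDdef]; ring
      rw [hDk] at vert2
      set η : ℝ := Ψ (k + 1) (t (k + 1)) - (Ψ k (t k) + D k) - n * E k with hη
      have idn : (t (k + 1) : ℝ) - Ψ (k + 1) (t (k + 1)) / E (k + 1) -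
          ((t k : ℝ) - Ψ k (t k) / E k) =
          - (D k / E k) - η / E k + Ψ (k + 1) (t (k + 1)) * (E (k + 1) - E k) /
            (E k * E (k + 1)) := by
        have : (t (k + 1) : ℝ) = t k + n := by rw [hn]; push_cast; ring
        rw [this, hη]
        field_simp
        ring
      have b1 := xb k hk1 (by omega)
      have b2 : |η / E k| ≤ 8 * ε := by
        rw [abs_div, abs_of_pos hE0, div_le_iff₀ hE0]
        have g4 : 8 * ε * (1 / 2) ≤ 8 * ε * E k := mul_le_mul_of_nonneg_left e0.1 (by positivity)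
        linarith
      have b3 : |Ψ (k + 1) (t (k + 1)) * (E (k + 1) - E k) / (E k * E (k + 1))| ≤ 8 * ε := by
        rw [abs_div, abs_mul, abs_of_pos (mul_pos hE0 hE1), div_le_iff₀ (mul_pos hE0 hE1)]
        have g1 : |Ψ (k + 1) (t (k + 1))| ≤ 2 := by rw [abs_le]; constructor <;> linarith
        have g2 : |Ψ (k + 1) (t (k + 1))| * |E (k + 1) - E k| ≤ 2 * ε :=
          mul_le_mul g1 a1.2 (abs_nonneg _) (by norm_num)
        have g3 : 1 / 2 * (1 / 2) ≤ E k * E (k + 1) := mul_le_mul e0.1 e1.1 (by norm_num) hE0.le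
        have g4 : 8 * ε * (1 / 2 * (1 / 2)) ≤ 8 * ε * (E k * E (k + 1)) :=
          mul_le_mul_of_nonneg_left g3 (by positivity)
        linarith
      have b1' := abs_le.mp b1
      have b2' := abs_le.mp b2
      have b3' := abs_le.mp b3
      have i1' := abs_le.mp i1
      have ek : ((k + 1 : ℕ) : ℤ) = (k : ℤ) + 1 := by push_cast; ring
      rw [ek]
      push_cast
      have hkX : ((k : ℝ) + 1) * (X + 18 * ε) = k * (X + 18 * ε) + (X + 18 * ε) := by ring
      rw [hkX, abs_le]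
      constructor <;> linarith
  refine ⟨t s, ?_, tS s hs0 (by omega), ?_⟩
  · have h1 := drift s.toNat (by omega)
    have e : ((s.toNat : ℕ) : ℤ) = s := Int.toNat_of_nonneg hs0
    have e' : ((s.toNat : ℕ) : ℝ) = (s : ℝ) := by
      rw [← Int.cast_natCast, Int.toNat_of_nonneg hs0]
    rw [e, e'] at h1
    have a2 := hΨ1 s hs0 (by omega)
    have a3 := hEb s hs0 (by omega)
    have hE0 : 0 < E s := by linarith [a3.1]
    have a4 : |Ψ s (t s) / E s| ≤ 4 := by
      rw [abs_div, abs_of_pos hE0, div_le_iff₀ hE0, abs_of_nonpos a2.2]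
      linarith [a2.1, a3.1]
    have a5 := abs_le.mp h1
    have a6 := abs_le.mp a4
    rw [abs_le]
    constructor <;> linarith
  · have h1 := xb s hs0 hs
    have a3 := hEb s hs0 (by omega)
    have hE0 : 0 < E s := by linarith [a3.1]
    rw [abs_div, abs_of_pos hE0, div_le_iff₀ hE0] at h1
    have : X * E s ≤ X * 2 := mul_le_mul_of_nonneg_left a3.2 hX0
    have h2 : |D s| ≤ 2 * X := by linarith
    exact h2

end Pool.Agent.Lib.MP_a768d2_coT
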