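import Pool.Agent.Lib.MP_a768d2_coT.StepA

/-! # Nearly straight grids: octagons, comparison of rows -/

namespace Pool.Agent.Lib.MP_a768d2_coT

open Pool.Agent.Lib.MP_a768d2_coG

noncomputable section

/-- an octagon whose sides are parallel to the four directions -/
def Oct (R : ℝ) (x y : ℤ) : Prop :=
  |(x : ℝ)| ≤ R ∧ |(y : ℝ)| ≤ R ∧ |(x : ℝ) + y| ≤ 3 * R / 2 ∧ |(x : ℝ) - y| ≤ 3 * R / 2

theorem Oct.mono {R R' : ℝ} {x y : ℤ} (h : Oct R x y) (hR : R ≤ R') : Oct R' x y :=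
  ⟨h.1.trans hR, h.2.1.trans hR, h.2.2.1.trans (by linarith), h.2.2.2.trans (by linarith)⟩

theorem Oct.shift {R k : ℝ} {x y a b : ℤ} (h : Oct R x y) (ha : |(a : ℝ)| ≤ k)
    (hb : |(b : ℝ)| ≤ k) (hab : |(a : ℝ)| + |(b : ℝ)| ≤ 3 * k / 2) : Oct (R + k) (x + a) (y + b) := by
  obtain ⟨h1, h2, h3, h4⟩ := h
  unfold Oct
  push_cast
  refine ⟨(abs_add_le _ _).trans (by linarith), (abs_add_le _ _).trans (by linarith), ?_, ?_⟩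
  · have e : (x : ℝ) + a + (y + b) = (x + y) + (a + b) := by ring
    rw [e]
    refine (abs_add_le _ _).trans ?_
    linarith [abs_add_le (a : ℝ) b]
  · have e : (x : ℝ) + a - (y + b) = (x - y) + (a - b) := by ring
    rw [e]
    refine (abs_add_le _ _).trans ?_
    linarith [abs_sub (a : ℝ) b]

theorem Oct.convex {R : ℝ} {x y m i : ℤ} {e1 e2 g1 g2 : ℤ} (hd : Dir e1 e2 g1 g2) (h : Oct R x y)
    (h' : Oct R (x + m * e1) (y + m * e2)) (hi : (0 ≤ i ∧ i ≤ m) ∨ (m ≤ i ∧ i ≤ 0)) :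
    Oct R (x + i * e1) (y + i * e2) := by
  obtain ⟨h1, h2, h3, h4⟩ := h
  obtain ⟨g1, g2, g3, g4⟩ := h'
  rw [abs_le] at h1 h2 h3 h4 g1 g2 g3 g4
  unfold Oct
  rw [abs_le, abs_le, abs_le, abs_le]
  push_cast at g1 g2 g3 g4 ⊢
  rcases hi with ⟨hi1, hi2⟩ | ⟨hi1, hi2⟩
  · have i1 : (0 : ℝ) ≤ i := by exact_mod_cast hi1
    have i2 : (i : ℝ) ≤ m := by exact_mod_cast hi2
    rcases hd with ⟨rfl, rfl, rfl, rfl⟩ | ⟨rfl, rfl, rfl, rfl⟩ | ⟨rfl, rfl, rfl, rfl⟩ |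
      ⟨rfl, rfl, rfl, rfl⟩ | ⟨rfl, rfl, rfl, rfl⟩ | ⟨rfl, rfl, rfl, rfl⟩ | ⟨rfl, rfl, rfl, rfl⟩ |
      ⟨rfl, rfl, rfl, rfl⟩ <;> push_cast at g1 g2 g3 g4 ⊢ <;>
      refine ⟨⟨?_, ?_⟩, ⟨?_, ?_⟩, ⟨?_, ?_⟩, ?_, ?_⟩ <;> linarith
  · have i1 : (m : ℝ) ≤ i := by exact_mod_cast hi1
    have i2 : (i : ℝ) ≤ 0 := by exact_mod_cast hi2
    rcases hd with ⟨rfl, rfl, rfl, rfl⟩ | ⟨rfl, rfl, rfl, rfl⟩ | ⟨rfl, rfl, rfl, rfl⟩ |
      ⟨rfl, rfl, rfl, rfl⟩ | ⟨rfl, rfl, rfl, rfl⟩ | ⟨rfl, rfl, rfl, rfl⟩ | ⟨rfl, rfl, rfl, rfl⟩ |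
      ⟨rfl, rfl, rfl, rfl⟩ <;> push_cast at g1 g2 g3 g4 ⊢ <;>
      refine ⟨⟨?_, ?_⟩, ⟨?_, ?_⟩, ⟨?_, ?_⟩, ?_, ?_⟩ <;> linarith

theorem Oct.long {R : ℝ} {x y : ℤ} {e1 e2 g1 g2 : ℤ} (hd : Dir e1 e2 g1 g2) (h : Oct R x y)
    (k : ℤ) (hk0 : 0 ≤ k) (hk : (k : ℝ) ≤ R / 4) :
    Oct R (x + k * e1) (y + k * e2) ∨ Oct R (x + (-k) * e1) (y + (-k) * e2) := by
  obtain ⟨h1, h2, h3, h4⟩ := h
  rw [abs_le] at h1 h2 h3 h4
  have k0 : (0 : ℝ) ≤ k := by exact_mod_cast hk0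
  unfold Oct
  rw [abs_le, abs_le, abs_le, abs_le, abs_le, abs_le, abs_le, abs_le]
  push_cast
  rcases le_total ((e1 : ℝ) * x + e2 * y) 0 with hl | hl
  · left
    rcases hd with ⟨rfl, rfl, rfl, rfl⟩ | ⟨rfl, rfl, rfl, rfl⟩ | ⟨rfl, rfl, rfl, rfl⟩ |
      ⟨rfl, rfl, rfl, rfl⟩ | ⟨rfl, rfl, rfl, rfl⟩ | ⟨rfl, rfl, rfl, rfl⟩ | ⟨rfl, rfl, rfl, rfl⟩ |
      ⟨rfl, rfl, rfl, rfl⟩ <;> push_cast at hl ⊢ <;>
      refine ⟨⟨?_, ?_⟩, ⟨?_, ?_⟩, ⟨?_, ?_⟩, ?_, ?_⟩ <;> linarith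
  · right
    rcases hd with ⟨rfl, rfl, rfl, rfl⟩ | ⟨rfl, rfl, rfl, rfl⟩ | ⟨rfl, rfl, rfl, rfl⟩ |
      ⟨rfl, rfl, rfl, rfl⟩ | ⟨rfl, rfl, rfl, rfl⟩ | ⟨rfl, rfl, rfl, rfl⟩ | ⟨rfl, rfl, rfl, rfl⟩ |
      ⟨rfl, rfl, rfl, rfl⟩ <;> push_cast at hl ⊢ <;>
      refine ⟨⟨?_, ?_⟩, ⟨?_, ?_⟩, ⟨?_, ?_⟩, ?_, ?_⟩ <;> linarith

/-- comparison of two directions through a third vector -/
theorem tri (A B X : ℂ) : |det2 A B| * ‖X‖ ≤ |det2 X B| * ‖A‖ + |det2 A X| * ‖B‖ := by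
  have e : (det2 A B : ℂ) * X = (det2 X B : ℂ) * A + (det2 A X : ℂ) * B := by
    apply Complex.ext
    · simp [det2]; ring
    · simp [det2]; ring
  have h := norm_add_le ((det2 X B : ℂ) * A) ((det2 A X : ℂ) * B)
  rw [← e, norm_mul, norm_mul, norm_mul, Complex.norm_real, Complex.norm_real, Complex.norm_real,
    Real.norm_eq_abs, Real.norm_eq_abs, Real.norm_eq_abs] at h
  exact h

variable {P : ℤ → ℤ → ℂ} {N : ℕ} {κ c lam : ℝ}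

theorem chord (w : ℂ) (e1 e2 x y m : ℤ) (δ : ℝ)
    (h : ∀ i : ℤ, (0 ≤ i ∧ i < m) ∨ (m ≤ i ∧ i < 0) →
      |det2 w (Fr P e1 e2 (x + i * e1) (y + i * e2))| ≤ δ) :
    |det2 w (P (x + m * e1) (y + m * e2) - P x y)| ≤ |(m : ℝ)| * δ := by
  have hs : ∀ i : ℤ, det2 w (P (x + (i + 1) * e1) (y + (i + 1) * e2) - P x y) -
      det2 w (P (x + i * e1) (y + i * e2) - P x y) =
      det2 w (Fr P e1 e2 (x + i * e1) (y + i * e2)) := by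
    intro i
    rw [← det2_sub_right]
    congr 1
    have h1 : x + (i + 1) * e1 = x + i * e1 + e1 := by ring
    have h2 : y + (i + 1) * e2 = y + i * e2 + e2 := by ring
    rw [h1, h2]
    simp only [Fr]
    ring
  rcases le_total 0 m with h0 | h0
  · have := step_sum (fun i => det2 w (P (x + i * e1) (y + i * e2) - P x y)) δ 0 m.toNat
      (fun i hi => by
        rw [hs]
        exact h _ (Or.inl ⟨by omega, by omega⟩))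
    have e : ((m.toNat : ℕ) : ℝ) = (m : ℝ) := by
      rw [← Int.cast_natCast, Int.toNat_of_nonneg h0]
    have h00 : det2 w 0 = 0 := by simp [det2]
    rw [e, zero_add, Int.toNat_of_nonneg h0, zero_mul, zero_mul, add_zero, add_zero, sub_self,
      h00, sub_zero] at this
    have hm : (0 : ℝ) ≤ m := by exact_mod_cast h0
    rw [abs_of_nonneg hm]
    exact this
  · have := step_sum (fun i => det2 w (P (x + i * e1) (y + i * e2) - P x y)) δ m (-m).toNat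
      (fun i hi => by
        rw [hs]
        exact h _ (Or.inr ⟨by omega, by omega⟩))
    have e : (((-m).toNat : ℕ) : ℝ) = -(m : ℝ) := by
      rw [← Int.cast_natCast, Int.toNat_of_nonneg (by omega)]
      push_cast; ring
    have h00 : det2 w 0 = 0 := by simp [det2]
    rw [e, Int.toNat_of_nonneg (by omega), add_neg_cancel, zero_mul, zero_mul, add_zero, add_zero,
      sub_self, h00, zero_sub, abs_neg] at this
    have hm : (m : ℝ) ≤ 0 := by exact_mod_cast h0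
    rw [abs_of_nonpos hm]
    exact this

theorem Oct.win {R : ℝ} {x y : ℤ} (h : Oct R x y) (hR : 8 * R ≤ N) (hN : 0 < N) :
    |x| < N ∧ |y| < N := by
  have hN' : (0 : ℝ) < N := by exact_mod_cast hN
  have h1 : |(x : ℝ)| < N := by linarith [h.1]
  have h2 : |(y : ℝ)| < N := by linarith [h.2.1]
  exact ⟨by exact_mod_cast h1, by exact_mod_cast h2⟩

theorem Dir.g_sum {e1 e2 g1 g2 : ℤ} (hd : Dir e1 e2 g1 g2) (t : ℤ) :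
    |((t * g1 : ℤ) : ℝ)| + |((t * g2 : ℤ) : ℝ)| = |(t : ℝ)| := by
  rcases hd with ⟨rfl, rfl, rfl, rfl⟩ | ⟨rfl, rfl, rfl, rfl⟩ | ⟨rfl, rfl, rfl, rfl⟩ |
      ⟨rfl, rfl, rfl, rfl⟩ | ⟨rfl, rfl, rfl, rfl⟩ | ⟨rfl, rfl, rfl, rfl⟩ | ⟨rfl, rfl, rfl, rfl⟩ |
      ⟨rfl, rfl, rfl, rfl⟩ <;> push_cast <;> simp

theorem Oct.gshift {R : ℝ} {x y t : ℤ} {e1 e2 g1 g2 : ℤ} (hd : Dir e1 e2 g1 g2) (h : Oct R x y)
    {T : ℝ} (ht : |(t : ℝ)| ≤ T) : Oct (R + T) (x + t * g1) (y + t * g2) := by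
  have h1 := hd.g_sum t
  have h2 := abs_nonneg ((t * g1 : ℤ) : ℝ)
  have h3 := abs_nonneg ((t * g2 : ℤ) : ℝ)
  exact h.shift (by linarith) (by linarith) (by linarith)

end

end Pool.Agent.Lib.MP_a768d2_coT
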