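import Mathlib

/-! # One row of a straight grid: signs and locking -/

namespace Pool.Agent.Lib.MP_a768d2_coT

/-- increments in `[1/2, 2]` add up -/
theorem inc (f : ℤ → ℝ) (t : ℤ) (k : ℕ)
    (h : ∀ i : ℕ, i < k → 1 / 2 ≤ f (t + i + 1) - f (t + i) ∧ f (t + i + 1) - f (t + i) ≤ 2) :
    (k : ℝ) / 2 ≤ f (t + k) - f t ∧ f (t + k) - f t ≤ 2 * k := by
  induction k with
  | zero => simp
  | succ k ih =>
    have h1 := ih (fun i hi => h i (by omega))
    have h2 := h k (by omega)
    have e : t + ((k + 1 : ℕ) : ℤ) = t + k + 1 := by push_cast; ring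
    rw [e]
    push_cast
    constructor <;> linarith

theorem sign_pos (f : ℤ → ℝ) (δ : ℝ) (s1 : ℤ) (k : ℕ)
    (hstep : ∀ i : ℕ, i < k → |f (s1 + i + 1) - f (s1 + i)| ≤ δ)
    (hvoid : ∀ i : ℕ, i ≤ k → δ < |f (s1 + i)|) (h0 : 0 < f s1) : 0 < f (s1 + k) := by
  induction k with
  | zero => simpa using h0
  | succ k ih =>
    have h1 := ih (fun i hi => hstep i (by omega)) (fun i hi => hvoid i (by omega))
    have h2 := hvoid k (by omega)
    have h3 := abs_le.mp (hstep k (by omega))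
    rw [abs_of_pos h1] at h2
    have e : s1 + ((k + 1 : ℕ) : ℤ) = s1 + k + 1 := by push_cast; ring
    rw [e]
    linarith

theorem sign_neg (f : ℤ → ℝ) (δ : ℝ) (s1 : ℤ) (k : ℕ)
    (hstep : ∀ i : ℕ, i < k → |f (s1 + i + 1) - f (s1 + i)| ≤ δ)
    (hvoid : ∀ i : ℕ, i ≤ k → δ < |f (s1 + i)|) (h0 : f s1 < 0) : f (s1 + k) < 0 := by
  have := sign_pos (fun s => - f s) δ s1 k
    (fun i hi => by
      have := hstep i hi
      rw [← abs_neg] at this
      refine le_trans (le_of_eq ?_) this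
      congr 1
      ring)
    (fun i hi => by simpa using hvoid i hi) (by simpa using h0)
  simpa using this

theorem step_sum (f : ℤ → ℝ) (δ : ℝ) (s : ℤ) (k : ℕ)
    (hstep : ∀ i : ℕ, i < k → |f (s + i + 1) - f (s + i)| ≤ δ) : |f (s + k) - f s| ≤ k * δ := by
  induction k with
  | zero => simp
  | succ k ih =>
    have h1 := abs_le.mp (ih (fun i hi => hstep i (by omega)))
    have h3 := abs_le.mp (hstep k (by omega))
    have e : s + ((k + 1 : ℕ) : ℤ) = s + k + 1 := by push_cast; ring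
    rw [e]
    push_cast
    rw [abs_le]
    constructor <;> nlinarith

/-- bootstrap lemma: rows cannot cross the line once the void is larger than the steps -/
theorem signs (Ψ : ℤ → ℤ → ℝ) (S s1 T : ℕ) (δ : ℝ) (hδ : 0 ≤ δ) (h0 : Ψ 0 0 = 0)
    (hstep : ∀ s t : ℤ, 0 ≤ s → s < S → |t| ≤ T → |Ψ (s + 1) t - Ψ s t| ≤ δ)
    (hinc : ∀ s t : ℤ, 0 ≤ s → s ≤ S → |t| ≤ T →
      1 / 2 ≤ Ψ s (t + 1) - Ψ s t ∧ Ψ s (t + 1) - Ψ s t ≤ 2)
    (hvoid : ∀ s t : ℤ, s1 ≤ s → s ≤ S → |t| ≤ T → δ < |Ψ s t|)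
    (hT : 2 * δ * s1 + 1 ≤ T) (s : ℕ) (hs : s ≤ S) : |Ψ s 0| ≤ 4 * δ * s1 + 2 := by
  have hδs : 0 ≤ δ * s1 := by positivity
  rcases Nat.lt_or_ge s s1 with h | h
  · have h1 := step_sum (fun s => Ψ s 0) δ 0 s
      (fun i hi => hstep _ _ (by omega) (by omega) (by simp))
    simp only [zero_add, h0, sub_zero] at h1
    refine h1.trans ?_
    have h2 : (s : ℝ) * δ ≤ s1 * δ := by
      apply mul_le_mul_of_nonneg_right _ hδ
      exact_mod_cast h.le
    linarith
  · -- position at s1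
    have h1 := step_sum (fun s => Ψ s 0) δ 0 s1
      (fun i hi => hstep _ _ (by omega) (by omega) (by simp))
    simp only [zero_add, h0, sub_zero] at h1
    set k : ℕ := ⌊2 * |Ψ s1 0|⌋₊ + 1 with hk
    have hk1 : 2 * |Ψ s1 0| < k := by
      rw [hk]; push_cast; exact Nat.lt_floor_add_one _
    have hk2 : (k : ℝ) ≤ 2 * |Ψ s1 0| + 1 := by
      rw [hk]; push_cast
      have := Nat.floor_le (show 0 ≤ 2 * |Ψ s1 0| by positivity)
      linarith
    have hk3 : (k : ℝ) ≤ 2 * δ * s1 + 1 := by linarith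
    have hkT : k ≤ T := by
      have : (k : ℝ) ≤ T := hk3.trans hT
      exact_mod_cast this
    have hs1S : s1 ≤ S := h.trans hs
    have hv0 := hvoid s1 0 le_rfl (by exact_mod_cast hs1S) (by simp)
    have e1 : (s1 : ℤ) + ((s - s1 : ℕ) : ℤ) = s := by omega
    have pers_pos : ∀ t : ℤ, |t| ≤ T → 0 < Ψ s1 t → 0 < Ψ s t := by
      intro t ht h0
      have := sign_pos (fun s => Ψ s t) δ s1 (s - s1)
        (fun i hi => hstep _ _ (by omega) (by omega) ht)
        (fun i hi => hvoid _ _ (by omega) (by omega) ht) h0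
      rwa [e1] at this
    have pers_neg : ∀ t : ℤ, |t| ≤ T → Ψ s1 t < 0 → Ψ s t < 0 := by
      intro t ht h0
      have := sign_neg (fun s => Ψ s t) δ s1 (s - s1)
        (fun i hi => hstep _ _ (by omega) (by omega) ht)
        (fun i hi => hvoid _ _ (by omega) (by omega) ht) h0
      rwa [e1] at this
    have hT0 : |(0 : ℤ)| ≤ T := by simp
    rcases lt_trichotomy (Ψ s1 0) 0 with hneg | hzero | hpos
    · -- Ψ s1 0 < 0 : use t = k
      have i1 := inc (fun t => Ψ s1 t) 0 k (fun i hi => hinc _ _ (by omega) (by omega)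
        (by rw [abs_of_nonneg (by omega)]; omega))
      have i2 := inc (fun t => Ψ s t) 0 k (fun i hi => hinc _ _ (by omega) (by omega)
        (by rw [abs_of_nonneg (by omega)]; omega))
      simp only [zero_add] at i1 i2
      rw [abs_of_neg hneg] at hk1 hk2
      have p1 := pers_pos k (by rw [abs_of_nonneg (by omega)]; omega) (by linarith [i1.1])
      have p2 := pers_neg 0 hT0 hneg
      rw [abs_of_neg p2]
      linarith [i2.2]
    · rw [hzero, abs_zero] at hv0
      linarith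
    · have i1 := inc (fun t => Ψ s1 t) (-k) k (fun i hi => hinc _ _ (by omega) (by omega)
        (by rw [abs_le]; constructor <;> omega))
      have i2 := inc (fun t => Ψ s t) (-k) k (fun i hi => hinc _ _ (by omega) (by omega)
        (by rw [abs_le]; constructor <;> omega))
      simp only [neg_add_cancel] at i1 i2
      rw [abs_of_pos hpos] at hk1 hk2
      have p1 := pers_neg (-k) (by rw [abs_le]; constructor <;> omega) (by linarith [i1.1])
      have p2 := pers_pos 0 hT0 hpos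
      rw [abs_of_pos p2]
      linarith [i2.2]

end Pool.Agent.Lib.MP_a768d2_coT
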