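import Pool.Agent.Lib.MP_a768d2_co.GeoB

/-! # Slowly varying lattices: basic notions -/

namespace Pool.Agent.Lib.MP_a768d2_co.SL

noncomputable section

/-! ## sup norm of integer vectors -/

theorem nz_nonneg (x : ℤ × ℤ) : 0 ≤ nz x := (abs_nonneg _).trans (le_max_left _ _)

theorem nz_add (x y : ℤ × ℤ) : nz (x + y) ≤ nz x + nz y := by
  unfold nz
  refine max_le ?_ ?_
  · exact (abs_add_le _ _).trans (add_le_add (le_max_left _ _) (le_max_left _ _))
  · exact (abs_add_le _ _).trans (add_le_add (le_max_right _ _) (le_max_right _ _))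

theorem nz_neg (x : ℤ × ℤ) : nz (-x) = nz x := by
  unfold nz; simp

theorem nz_sub (x y : ℤ × ℤ) : nz (x - y) ≤ nz x + nz y := by
  rw [sub_eq_add_neg, ← nz_neg y]; exact nz_add _ _

theorem nz_smul (k : ℤ) (x : ℤ × ℤ) : nz (k • x) = |k| * nz x := by
  unfold nz
  simp only [Prod.smul_fst, Prod.smul_snd, smul_eq_mul, abs_mul]
  exact (mul_max_of_nonneg _ _ (abs_nonneg k)).symm

theorem nz_zero : nz 0 = 0 := by simp [nz]

theorem nz_e0 : nz ((1, 0) : ℤ × ℤ) = 1 := by simp [nz]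

theorem nz_e1 : nz ((0, 1) : ℤ × ℤ) = 1 := by simp [nz]

theorem abs_fst_le (x : ℤ × ℤ) : |x.1| ≤ nz x := le_max_left _ _

theorem abs_snd_le (x : ℤ × ℤ) : |x.2| ≤ nz x := le_max_right _ _

theorem nz_pos {x : ℤ × ℤ} (h : x ≠ 0) : 1 ≤ nz x := by
  by_contra hc
  push Not at hc
  have h1 := abs_fst_le x
  have h2 := abs_snd_le x
  apply h
  have h3 : x.1 = 0 := by rw [← abs_eq_zero]; have := abs_nonneg x.1; omega
  have h4 : x.2 = 0 := by rw [← abs_eq_zero]; have := abs_nonneg x.2; omega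
  exact Prod.ext h3 h4

/-! ## paths -/

theorem path1 (f : ℤ → ℂ) (K : ℝ) (a b : ℤ) (hab : a ≤ b)
    (h : ∀ i, a ≤ i → i < b → ‖f (i + 1) - f i‖ ≤ K) : ‖f b - f a‖ ≤ ((b - a : ℤ) : ℝ) * K := by
  induction b, hab using Int.leInduction with
  | base => simp
  | succ b hab ih =>
    have h1 := ih (fun i h1 h2 => h i h1 (by omega))
    have h2 := h b hab (by omega)
    calc ‖f (b + 1) - f a‖ = ‖(f (b + 1) - f b) + (f b - f a)‖ := by congr 1; ring
      _ ≤ ‖f (b + 1) - f b‖ + ‖f b - f a‖ := norm_add_le _ _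
      _ ≤ K + ((b - a : ℤ) : ℝ) * K := add_le_add h2 h1
      _ = ((b + 1 - a : ℤ) : ℝ) * K := by push_cast; ring

theorem path1' (f : ℤ → ℂ) (K : ℝ) (a b lo hi : ℤ) (ha : lo ≤ a ∧ a ≤ hi) (hb : lo ≤ b ∧ b ≤ hi)
    (h : ∀ i, lo ≤ i → i < hi → ‖f (i + 1) - f i‖ ≤ K) : ‖f b - f a‖ ≤ |((b - a : ℤ) : ℝ)| * K := by
  rcases le_total a b with hab | hab
  · have h1 := path1 f K a b hab (fun i h1 h2 => h i (by omega) (by omega))
    have h2 : (0 : ℝ) ≤ ((b - a : ℤ) : ℝ) := by exact_mod_cast (by omega : (0 : ℤ) ≤ b - a)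
    rw [abs_of_nonneg h2]; exact h1
  · have h1 := path1 f K b a hab (fun i h1 h2 => h i (by omega) (by omega))
    have h2 : ((b - a : ℤ) : ℝ) ≤ 0 := by exact_mod_cast (by omega : (b - a : ℤ) ≤ 0)
    rw [abs_of_nonpos h2, norm_sub_rev]
    refine h1.trans (le_of_eq ?_)
    push_cast; ring

/-- two dimensional path lemma in the ball of radius `L` about `o` -/
theorem path2 (f : ℤ × ℤ → ℂ) (K : ℝ) (hK : 0 ≤ K) (L : ℤ) (o : ℤ × ℤ)
    (h0 : ∀ y, nz (y - o) ≤ L → nz (y + (1, 0) - o) ≤ L → ‖f (y + (1, 0)) - f y‖ ≤ K)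
    (h1 : ∀ y, nz (y - o) ≤ L → nz (y + (0, 1) - o) ≤ L → ‖f (y + (0, 1)) - f y‖ ≤ K)
    (y y' : ℤ × ℤ) (hy : nz (y - o) ≤ L) (hy' : nz (y' - o) ≤ L) :
    ‖f y' - f y‖ ≤ 2 * nz (y' - y) * K := by
  have a1 := (abs_fst_le (y - o)).trans hy
  have a2 := (abs_snd_le (y - o)).trans hy
  have b1 := (abs_fst_le (y' - o)).trans hy'
  have b2 := (abs_snd_le (y' - o)).trans hy'
  simp only [Prod.fst_sub, Prod.snd_sub] at a1 a2 b1 b2
  rw [abs_le] at a1 a2 b1 b2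
  have e1 : ‖f (y'.1, y.2) - f (y.1, y.2)‖ ≤ |((y'.1 - y.1 : ℤ) : ℝ)| * K := by
    refine path1' (fun i => f (i, y.2)) K y.1 y'.1 (o.1 - L) (o.1 + L) (by omega) (by omega) ?_
    intro i hi1 hi2
    have := h0 (i, y.2) (by
      unfold nz; simp only [Prod.fst_sub, Prod.snd_sub]
      exact max_le (abs_le.mpr (by omega)) (abs_le.mpr (by omega))) (by
      unfold nz; simp only [Prod.fst_sub, Prod.snd_sub, Prod.fst_add, Prod.snd_add]
      exact max_le (abs_le.mpr (by omega)) (abs_le.mpr (by omega)))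
    simpa using this
  have e2 : ‖f (y'.1, y'.2) - f (y'.1, y.2)‖ ≤ |((y'.2 - y.2 : ℤ) : ℝ)| * K := by
    refine path1' (fun i => f (y'.1, i)) K y.2 y'.2 (o.2 - L) (o.2 + L) (by omega) (by omega) ?_
    intro i hi1 hi2
    have := h1 (y'.1, i) (by
      unfold nz; simp only [Prod.fst_sub, Prod.snd_sub]
      exact max_le (abs_le.mpr (by omega)) (abs_le.mpr (by omega))) (by
      unfold nz; simp only [Prod.fst_sub, Prod.snd_sub, Prod.fst_add, Prod.snd_add]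
      exact max_le (abs_le.mpr (by omega)) (abs_le.mpr (by omega)))
    simpa using this
  have c1 : |((y'.1 - y.1 : ℤ) : ℝ)| ≤ nz (y' - y) := by
    have := abs_fst_le (y' - y)
    rw [Prod.fst_sub] at this
    exact_mod_cast this
  have c2 : |((y'.2 - y.2 : ℤ) : ℝ)| ≤ nz (y' - y) := by
    have := abs_snd_le (y' - y)
    rw [Prod.snd_sub] at this
    exact_mod_cast this
  have e3 : f y' - f y = (f (y'.1, y'.2) - f (y'.1, y.2)) + (f (y'.1, y.2) - f (y.1, y.2)) := by ring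
  rw [e3]
  calc _ ≤ |((y'.2 - y.2 : ℤ) : ℝ)| * K + |((y'.1 - y.1 : ℤ) : ℝ)| * K := (norm_add_le _ _).trans (add_le_add e2 e1)
    _ ≤ nz (y' - y) * K + nz (y' - y) * K :=
        add_le_add (mul_le_mul_of_nonneg_right c2 hK) (mul_le_mul_of_nonneg_right c1 hK)
    _ = 2 * nz (y' - y) * K := by ring

/-! ## slowly varying arrays -/

/-- the difference in direction `e` -/
def F (P : ℤ × ℤ → ℂ) (e y : ℤ × ℤ) : ℂ := P (y + e) - P y

/-- a slowly varying array on the box `nz y ≤ M` -/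
structure Slow (M : ℤ) (C ε : ℝ) (P : ℤ × ℤ → ℂ) : Prop where
  hC : 1 ≤ C
  hε : 0 ≤ ε
  hU : ∀ y, nz y + 1 ≤ M → ‖F P (1, 0) y‖ ≤ C
  hV : ∀ y, nz y + 1 ≤ M → ‖F P (0, 1) y‖ ≤ C
  hdet : ∀ y, nz y + 1 ≤ M → 1 / C ≤ det2 (F P (1, 0) y) (F P (0, 1) y)
  hU0 : ∀ y, nz y + 1 ≤ M → nz (y + (1, 0)) + 1 ≤ M → ‖F P (1, 0) (y + (1, 0)) - F P (1, 0) y‖ ≤ ε
  hU1 : ∀ y, nz y + 1 ≤ M → nz (y + (0, 1)) + 1 ≤ M → ‖F P (1, 0) (y + (0, 1)) - F P (1, 0) y‖ ≤ ε
  hV0 : ∀ y, nz y + 1 ≤ M → nz (y + (1, 0)) + 1 ≤ M → ‖F P (0, 1) (y + (1, 0)) - F P (0, 1) y‖ ≤ ε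
  hV1 : ∀ y, nz y + 1 ≤ M → nz (y + (0, 1)) + 1 ≤ M → ‖F P (0, 1) (y + (0, 1)) - F P (0, 1) y‖ ≤ ε

theorem Slow.mono {M : ℤ} {C ε ε' : ℝ} {P : ℤ × ℤ → ℂ} (S : Slow M C ε P) (h : ε ≤ ε') : Slow M C ε' P :=
  ⟨S.hC, S.hε.trans h, S.hU, S.hV, S.hdet, fun y h1 h2 => (S.hU0 y h1 h2).trans h,
    fun y h1 h2 => (S.hU1 y h1 h2).trans h, fun y h1 h2 => (S.hV0 y h1 h2).trans h,
    fun y h1 h2 => (S.hV1 y h1 h2).trans h⟩

variable {M : ℤ} {C ε : ℝ} {P : ℤ × ℤ → ℂ}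

theorem Slow.U_sub (S : Slow M C ε P) {y y' : ℤ × ℤ} (hy : nz y + 1 ≤ M) (hy' : nz y' + 1 ≤ M) :
    ‖F P (1, 0) y' - F P (1, 0) y‖ ≤ 2 * nz (y' - y) * ε := by
  refine path2 (F P (1, 0)) ε S.hε (M - 1) 0 ?_ ?_ y y' (by rw [sub_zero]; omega) (by rw [sub_zero]; omega)
  · intro z h1 h2
    rw [sub_zero] at h1 h2
    exact S.hU0 z (by omega) (by omega)
  · intro z h1 h2
    rw [sub_zero] at h1 h2
    exact S.hU1 z (by omega) (by omega)

theorem Slow.V_sub (S : Slow M C ε P) {y y' : ℤ × ℤ} (hy : nz y + 1 ≤ M) (hy' : nz y' + 1 ≤ M) :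
    ‖F P (0, 1) y' - F P (0, 1) y‖ ≤ 2 * nz (y' - y) * ε := by
  refine path2 (F P (0, 1)) ε S.hε (M - 1) 0 ?_ ?_ y y' (by rw [sub_zero]; omega) (by rw [sub_zero]; omega)
  · intro z h1 h2
    rw [sub_zero] at h1 h2
    exact S.hV0 z (by omega) (by omega)
  · intro z h1 h2
    rw [sub_zero] at h1 h2
    exact S.hV1 z (by omega) (by omega)

theorem Slow.P_sub (S : Slow M C ε P) {y y' : ℤ × ℤ} (hy : nz y + 1 ≤ M) (hy' : nz y' + 1 ≤ M) :
    ‖P y' - P y‖ ≤ 2 * nz (y' - y) * C := by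
  refine path2 P C (by linarith [S.hC]) (M - 1) 0 ?_ ?_ y y' (by rw [sub_zero]; omega) (by rw [sub_zero]; omega)
  · intro z h1 _
    rw [sub_zero] at h1
    exact S.hU z (by omega)
  · intro z h1 _
    rw [sub_zero] at h1
    exact S.hV z (by omega)

/-- local affine approximation -/
theorem Slow.approx (S : Slow M C ε P) {y m : ℤ × ℤ} {R : ℤ} (hR : nz m ≤ R) (hy : nz y + R + 1 ≤ M) :
    ‖P (y + m) - P y - (m.1 * F P (1, 0) y + m.2 * F P (0, 1) y)‖ ≤ 4 * R ^ 2 * ε := by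
  have hR0 : 0 ≤ R := (nz_nonneg m).trans hR
  have hRR : (0 : ℝ) ≤ R := by exact_mod_cast hR0
  have hb : ∀ z : ℤ × ℤ, nz z ≤ R → nz (y + z) + 1 ≤ M := by
    intro z hz
    have := nz_add y z
    omega
  have hy1 : nz y + 1 ≤ M := by omega
  have h := path2 (fun z => P (y + z) - (z.1 * F P (1, 0) y + z.2 * F P (0, 1) y)) (2 * R * ε)
    (by have := S.hε; positivity) R 0 ?_ ?_ 0 m (by rw [sub_zero, nz_zero]; exact hR0) (by rw [sub_zero]; exact hR)
  · simp only [add_zero, Prod.fst_zero, Prod.snd_zero, Int.cast_zero, zero_mul, sub_zero] at h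
    have e : P (y + m) - P y - (m.1 * F P (1, 0) y + m.2 * F P (0, 1) y) =
        P (y + m) - (m.1 * F P (1, 0) y + m.2 * F P (0, 1) y) - P y := by ring
    rw [e]
    refine h.trans ?_
    have h2 : (nz m : ℝ) ≤ R := by exact_mod_cast hR
    have h3 : 2 * (nz m : ℝ) * (2 * R * ε) ≤ 2 * R * (2 * R * ε) := by
      refine mul_le_mul_of_nonneg_right (by linarith) ?_
      have := S.hε; positivity
    refine h3.trans (le_of_eq ?_)
    ring
  · intro z h1 _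
    rw [sub_zero] at h1
    simp only [Prod.fst_add, Prod.snd_add, add_zero]
    have e : P (y + (z + (1, 0))) - (((z.1 + 1 : ℤ) : ℂ) * F P (1, 0) y + z.2 * F P (0, 1) y) -
        (P (y + z) - (z.1 * F P (1, 0) y + z.2 * F P (0, 1) y)) = F P (1, 0) (y + z) - F P (1, 0) y := by
      have e2 : F P (1, 0) (y + z) = P (y + (z + (1, 0))) - P (y + z) := by
        unfold F; rw [add_assoc]
      rw [e2]
      push_cast
      ring
    rw [e]
    refine (S.U_sub hy1 (hb z h1)).trans ?_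
    rw [add_sub_cancel_left]
    have h2 : (nz z : ℝ) ≤ R := by exact_mod_cast h1
    exact mul_le_mul_of_nonneg_right (by linarith) S.hε
  · intro z h1 _
    rw [sub_zero] at h1
    simp only [Prod.fst_add, Prod.snd_add, add_zero]
    have e : P (y + (z + (0, 1))) - (z.1 * F P (1, 0) y + ((z.2 + 1 : ℤ) : ℂ) * F P (0, 1) y) -
        (P (y + z) - (z.1 * F P (1, 0) y + z.2 * F P (0, 1) y)) = F P (0, 1) (y + z) - F P (0, 1) y := by
      have e2 : F P (0, 1) (y + z) = P (y + (z + (0, 1))) - P (y + z) := by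
        unfold F; rw [add_assoc]
      rw [e2]
      push_cast
      ring
    rw [e]
    refine (S.V_sub hy1 (hb z h1)).trans ?_
    rw [add_sub_cancel_left]
    have h2 : (nz z : ℝ) ≤ R := by exact_mod_cast h1
    exact mul_le_mul_of_nonneg_right (by linarith) S.hε

/-- slow variation of `F e` -/
theorem Slow.F_sub (S : Slow M C ε P) {e y y' : ℤ × ℤ} (hy : nz y + nz e + 1 ≤ M) (hy' : nz y' + nz e + 1 ≤ M) :
    ‖F P e y' - F P e y‖ ≤ 2 * nz (y' - y) * (2 * nz e * ε) := by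
  have he := nz_nonneg e
  have heR : (0 : ℝ) ≤ nz e := by exact_mod_cast he
  have hb : ∀ z, nz z + nz e + 1 ≤ M → nz (z + e) + 1 ≤ M := by
    intro z hz
    have := nz_add z e
    omega
  refine path2 (F P e) (2 * nz e * ε) (by have := S.hε; positivity) (M - nz e - 1) 0 ?_ ?_ y y'
    (by rw [sub_zero]; omega) (by rw [sub_zero]; omega)
  · intro z h1 h2
    rw [sub_zero] at h1 h2
    have e1 : F P e (z + (1, 0)) - F P e z = F P (1, 0) (z + e) - F P (1, 0) z := by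
      unfold F
      have : z + (1, 0) + e = z + e + (1, 0) := by abel
      rw [this]; ring
    rw [e1]
    refine (S.U_sub (by omega) (hb z (by omega))).trans (le_of_eq ?_)
    rw [add_sub_cancel_left]
  · intro z h1 h2
    rw [sub_zero] at h1 h2
    have e1 : F P e (z + (0, 1)) - F P e z = F P (0, 1) (z + e) - F P (0, 1) z := by
      unfold F
      have : z + (0, 1) + e = z + e + (0, 1) := by abel
      rw [this]; ring
    rw [e1]
    refine (S.V_sub (by omega) (hb z (by omega))).trans (le_of_eq ?_)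
    rw [add_sub_cancel_left]

end

end Pool.Agent.Lib.MP_a768d2_co.SL
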