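import Pool.Agent.Lib.MP_a768d2_coT.SlA

/-! # Slowly varying lattices: rounding, voids and rational directions -/

namespace Pool.Agent.Lib.MP_a768d2_co.SL

noncomputable section

/-- the component along `d` -/
def chi (d w : ℂ) : ℝ := d.re * w.re + d.im * w.im

theorem det2_add (d w w' : ℂ) : det2 d (w + w') = det2 d w + det2 d w' := by
  simp only [det2, Complex.add_re, Complex.add_im]; ring

theorem det2_sub (d w w' : ℂ) : det2 d (w - w') = det2 d w - det2 d w' := by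
  simp only [det2, Complex.sub_re, Complex.sub_im]; ring

theorem det2_int_mul (d w : ℂ) (k : ℤ) : det2 d ((k : ℂ) * w) = k * det2 d w := by
  simp only [det2, Complex.mul_re, Complex.mul_im, Complex.intCast_re, Complex.intCast_im]; ring

theorem det2_real_mul (d w : ℂ) (k : ℝ) : det2 d ((k : ℂ) * w) = k * det2 d w := by
  simp only [det2, Complex.mul_re, Complex.mul_im, Complex.ofReal_re, Complex.ofReal_im]; ring

theorem det2_real_mul' (d w : ℂ) (k : ℝ) : det2 ((k : ℂ) * d) w = k * det2 d w := by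
  simp only [det2, Complex.mul_re, Complex.mul_im, Complex.ofReal_re, Complex.ofReal_im]; ring

theorem det2_self (d : ℂ) : det2 d d = 0 := by
  simp only [det2]; ring

theorem chi_add (d w w' : ℂ) : chi d (w + w') = chi d w + chi d w' := by
  simp only [chi, Complex.add_re, Complex.add_im]; ring

theorem chi_sub (d w w' : ℂ) : chi d (w - w') = chi d w - chi d w' := by
  simp only [chi, Complex.sub_re, Complex.sub_im]; ring

theorem chi_int_mul (d w : ℂ) (k : ℤ) : chi d ((k : ℂ) * w) = k * chi d w := by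
  simp only [chi, Complex.mul_re, Complex.mul_im, Complex.intCast_re, Complex.intCast_im]; ring

theorem chi_real_mul (d w : ℂ) (k : ℝ) : chi d ((k : ℂ) * w) = k * chi d w := by
  simp only [chi, Complex.mul_re, Complex.mul_im, Complex.ofReal_re, Complex.ofReal_im]; ring

theorem norm_sq_eq (d w : ℂ) : (‖d‖ * ‖w‖) ^ 2 = det2 d w ^ 2 + chi d w ^ 2 := by
  rw [mul_pow, Complex.sq_norm, Complex.sq_norm, Complex.normSq_apply, Complex.normSq_apply]
  simp only [det2, chi]; ring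

theorem det2_le (d w : ℂ) : |det2 d w| ≤ ‖d‖ * ‖w‖ := by
  apply abs_le_of_sq_le_sq _ (by positivity)
  rw [norm_sq_eq]; nlinarith [sq_nonneg (chi d w)]

theorem chi_le (d w : ℂ) : |chi d w| ≤ ‖d‖ * ‖w‖ := by
  apply abs_le_of_sq_le_sq _ (by positivity)
  rw [norm_sq_eq]; nlinarith [sq_nonneg (det2 d w)]

theorem norm_le_add (d w : ℂ) : ‖d‖ * ‖w‖ ≤ |det2 d w| + |chi d w| := by
  apply le_of_sq_le_sq _ (by positivity)
  rw [norm_sq_eq, add_sq, sq_abs, sq_abs]
  have : 0 ≤ 2 * |det2 d w| * |chi d w| := by positivity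
  linarith

/-- decomposition of a determinant along a unit vector -/
theorem det2_decomp (d v w : ℂ) : ‖d‖ ^ 2 * det2 v w = chi d v * det2 d w - det2 d v * chi d w := by
  rw [Complex.sq_norm, Complex.normSq_apply]
  simp only [det2, chi]; ring

/-- every vector is near an integer combination of the frame -/
theorem rounding {C : ℝ} (hC : 1 ≤ C) {U V : ℂ} (hU : ‖U‖ ≤ C) (hV : ‖V‖ ≤ C) (hdet : 1 / C ≤ det2 U V)
    (w : ℂ) : ∃ m : ℤ × ℤ, (nz m : ℝ) ≤ C ^ 2 * ‖w‖ + 1 ∧ ‖(m.1 * U + m.2 * V) - w‖ ≤ C := by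
  have hC0 : 0 < C := by linarith
  have hD : 0 < det2 U V := lt_of_lt_of_le (by positivity) hdet
  obtain ⟨α, hα⟩ : ∃ α, α = det2 w V / det2 U V := ⟨_, rfl⟩
  obtain ⟨β, hβ⟩ : ∃ β, β = det2 U w / det2 U V := ⟨_, rfl⟩
  have hw : (α : ℂ) * U + (β : ℂ) * V = w := by
    have e1 : α * det2 U V = det2 w V := by rw [hα]; field_simp
    have e2 : β * det2 U V = det2 U w := by rw [hβ]; field_simp
    apply Complex.ext
    · simp only [Complex.add_re, Complex.mul_re, Complex.ofReal_re, Complex.ofReal_im, zero_mul, sub_zero]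
      have : (α * U.re + β * V.re) * det2 U V = w.re * det2 U V := by
        calc (α * U.re + β * V.re) * det2 U V = (α * det2 U V) * U.re + (β * det2 U V) * V.re := by ring
          _ = det2 w V * U.re + det2 U w * V.re := by rw [e1, e2]
          _ = _ := by simp only [det2]; ring
      exact mul_right_cancel₀ hD.ne' this
    · simp only [Complex.add_im, Complex.mul_im, Complex.ofReal_re, Complex.ofReal_im, zero_mul, add_zero]
      have : (α * U.im + β * V.im) * det2 U V = w.im * det2 U V := by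
        calc (α * U.im + β * V.im) * det2 U V = (α * det2 U V) * U.im + (β * det2 U V) * V.im := by ring
          _ = det2 w V * U.im + det2 U w * V.im := by rw [e1, e2]
          _ = _ := by simp only [det2]; ring
      exact mul_right_cancel₀ hD.ne' this
  have hinv : 1 ≤ C * det2 U V := by
    have := mul_le_mul_of_nonneg_left hdet hC0.le
    rwa [mul_one_div_cancel hC0.ne'] at this
  have hαb : |α| ≤ C ^ 2 * ‖w‖ := by
    rw [hα, abs_div, abs_of_pos hD, div_le_iff₀ hD]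
    have h1 := det2_le w V
    have h2 : ‖w‖ * ‖V‖ ≤ ‖w‖ * C := mul_le_mul_of_nonneg_left hV (norm_nonneg _)
    have h3 : ‖w‖ * C * 1 ≤ ‖w‖ * C * (C * det2 U V) := mul_le_mul_of_nonneg_left hinv (by positivity)
    nlinarith
  have hβb : |β| ≤ C ^ 2 * ‖w‖ := by
    rw [hβ, abs_div, abs_of_pos hD, div_le_iff₀ hD]
    have h1 := det2_le U w
    have h2 : ‖U‖ * ‖w‖ ≤ C * ‖w‖ := mul_le_mul_of_nonneg_right hU (norm_nonneg _)
    have h3 : C * ‖w‖ * 1 ≤ C * ‖w‖ * (C * det2 U V) := mul_le_mul_of_nonneg_left hinv (by positivity)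
    nlinarith
  refine ⟨(round α, round β), ?_, ?_⟩
  · have h1 := abs_sub_round α
    have h2 := abs_sub_round β
    have b1 : |(round α : ℝ)| ≤ C ^ 2 * ‖w‖ + 1 := by
      have : |(round α : ℝ)| ≤ |α| + |α - round α| := by
        calc |(round α : ℝ)| = |α - (α - round α)| := by ring_nf
          _ ≤ |α| + |α - round α| := abs_sub _ _
      linarith
    have b2 : |(round β : ℝ)| ≤ C ^ 2 * ‖w‖ + 1 := by
      have : |(round β : ℝ)| ≤ |β| + |β - round β| := by
        calc |(round β : ℝ)| = |β - (β - round β)| := by ring_nf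
          _ ≤ |β| + |β - round β| := abs_sub _ _
      linarith
    unfold nz
    push_cast
    exact max_le b1 b2
  · have h1 := abs_sub_round α
    have h2 := abs_sub_round β
    have e : (((round α, round β) : ℤ × ℤ).1 : ℂ) * U + (((round α, round β) : ℤ × ℤ).2 : ℂ) * V - w =
        (((round α - α : ℝ)) : ℂ) * U + (((round β - β : ℝ)) : ℂ) * V := by
      rw [← hw]; push_cast; ring
    rw [e]
    calc _ ≤ ‖(((round α - α : ℝ)) : ℂ) * U‖ + ‖(((round β - β : ℝ)) : ℂ) * V‖ := norm_add_le _ _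
      _ = |(round α : ℝ) - α| * ‖U‖ + |(round β : ℝ) - β| * ‖V‖ := by
          rw [norm_mul, norm_mul, Complex.norm_real, Complex.norm_real, Real.norm_eq_abs, Real.norm_eq_abs]
      _ ≤ 1 / 2 * C + 1 / 2 * C := by
          rw [abs_sub_comm, abs_sub_comm (round β : ℝ)]
          exact add_le_add (mul_le_mul h1 hU (norm_nonneg _) (by norm_num))
            (mul_le_mul h2 hV (norm_nonneg _) (by norm_num))
      _ = C := by ring

/-- Dirichlet: an integer vector almost orthogonal to `(p, q)` -/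
theorem dirichlet (p q : ℝ) (Q : ℕ) (hQ : 1 ≤ Q) : ∃ u : ℤ × ℤ, Int.gcd u.1 u.2 = 1 ∧ nz u ≤ Q + 1 ∧
    |u.1 * p + u.2 * q| ≤ max |p| |q| / (Q + 1) := by
  -- one case
  have main : ∀ p q : ℝ, |p| ≤ |q| → ∃ u : ℤ × ℤ, Int.gcd u.1 u.2 = 1 ∧ nz u ≤ Q + 1 ∧
      |u.1 * p + u.2 * q| ≤ |q| / (Q + 1) := by
    intro p q hpq
    rcases eq_or_ne q 0 with hq | hq
    · subst hq
      have hp : p = 0 := by rw [abs_zero] at hpq; exact abs_eq_zero.mp (le_antisymm hpq (abs_nonneg _))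
      subst hp
      refine ⟨(1, 0), by simp, ?_, by simp⟩
      rw [nz_e0]; omega
    · obtain ⟨r, hr1, hr2⟩ := Real.exists_rat_abs_sub_le_and_den_le (p / q) (by omega : 0 < Q)
      have hd : (0 : ℝ) < r.den := by exact_mod_cast r.den_pos
      have hpq1 : |p / q| ≤ 1 := by
        rw [abs_div]; exact div_le_one_of_le₀ hpq (abs_nonneg _)
      have hQ1 : (0 : ℝ) < (Q : ℝ) + 1 := by positivity
      have hr3 : |(r.den : ℝ) * (p / q) - r.num| ≤ 1 / (Q + 1) := by
        have e : (r.den : ℝ) * (p / q) - r.num = r.den * (p / q - r) := by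
          have : (r : ℝ) = r.num / r.den := by exact_mod_cast (Rat.num_div_den r).symm
          rw [this]; field_simp
        rw [e, abs_mul, abs_of_pos hd]
        calc (r.den : ℝ) * |p / q - r| ≤ r.den * (1 / ((Q + 1) * r.den)) := mul_le_mul_of_nonneg_left hr1 hd.le
          _ = 1 / (Q + 1) := by field_simp
      refine ⟨((r.den : ℤ), -r.num), ?_, ?_, ?_⟩
      · simp only
        rw [Int.gcd_neg]
        have := r.reduced
        rw [Int.gcd_comm]
        simpa [Int.gcd, Nat.Coprime] using this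
      · have hnum : |(r.num : ℝ)| ≤ Q + 1 := by
          have h1 : |(r.num : ℝ)| ≤ |(r.den : ℝ) * (p / q)| + |(r.den : ℝ) * (p / q) - r.num| := by
            calc |(r.num : ℝ)| = |(r.den : ℝ) * (p / q) - ((r.den : ℝ) * (p / q) - r.num)| := by ring_nf
              _ ≤ _ := abs_sub _ _
          have h2 : |(r.den : ℝ) * (p / q)| ≤ Q := by
            rw [abs_mul, abs_of_pos hd]
            have : (r.den : ℝ) ≤ Q := by exact_mod_cast hr2
            calc (r.den : ℝ) * |p / q| ≤ Q * 1 := mul_le_mul this hpq1 (abs_nonneg _) (by positivity)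
              _ = Q := mul_one _
          have h3 : 1 / ((Q : ℝ) + 1) ≤ 1 := by
            rw [div_le_one hQ1]; linarith [show (0 : ℝ) ≤ Q by positivity]
          linarith
        unfold nz
        simp only [abs_neg]
        refine max_le ?_ ?_
        · rw [abs_of_nonneg (by positivity)]; exact_mod_cast (by omega : r.den ≤ Q + 1)
        · exact_mod_cast hnum
      · have e : (((r.den : ℤ), -r.num) : ℤ × ℤ).1 * p + (((r.den : ℤ), -r.num) : ℤ × ℤ).2 * q =
            q * ((r.den : ℝ) * (p / q) - r.num) := by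
          push_cast; field_simp; ring
        rw [e, abs_mul]
        calc |q| * _ ≤ |q| * (1 / (Q + 1)) := mul_le_mul_of_nonneg_left hr3 (abs_nonneg _)
          _ = |q| / (Q + 1) := by ring
  rcases le_total |p| |q| with h | h
  · obtain ⟨u, h1, h2, h3⟩ := main p q h
    exact ⟨u, h1, h2, by rw [max_eq_right h]; exact h3⟩
  · obtain ⟨u, h1, h2, h3⟩ := main q p h
    refine ⟨(u.2, u.1), ?_, ?_, ?_⟩
    · simp only; rw [Int.gcd_comm]; exact h1
    · unfold nz at h2 ⊢; simp only; rw [max_comm]; exact h2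
    · rw [max_eq_left h]; simp only; rw [add_comm]; exact h3

/-- voids force a rational direction -/
theorem lock1 {C η σ B p q ψ : ℝ} (Q R : ℕ) (hQ : 1 ≤ Q) (hp : |p| ≤ C) (hq : |q| ≤ C)
    (hσ : 0 < σ) (hψ : |ψ| ≤ B) (hQη : C < η * (Q + 1)) (hR : (Q + 1) * (B / σ + 1) ≤ R)
    (hvoid : ∀ m : ℤ × ℤ, nz m ≤ R → η ≤ |ψ + (m.1 * p + m.2 * q)|) :
    ∃ u : ℤ × ℤ, Int.gcd u.1 u.2 = 1 ∧ nz u ≤ Q + 1 ∧ |u.1 * p + u.2 * q| ≤ σ := by
  obtain ⟨u, h1, h2, h3⟩ := dirichlet p q Q hQ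
  refine ⟨u, h1, h2, ?_⟩
  by_contra hcon
  push Not at hcon
  obtain ⟨θ, hθ⟩ : ∃ θ, θ = u.1 * p + u.2 * q := ⟨_, rfl⟩
  rw [← hθ] at hcon h3
  have hQ1 : (0 : ℝ) < (Q : ℝ) + 1 := by positivity
  have hθ0 : 0 < |θ| := hσ.trans hcon
  have hθne : θ ≠ 0 := abs_pos.mp hθ0
  have hθη : |θ| < η := by
    refine lt_of_le_of_lt h3 ?_
    rw [div_lt_iff₀ hQ1]
    exact lt_of_le_of_lt (max_le hp hq) hQη
  obtain ⟨k, hk⟩ : ∃ k : ℤ, k = -round (ψ / θ) := ⟨_, rfl⟩
  have hk1 : |ψ + k * θ| ≤ |θ| / 2 := by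
    have h5 := abs_sub_round (ψ / θ)
    have e : ψ + k * θ = θ * (ψ / θ - round (ψ / θ)) := by
      rw [hk]; push_cast; field_simp; ring
    rw [e, abs_mul]
    calc |θ| * _ ≤ |θ| * (1 / 2) := mul_le_mul_of_nonneg_left h5 hθ0.le
      _ = |θ| / 2 := by ring
  have hk2 : |(k : ℝ)| ≤ B / σ + 1 := by
    have h5 := abs_sub_round (ψ / θ)
    have h6 : |(k : ℝ)| ≤ |ψ / θ| + |ψ / θ - round (ψ / θ)| := by
      rw [hk]; push_cast; rw [abs_neg]
      calc |(round (ψ / θ) : ℝ)| = |ψ / θ - (ψ / θ - round (ψ / θ))| := by ring_nf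
        _ ≤ _ := abs_sub _ _
    have h7 : |ψ / θ| ≤ B / σ := by
      rw [abs_div]
      exact div_le_div₀ ((abs_nonneg _).trans hψ) hψ hσ hcon.le
    linarith
  have hm : nz (k • u) ≤ R := by
    rw [nz_smul]
    have h8 : ((|k| * nz u : ℤ) : ℝ) ≤ R := by
      push_cast
      have h9 : (nz u : ℝ) ≤ Q + 1 := by exact_mod_cast h2
      have h10 : (0 : ℝ) ≤ nz u := by exact_mod_cast nz_nonneg u
      calc |(k : ℝ)| * nz u ≤ (B / σ + 1) * (Q + 1) := mul_le_mul hk2 h9 h10 (le_trans (abs_nonneg _) hk2)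
        _ ≤ R := by linarith
    exact_mod_cast h8
  have := hvoid (k • u) hm
  have e : ψ + (((k • u).1 : ℝ) * p + ((k • u).2 : ℝ) * q) = ψ + k * θ := by
    simp only [Prod.smul_fst, Prod.smul_snd, smul_eq_mul]
    push_cast
    rw [hθ]; ring
  rw [e] at this
  linarith

/-- uniqueness of the rational direction -/
theorem uniq {s p q A : ℝ} (hA : 0 < A) (hpq : 1 / A ≤ |p| + |q|) {u u' : ℤ × ℤ} {Q : ℝ}
    (hu : Int.gcd u.1 u.2 = 1) (hu' : Int.gcd u'.1 u'.2 = 1) (hQ : (nz u : ℝ) ≤ Q) (hQ' : (nz u' : ℝ) ≤ Q)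
    (h1 : |u.1 * p + u.2 * q| ≤ s) (h2 : |u'.1 * p + u'.2 * q| ≤ s) (hs : 4 * Q * s * A < 1) :
    u' = u ∨ u' = -u := by
  obtain ⟨D, hD⟩ : ∃ D : ℤ, D = u.1 * u'.2 - u.2 * u'.1 := ⟨_, rfl⟩
  have hQ0 : 0 ≤ Q := le_trans (by exact_mod_cast nz_nonneg u) hQ
  have hs0 : 0 ≤ s := (abs_nonneg _).trans h1
  have b : ∀ x : ℤ × ℤ, (nz x : ℝ) ≤ Q → |(x.1 : ℝ)| ≤ Q ∧ |(x.2 : ℝ)| ≤ Q := by
    intro x hx
    have h3 := abs_fst_le x
    have h4 := abs_snd_le x
    constructor
    · exact le_trans (by exact_mod_cast h3) hx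
    · exact le_trans (by exact_mod_cast h4) hx
  obtain ⟨c1, c2⟩ := b u hQ
  obtain ⟨c3, c4⟩ := b u' hQ'
  have e1 : |(D : ℝ) * p| ≤ 2 * Q * s := by
    have : (D : ℝ) * p = (u.1 * p + u.2 * q) * u'.2 - (u'.1 * p + u'.2 * q) * u.2 := by
      rw [hD]; push_cast; ring
    rw [this]
    refine (abs_sub _ _).trans ?_
    rw [abs_mul, abs_mul]
    have h5 := mul_le_mul h1 c4 (abs_nonneg _) hs0
    have h6 := mul_le_mul h2 c2 (abs_nonneg _) hs0
    linarith
  have e2 : |(D : ℝ) * q| ≤ 2 * Q * s := by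
    have : (D : ℝ) * q = (u'.1 * p + u'.2 * q) * u.1 - (u.1 * p + u.2 * q) * u'.1 := by
      rw [hD]; push_cast; ring
    rw [this]
    refine (abs_sub _ _).trans ?_
    rw [abs_mul, abs_mul]
    have h5 := mul_le_mul h2 c1 (abs_nonneg _) hs0
    have h6 := mul_le_mul h1 c3 (abs_nonneg _) hs0
    linarith
  have hD0 : D = 0 := by
    by_contra hne
    have h7 : (1 : ℝ) ≤ |(D : ℝ)| := by
      have : 1 ≤ |D| := Int.one_le_abs hne
      exact_mod_cast this
    rw [abs_mul] at e1 e2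
    have h8 : 1 / A ≤ |(D : ℝ)| * |p| + |(D : ℝ)| * |q| := by
      have h9 : 1 * (|p| + |q|) ≤ |(D : ℝ)| * (|p| + |q|) := mul_le_mul_of_nonneg_right h7 (by positivity)
      linarith
    have h10 : 1 / A ≤ 4 * Q * s := by linarith
    rw [div_le_iff₀ hA] at h10
    linarith
  -- primitive parallel vectors
  rw [hD0] at hD
  have hpar : u.1 * u'.2 = u.2 * u'.1 := by linarith
  have hcop : IsCoprime u.1 u.2 := Int.isCoprime_iff_gcd_eq_one.mpr hu
  have hcop' : IsCoprime u'.1 u'.2 := Int.isCoprime_iff_gcd_eq_one.mpr hu'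
  have d1 : u.1 ∣ u'.1 := hcop.dvd_of_dvd_mul_left ⟨u'.2, hpar.symm⟩
  have d2 : u'.1 ∣ u.1 := by
    refine hcop'.dvd_of_dvd_mul_right ⟨u.2, ?_⟩
    rw [hpar]; ring
  obtain ⟨α, β, hαβ⟩ := hcop
  -- `u' = t u` with `t = α u'.1 + β u'.2`
  obtain ⟨t, ht⟩ : ∃ t : ℤ, t = α * u'.1 + β * u'.2 := ⟨_, rfl⟩
  have t1 : u'.1 = t * u.1 := by
    rw [ht]; calc u'.1 = (α * u.1 + β * u.2) * u'.1 := by rw [hαβ, one_mul]
      _ = α * u.1 * u'.1 + β * (u.2 * u'.1) := by ring
      _ = α * u.1 * u'.1 + β * (u.1 * u'.2) := by rw [hpar]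
      _ = _ := by ring
  have t2 : u'.2 = t * u.2 := by
    rw [ht]; calc u'.2 = (α * u.1 + β * u.2) * u'.2 := by rw [hαβ, one_mul]
      _ = α * (u.1 * u'.2) + β * u.2 * u'.2 := by ring
      _ = α * (u.2 * u'.1) + β * u.2 * u'.2 := by rw [hpar]
      _ = _ := by ring
  have ht1 : t ∣ 1 := by
    obtain ⟨α', β', h'⟩ := hcop'
    rw [← h', t1, t2]
    exact dvd_add (Dvd.intro _ (by ring : t * (α' * u.1) = α' * (t * u.1)))
      (Dvd.intro _ (by ring : t * (β' * u.2) = β' * (t * u.2)))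
  rcases Int.isUnit_iff.mp (isUnit_of_dvd_one ht1) with h | h
  · left; rw [h] at t1 t2; exact Prod.ext (by rw [t1]; ring) (by rw [t2]; ring)
  · right; rw [h] at t1 t2; exact Prod.ext (by rw [t1]; simp) (by rw [t2]; simp)

end

end Pool.Agent.Lib.MP_a768d2_co.SL
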