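import Pool.Agent.Lib.MP_a768d2_coT.SlB

/-! # Slowly varying lattices: following a ray -/

namespace Pool.Agent.Lib.MP_a768d2_co.SL

noncomputable section

/-- the linear approximation of `F u` -/
def lin (P : ℤ × ℤ → ℂ) (u y : ℤ × ℤ) : ℂ := u.1 * F P (1, 0) y + u.2 * F P (0, 1) y

/-- the distance (with sign) of `P y` from the line through `P a` in direction `d` -/
def ps (P : ℤ × ℤ → ℂ) (d : ℂ) (a y : ℤ × ℤ) : ℝ := det2 d (P y - P a)

/-- the abscissa of `P y` on the line through `P a` in direction `d` -/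
def ch (P : ℤ × ℤ → ℂ) (d : ℂ) (a y : ℤ × ℤ) : ℝ := chi d (P y - P a)

theorem ps_add (P : ℤ × ℤ → ℂ) (d : ℂ) (a y m : ℤ × ℤ) : ps P d a (y + m) = ps P d a y + det2 d (F P m y) := by
  unfold ps F
  rw [← det2_add]; congr 1; ring

theorem ch_add (P : ℤ × ℤ → ℂ) (d : ℂ) (a y m : ℤ × ℤ) : ch P d a (y + m) = ch P d a y + chi d (F P m y) := by
  unfold ch F
  rw [← chi_add]; congr 1; ring

variable {M : ℤ} {C ε : ℝ} {P : ℤ × ℤ → ℂ}

theorem Slow.F_lin (S : Slow M C ε P) {y u : ℤ × ℤ} {R : ℤ} (hR : nz u ≤ R) (hy : nz y + R + 1 ≤ M) :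
    ‖F P u y - lin P u y‖ ≤ 4 * R ^ 2 * ε := S.approx hR hy

theorem lin_sub_le (S : Slow M C ε P) {y y' u : ℤ × ℤ} (hy : nz y + 1 ≤ M) (hy' : nz y' + 1 ≤ M) :
    ‖lin P u y' - lin P u y‖ ≤ 4 * nz u * nz (y' - y) * ε := by
  have e : lin P u y' - lin P u y = u.1 * (F P (1, 0) y' - F P (1, 0) y) +
      u.2 * (F P (0, 1) y' - F P (0, 1) y) := by
    unfold lin; ring
  have h1 : ‖(u.1 : ℂ)‖ ≤ nz u := by
    rw [Complex.norm_intCast]; exact_mod_cast abs_fst_le u
  have h2 : ‖(u.2 : ℂ)‖ ≤ nz u := by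
    rw [Complex.norm_intCast]; exact_mod_cast abs_snd_le u
  have h3 : (0 : ℝ) ≤ nz u := by exact_mod_cast nz_nonneg u
  rw [e]
  calc _ ≤ ‖(u.1 : ℂ) * (F P (1, 0) y' - F P (1, 0) y)‖ + ‖(u.2 : ℂ) * (F P (0, 1) y' - F P (0, 1) y)‖ :=
        norm_add_le _ _
    _ ≤ nz u * (2 * nz (y' - y) * ε) + nz u * (2 * nz (y' - y) * ε) := by
        rw [norm_mul, norm_mul]
        exact add_le_add (mul_le_mul h1 (S.U_sub hy hy') (norm_nonneg _) h3)
          (mul_le_mul h2 (S.V_sub hy hy') (norm_nonneg _) h3)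
    _ = _ := by ring

theorem Slow.lin_ge (S : Slow M C ε P) {y u : ℤ × ℤ} (hy : nz y + 1 ≤ M) : (nz u : ℝ) ≤ C ^ 2 * ‖lin P u y‖ := by
  have hC0 : 0 < C := by linarith [S.hC]
  have hD : 0 < det2 (F P (1, 0) y) (F P (0, 1) y) := lt_of_lt_of_le (by positivity) (S.hdet y hy)
  have hinv : 1 ≤ C * det2 (F P (1, 0) y) (F P (0, 1) y) := by
    have := mul_le_mul_of_nonneg_left (S.hdet y hy) hC0.le
    rwa [mul_one_div_cancel hC0.ne'] at this
  have h1 : |(u.1 : ℝ)| * det2 (F P (1, 0) y) (F P (0, 1) y) ≤ ‖lin P u y‖ * C := by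
    have e : (u.1 : ℝ) * det2 (F P (1, 0) y) (F P (0, 1) y) = det2 (lin P u y) (F P (0, 1) y) := by
      unfold lin det2
      simp only [Complex.add_re, Complex.mul_re, Complex.intCast_re, Complex.intCast_im, zero_mul, sub_zero,
        Complex.add_im, Complex.mul_im, add_zero]
      ring
    have e2 : |(u.1 : ℝ)| * det2 (F P (1, 0) y) (F P (0, 1) y) = |det2 (lin P u y) (F P (0, 1) y)| := by
      rw [← e, abs_mul, abs_of_pos hD]
    rw [e2]
    exact (det2_le _ _).trans (mul_le_mul_of_nonneg_left (S.hV y hy) (norm_nonneg _))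
  have h2 : |(u.2 : ℝ)| * det2 (F P (1, 0) y) (F P (0, 1) y) ≤ ‖lin P u y‖ * C := by
    have e : (u.2 : ℝ) * det2 (F P (1, 0) y) (F P (0, 1) y) = det2 (F P (1, 0) y) (lin P u y) := by
      unfold lin det2
      simp only [Complex.add_re, Complex.mul_re, Complex.intCast_re, Complex.intCast_im, zero_mul, sub_zero,
        Complex.add_im, Complex.mul_im, add_zero]
      ring
    have e2 : |(u.2 : ℝ)| * det2 (F P (1, 0) y) (F P (0, 1) y) = |det2 (F P (1, 0) y) (lin P u y)| := by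
      rw [← e, abs_mul, abs_of_pos hD]
    rw [e2]
    refine (det2_le _ _).trans ?_
    rw [mul_comm]
    exact mul_le_mul_of_nonneg_left (S.hU y hy) (norm_nonneg _)
  have k : ∀ t : ℝ, 0 ≤ t → t * det2 (F P (1, 0) y) (F P (0, 1) y) ≤ ‖lin P u y‖ * C →
      t ≤ C ^ 2 * ‖lin P u y‖ := by
    intro t ht h
    have h3 : t * 1 ≤ t * (C * det2 (F P (1, 0) y) (F P (0, 1) y)) := mul_le_mul_of_nonneg_left hinv ht
    have h4 : C * (t * det2 (F P (1, 0) y) (F P (0, 1) y)) ≤ C * (‖lin P u y‖ * C) :=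
      mul_le_mul_of_nonneg_left h hC0.le
    nlinarith
  unfold nz
  push_cast
  exact max_le (k _ (abs_nonneg _) h1) (k _ (abs_nonneg _) h2)

theorem Slow.lin_le (S : Slow M C ε P) {y u : ℤ × ℤ} (hy : nz y + 1 ≤ M) : ‖lin P u y‖ ≤ 2 * C * nz u := by
  have h1 : ‖(u.1 : ℂ)‖ ≤ nz u := by
    rw [Complex.norm_intCast]; exact_mod_cast abs_fst_le u
  have h2 : ‖(u.2 : ℂ)‖ ≤ nz u := by
    rw [Complex.norm_intCast]; exact_mod_cast abs_snd_le u
  have h3 : (0 : ℝ) ≤ nz u := by exact_mod_cast nz_nonneg u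
  unfold lin
  calc _ ≤ ‖(u.1 : ℂ) * F P (1, 0) y‖ + ‖(u.2 : ℂ) * F P (0, 1) y‖ := norm_add_le _ _
    _ ≤ nz u * C + nz u * C := by
        rw [norm_mul, norm_mul]
        exact add_le_add (mul_le_mul h1 (S.hU y hy) (norm_nonneg _) h3)
          (mul_le_mul h2 (S.hV y hy) (norm_nonneg _) h3)
    _ = _ := by ring

theorem det2_lin (d : ℂ) (u y : ℤ × ℤ) : det2 d (lin P u y) =
    u.1 * det2 d (F P (1, 0) y) + u.2 * det2 d (F P (0, 1) y) := by
  unfold lin; rw [det2_add, det2_int_mul, det2_int_mul]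

/-- the direction cannot be almost parallel to both frame vectors -/
theorem Slow.pq (S : Slow M C ε P) {d : ℂ} (hd : ‖d‖ = 1) {y : ℤ × ℤ} (hy : nz y + 1 ≤ M) :
    1 / C ^ 2 ≤ |det2 d (F P (1, 0) y)| + |det2 d (F P (0, 1) y)| := by
  have hC0 : 0 < C := by linarith [S.hC]
  have h := det2_decomp d (F P (1, 0) y) (F P (0, 1) y)
  rw [hd, one_pow, one_mul] at h
  have h1 := S.hdet y hy
  have a1 : |chi d (F P (1, 0) y)| ≤ C := by
    have := chi_le d (F P (1, 0) y); rw [hd, one_mul] at this; exact this.trans (S.hU y hy)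
  have a2 : |chi d (F P (0, 1) y)| ≤ C := by
    have := chi_le d (F P (0, 1) y); rw [hd, one_mul] at this; exact this.trans (S.hV y hy)
  have h2 : chi d (F P (1, 0) y) * det2 d (F P (0, 1) y) - det2 d (F P (1, 0) y) * chi d (F P (0, 1) y) ≤
      C * |det2 d (F P (0, 1) y)| + C * |det2 d (F P (1, 0) y)| := by
    have b1 := le_abs_self (chi d (F P (1, 0) y) * det2 d (F P (0, 1) y) -
      det2 d (F P (1, 0) y) * chi d (F P (0, 1) y))
    refine b1.trans ((abs_sub _ _).trans ?_)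
    rw [abs_mul, abs_mul]
    have b2 := mul_le_mul_of_nonneg_right a1 (abs_nonneg (det2 d (F P (0, 1) y)))
    have b3 := mul_le_mul_of_nonneg_left a2 (abs_nonneg (det2 d (F P (1, 0) y)))
    linarith
  rw [← h] at h2
  have h3 : 1 / C ≤ C * (|det2 d (F P (1, 0) y)| + |det2 d (F P (0, 1) y)|) := by linarith
  have h4 : 1 / C ^ 2 = 1 / C * (1 / C) := by field_simp
  rw [h4]
  calc 1 / C * (1 / C) ≤ C * (|det2 d (F P (1, 0) y)| + |det2 d (F P (0, 1) y)|) * (1 / C) :=
        mul_le_mul_of_nonneg_right h3 (by positivity)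
    _ = _ := by field_simp

/-- following the line -/
theorem follow (S : Slow M C ε P) (a : ℤ × ℤ) {d : ℂ} (hd : ‖d‖ = 1) (R0 : ℤ)
    (hR0 : C ^ 2 * (3 * (C + 1)) + 1 ≤ R0) (hε : 4 * (R0 : ℝ) ^ 2 * ε ≤ 1) (k : ℕ)
    (hk : nz a + (k + 1) * R0 + 1 ≤ M) :
    ∃ y, nz (y - a) ≤ k * R0 ∧ |ps P d a y| ≤ C + 1 ∧ k * (C + 1) ≤ ch P d a y ∧ ch P d a y ≤ 3 * k * (C + 1) := by
  have hC := S.hC
  have hC0 : 0 < C := by linarith
  have hR00 : 0 ≤ R0 := by
    have : (0 : ℝ) ≤ R0 := le_trans (by positivity) hR0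
    exact_mod_cast this
  induction k with
  | zero =>
    refine ⟨a, by simp [nz_zero], ?_, ?_, ?_⟩
    · unfold ps; rw [sub_self]; simp [det2]; linarith
    · unfold ch; rw [sub_self]; simp [chi]
    · unfold ch; rw [sub_self]; simp [chi]
  | succ k ih =>
    have hk' : nz a + (k + 1) * R0 + 1 ≤ M := by
      push_cast at hk; nlinarith
    obtain ⟨y, h1, h2, h3, h4⟩ := ih hk'
    have hy : nz y ≤ nz a + k * R0 := by
      have := nz_add (y - a) a
      rw [sub_add_cancel] at this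
      omega
    have hyM : nz y + R0 + 1 ≤ M := by nlinarith
    obtain ⟨w, hw⟩ : ∃ w : ℂ, w = ((2 * (C + 1) : ℝ) : ℂ) * d + ((-ps P d a y : ℝ) : ℂ) * (Complex.I * d) := ⟨_, rfl⟩
    have hdd : d.re * d.re + d.im * d.im = 1 := by
      have := Complex.sq_norm d
      rw [hd, Complex.normSq_apply] at this
      linarith
    have hwn : ‖w‖ ≤ 3 * (C + 1) := by
      rw [hw]
      refine (norm_add_le _ _).trans ?_
      rw [norm_mul, norm_mul, norm_mul, hd, Complex.norm_I, Complex.norm_real, Complex.norm_real,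
        Real.norm_eq_abs, Real.norm_eq_abs, abs_neg, abs_of_pos (by linarith : 0 < 2 * (C + 1))]
      linarith
    have hw1 : det2 d w = -ps P d a y := by
      rw [hw, det2_add, det2_real_mul, det2_real_mul, det2_self]
      have : det2 d (Complex.I * d) = 1 := by
        simp [det2]; linarith
      rw [this]; ring
    have hw2 : chi d w = 2 * (C + 1) := by
      rw [hw, chi_add, chi_real_mul, chi_real_mul]
      have e1 : chi d (Complex.I * d) = 0 := by simp [chi]; ring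
      have e2 : chi d d = 1 := by simp only [chi]; exact hdd
      rw [e1, e2]; ring
    have hy1 : nz y + 1 ≤ M := by omega
    obtain ⟨m, hm1, hm2⟩ := rounding hC (S.hU y hy1) (S.hV y hy1) (S.hdet y hy1) w
    have hmR : nz m ≤ R0 := by
      have : (nz m : ℝ) ≤ R0 := by
        refine hm1.trans (le_trans ?_ hR0)
        have : C ^ 2 * ‖w‖ ≤ C ^ 2 * (3 * (C + 1)) := mul_le_mul_of_nonneg_left hwn (by positivity)
        linarith
      exact_mod_cast this
    have hap := S.approx hmR hyM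
    obtain ⟨r, hr⟩ : ∃ r, r = F P m y - w := ⟨_, rfl⟩
    have hrn : ‖r‖ ≤ C + 1 := by
      have e : r = (P (y + m) - P y - (m.1 * F P (1, 0) y + m.2 * F P (0, 1) y)) +
          ((m.1 * F P (1, 0) y + m.2 * F P (0, 1) y) - w) := by
        rw [hr]; unfold F; ring
      rw [e]
      exact (norm_add_le _ _).trans (by linarith)
    have hF : F P m y = w + r := by rw [hr]; ring
    have hr1 := det2_le d r
    have hr2 := chi_le d r
    rw [hd, one_mul] at hr1 hr2
    have hr3 := abs_le.mp (hr2.trans hrn)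
    refine ⟨y + m, ?_, ?_, ?_, ?_⟩
    · have := nz_add (y - a) m
      rw [show y - a + m = y + m - a by abel] at this
      push_cast
      nlinarith
    · rw [ps_add, hF, det2_add, hw1, add_neg_cancel_left]
      exact hr1.trans hrn
    · rw [ch_add, hF, chi_add, hw2]
      push_cast
      linarith
    · rw [ch_add, hF, chi_add, hw2]
      push_cast
      linarith

/-- the rational direction at a point near the line -/
theorem lock_at (S : Slow M C ε P) {a y : ℤ × ℤ} {d : ℂ} (hd : ‖d‖ = 1) (Q R : ℕ) {B σ η : ℝ} (hQ : 1 ≤ Q)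
    (hy : nz y + R + 1 ≤ M) (hσ : 0 < σ) (hψ : |ps P d a y| ≤ B)
    (hvoid : ∀ z, nz (z - y) ≤ R → 2 * η ≤ |ps P d a z|) (hε : 4 * (R : ℝ) ^ 2 * ε ≤ η)
    (hQη : C < η * (Q + 1)) (hR : (Q + 1) * (B / σ + 1) ≤ R) :
    ∃ u : ℤ × ℤ, Int.gcd u.1 u.2 = 1 ∧ nz u ≤ Q + 1 ∧ |det2 d (lin P u y)| ≤ σ := by
  have hy1 : nz y + 1 ≤ M := by omega
  have h1 : |det2 d (F P (1, 0) y)| ≤ C := by
    have := det2_le d (F P (1, 0) y); rw [hd, one_mul] at this; exact this.trans (S.hU y hy1)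
  have h2 : |det2 d (F P (0, 1) y)| ≤ C := by
    have := det2_le d (F P (0, 1) y); rw [hd, one_mul] at this; exact this.trans (S.hV y hy1)
  obtain ⟨u, u1, u2, u3⟩ := lock1 (η := η) Q R hQ h1 h2 hσ hψ hQη hR (by
    intro m hm
    have h3 := hvoid (y + m) (by rw [add_sub_cancel_left]; exact hm)
    rw [ps_add] at h3
    have h4 := S.F_lin (u := m) (R := R) hm hy
    have h5 := det2_le d (F P m y - lin P m y)
    rw [hd, one_mul, det2_sub, det2_lin] at h5
    push_cast at h4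
    have h6 := h5.trans (h4.trans hε)
    have h7 : |ps P d a y + det2 d (F P m y)| ≤ |ps P d a y + (m.1 * det2 d (F P (1, 0) y) +
        m.2 * det2 d (F P (0, 1) y))| + |det2 d (F P m y) - (m.1 * det2 d (F P (1, 0) y) +
        m.2 * det2 d (F P (0, 1) y))| := by
      refine le_trans (le_of_eq ?_) (abs_add_le _ _)
      congr 1; ring
    linarith)
  exact ⟨u, u1, u2, by rw [det2_lin]; exact u3⟩

end

end Pool.Agent.Lib.MP_a768d2_co.SL
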