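import Pool.Agent.Lib.MP_a768d2_coT.SlC

/-! # Slowly varying lattices: far rays are rows -/

namespace Pool.Agent.Lib.MP_a768d2_co.SL

noncomputable section

variable {M : ℤ} {C ε : ℝ} {P : ℤ × ℤ → ℂ}

/-- numerical conditions -/
structure NumR (C ε σ η : ℝ) (Q R : ℕ) : Prop where
  hQ : 1 ≤ Q
  hσ : 0 < σ
  hση : σ ≤ η
  e1 : 4 * (R : ℝ) ^ 2 * ε ≤ σ
  e2 : C < η * (Q + 1)
  e3 : (Q + 1) * (2 * C / σ + 1) ≤ R
  e4 : 8 * ((Q : ℝ) + 1) * σ * C ^ 2 < 1

theorem NumR.QR {σ η : ℝ} {Q R : ℕ} (hC : 1 ≤ C) (n : NumR C ε σ η Q R) : Q + 1 ≤ R := by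
  have h := n.e3
  have h1 : 0 ≤ 2 * C / σ := by have := n.hσ; positivity
  have h2 : ((Q + 1 : ℕ) : ℝ) ≤ R := by
    push_cast
    have h3 : (0 : ℝ) ≤ (Q : ℝ) + 1 := by positivity
    nlinarith
  exact_mod_cast h2

theorem NumR.e5 {σ η : ℝ} {Q R : ℕ} (hC : 1 ≤ C) (hε : 0 ≤ ε) (n : NumR C ε σ η Q R) :
    4 * ((Q : ℝ) + 1) ^ 2 * ε ≤ σ := by
  have h := n.QR hC
  have h1 : ((Q : ℝ) + 1) ≤ R := by exact_mod_cast h
  have h2 : ((Q : ℝ) + 1) ^ 2 ≤ (R : ℝ) ^ 2 := pow_le_pow_left₀ (by positivity) h1 2
  have h3 : 4 * ((Q : ℝ) + 1) ^ 2 * ε ≤ 4 * (R : ℝ) ^ 2 * ε :=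
    mul_le_mul_of_nonneg_right (by linarith) hε
  exact h3.trans n.e1

theorem NumR.σ_le {σ η : ℝ} {Q R : ℕ} (n : NumR C ε σ η Q R) : 16 * σ * C ^ 2 < 1 := by
  have h := n.e4
  have h1 : (1 : ℝ) ≤ Q := by exact_mod_cast n.hQ
  have h2 : 0 ≤ σ * C ^ 2 := by have := n.hσ; positivity
  nlinarith

theorem same_sign {x y t : ℝ} (hx : 2 * t ≤ |x|) (hy : 2 * t ≤ |y|) (h : |y - x| < 4 * t) : 0 < x * y := by
  have ht : 0 < t := by have := abs_nonneg (y - x); linarith
  rw [abs_lt] at h
  rcases le_or_gt 0 x with h1 | h1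
  · rw [abs_of_nonneg h1] at hx
    rcases le_or_gt 0 y with h2 | h2
    · rw [abs_of_nonneg h2] at hy
      have : 0 < x := by linarith
      have : 0 < y := by linarith
      positivity
    · rw [abs_of_neg h2] at hy; linarith
  · rw [abs_of_neg h1] at hx
    rcases le_or_gt 0 y with h2 | h2
    · rw [abs_of_nonneg h2] at hy; linarith
    · rw [abs_of_neg h2] at hy
      exact mul_pos_of_neg_of_neg h1 h2

/-- the component along `d` of the linear approximation in a locked direction -/
theorem Slow.chi_lin (S : Slow M C ε P) {d : ℂ} (hd : ‖d‖ = 1) {u y : ℤ × ℤ} {σ : ℝ} (hy : nz y + 1 ≤ M)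
    (h : |det2 d (lin P u y)| ≤ σ) : (nz u : ℝ) / C ^ 2 - σ ≤ |chi d (lin P u y)| := by
  have hC0 : 0 < C := by linarith [S.hC]
  have h1 := S.lin_ge (u := u) hy
  have h2 := norm_le_add d (lin P u y)
  rw [hd, one_mul] at h2
  have h3 : (nz u : ℝ) / C ^ 2 ≤ ‖lin P u y‖ := by
    rw [div_le_iff₀ (by positivity)]; linarith
  linarith

theorem Slow.ch_sub (S : Slow M C ε P) {d : ℂ} (hd : ‖d‖ = 1) {a y y' : ℤ × ℤ} (hy : nz y + 1 ≤ M)
    (hy' : nz y' + 1 ≤ M) : |ch P d a y' - ch P d a y| ≤ 2 * nz (y' - y) * C := by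
  have h := chi_le d (P y' - P y)
  rw [hd, one_mul] at h
  unfold ch
  rw [← chi_sub, show P y' - P a - (P y - P a) = P y' - P y by ring]
  exact h.trans (S.P_sub hy hy')

theorem Slow.ps_sub (S : Slow M C ε P) {d : ℂ} (hd : ‖d‖ = 1) {a y y' : ℤ × ℤ} (hy : nz y + 1 ≤ M)
    (hy' : nz y' + 1 ≤ M) : |ps P d a y' - ps P d a y| ≤ 2 * nz (y' - y) * C := by
  have h := det2_le d (P y' - P y)
  rw [hd, one_mul] at h
  unfold ps
  rw [← det2_sub, show P y' - P a - (P y - P a) = P y' - P y by ring]
  exact h.trans (S.P_sub hy hy')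

/-- if neighbouring points are on different sides of the line they are near the line -/
theorem Slow.ps_le (S : Slow M C ε P) {d : ℂ} (hd : ‖d‖ = 1) {a z g : ℤ × ℤ} (hg : nz g = 1)
    (hz : nz z + 2 ≤ M) (h : ps P d a z * ps P d a (z + g) < 0) : |ps P d a z| ≤ 2 * C := by
  have h1 : nz (z + g) + 1 ≤ M := by have := nz_add z g; omega
  have h2 := S.ps_sub hd (a := a) (y := z) (y' := z + g) (by omega) h1
  rw [add_sub_cancel_left, hg] at h2
  have h3 : |ps P d a z| ≤ |ps P d a (z + g) - ps P d a z| := by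
    rcases le_or_gt 0 (ps P d a z) with h4 | h4
    · have h5 : ps P d a (z + g) < 0 := by
        by_contra hc; push Not at hc
        have := mul_nonneg h4 hc; linarith
      rw [abs_of_nonneg h4, abs_of_neg (by linarith)]; linarith
    · have h5 : 0 < ps P d a (z + g) := by
        by_contra hc; push Not at hc
        have := mul_nonneg_of_nonpos_of_nonpos h4.le hc; linarith
      rw [abs_of_neg h4, abs_of_pos (by linarith)]; linarith
  push_cast at h2
  linarith

/-- (A4) a locked row stays next to the line -/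
theorem row_follow (S : Slow M C ε P) {a : ℤ × ℤ} {d : ℂ} (hd : ‖d‖ = 1) {Q R : ℕ} {σ η X : ℝ}
    (n : NumR C ε σ η Q R)
    (hvoid : ∀ z, nz z + 1 ≤ M → X ≤ ch P d a z → 2 * η ≤ |ps P d a z|) {u g z0 : ℤ × ℤ}
    (hu : Int.gcd u.1 u.2 = 1) (huQ : nz u ≤ Q + 1) (hg : nz g = 1)
    (h0 : ps P d a z0 * ps P d a (z0 + g) < 0) (h1 : |det2 d (lin P u z0)| ≤ σ)
    (h2 : 0 < chi d (lin P u z0)) (h3 : X + 2 * R * C ≤ ch P d a z0) (j : ℕ)
    (hj : nz z0 + j * nz u + R + 3 ≤ M) :
    ps P d a (z0 + (j : ℤ) • u) * ps P d a (z0 + (j : ℤ) • u + g) < 0 ∧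
      |det2 d (lin P u (z0 + (j : ℤ) • u))| ≤ σ ∧ 0 < chi d (lin P u (z0 + (j : ℤ) • u)) ∧
      ch P d a z0 + j * (nz u / (2 * C ^ 2)) ≤ ch P d a (z0 + (j : ℤ) • u) := by
  have hC := S.hC
  have hC0 : 0 < C := by linarith
  have hε := S.hε
  have hσ := n.hσ
  have hσ1 := n.σ_le
  have hση := n.hση
  have hQR := n.QR hC
  have hQR' : ((Q : ℤ) + 1) ≤ R := by exact_mod_cast hQR
  have he5 := n.e5 hC hε
  have hu0 : (0 : ℝ) ≤ nz u := by exact_mod_cast nz_nonneg u
  have huQR : (nz u : ℝ) ≤ Q + 1 := by exact_mod_cast huQ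
  have hu1 : (1 : ℝ) ≤ nz u := by
    have : u ≠ 0 := by rintro rfl; simp at hu
    exact_mod_cast nz_pos this
  induction j with
  | zero => simp only [Nat.cast_zero, zero_smul, add_zero, zero_mul]; exact ⟨h0, h1, h2, le_rfl⟩
  | succ j ih =>
    have hnu := nz_nonneg u
    have hj' : nz z0 + j * nz u + R + 3 ≤ M := by push_cast at hj; nlinarith
    obtain ⟨i1, i2, i3, i4⟩ := ih hj'
    obtain ⟨z, hz⟩ : ∃ z, z = z0 + (j : ℤ) • u := ⟨_, rfl⟩
    rw [← hz] at i1 i2 i3 i4
    have hzz : z0 + ((j + 1 : ℕ) : ℤ) • u = z + u := by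
      rw [hz]; push_cast; rw [add_smul, one_smul]; abel
    rw [hzz]
    have hnz : nz z ≤ nz z0 + j * nz u := by
      rw [hz]; refine (nz_add _ _).trans ?_
      rw [nz_smul, abs_of_nonneg (by positivity)]
    have hnzu : nz (z + u) ≤ nz z0 + j * nz u + nz u := by
      have := nz_add z u; omega
    have hMz : nz z + nz u + R + 3 ≤ M := by push_cast at hj; nlinarith
    have hR1 : (1 : ℤ) ≤ R := by omega
    have hzg : nz (z + g) ≤ nz z + 1 := by have := nz_add z g; omega
    have hzu : nz (z + u) ≤ nz z + nz u := nz_add z u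
    have hzug : nz (z + u + g) ≤ nz z + nz u + 1 := by have := nz_add (z + u) g; omega
    have hchz : X + 2 * R * C ≤ ch P d a z := by
      have : 0 ≤ (j : ℝ) * (nz u / (2 * C ^ 2)) := by positivity
      linarith
    have hRR : (1 : ℝ) ≤ R := by exact_mod_cast hR1
    have hcb : ∀ z', nz z' + 1 ≤ M → nz (z' - z) ≤ R → 2 * η ≤ |ps P d a z'| := by
      intro z' h4 h5
      apply hvoid z' h4
      have h6 := S.ch_sub hd (a := a) (y := z) (y' := z') (by omega) h4
      have h7 : (nz (z' - z) : ℝ) ≤ R := by exact_mod_cast h5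
      have h8 : 2 * (nz (z' - z) : ℝ) * C ≤ 2 * R * C := by
        have := mul_le_mul_of_nonneg_right h7 hC0.le
        linarith
      have h9 := abs_le.mp (h6.trans h8)
      linarith [h9.1]
    -- increments of `ps`
    have fl : ∀ y, nz y + nz u + 1 ≤ M → |det2 d (F P u y)| ≤ |det2 d (lin P u y)| + σ := by
      intro y hy
      have h4 := S.F_lin (u := u) (R := nz u) le_rfl hy
      have h5 := det2_le d (F P u y - lin P u y)
      rw [hd, one_mul, det2_sub] at h5
      have h6 : 4 * (nz u : ℝ) ^ 2 * ε ≤ σ := by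
        refine le_trans ?_ he5
        have : (nz u : ℝ) ^ 2 ≤ ((Q : ℝ) + 1) ^ 2 := pow_le_pow_left₀ hu0 huQR 2
        exact mul_le_mul_of_nonneg_right (by linarith) hε
      have h7 := abs_sub_abs_le_abs_sub (det2 d (F P u y)) (det2 d (lin P u y))
      linarith
    have lg : |det2 d (lin P u (z + g))| ≤ σ + σ := by
      have h4 := lin_sub_le S (y := z) (y' := z + g) (u := u) (by omega) (by omega)
      rw [add_sub_cancel_left, hg] at h4
      have h5 := det2_le d (lin P u (z + g) - lin P u z)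
      rw [hd, one_mul, det2_sub] at h5
      have h6 : 4 * (nz u : ℝ) * ((1 : ℤ) : ℝ) * ε ≤ σ := by
        refine le_trans ?_ he5
        refine mul_le_mul_of_nonneg_right ?_ hε
        push_cast
        nlinarith
      have h7 := abs_sub_abs_le_abs_sub (det2 d (lin P u (z + g))) (det2 d (lin P u z))
      linarith
    have lu : ‖lin P u (z + u) - lin P u z‖ ≤ σ := by
      have h4 := lin_sub_le S (y := z) (y' := z + u) (u := u) (by omega) (by omega)
      rw [add_sub_cancel_left] at h4
      refine h4.trans (le_trans ?_ he5)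
      refine mul_le_mul_of_nonneg_right ?_ hε
      nlinarith
    have s1 : 0 < ps P d a z * ps P d a (z + u) := by
      refine same_sign (t := η) (hcb z (by omega) (by rw [sub_self, nz_zero]; omega))
        (hcb (z + u) (by omega) (by rw [add_sub_cancel_left]; omega)) ?_
      rw [ps_add, add_sub_cancel_left]
      have := fl z (by omega)
      linarith
    have s2 : 0 < ps P d a (z + g) * ps P d a (z + u + g) := by
      refine same_sign (t := η) (hcb (z + g) (by omega) (by rw [add_sub_cancel_left]; omega)) ?_ ?_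
      · have h4 : nz (z + u + g) + 1 ≤ M := by omega
        apply hvoid _ h4
        have h5 : z + u + g = z + (u + g) := by abel
        have h6 := S.ch_sub hd (a := a) (y := z) (y' := z + u + g) (by omega) h4
        have h7 : nz (z + u + g - z) ≤ nz u + 1 := by
          rw [show z + u + g - z = u + g by abel]
          have := nz_add u g; omega
        have h8 : (nz (z + u + g - z) : ℝ) ≤ Q + 2 := by
          have : nz (z + u + g - z) ≤ Q + 2 := by omega
          exact_mod_cast this
        have h9 : (Q : ℝ) + 2 ≤ R := by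
          have e3 := n.e3
          have : 2 * C ≤ 2 * C / σ := by
            rw [le_div_iff₀ hσ]
            have : 16 * σ < 1 := by
              have : (1 : ℝ) ≤ C ^ 2 := one_le_pow₀ hC
              nlinarith
            nlinarith
          have h10 : (1 : ℝ) ≤ Q := by exact_mod_cast n.hQ
          nlinarith
        have h10 : 2 * (nz (z + u + g - z) : ℝ) * C ≤ 2 * R * C := by
          have := mul_le_mul_of_nonneg_right (h8.trans h9) hC0.le
          linarith
        have h11 := abs_le.mp (h6.trans h10)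
        linarith [h11.1]
      · have e : z + u + g = (z + g) + u := by abel
        rw [e, ps_add, add_sub_cancel_left]
        have := fl (z + g) (by omega)
        linarith
    have s3 : ps P d a (z + u) * ps P d a (z + u + g) < 0 := by
      have h4 : 0 < (ps P d a z * ps P d a (z + u)) * (ps P d a (z + g) * ps P d a (z + u + g)) := mul_pos s1 s2
      have h5 : (ps P d a z * ps P d a (z + u)) * (ps P d a (z + g) * ps P d a (z + u + g)) =
          (ps P d a z * ps P d a (z + g)) * (ps P d a (z + u) * ps P d a (z + u + g)) := by ring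
      rw [h5] at h4
      by_contra hc; push Not at hc
      have := mul_nonpos_of_nonpos_of_nonneg i1.le hc
      linarith
    -- the lock persists
    have hB := S.ps_le hd hg (z := z + u) (a := a) (by omega) s3
    obtain ⟨u', u1, u2, u3⟩ := lock_at S hd (a := a) (y := z + u) Q R (B := 2 * C) (σ := σ) (η := η) n.hQ
      (by omega) hσ hB (by
        intro w hw
        have h4 : nz w + 1 ≤ M := by
          have := nz_add (w - (z + u)) (z + u)
          rw [sub_add_cancel] at this
          omega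
        apply hvoid w h4
        have h6 := S.ch_sub hd (a := a) (y := z + u) (y' := w) (by omega) h4
        have h7 : (nz (w - (z + u)) : ℝ) ≤ R := by exact_mod_cast hw
        have h8 : 2 * (nz (w - (z + u)) : ℝ) * C ≤ 2 * R * C := by
          have := mul_le_mul_of_nonneg_right h7 hC0.le
          linarith
        have h9 := abs_le.mp (h6.trans h8)
        have h10 : X + 2 * R * C ≤ ch P d a (z + u) := by
          rw [ch_add]
          have c1 := chi_le d (F P u z - lin P u z)
          rw [hd, one_mul, chi_sub] at c1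
          have c2 := S.F_lin (u := u) (R := nz u) (y := z) le_rfl (by omega)
          have c3 : 4 * (nz u : ℝ) ^ 2 * ε ≤ σ := by
            refine le_trans ?_ he5
            have : (nz u : ℝ) ^ 2 ≤ ((Q : ℝ) + 1) ^ 2 := pow_le_pow_left₀ hu0 huQR 2
            exact mul_le_mul_of_nonneg_right (by linarith) hε
          have c4 := S.chi_lin hd (u := u) (y := z) (by omega) i2
          rw [abs_of_pos i3] at c4
          have c5 := (abs_le.mp (c1.trans (c2.trans c3))).1
          have c6 : 1 / C ^ 2 ≤ (nz u : ℝ) / C ^ 2 := div_le_div_of_nonneg_right hu1 (by positivity)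
          have c7 : 16 * σ ≤ 1 / C ^ 2 := by rw [le_div_iff₀ (by positivity)]; linarith
          linarith
        linarith [h9.1]) (n.e1.trans hση) n.e2 n.e3
    have hl : |det2 d (lin P u (z + u))| ≤ 2 * σ := by
      have h5 := det2_le d (lin P u (z + u) - lin P u z)
      rw [hd, one_mul, det2_sub] at h5
      have h7 := abs_sub_abs_le_abs_sub (det2 d (lin P u (z + u))) (det2 d (lin P u z))
      linarith
    have hpq := S.pq hd (y := z + u) (by omega)
    have hun := uniq (A := C ^ 2) (by positivity) hpq hu u1 (Q := (Q : ℝ) + 1) huQR (by exact_mod_cast u2)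
      (by rw [← det2_lin]; exact hl) (by rw [← det2_lin]; linarith) (s := 2 * σ) (by
        have := n.e4; linarith)
    have hl2 : |det2 d (lin P u (z + u))| ≤ σ := by
      rcases hun with h | h
      · rw [h] at u3; exact u3
      · rw [h] at u3
        have e : lin P (-u) (z + u) = -lin P u (z + u) := by
          unfold lin
          simp only [Prod.fst_neg, Prod.snd_neg, Int.cast_neg]; ring
        rw [e] at u3
        have e2 : det2 d (-lin P u (z + u)) = -det2 d (lin P u (z + u)) := by
          simp only [det2, Complex.neg_re, Complex.neg_im]; ring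
        rw [e2, abs_neg] at u3
        exact u3
    have c4 := S.chi_lin hd (u := u) (y := z) (by omega) i2
    rw [abs_of_pos i3] at c4
    have c6 : 1 / C ^ 2 ≤ (nz u : ℝ) / C ^ 2 := div_le_div_of_nonneg_right hu1 (by positivity)
    have c7 : 16 * σ ≤ 1 / C ^ 2 := by rw [le_div_iff₀ (by positivity)]; linarith
    refine ⟨s3, hl2, ?_, ?_⟩
    · have h5 := chi_le d (lin P u (z + u) - lin P u z)
      rw [hd, one_mul, chi_sub] at h5
      have h6 := (abs_le.mp (h5.trans lu)).1
      linarith
    · rw [ch_add]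
      have c1 := chi_le d (F P u z - lin P u z)
      rw [hd, one_mul, chi_sub] at c1
      have c2 := S.F_lin (u := u) (R := nz u) (y := z) le_rfl (by omega)
      have c3 : 4 * (nz u : ℝ) ^ 2 * ε ≤ σ := by
        refine le_trans ?_ he5
        have : (nz u : ℝ) ^ 2 ≤ ((Q : ℝ) + 1) ^ 2 := pow_le_pow_left₀ hu0 huQR 2
        exact mul_le_mul_of_nonneg_right (by linarith) hε
      have c5 := (abs_le.mp (c1.trans (c2.trans c3))).1
      have c8 : (nz u : ℝ) / (2 * C ^ 2) = (nz u : ℝ) / C ^ 2 / 2 := by field_simp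
      rw [c8] at i4 ⊢
      push_cast
      linarith

end

end Pool.Agent.Lib.MP_a768d2_co.SL
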