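import Pool.Agent.Lib.MP_a768d2_coT.SlD

/-! # Slowly varying lattices: the row of a ray -/

namespace Pool.Agent.Lib.MP_a768d2_co.SL

noncomputable section

variable {M : ℤ} {C ε : ℝ} {P : ℤ × ℤ → ℂ}

theorem sign_change (h : ℕ → ℝ) (T : ℕ) (hne : ∀ i, i ≤ T → h i ≠ 0) (hT : h 0 * h T < 0) :
    ∃ i, i < T ∧ h i * h (i + 1) < 0 := by
  by_contra hcon
  push Not at hcon
  have key : ∀ i, i ≤ T → 0 < h 0 * h i := by
    intro i
    induction i with
    | zero => intro _; exact mul_self_pos.mpr (hne 0 (by omega))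
    | succ i ih =>
      intro hi
      have h1 := ih (by omega)
      have h2 := hcon i (by omega)
      have h3 : 0 < h i * h (i + 1) :=
        lt_of_le_of_ne h2 (mul_ne_zero (hne i (by omega)) (hne (i + 1) hi)).symm
      have h4 : 0 < (h 0 * h i) * (h i * h (i + 1)) := mul_pos h1 h3
      have h5 : (h 0 * h i) * (h i * h (i + 1)) = h i ^ 2 * (h 0 * h (i + 1)) := by ring
      rw [h5] at h4
      by_contra hc
      push Not at hc
      have := mul_nonpos_of_nonneg_of_nonpos (sq_nonneg (h i)) hc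
      linarith
  have := key T le_rfl
  linarith

/-- starting a row next to the line -/
theorem start (S : Slow M C ε P) {a : ℤ × ℤ} {d : ℂ} (hd : ‖d‖ = 1) {Q R T : ℕ} {σ η X : ℝ}
    (n : NumR C ε σ η Q R) (hT : 2 * C ^ 2 * (C + 3) ≤ T) (hTR : T ≤ R)
    (hη : η ≤ 1)
    (hvoid : ∀ z, nz z + 1 ≤ M → X ≤ ch P d a z → 2 * η ≤ |ps P d a z|) {y : ℤ × ℤ}
    (hy : |ps P d a y| ≤ C + 1) (hX : X + 6 * R * C ≤ ch P d a y) (hyM : nz y + T + R + 3 ≤ M) :
    ∃ u g z0 : ℤ × ℤ, Int.gcd u.1 u.2 = 1 ∧ nz u ≤ Q + 1 ∧ nz g = 1 ∧ nz (z0 - y) ≤ T ∧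
      ps P d a z0 * ps P d a (z0 + g) < 0 ∧ |det2 d (lin P u z0)| ≤ σ ∧ 0 < chi d (lin P u z0) ∧
      X + 2 * R * C ≤ ch P d a z0 := by
  have hC := S.hC
  have hC0 : 0 < C := by linarith
  have hε := S.hε
  have hσ := n.hσ
  have hσ1 := n.σ_le
  have hση := n.hση
  have hC2 : (1 : ℝ) ≤ C ^ 2 := one_le_pow₀ hC
  have hT0 : (1 : ℝ) ≤ T := by nlinarith
  have hTRR : (T : ℝ) ≤ R := by exact_mod_cast hTR
  have hR1 : (1 : ℝ) ≤ R := by linarith
  have hR1' : 1 ≤ R := by exact_mod_cast hR1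
  have hη0 : 0 < η := lt_of_lt_of_le hσ hση
  -- the direction `g`
  have hg : ∃ g : ℤ × ℤ, nz g = 1 ∧ 1 / (2 * C ^ 2) ≤ |det2 d (lin P g y)| := by
    have h := S.pq hd (y := y) (by omega)
    rcases le_total |det2 d (F P (1, 0) y)| |det2 d (F P (0, 1) y)| with h1 | h1
    · refine ⟨(0, 1), nz_e1, ?_⟩
      have e : lin P (0, 1) y = F P (0, 1) y := by unfold lin; simp
      rw [e]
      have e2 : 1 / (2 * C ^ 2) = 1 / C ^ 2 / 2 := by field_simp
      rw [e2]; linarith
    · refine ⟨(1, 0), nz_e0, ?_⟩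
      have e : lin P (1, 0) y = F P (1, 0) y := by unfold lin; simp
      rw [e]
      have e2 : 1 / (2 * C ^ 2) = 1 / C ^ 2 / 2 := by field_simp
      rw [e2]; linarith
  obtain ⟨g0, hg1, hg2⟩ := hg
  -- the sign of `g`
  have hg' : ∃ g : ℤ × ℤ, nz g = 1 ∧ ps P d a y * (det2 d (lin P g y)) ≤ 0 ∧
      1 / (2 * C ^ 2) ≤ |det2 d (lin P g y)| := by
    rcases le_total (ps P d a y * (det2 d (lin P g0 y))) 0 with h | h
    · exact ⟨g0, hg1, h, hg2⟩
    · have e : det2 d (lin P (-g0) y) = -det2 d (lin P g0 y) := by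
        unfold lin
        simp only [Prod.fst_neg, Prod.snd_neg, Int.cast_neg, det2, Complex.add_re, Complex.add_im,
          Complex.neg_re, Complex.neg_im, Complex.mul_re, Complex.mul_im, Complex.intCast_re, Complex.intCast_im]
        ring
      refine ⟨-g0, by rw [nz_neg]; exact hg1, ?_, ?_⟩
      · rw [e]; linarith
      · rw [e, abs_neg]; exact hg2
  obtain ⟨g, hg1, hgs, hg2⟩ := hg'
  obtain ⟨τ, hτ⟩ : ∃ τ, τ = det2 d (lin P g y) := ⟨_, rfl⟩
  rw [← hτ] at hgs hg2
  -- nearby points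
  have hnb : ∀ w : ℤ × ℤ, nz w ≤ T + R + 1 → nz (y + w) + 1 ≤ M := by
    intro w hw; have := nz_add y w; omega
  have hvv : ∀ w : ℤ × ℤ, nz w ≤ T + R → 2 * η ≤ |ps P d a (y + w)| := by
    intro w hw
    apply hvoid _ (hnb w (by omega))
    have h1 := S.ch_sub hd (a := a) (y := y) (y' := y + w) (by omega) (hnb w (by omega))
    rw [add_sub_cancel_left] at h1
    have h2 : (nz w : ℝ) ≤ 2 * R := by
      have : (nz w : ℝ) ≤ T + R := by exact_mod_cast hw
      linarith
    have h3 : 2 * (nz w : ℝ) * C ≤ 2 * (2 * R) * C := by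
      have := mul_le_mul_of_nonneg_right h2 hC0.le
      linarith
    have h4 := (abs_le.mp (h1.trans h3)).1
    nlinarith
  -- values of `ps` along `g`
  have hps : ∀ i : ℕ, i ≤ T → |ps P d a (y + (i : ℤ) • g) - (ps P d a y + i * τ)| ≤ σ := by
    intro i hi
    have h1 : nz ((i : ℤ) • g) ≤ T := by rw [nz_smul, hg1, abs_of_nonneg (by positivity)]; omega
    have h2 := S.F_lin (u := (i : ℤ) • g) (R := R) (y := y) (by omega) (by omega)
    have h3 := det2_le d (F P ((i : ℤ) • g) y - lin P ((i : ℤ) • g) y)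
    rw [hd, one_mul, det2_sub] at h3
    have h4 : det2 d (lin P ((i : ℤ) • g) y) = i * τ := by
      rw [hτ, det2_lin, det2_lin]
      simp only [Prod.smul_fst, Prod.smul_snd, smul_eq_mul]
      push_cast; ring
    rw [ps_add]
    rw [h4] at h3
    have e : ps P d a y + det2 d (F P ((i : ℤ) • g) y) - (ps P d a y + i * τ) =
        det2 d (F P ((i : ℤ) • g) y) - i * τ := by ring
    rw [e]
    push_cast at h2
    exact h3.trans (h2.trans n.e1)
  have hy0 : ps P d a y ≠ 0 := by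
    have := hvv 0 (by rw [nz_zero]; omega)
    rw [add_zero] at this
    intro h; rw [h, abs_zero] at this; linarith
  obtain ⟨h, hh⟩ : ∃ h : ℕ → ℝ, ∀ i : ℕ, h i = ps P d a (y + (i : ℤ) • g) := ⟨_, fun _ => rfl⟩
  have hh0 : h 0 = ps P d a y := by rw [hh]; simp
  have hTτ : C + 3 ≤ T * |τ| := by
    have h1 : (T : ℝ) * (1 / (2 * C ^ 2)) ≤ T * |τ| := mul_le_mul_of_nonneg_left hg2 (by positivity)
    have h2 : C + 3 ≤ (T : ℝ) * (1 / (2 * C ^ 2)) := by
      rw [mul_one_div, le_div_iff₀ (by positivity)]; linarith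
    linarith
  have hhT : h 0 * h T < 0 := by
    have h1 := hps T le_rfl
    rw [← hh, ] at h1
    rw [hh0]
    have hσ' : σ ≤ 1 := hση.trans hη
    rw [abs_le] at h1 hy
    rcases lt_or_gt_of_ne hy0 with h2 | h2
    · have h3 : 0 ≤ τ := by
        by_contra hc; push Not at hc
        have := mul_pos_of_neg_of_neg h2 hc; linarith
      rw [abs_of_nonneg h3] at hTτ
      exact mul_neg_of_neg_of_pos h2 (by linarith)
    · have h3 : τ ≤ 0 := by
        by_contra hc; push Not at hc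
        have := mul_pos h2 hc; linarith
      rw [abs_of_nonpos h3] at hTτ
      exact mul_neg_of_pos_of_neg h2 (by linarith)
  obtain ⟨i, hi, hi2⟩ := sign_change h T (by
    intro i hi h0
    have := hvv ((i : ℤ) • g) (by rw [nz_smul, hg1, abs_of_nonneg (by positivity)]; omega)
    rw [← hh, h0, abs_zero] at this
    linarith) hhT
  obtain ⟨z0, hz0⟩ : ∃ z0, z0 = y + (i : ℤ) • g := ⟨_, rfl⟩
  have hz1 : nz (z0 - y) ≤ i := by
    rw [hz0, add_sub_cancel_left, nz_smul, hg1, abs_of_nonneg (by positivity)]; omega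
  have hzM : nz z0 ≤ nz y + i := by
    have := nz_add (z0 - y) y; rw [sub_add_cancel] at this; omega
  have hi3 : ps P d a z0 * ps P d a (z0 + g) < 0 := by
    have e : z0 + g = y + ((i + 1 : ℕ) : ℤ) • g := by
      rw [hz0]; push_cast; rw [add_smul, one_smul]; abel
    rw [e, hz0, ← hh, ← hh]; exact hi2
  have hB := S.ps_le hd hg1 (z := z0) (a := a) (by omega) hi3
  obtain ⟨u, u1, u2, u3⟩ := lock_at S hd (a := a) (y := z0) Q R (B := 2 * C) (σ := σ) (η := η) n.hQ
    (by omega) hσ hB (by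
      intro w hw
      have h4 : w = y + (w - y) := by abel
      rw [h4]
      apply hvv
      have := nz_add (w - z0) (z0 - y)
      rw [sub_add_sub_cancel] at this
      omega) (n.e1.trans hση) n.e2 n.e3
  have hchi := S.chi_lin hd (u := u) (y := z0) (by omega) u3
  have hu1 : (1 : ℝ) ≤ nz u := by
    have : u ≠ 0 := by rintro rfl; simp at u1
    exact_mod_cast nz_pos this
  have c6 : 1 / C ^ 2 ≤ (nz u : ℝ) / C ^ 2 := div_le_div_of_nonneg_right hu1 (by positivity)
  have c7 : 16 * σ ≤ 1 / C ^ 2 := by rw [le_div_iff₀ (by positivity)]; linarith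
  have hX2 : X + 2 * R * C ≤ ch P d a z0 := by
    have h1 := S.ch_sub hd (a := a) (y := y) (y' := z0) (by omega) (by omega)
    have h2 : (nz (z0 - y) : ℝ) ≤ R := by
      have : nz (z0 - y) ≤ R := by omega
      exact_mod_cast this
    have h3 : 2 * (nz (z0 - y) : ℝ) * C ≤ 2 * R * C := by
      have := mul_le_mul_of_nonneg_right h2 hC0.le
      linarith
    have h4 := (abs_le.mp (h1.trans h3)).1
    nlinarith
  have hchi0 : chi d (lin P u z0) ≠ 0 := by
    intro h; rw [h, abs_zero] at hchi; linarith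
  rcases lt_or_gt_of_ne hchi0 with h1 | h1
  · refine ⟨-u, g, z0, ?_, ?_, hg1, by omega, hi3, ?_, ?_, hX2⟩
    · simp only [Prod.fst_neg, Prod.snd_neg, Int.gcd_neg, Int.neg_gcd]; exact u1
    · rw [nz_neg]; exact u2
    · have e : lin P (-u) z0 = -lin P u z0 := by
        unfold lin
        simp only [Prod.fst_neg, Prod.snd_neg, Int.cast_neg]; ring
      have e2 : det2 d (-lin P u z0) = -det2 d (lin P u z0) := by
        simp only [det2, Complex.neg_re, Complex.neg_im]; ring
      rw [e, e2, abs_neg]; exact u3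
    · have e : lin P (-u) z0 = -lin P u z0 := by
        unfold lin
        simp only [Prod.fst_neg, Prod.snd_neg, Int.cast_neg]; ring
      have e2 : chi d (-lin P u z0) = -chi d (lin P u z0) := by
        simp only [chi, Complex.neg_re, Complex.neg_im]; ring
      rw [e, e2]; linarith
  · exact ⟨u, g, z0, u1, u2, hg1, by omega, hi3, u3, h1, hX2⟩

end

end Pool.Agent.Lib.MP_a768d2_co.SL
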