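import Pool.Agent.Lib.MP_a768d2_coT.SlE

/-! # Slowly varying lattices: every ray is a row of bounded height -/

namespace Pool.Agent.Lib.MP_a768d2_co.SL

noncomputable section

/-- the conclusion about a ray: beyond a short initial piece it follows the row `z0 + j u` -/
structure Row (P : ℤ × ℤ → ℂ) (M : ℤ) (C σ : ℝ) (Q : ℕ) (a : ℤ × ℤ) (d : ℂ) (u z0 : ℤ × ℤ) : Prop where
  gcd : Int.gcd u.1 u.2 = 1
  ht : nz u ≤ Q
  z0M : 2 * nz z0 ≤ M
  ps : ∀ j : ℕ, 4 * (Q : ℤ) * j ≤ M → |ps P d a (z0 + (j : ℤ) • u)| ≤ 2 * C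
  dt : ∀ j : ℕ, 4 * (Q : ℤ) * j ≤ M → |det2 d (lin P u (z0 + (j : ℤ) • u))| ≤ σ
  pos : ∀ j : ℕ, 4 * (Q : ℤ) * j ≤ M → 0 < chi d (lin P u (z0 + (j : ℤ) • u))
  ch : ∀ j : ℕ, 4 * (Q : ℤ) * j ≤ M → (j : ℝ) / (2 * C ^ 2) ≤ ch P d a (z0 + (j : ℤ) • u)

theorem ray (C : ℝ) (hC : 1 ≤ C) (c1 : ℝ) (hc1 : 0 < c1) (hc1' : c1 ≤ 1) :
    ∃ (Q2 : ℕ) (C1 r3 : ℝ), 1 ≤ Q2 ∧ 0 < C1 ∧ 0 < r3 ∧ ∀ r, 0 < r → r ≤ r3 → ∀ σ, 0 < σ →
      ∃ ε, 0 < ε ∧ ∃ M0 : ℤ, ∀ M, M0 ≤ M → ∀ P, Slow M C ε P → ∀ a, 4 * nz a ≤ M → ∀ d : ℂ, ‖d‖ = 1 →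
        (∀ z, nz z + 1 ≤ M → r * M ≤ ch P d a z → c1 * (ch P d a z / M) ^ 2 ≤ |ps P d a z|) →
        ∃ u z0, Row P M C σ Q2 a d u z0 ∧ (nz (z0 - a) : ℝ) ≤ C1 * r * M := by
  have hC0 : 0 < C := by linarith
  have hC2 : (1 : ℝ) ≤ C ^ 2 := one_le_pow₀ hC
  -- constants depending on `C, c1`
  obtain ⟨η2, hη2⟩ : ∃ η2, η2 = c1 * (1 / (32 * C ^ 2)) ^ 2 / 2 := ⟨_, rfl⟩
  have hη20 : 0 < η2 := by rw [hη2]; positivity
  obtain ⟨Q2, hQ2⟩ := exists_nat_gt (C / η2)
  have hQ2' : C < η2 * (Q2 + 1) := by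
    rw [div_lt_iff₀ hη20] at hQ2; nlinarith
  have hQ21 : 1 ≤ Q2 := by
    have : (0 : ℝ) < Q2 := lt_trans (by positivity) hQ2
    exact_mod_cast this
  obtain ⟨R0, hR0⟩ := exists_nat_ge (C ^ 2 * (3 * (C + 1)) + 1)
  have hR01 : (1 : ℝ) ≤ R0 := by
    have : 0 ≤ C ^ 2 * (3 * (C + 1)) := by positivity
    linarith
  obtain ⟨T, hT⟩ := exists_nat_ge (2 * C ^ 2 * (C + 3))
  refine ⟨Q2 + 1, 2 * R0, 1 / (16 * R0), by omega, by linarith, by positivity, ?_⟩
  intro r hr hr3 σ hσ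
  have hr1 : r * (16 * R0) ≤ 1 := by
    rw [le_div_iff₀ (by positivity)] at hr3; exact hr3
  have hrle : r ≤ 1 := by nlinarith
  -- constants depending on `r, σ`
  obtain ⟨η, hη⟩ : ∃ η, η = c1 * r ^ 2 / 2 := ⟨_, rfl⟩
  have hη0 : 0 < η := by rw [hη]; positivity
  have hη1 : η ≤ 1 := by
    rw [hη]
    have : r ^ 2 ≤ 1 := pow_le_one₀ hr.le hrle
    nlinarith
  obtain ⟨Q0, hQ0⟩ := exists_nat_gt (C / η)
  obtain ⟨Q, hQ⟩ : ∃ Q, Q = max Q0 Q2 := ⟨_, rfl⟩
  have hQQ2 : Q2 ≤ Q := by rw [hQ]; exact le_max_right _ _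
  have hQQ0 : Q0 ≤ Q := by rw [hQ]; exact le_max_left _ _
  have hQη : C < η * (Q + 1) := by
    rw [div_lt_iff₀ hη0] at hQ0
    have : (Q0 : ℝ) ≤ Q := by exact_mod_cast hQQ0
    nlinarith
  have hQ1 : 1 ≤ Q := by omega
  obtain ⟨σ', hσ'⟩ : ∃ σ', σ' = min (min σ (min η η2)) (1 / (16 * (Q + 1) * C ^ 2)) := ⟨_, rfl⟩
  have hσ'0 : 0 < σ' := by
    rw [hσ']; exact lt_min (lt_min hσ (lt_min hη0 hη20)) (by positivity)
  have hσ'σ : σ' ≤ σ := by rw [hσ']; exact (min_le_left _ _).trans (min_le_left _ _)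
  have hσ'η : σ' ≤ η := by
    rw [hσ']; exact (min_le_left _ _).trans ((min_le_right _ _).trans (min_le_left _ _))
  have hσ'η2 : σ' ≤ η2 := by
    rw [hσ']; exact (min_le_left _ _).trans ((min_le_right _ _).trans (min_le_right _ _))
  have hσ'Q : 16 * (Q + 1) * σ' * C ^ 2 ≤ 1 := by
    have : σ' ≤ 1 / (16 * (Q + 1) * C ^ 2) := by rw [hσ']; exact min_le_right _ _
    rw [le_div_iff₀ (by positivity)] at this
    linarith
  obtain ⟨R1, hR1⟩ := exists_nat_ge (((Q : ℝ) + 1) * (2 * C / σ' + 1))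
  obtain ⟨R, hR⟩ : ∃ R, R = max R1 T := ⟨_, rfl⟩
  have hRT : T ≤ R := by rw [hR]; exact le_max_right _ _
  have hRR1 : ((Q : ℝ) + 1) * (2 * C / σ' + 1) ≤ R := by
    refine hR1.trans ?_
    have : R1 ≤ R := by rw [hR]; exact le_max_left _ _
    exact_mod_cast this
  have hRpos : (0 : ℝ) < R := lt_of_lt_of_le (by positivity) hRR1
  obtain ⟨ε, hε⟩ : ∃ ε : ℝ, ε = min (σ' / (4 * (R : ℝ) ^ 2)) (1 / (4 * (R0 : ℝ) ^ 2)) := ⟨_, rfl⟩
  have hε0 : 0 < ε := by rw [hε]; exact lt_min (by positivity) (by positivity)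
  have hεR : 4 * (R : ℝ) ^ 2 * ε ≤ σ' := by
    have : ε ≤ σ' / (4 * R ^ 2) := by rw [hε]; exact min_le_left _ _
    rw [le_div_iff₀ (by positivity)] at this
    linarith
  have hεR0 : 4 * (R0 : ℝ) ^ 2 * ε ≤ 1 := by
    have : ε ≤ 1 / (4 * R0 ^ 2) := by rw [hε]; exact min_le_right _ _
    rw [le_div_iff₀ (by positivity)] at this
    linarith
  have num : NumR C ε σ' η Q R := ⟨hQ1, hσ'0, hσ'η, hεR, hQη, hRR1, by linarith⟩
  -- `M`
  obtain ⟨M1, hM1⟩ := exists_nat_ge ((6 * R * C + (C + 1)) / r + T / (R0 * r) + 64 * C ^ 3 * R +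
    16 * (R + T + R0 + Q + 4))
  refine ⟨ε, hε0, (M1 : ℤ), ?_⟩
  intro M hM P S a ha d hd hvoid
  have hMR : (M1 : ℝ) ≤ M := by exact_mod_cast hM
  have m0 : 0 ≤ (6 * R * C + (C + 1)) / r := by positivity
  have m1 : 0 ≤ (T : ℝ) / (R0 * r) := by positivity
  have m2 : 0 ≤ 64 * C ^ 3 * R := by positivity
  have m3 : (0 : ℝ) ≤ 16 * (R + T + R0 + Q + 4) := by positivity
  have M0 : (0 : ℝ) < M := by
    have : (0 : ℝ) < 16 * (R + T + R0 + Q + 4) := by positivity
    linarith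
  have g1 : 6 * R * C + (C + 1) ≤ r * M := by
    have : (6 * R * C + (C + 1)) / r ≤ M := by linarith
    rw [div_le_iff₀ hr] at this; linarith
  have g2 : (T : ℝ) ≤ R0 * r * M := by
    have : (T : ℝ) / (R0 * r) ≤ M := by linarith
    rw [div_le_iff₀ (by positivity)] at this; linarith
  have g3 : 64 * C ^ 3 * R ≤ M := by linarith
  have g4 : 16 * ((R : ℤ) + T + R0 + Q + 4) ≤ M := by
    have : 16 * ((R : ℝ) + T + R0 + Q + 4) ≤ M := by linarith
    exact_mod_cast this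
  -- following the line
  obtain ⟨k, hk⟩ : ∃ k : ℕ, k = ⌈(r * M + 6 * R * C) / (C + 1)⌉₊ := ⟨_, rfl⟩
  have hk1 : r * M + 6 * R * C ≤ k * (C + 1) := by
    have := Nat.le_ceil ((r * M + 6 * R * C) / (C + 1))
    rw [← hk, div_le_iff₀ (by positivity)] at this
    exact this
  have hk2 : (k : ℝ) ≤ r * M := by
    have h1 := Nat.ceil_lt_add_one (show 0 ≤ (r * M + 6 * R * C) / (C + 1) by positivity)
    rw [← hk] at h1
    have h2 : (r * M + 6 * R * C) / (C + 1) + 1 ≤ r * M := by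
      rw [← le_sub_iff_add_le, div_le_iff₀ (by positivity)]
      have h3 : 0 ≤ r * M := by positivity
      have h4 : (r * M) * 1 ≤ (r * M) * C := mul_le_mul_of_nonneg_left hC h3
      have e : (r * M - 1) * (C + 1) = r * M * C + r * M - (C + 1) := by ring
      rw [e]
      linarith
    linarith
  have hkR0 : (k : ℝ) * R0 ≤ M / 16 := by
    have h1 : (k : ℝ) * R0 ≤ r * M * R0 := mul_le_mul_of_nonneg_right hk2 (by positivity)
    have h2 : r * M * R0 * 16 ≤ M := by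
      have : r * M * R0 * 16 = (r * (16 * R0)) * M := by ring
      rw [this]
      exact mul_le_of_le_one_left M0.le hr1
    linarith
  have hkR0' : 16 * ((k : ℤ) * R0) ≤ M := by
    have : 16 * ((k : ℝ) * R0) ≤ M := by linarith
    exact_mod_cast this
  obtain ⟨y, y1, y2, y3, y4⟩ := follow S a hd (R0 : ℤ) (by push_cast; exact hR0) (by push_cast; exact hεR0) k
    (by
      have e : ((k : ℤ) + 1) * (R0 : ℤ) = k * R0 + R0 := by ring
      rw [e]
      omega)
  have hyM : nz y ≤ nz a + k * R0 := by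
    have := nz_add (y - a) a; rw [sub_add_cancel] at this; omega
  -- starting
  have hvoid2 : ∀ z, nz z + 1 ≤ M → r * M ≤ ch P d a z → 2 * η ≤ |ps P d a z| := by
    intro z hz hz2
    refine le_trans ?_ (hvoid z hz hz2)
    have h1 : r ≤ ch P d a z / M := by rw [le_div_iff₀ M0]; exact hz2
    have h2 : r ^ 2 ≤ (ch P d a z / M) ^ 2 := pow_le_pow_left₀ hr.le h1 2
    have h3 := mul_le_mul_of_nonneg_left h2 hc1.le
    rw [hη]
    linarith
  obtain ⟨u, g, z0, u1, u2, hg, hz0, i1, i2, i3, i4⟩ := start S hd num hT hRT hη1 hvoid2 y2 (by linarith) (by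
    omega)
  have hz0M : nz z0 ≤ nz a + k * R0 + T := by
    have := nz_add (z0 - y) y; rw [sub_add_cancel] at this; omega
  have hz0M2 : 2 * nz z0 ≤ M := by omega
  have follow' := row_follow S hd num hvoid2 u1 u2 hg i1 i2 i3 i4
  have hch0 : 0 ≤ ch P d a z0 := by
    have : 0 ≤ r * M + 2 * R * C := by positivity
    linarith
  have hu1 : 1 ≤ nz u := by
    have : u ≠ 0 := by rintro rfl; simp at u1
    exact nz_pos this
  have hu1R : (1 : ℝ) ≤ nz u := by exact_mod_cast hu1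
  -- the height of `u`
  have hht : nz u ≤ Q2 + 1 := by
    obtain ⟨J, hJ⟩ : ∃ J : ℕ, J = (M / (4 * nz u)).toNat := ⟨_, rfl⟩
    have hJ0 : 0 ≤ M / (4 * nz u) := Int.ediv_nonneg (by omega) (by omega)
    have hJ1 : (J : ℤ) = M / (4 * nz u) := by rw [hJ]; exact Int.toNat_of_nonneg hJ0
    have hJ2 : 4 * ((J : ℤ) * nz u) ≤ M := by
      rw [hJ1]
      have := Int.mul_ediv_self_le (x := M) (k := 4 * nz u) (by omega)
      calc 4 * (M / (4 * nz u) * nz u) = 4 * nz u * (M / (4 * nz u)) := by ring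
        _ ≤ M := this
    have hJ3 : M < 4 * ((J : ℤ) * nz u) + 4 * nz u := by
      rw [hJ1]
      have := Int.lt_mul_ediv_self_add (x := M) (k := 4 * nz u) (by omega)
      calc M < 4 * nz u * (M / (4 * nz u)) + 4 * nz u := this
        _ = 4 * (M / (4 * nz u) * nz u) + 4 * nz u := by ring
    have hJM : nz z0 + J * nz u + R + 3 ≤ M := by omega
    obtain ⟨f1, f2, f3, f4⟩ := follow' J hJM
    obtain ⟨z, hz⟩ : ∃ z, z = z0 + (J : ℤ) • u := ⟨_, rfl⟩
    rw [← hz] at f1 f2 f3 f4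
    have hzM : nz z ≤ nz z0 + J * nz u := by
      rw [hz]; refine (nz_add _ _).trans ?_
      rw [nz_smul, abs_of_nonneg (by positivity)]
    have hchz : (M : ℝ) / (16 * C ^ 2) ≤ ch P d a z := by
      have h1 : (J : ℝ) * (nz u / (2 * C ^ 2)) ≤ ch P d a z := by linarith
      refine le_trans ?_ h1
      have h2 : (M : ℝ) < 4 * (J * nz u) + 4 * nz u := by exact_mod_cast hJ3
      have h3 : 8 * (nz u : ℝ) ≤ M := by
        have : 8 * nz u ≤ M := by omega
        exact_mod_cast this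
      have e : (J : ℝ) * (nz u / (2 * C ^ 2)) = (8 * (J * nz u)) / (16 * C ^ 2) := by
        field_simp; ring
      rw [e]
      exact div_le_div_of_nonneg_right (by linarith) (by positivity)
    have hB := S.ps_le hd hg (z := z) (a := a) (by omega) f1
    obtain ⟨u', v1, v2, v3⟩ := lock_at S hd (a := a) (y := z) Q2 R (B := 2 * C) (σ := σ') (η := η2) hQ21
      (by omega) hσ'0 hB (by
        intro w hw
        have h4 : nz w + 1 ≤ M := by
          have := nz_add (w - z) z; rw [sub_add_cancel] at this; omega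
        have h6 := S.ch_sub hd (a := a) (y := z) (y' := w) (by omega) h4
        have h7 : (nz (w - z) : ℝ) ≤ R := by exact_mod_cast hw
        have h8 : 2 * (nz (w - z) : ℝ) * C ≤ 2 * R * C := by
          have := mul_le_mul_of_nonneg_right h7 hC0.le
          linarith
        have h9 := (abs_le.mp (h6.trans h8)).1
        have h10 : (M : ℝ) / (32 * C ^ 2) ≤ ch P d a w := by
          have e : (M : ℝ) / (16 * C ^ 2) = 2 * (M / (32 * C ^ 2)) := by field_simp; norm_num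
          rw [e] at hchz
          have h11 : 2 * R * C ≤ (M : ℝ) / (32 * C ^ 2) := by
            rw [le_div_iff₀ (by positivity)]
            have : 2 * (R : ℝ) * C * (32 * C ^ 2) = 64 * C ^ 3 * R := by ring
            rw [this]; exact g3
          linarith
        have h12 : r * M ≤ (M : ℝ) / (32 * C ^ 2) := by
          rw [le_div_iff₀ (by positivity)]
          have h13 : 32 * C ^ 2 * r ≤ 1 := by
            have h14 : 32 * C ^ 2 ≤ 16 * R0 := by
              have h17 : C ^ 2 * 6 ≤ C ^ 2 * (3 * (C + 1)) :=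
                mul_le_mul_of_nonneg_left (by linarith) (by positivity)
              linarith
            calc 32 * C ^ 2 * r ≤ 16 * R0 * r := mul_le_mul_of_nonneg_right h14 hr.le
              _ = r * (16 * R0) := by ring
              _ ≤ 1 := hr1
          calc r * M * (32 * C ^ 2) = (32 * C ^ 2 * r) * M := by ring
            _ ≤ 1 * (M : ℝ) := mul_le_mul_of_nonneg_right h13 M0.le
            _ = (M : ℝ) := one_mul _
        refine le_trans ?_ (hvoid w h4 (h12.trans h10))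
        have h15 : 1 / (32 * C ^ 2) ≤ ch P d a w / M := by
          rw [le_div_iff₀ M0]
          calc 1 / (32 * C ^ 2) * (M : ℝ) = M / (32 * C ^ 2) := by ring
            _ ≤ _ := h10
        have h16 : (1 / (32 * C ^ 2)) ^ 2 ≤ (ch P d a w / M) ^ 2 := pow_le_pow_left₀ (by positivity) h15 2
        have h17 := mul_le_mul_of_nonneg_left h16 hc1.le
        rw [hη2]
        linarith) (hεR.trans hσ'η2) hQ2' (by
          refine le_trans ?_ hRR1
          have : (Q2 : ℝ) ≤ Q := by exact_mod_cast hQQ2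
          have h0 : 0 ≤ 2 * C / σ' + 1 := by positivity
          exact mul_le_mul_of_nonneg_right (by linarith) h0)
    have hpq := S.pq hd (y := z) (by omega)
    have hun := uniq (A := C ^ 2) (by positivity) hpq u1 v1 (Q := (Q : ℝ) + 1) (by exact_mod_cast u2)
      (by
        have : nz u' ≤ Q + 1 := by omega
        exact_mod_cast this)
      (by rw [← det2_lin]; exact f2) (by rw [← det2_lin]; exact v3) (s := σ') (by
        have := num.e4; have h0 := hσ'0
        have : 0 < ((Q : ℝ) + 1) * σ' * C ^ 2 := by positivity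
        linarith)
    rcases hun with h | h
    · rw [← h]; exact v2
    · have : nz u' = nz u := by rw [h, nz_neg]
      rw [← this]; exact v2
  have hjM : ∀ j : ℕ, 4 * ((Q2 + 1 : ℕ) : ℤ) * j ≤ M → nz z0 + j * nz u + R + 3 ≤ M := by
    intro j hj
    have h1 : (j : ℤ) * nz u ≤ (j : ℤ) * (Q2 + 1) := mul_le_mul_of_nonneg_left hht (by positivity)
    push_cast at hj
    have e : 4 * ((Q2 : ℤ) + 1) * j = 4 * (j * (Q2 + 1)) := by ring
    rw [e] at hj
    omega
  refine ⟨u, z0, ⟨u1, by exact_mod_cast hht, hz0M2, ?_, ?_, ?_, ?_⟩, ?_⟩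
  · intro j hj
    have h1 := hjM j hj
    obtain ⟨f1, f2, f3, f4⟩ := follow' j h1
    refine S.ps_le hd hg ?_ f1
    have h2 := nz_add z0 ((j : ℤ) • u)
    rw [nz_smul, abs_of_nonneg (by positivity)] at h2
    omega
  · intro j hj
    exact (follow' j (hjM j hj)).2.1.trans hσ'σ
  · intro j hj
    exact (follow' j (hjM j hj)).2.2.1
  · intro j hj
    have h1 := (follow' j (hjM j hj)).2.2.2
    refine le_trans ?_ h1
    have h2 : (j : ℝ) / (2 * C ^ 2) ≤ j * (nz u / (2 * C ^ 2)) := by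
      rw [← mul_div_assoc]
      refine div_le_div_of_nonneg_right ?_ (by positivity)
      exact le_mul_of_one_le_right (by positivity) hu1R
    linarith
  · have h1 : nz (z0 - a) ≤ k * R0 + T := by
      have := nz_add (z0 - y) (y - a)
      rw [sub_add_sub_cancel] at this
      omega
    have h2 : (nz (z0 - a) : ℝ) ≤ k * R0 + T := by exact_mod_cast h1
    have h3 : (k : ℝ) * R0 ≤ r * M * R0 := mul_le_mul_of_nonneg_right hk2 (by positivity)
    calc (nz (z0 - a) : ℝ) ≤ k * R0 + T := h2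
      _ ≤ r * M * R0 + R0 * r * M := add_le_add h3 g2
      _ = 2 * R0 * r * M := by ring

end

end Pool.Agent.Lib.MP_a768d2_co.SL
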