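import Pool.Agent.Lib.MP_a768d2_coT.SlF
import Pool.Agent.Lib.MP_a768d2_coR.RgA

/-! # Slowly varying lattices: the modulus of continuity of the directions -/

namespace Pool.Agent.Lib.MP_a768d2_co.SL

noncomputable section

variable {M : ℤ} {C ε : ℝ} {P : ℤ × ℤ → ℂ}

/-! ## unit vectors -/

theorem trig_det (d1 d2 d3 : ℂ) : ‖d2‖ ^ 2 * det2 d1 d3 = det2 d1 d2 * chi d2 d3 + chi d1 d2 * det2 d2 d3 := by
  rw [Complex.sq_norm, Complex.normSq_apply]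
  simp only [det2, chi]; ring

theorem trig_chi (d1 d2 d3 : ℂ) : ‖d2‖ ^ 2 * chi d1 d3 = chi d1 d2 * chi d2 d3 - det2 d1 d2 * det2 d2 d3 := by
  rw [Complex.sq_norm, Complex.normSq_apply]
  simp only [det2, chi]; ring

theorem chi_symm (d d' : ℂ) : chi d d' = chi d' d := by simp only [chi]; ring

theorem det2_anti (d d' : ℂ) : det2 d d' = -det2 d' d := by simp only [det2]; ring

/-- almost parallel and of the same orientation -/
def Near (κ : ℝ) (d d' : ℂ) : Prop := |det2 d d'| ≤ κ ∧ 0 < chi d d'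

theorem Near.symm {κ : ℝ} {d d' : ℂ} (h : Near κ d d') : Near κ d' d :=
  ⟨by rw [det2_anti, abs_neg]; exact h.1, by rw [chi_symm]; exact h.2⟩

theorem Near.mono {κ κ' : ℝ} {d d' : ℂ} (h : Near κ d d') (hk : κ ≤ κ') : Near κ' d d' := ⟨h.1.trans hk, h.2⟩

theorem unit_sq {d d' : ℂ} (hd : ‖d‖ = 1) (hd' : ‖d'‖ = 1) : det2 d d' ^ 2 + chi d d' ^ 2 = 1 := by
  rw [← norm_sq_eq, hd, hd']; norm_num

theorem Near.chi_ge {κ : ℝ} {d d' : ℂ} (hd : ‖d‖ = 1) (hd' : ‖d'‖ = 1) (h : Near κ d d') (hk : κ ≤ 1 / 2) :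
    3 / 4 ≤ chi d d' := by
  have h1 := unit_sq hd hd'
  have h2 : det2 d d' ^ 2 ≤ 1 / 4 := by
    rw [← sq_abs]
    have := h.1
    have h0 := abs_nonneg (det2 d d')
    nlinarith
  have h3 := h.2
  nlinarith

theorem Near.trans {κ κ' : ℝ} {d1 d2 d3 : ℂ} (h1 : ‖d1‖ = 1) (h2 : ‖d2‖ = 1) (h3 : ‖d3‖ = 1)
    (h : Near κ d1 d2) (h' : Near κ' d2 d3) (hk : κ ≤ 1 / 2) (hk' : κ' ≤ 1 / 2) : Near (κ + κ') d1 d3 := by
  have e1 := trig_det d1 d2 d3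
  have e2 := trig_chi d1 d2 d3
  rw [h2, one_pow, one_mul] at e1 e2
  have a1 := h.chi_ge h1 h2 hk
  have a2 := h'.chi_ge h2 h3 hk'
  have b1 := chi_le d1 d2
  have b2 := chi_le d2 d3
  rw [h1, h2, mul_one] at b1
  rw [h2, h3, mul_one] at b2
  constructor
  · rw [e1]
    refine (abs_add_le _ _).trans ?_
    rw [abs_mul, abs_mul]
    have c1 := mul_le_mul h.1 b2 (abs_nonneg _) ((abs_nonneg _).trans h.1)
    have c2 := mul_le_mul b1 h'.1 (abs_nonneg _) (by norm_num)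
    linarith
  · rw [e2]
    have c1 : |det2 d1 d2 * det2 d2 d3| ≤ 1 / 2 * (1 / 2) := by
      rw [abs_mul]
      exact mul_le_mul (h.1.trans hk) (h'.1.trans hk') (abs_nonneg _) (by norm_num)
    have c2 := (abs_le.mp c1).2
    nlinarith

/-! ## directions of an array -/

/-- the direction of `F e` -/
def dir (P : ℤ × ℤ → ℂ) (e a : ℤ × ℤ) : ℂ := ((1 / ‖F P e a‖ : ℝ) : ℂ) * F P e a

theorem norm_dir {e a : ℤ × ℤ} (h : 0 < ‖F P e a‖) : ‖dir P e a‖ = 1 := by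
  unfold dir
  rw [norm_mul, Complex.norm_real, Real.norm_eq_abs, abs_of_pos (by positivity)]
  field_simp

theorem Slow.F_ge (S : Slow M C ε P) {e a : ℤ × ℤ} {H : ℕ} (he : e ≠ 0) (heH : nz e ≤ H)
    (ha : nz a + H + 1 ≤ M) (hε : 8 * (H : ℝ) ^ 2 * C ^ 2 * ε ≤ 1) : 1 / (2 * C ^ 2) ≤ ‖F P e a‖ := by
  have hC0 : 0 < C := by linarith [S.hC]
  have h1 := S.lin_ge (u := e) (y := a) (by omega)
  have h2 := S.F_lin (u := e) (R := H) (y := a) heH ha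
  have h3 : (1 : ℝ) ≤ nz e := by exact_mod_cast nz_pos he
  have h4 := norm_sub_norm_le (lin P e a) (F P e a)
  rw [norm_sub_rev] at h4
  push_cast at h2
  have h5 : 4 * (H : ℝ) ^ 2 * ε ≤ 1 / (2 * C ^ 2) := by
    rw [le_div_iff₀ (by positivity)]; linarith
  have h6 : 1 / C ^ 2 ≤ ‖lin P e a‖ := by
    rw [div_le_iff₀ (by positivity)]; linarith
  have h7 : 1 / C ^ 2 = 1 / (2 * C ^ 2) + 1 / (2 * C ^ 2) := by field_simp; norm_num
  linarith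

theorem Slow.F_le (S : Slow M C ε P) {e a : ℤ × ℤ} {H : ℕ} (heH : nz e ≤ H)
    (ha : nz a + H + 1 ≤ M) : ‖F P e a‖ ≤ 2 * C * H := by
  have hC0 : 0 < C := by linarith [S.hC]
  have h1 : nz (a + e) + 1 ≤ M := by have := nz_add a e; omega
  have h2 := S.P_sub (y := a) (y' := a + e) (by omega) h1
  rw [add_sub_cancel_left] at h2
  have h3 : (nz e : ℝ) ≤ H := by exact_mod_cast heH
  unfold F
  refine h2.trans ?_
  have := mul_le_mul_of_nonneg_right h3 hC0.le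
  linarith

theorem unit_sub {x y : ℂ} (hx : 0 < ‖x‖) (hy : 0 < ‖y‖) :
    ‖((1 / ‖x‖ : ℝ) : ℂ) * x - ((1 / ‖y‖ : ℝ) : ℂ) * y‖ ≤ 2 * ‖x - y‖ / ‖x‖ := by
  have e : ((1 / ‖x‖ : ℝ) : ℂ) * x - ((1 / ‖y‖ : ℝ) : ℂ) * y =
      ((1 / ‖x‖ : ℝ) : ℂ) * (x - y) + ((1 / ‖x‖ - 1 / ‖y‖ : ℝ) : ℂ) * y := by
    push_cast; ring
  rw [e]
  refine (norm_add_le _ _).trans ?_
  rw [norm_mul, norm_mul, Complex.norm_real, Complex.norm_real, Real.norm_eq_abs, Real.norm_eq_abs,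
    abs_of_pos (by positivity : 0 < 1 / ‖x‖)]
  have e2 : |1 / ‖x‖ - 1 / ‖y‖| * ‖y‖ = |‖y‖ - ‖x‖| / ‖x‖ := by
    have e3 : 1 / ‖x‖ - 1 / ‖y‖ = (‖y‖ - ‖x‖) / (‖x‖ * ‖y‖) := by field_simp
    rw [e3, abs_div, abs_of_pos (mul_pos hx hy)]
    field_simp
  rw [e2]
  have h1 : |‖y‖ - ‖x‖| ≤ ‖x - y‖ := by
    rw [norm_sub_rev]; exact abs_norm_sub_norm_le y x
  have h2 : |‖y‖ - ‖x‖| / ‖x‖ ≤ ‖x - y‖ / ‖x‖ := div_le_div_of_nonneg_right h1 hx.le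
  calc 1 / ‖x‖ * ‖x - y‖ + |‖y‖ - ‖x‖| / ‖x‖ ≤ 1 / ‖x‖ * ‖x - y‖ + ‖x - y‖ / ‖x‖ := by linarith
    _ = 2 * ‖x - y‖ / ‖x‖ := by ring

/-- no thin triangles -/
def HH (M : ℤ) (c : ℝ) (P : ℤ × ℤ → ℂ) : Prop := ∀ x x' z, nz x + 1 ≤ M → nz x' + 1 ≤ M → nz z + 1 ≤ M →
  P x' ≠ P x → 2 * ‖P x' - P x‖ ≤ ‖P z - P x‖ →
  c * ‖P z - P x‖ ^ 2 ≤ (M : ℝ) ^ 2 * |det2 (P x' - P x) (P z - P x)|

/-- the void along a ray -/
theorem Slow.void (S : Slow M C ε P) {c : ℝ} (hc : 0 < c) (Hc : HH M c P) {e a : ℤ × ℤ} {H : ℕ} (hH : 1 ≤ H)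
    (he : e ≠ 0) (heH : nz e ≤ H) (ha : nz a + H + 1 ≤ M) (hε : 8 * (H : ℝ) ^ 2 * C ^ 2 * ε ≤ 1) {X : ℝ}
    (hX : 4 * C * H ≤ X) (z : ℤ × ℤ) (hz : nz z + 1 ≤ M) (hX2 : X ≤ ch P (dir P e a) a z) :
    c / (2 * C * H) * (ch P (dir P e a) a z / M) ^ 2 ≤ |ps P (dir P e a) a z| := by
  have hC0 : 0 < C := by linarith [S.hC]
  have hM0 : (0 : ℝ) < M := by
    have h1 := nz_nonneg a
    have : 0 < M := by omega
    exact_mod_cast this
  have hH0 : (0 : ℝ) < H := by exact_mod_cast hH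
  have hge := S.F_ge he heH ha hε
  have hle := S.F_le heH ha
  have hF0 : 0 < ‖F P e a‖ := lt_of_lt_of_le (by positivity) hge
  have hd := norm_dir hF0
  have hae : nz (a + e) + 1 ≤ M := by have := nz_add a e; omega
  have hchn : ch P (dir P e a) a z ≤ ‖P z - P a‖ := by
    have := chi_le (dir P e a) (P z - P a)
    rw [hd, one_mul] at this
    exact (le_abs_self _).trans this
  have h := Hc a (a + e) z (by omega) hae hz (by
    intro h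
    unfold F at hF0
    rw [h, sub_self, norm_zero] at hF0
    exact lt_irrefl _ hF0) (by
    unfold F at hle
    linarith)
  have e1 : |det2 (P (a + e) - P a) (P z - P a)| = ‖F P e a‖ * |ps P (dir P e a) a z| := by
    have e3 : |det2 (F P e a) (P z - P a)| = ‖F P e a‖ * |ps P (dir P e a) a z| := by
      unfold ps dir
      rw [det2_real_mul', abs_mul, abs_of_pos (by positivity : 0 < 1 / ‖F P e a‖)]
      field_simp
    exact e3
  rw [e1] at h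
  have hch0 : 0 ≤ ch P (dir P e a) a z := by
    refine le_trans ?_ hX2
    refine le_trans ?_ hX
    positivity
  have h2 : ch P (dir P e a) a z ^ 2 ≤ ‖P z - P a‖ ^ 2 := pow_le_pow_left₀ hch0 hchn 2
  have h3 : c * ch P (dir P e a) a z ^ 2 ≤ (M : ℝ) ^ 2 * (2 * C * H * |ps P (dir P e a) a z|) := by
    calc c * ch P (dir P e a) a z ^ 2 ≤ c * ‖P z - P a‖ ^ 2 := mul_le_mul_of_nonneg_left h2 hc.le
      _ ≤ (M : ℝ) ^ 2 * (‖F P e a‖ * |ps P (dir P e a) a z|) := h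
      _ ≤ _ := by
        refine mul_le_mul_of_nonneg_left ?_ (by positivity)
        exact mul_le_mul_of_nonneg_right hle (abs_nonneg _)
  have e2 : c / (2 * C * H) * (ch P (dir P e a) a z / M) ^ 2 =
      c * ch P (dir P e a) a z ^ 2 / ((M : ℝ) ^ 2 * (2 * C * H)) := by
    field_simp
  rw [e2, div_le_iff₀ (by positivity)]
  linarith

end

end Pool.Agent.Lib.MP_a768d2_co.SL
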