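import Pool.Agent.Lib.MP_a768d2_coT.SlG

/-! # Slowly varying lattices: the modulus of continuity of the directions (pigeonhole) -/

namespace Pool.Agent.Lib.MP_a768d2_co.SL

noncomputable section

/-- two different rays cannot follow the same row -/
theorem rays_apart {M : ℤ} {C ε : ℝ} {P : ℤ × ℤ → ℂ} (S : Slow M C ε P) {σ : ℝ} {Q : ℕ} (hQ : 1 ≤ Q)
    {d0 d d' : ℂ} (h0 : ‖d0‖ = 1) (hd : ‖d‖ = 1) (hd' : ‖d'‖ = 1) {a a' u z0 z0' : ℤ × ℤ}
    (ha : nz a + 1 ≤ M) (ha' : nz a' + 1 ≤ M)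
    (h : Row P M C σ Q a d u z0) (h' : Row P M C σ Q a' d' u z0') (hM : 8 * (Q : ℤ) + 8 ≤ M) {E : ℝ}
    (hE : 2 * C * (nz (z0 - z0') + nz (a - a')) ≤ E) :
    M / (16 * C ^ 2 * Q) * |det2 d0 d - det2 d0 d'| ≤ 2 * E + 8 * C := by
  have hC := S.hC
  have hC0 : 0 < C := by linarith
  have hM0 : (0 : ℝ) < M := by
    have : 0 < M := by omega
    exact_mod_cast this
  have hQ0 : (0 : ℝ) < Q := by exact_mod_cast hQ
  obtain ⟨J, hJ⟩ : ∃ J : ℕ, J = (M / (4 * Q)).toNat := ⟨_, rfl⟩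
  have hJ0 : 0 ≤ M / (4 * (Q : ℤ)) := Int.ediv_nonneg (by omega) (by omega)
  have hJ1 : (J : ℤ) = M / (4 * Q) := by rw [hJ]; exact Int.toNat_of_nonneg hJ0
  have hJ2 : 4 * (Q : ℤ) * J ≤ M := by
    rw [hJ1]; exact Int.mul_ediv_self_le (x := M) (k := 4 * Q) (by omega)
  have hJ3 : M < 4 * (Q : ℤ) * J + 4 * Q := by
    rw [hJ1]; exact Int.lt_mul_ediv_self_add (x := M) (k := 4 * Q) (by omega)
  have hJ4 : (M : ℝ) ≤ 8 * (Q * J) := by
    have h1 : (M : ℝ) < 4 * Q * J + 4 * Q := by exact_mod_cast hJ3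
    have h2 : 8 * (Q : ℝ) + 8 ≤ M := by exact_mod_cast hM
    linarith
  have p1 := h.ps J hJ2
  have p2 := h'.ps J hJ2
  have c1 := h.ch J hJ2
  have c2 := h'.ch J hJ2
  obtain ⟨z, hz⟩ : ∃ z, z = z0 + (J : ℤ) • u := ⟨_, rfl⟩
  obtain ⟨z', hz'⟩ : ∃ z', z' = z0' + (J : ℤ) • u := ⟨_, rfl⟩
  rw [← hz] at p1 c1
  rw [← hz'] at p2 c2
  have hJu : (J : ℤ) * nz u ≤ J * Q := mul_le_mul_of_nonneg_left h.ht (by positivity)
  have hJu2 : nz ((J : ℤ) • u) ≤ J * Q := by
    rw [nz_smul, abs_of_nonneg (by positivity)]; exact hJu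
  have hzM : nz z + 1 ≤ M := by
    have h1 := nz_add z0 ((J : ℤ) • u)
    rw [← hz] at h1
    have h2 := h.z0M
    nlinarith
  have hzM' : nz z' + 1 ≤ M := by
    have h1 := nz_add z0' ((J : ℤ) • u)
    rw [← hz'] at h1
    have h2 := h'.z0M
    nlinarith
  obtain ⟨w, hw⟩ : ∃ w, w = P z - P a := ⟨_, rfl⟩
  obtain ⟨w', hw'⟩ : ∃ w', w' = P z' - P a' := ⟨_, rfl⟩
  have hps : ps P d a z = det2 d w := by rw [hw]; rfl
  have hps' : ps P d' a' z' = det2 d' w' := by rw [hw']; rfl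
  have hch : ch P d a z = chi d w := by rw [hw]; rfl
  have hch' : ch P d' a' z' = chi d' w' := by rw [hw']; rfl
  rw [hps] at p1
  rw [hps'] at p2
  rw [hch] at c1
  rw [hch'] at c2
  obtain ⟨s, hs⟩ : ∃ s, s = chi d w := ⟨_, rfl⟩
  obtain ⟨s', hs'⟩ : ∃ s', s' = chi d' w' := ⟨_, rfl⟩
  rw [← hs] at c1
  rw [← hs'] at c2
  have hsp : (M : ℝ) / (16 * C ^ 2 * Q) ≤ s := by
    refine le_trans ?_ c1
    rw [div_le_div_iff₀ (by positivity) (by positivity)]
    have : (M : ℝ) * (2 * C ^ 2) ≤ 8 * (Q * J) * (2 * C ^ 2) := mul_le_mul_of_nonneg_right hJ4 (by positivity)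
    linarith
  -- the two points are close
  have hww : ‖w - w'‖ ≤ E := by
    have e : w - w' = (P z - P z') - (P a - P a') := by rw [hw, hw']; ring
    rw [e]
    refine (norm_sub_le _ _).trans ?_
    have h1 := S.P_sub hzM' hzM
    have h2 := S.P_sub ha' ha
    rw [hz, hz', add_sub_add_right_eq_sub] at h1
    rw [hz, hz']
    linarith
  have hs0 : 0 ≤ s := le_trans (by positivity) hsp
  have hs0' : 0 ≤ s' := le_trans (by positivity) c2
  have b1 : ‖w‖ ≤ s + 2 * C := by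
    have := norm_le_add d w
    rw [hd, one_mul, ← hs, abs_of_nonneg hs0] at this
    linarith
  have b2 : ‖w'‖ ≤ s' + 2 * C := by
    have := norm_le_add d' w'
    rw [hd', one_mul, ← hs', abs_of_nonneg hs0'] at this
    linarith
  have b3 : s ≤ ‖w‖ := by
    have := chi_le d w
    rw [hd, one_mul, ← hs] at this
    exact (le_abs_self _).trans this
  have b4 : s' ≤ ‖w'‖ := by
    have := chi_le d' w'
    rw [hd', one_mul, ← hs'] at this
    exact (le_abs_self _).trans this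
  have b5 : |s - s'| ≤ E + 2 * C := by
    have g1 := norm_sub_norm_le w w'
    have g2 := norm_sub_norm_le w' w
    rw [norm_sub_rev w' w] at g2
    rw [abs_le]
    constructor <;> linarith
  -- the determinants with `d0`
  have t1 : det2 d0 w = det2 d0 d * s + chi d0 d * det2 d w := by
    have := trig_det d0 d w
    rw [hd, one_pow, one_mul, ← hs] at this
    exact this
  have t2 : det2 d0 w' = det2 d0 d' * s' + chi d0 d' * det2 d' w' := by
    have := trig_det d0 d' w'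
    rw [hd', one_pow, one_mul, ← hs'] at this
    exact this
  have r1 : |chi d0 d * det2 d w| ≤ 2 * C := by
    rw [abs_mul]
    have g1 := chi_le d0 d
    rw [h0, hd, mul_one] at g1
    calc |chi d0 d| * |det2 d w| ≤ 1 * (2 * C) := mul_le_mul g1 p1 (abs_nonneg _) (by norm_num)
      _ = 2 * C := one_mul _
  have r2 : |chi d0 d' * det2 d' w'| ≤ 2 * C := by
    rw [abs_mul]
    have g1 := chi_le d0 d'
    rw [h0, hd', mul_one] at g1
    calc |chi d0 d'| * |det2 d' w'| ≤ 1 * (2 * C) := mul_le_mul g1 p2 (abs_nonneg _) (by norm_num)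
      _ = 2 * C := one_mul _
  have t3 : |det2 d0 w - det2 d0 w'| ≤ E := by
    rw [← det2_sub]
    have := det2_le d0 (w - w')
    rw [h0, one_mul] at this
    exact this.trans hww
  have t4 : |det2 d0 d'| ≤ 1 := by
    have := det2_le d0 d'
    rw [h0, hd', mul_one] at this
    exact this
  have key : |s * (det2 d0 d - det2 d0 d')| ≤ 2 * E + 8 * C := by
    have e : s * (det2 d0 d - det2 d0 d') = (det2 d0 w - det2 d0 w') - chi d0 d * det2 d w +
        chi d0 d' * det2 d' w' - (s - s') * det2 d0 d' := by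
      rw [t1, t2]; ring
    rw [e]
    have g1 : |(s - s') * det2 d0 d'| ≤ E + 2 * C := by
      rw [abs_mul]
      calc |s - s'| * |det2 d0 d'| ≤ (E + 2 * C) * 1 := mul_le_mul b5 t4 (abs_nonneg _) ((abs_nonneg _).trans b5)
        _ = _ := mul_one _
    have q1 := abs_le.mp g1
    have q2 := abs_le.mp t3
    have q3 := abs_le.mp r1
    have q4 := abs_le.mp r2
    rw [abs_le]
    constructor <;> linarith
  rw [abs_mul, abs_of_nonneg hs0] at key
  exact (mul_le_mul_of_nonneg_right hsp (abs_nonneg _)).trans key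

/-- (A5) modulus of continuity along a segment -/
theorem modulus1 (C : ℝ) (hC : 1 ≤ C) (c : ℝ) (hc : 0 < c) (H : ℕ) (hH : 1 ≤ H) :
    ∃ c9 : ℝ, 0 < c9 ∧ ∀ κ, 0 < κ → κ ≤ 1 / 2 → ∃ ε, 0 < ε ∧ ∃ M0 : ℤ, ∀ M, M0 ≤ M → ∀ P, Slow M C ε P →
      HH M c P → ∀ e : ℤ × ℤ, e ≠ 0 → nz e ≤ H → ∀ a g : ℤ × ℤ, nz g = 1 → ∀ l : ℕ,
        (∀ i : ℕ, i ≤ l → 4 * nz (a + (i : ℤ) • g) ≤ M) → (l : ℝ) ≤ c9 * κ * M →
        Near κ (dir P e a) (dir P e (a + (l : ℤ) • g)) := by
  have hC0 : 0 < C := by linarith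
  have hC2 : (1 : ℝ) ≤ C ^ 2 := one_le_pow₀ hC
  have hH0 : (0 : ℝ) < H := by exact_mod_cast hH
  have hH1 : (1 : ℝ) ≤ H := by exact_mod_cast hH
  obtain ⟨c1, hc1⟩ : ∃ c1, c1 = min 1 (c / (2 * C * H)) := ⟨_, rfl⟩
  have hc10 : 0 < c1 := by rw [hc1]; exact lt_min one_pos (by positivity)
  have hc11 : c1 ≤ 1 := by rw [hc1]; exact min_le_left _ _
  have hc12 : c1 ≤ c / (2 * C * H) := by rw [hc1]; exact min_le_right _ _
  obtain ⟨Q, C1, r3, hQ, hC1, hr3, hray⟩ := ray C hC c1 hc10 hc11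
  have hQ0 : (0 : ℝ) < Q := by exact_mod_cast hQ
  obtain ⟨m, hm⟩ : ∃ m : ℕ, m = (2 * Q + 1) ^ 2 := ⟨_, rfl⟩
  obtain ⟨L, hL⟩ : ∃ L : ℝ, L = (m : ℝ) + 1 := ⟨_, rfl⟩
  have hL0 : 0 < L := by rw [hL]; positivity
  have hL1 : 1 ≤ L := by rw [hL]; linarith [show (0 : ℝ) ≤ m by positivity]
  refine ⟨1 / (1024 * L * C ^ 3 * Q), by positivity, ?_⟩
  intro κ hκ hκ2
  obtain ⟨r, hr⟩ : ∃ r, r = min r3 (κ / (1024 * L * C ^ 3 * Q * C1)) := ⟨_, rfl⟩
  have hr0 : 0 < r := by rw [hr]; exact lt_min hr3 (by positivity)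
  have hrr3 : r ≤ r3 := by rw [hr]; exact min_le_left _ _
  have hrκ : C1 * r ≤ κ / (1024 * L * C ^ 3 * Q) := by
    have : r ≤ κ / (1024 * L * C ^ 3 * Q * C1) := by rw [hr]; exact min_le_right _ _
    calc C1 * r ≤ C1 * (κ / (1024 * L * C ^ 3 * Q * C1)) := mul_le_mul_of_nonneg_left this hC1.le
      _ = _ := by field_simp
  obtain ⟨ε1, hε1, M1, hM1⟩ := hray r hr0 hrr3 1 one_pos
  obtain ⟨ε, hε⟩ : ∃ ε : ℝ, ε = min ε1 (min (1 / (8 * (H : ℝ) ^ 2 * C ^ 2)) (κ / (128 * L * H * C ^ 2))) :=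
    ⟨_, rfl⟩
  have hε0 : 0 < ε := by rw [hε]; exact lt_min hε1 (lt_min (by positivity) (by positivity))
  have hεε1 : ε ≤ ε1 := by rw [hε]; exact min_le_left _ _
  have hεH : 8 * (H : ℝ) ^ 2 * C ^ 2 * ε ≤ 1 := by
    have : ε ≤ 1 / (8 * (H : ℝ) ^ 2 * C ^ 2) := by rw [hε]; exact (min_le_right _ _).trans (min_le_left _ _)
    rw [le_div_iff₀ (by positivity)] at this
    linarith
  have hεκ : 16 * H * C ^ 2 * ε ≤ κ / (8 * L) := by
    have : ε ≤ κ / (128 * L * H * C ^ 2) := by rw [hε]; exact (min_le_right _ _).trans (min_le_right _ _)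
    calc 16 * H * C ^ 2 * ε ≤ 16 * H * C ^ 2 * (κ / (128 * L * H * C ^ 2)) :=
          mul_le_mul_of_nonneg_left this (by positivity)
      _ = _ := by field_simp; norm_num
  obtain ⟨M2, hM2⟩ := exists_nat_ge (4 * C * H / r + 1024 * L * C ^ 3 * Q / κ + 4 * (H + 4) + 8 * Q + 8)
  refine ⟨ε, hε0, max M1 (M2 : ℤ), ?_⟩
  intro M hM P S HC e he heH a g hg l hl hlκ
  have hMM1 : M1 ≤ M := (le_max_left _ _).trans hM
  have hMM2 : (M2 : ℝ) ≤ M := by exact_mod_cast (le_max_right _ _).trans hM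
  have p1 : 0 ≤ 4 * C * H / r := by positivity
  have p2 : 0 ≤ 1024 * L * C ^ 3 * Q / κ := by positivity
  have g1 : 4 * C * H ≤ r * M := by
    have : 4 * C * H / r ≤ M := by linarith
    rw [div_le_iff₀ hr0] at this; linarith
  have g2 : 1024 * L * C ^ 3 * Q ≤ κ * M := by
    have : 1024 * L * C ^ 3 * Q / κ ≤ M := by linarith
    rw [div_le_iff₀ hκ] at this; linarith
  have g3 : 4 * ((H : ℤ) + 4) + 8 * Q + 8 ≤ M := by
    have : 4 * ((H : ℝ) + 4) + 8 * Q + 8 ≤ M := by linarith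
    exact_mod_cast this
  have hM0 : (0 : ℝ) < M := by
    have : 0 < M := by omega
    exact_mod_cast this
  have hMH : ∀ x : ℤ × ℤ, 4 * nz x ≤ M → nz x + H + 1 ≤ M := by
    intro x hx; omega
  -- the directions on the segment
  obtain ⟨x, hx⟩ : ∃ x : ℕ → ℤ × ℤ, ∀ i, x i = a + (i : ℤ) • g := ⟨_, fun _ => rfl⟩
  have hxl : ∀ i, i ≤ l → 4 * nz (x i) ≤ M := by intro i hi; rw [hx]; exact hl i hi
  have hFpos : ∀ i, i ≤ l → 1 / (2 * C ^ 2) ≤ ‖F P e (x i)‖ := fun i hi =>
    S.F_ge he heH (hMH _ (hxl i hi)) hεH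
  have hd1 : ∀ i, i ≤ l → ‖dir P e (x i)‖ = 1 := fun i hi =>
    norm_dir (lt_of_lt_of_le (by positivity) (hFpos i hi))
  have hstep : ∀ i, i < l → ‖dir P e (x (i + 1)) - dir P e (x i)‖ ≤ 16 * H * C ^ 2 * ε := by
    intro i hi
    have q1 := S.F_sub (e := e) (y := x i) (y' := x (i + 1)) (by have := hMH _ (hxl i hi.le); omega)
      (by have := hMH _ (hxl (i + 1) hi); omega)
    have e1 : x (i + 1) - x i = g := by
      rw [hx, hx]; push_cast; rw [add_smul, one_smul]; abel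
    rw [e1, hg] at q1
    have q2 := unit_sub (x := F P e (x (i + 1))) (y := F P e (x i))
      (lt_of_lt_of_le (by positivity) (hFpos (i + 1) hi)) (lt_of_lt_of_le (by positivity) (hFpos i hi.le))
    refine q2.trans ?_
    rw [div_le_iff₀ (lt_of_lt_of_le (by positivity) (hFpos (i + 1) hi))]
    have q3 : (nz e : ℝ) ≤ H := by exact_mod_cast heH
    have q4 := hFpos (i + 1) hi
    have q5 : 16 * H * C ^ 2 * ε * (1 / (2 * C ^ 2)) ≤ 16 * H * C ^ 2 * ε * ‖F P e (x (i + 1))‖ :=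
      mul_le_mul_of_nonneg_left q4 (by positivity)
    have q6 : 16 * H * C ^ 2 * ε * (1 / (2 * C ^ 2)) = 8 * (H * ε) := by field_simp; norm_num
    have q7 : (nz e : ℝ) * ε ≤ H * ε := mul_le_mul_of_nonneg_right q3 hε0.le
    push_cast at q1
    linarith
  obtain ⟨s0, hs0⟩ : ∃ s0, s0 = 16 * H * C ^ 2 * ε := ⟨_, rfl⟩
  rw [← hs0] at hstep hεκ
  have hs00 : 0 ≤ s0 := by rw [hs0]; positivity
  have hx0 : x 0 = a := by rw [hx]; simp
  have hda : ‖dir P e a‖ = 1 := by have := hd1 0 (by omega); rwa [hx0] at this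
  -- the sine is small on the whole segment
  have hsine : ∀ i, i ≤ l → |det2 (dir P e a) (dir P e (x i))| ≤ κ := by
    intro i hi
    by_contra hcon
    push Not at hcon
    obtain ⟨h, hh⟩ : ∃ h : ℕ → ℝ, ∀ i, h i = |det2 (dir P e a) (dir P e (x i))| := ⟨_, fun _ => rfl⟩
    have hh0 : h 0 = 0 := by rw [hh, hx0, det2_self, abs_zero]
    have hhs : ∀ τ, 0 ≤ τ → τ < i → |h (τ + 1) - h τ| ≤ s0 := by
      intro τ _ hτ
      rw [hh, hh]
      refine (abs_abs_sub_abs_le_abs_sub _ _).trans ?_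
      rw [← det2_sub]
      have := det2_le (dir P e a) (dir P e (x (τ + 1)) - dir P e (x τ))
      rw [hda, one_mul] at this
      exact this.trans (hstep τ (by omega))
    have hpts : ∀ t : ℕ, t ≤ m → ∃ j, j ≤ i ∧ |h j - t * (κ / L)| ≤ s0 := by
      intro t ht
      obtain ⟨j, _, j2, j3⟩ := RG.ivt h 0 i s0 (t * (κ / L)) (by omega) hs00 hhs (by rw [hh0]; positivity) (by
        rw [hh i]
        refine le_trans ?_ hcon.le
        have q1 : (t : ℝ) ≤ L := by
          rw [hL]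
          have : (t : ℝ) ≤ m := by exact_mod_cast ht
          linarith
        calc (t : ℝ) * (κ / L) ≤ L * (κ / L) := mul_le_mul_of_nonneg_right q1 (by positivity)
          _ = κ := by field_simp)
      exact ⟨j, j2, j3⟩
    choose! j hj1 hj2 using hpts
    have hrow : ∀ t : ℕ, t ≤ m → ∃ uz : (ℤ × ℤ) × (ℤ × ℤ),
        Row P M C 1 Q (x (j t)) (dir P e (x (j t))) uz.1 uz.2 ∧ (nz (uz.2 - x (j t)) : ℝ) ≤ C1 * r * M := by
      intro t ht
      have hjl : j t ≤ l := (hj1 t ht).trans hi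
      obtain ⟨u, z, q1, q2⟩ := hM1 M hMM1 P (S.mono hεε1) (x (j t)) (hxl _ hjl) (dir P e (x (j t))) (hd1 _ hjl) (by
        intro z hz hz2
        have q3 := S.void hc HC hH he heH (hMH _ (hxl _ hjl)) hεH (X := r * M) g1 z hz hz2
        refine le_trans ?_ q3
        exact mul_le_mul_of_nonneg_right hc12 (sq_nonneg _))
      exact ⟨(u, z), q1, q2⟩
    choose! uz huz1 huz2 using hrow
    -- pigeonhole
    obtain ⟨B, hBdef⟩ : ∃ B : Finset (ℤ × ℤ), B = Finset.Icc (-(Q : ℤ)) Q ×ˢ Finset.Icc (-(Q : ℤ)) Q := ⟨_, rfl⟩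
    have hBcard : B.card = m := by
      rw [hBdef, Finset.card_product, Int.card_Icc, hm]
      have : (Q + 1 - -(Q : ℤ)).toNat = 2 * Q + 1 := by omega
      rw [this]; ring
    obtain ⟨t, ht, t', ht', htt, hu⟩ := Finset.exists_ne_map_eq_of_card_lt_of_maps_to
      (s := Finset.range (m + 1)) (t := B) (f := fun t => (uz t).1) (by rw [hBcard, Finset.card_range]; omega) (by
        intro t ht
        have ht' : t ≤ m := by
          have := Finset.mem_range.mp (Finset.mem_coe.mp ht); omega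
        have q1 := (huz1 t ht').ht
        have q2 := abs_le.mp ((abs_fst_le (uz t).1).trans q1)
        have q3 := abs_le.mp ((abs_snd_le (uz t).1).trans q1)
        rw [hBdef]
        simp only [Finset.coe_product, Finset.coe_Icc, Set.mem_prod, Set.mem_Icc]
        exact ⟨q2, q3⟩)
    have htm : t ≤ m := by have := Finset.mem_range.mp ht; omega
    have htm' : t' ≤ m := by have := Finset.mem_range.mp ht'; omega
    have R1 := huz1 t htm
    have R2 := huz1 t' htm'
    rw [← hu] at R2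
    have hjt : j t ≤ l := (hj1 t htm).trans hi
    have hjt' : j t' ≤ l := (hj1 t' htm').trans hi
    have hMH1 := hMH _ (hxl _ hjt)
    have hMH2 := hMH _ (hxl _ hjt')
    have hxx : (nz (x (j t) - x (j t')) : ℝ) ≤ 1 / (1024 * L * C ^ 3 * Q) * κ * M := by
      refine le_trans ?_ hlκ
      have e1 : x (j t) - x (j t') = ((j t : ℤ) - j t') • g := by
        rw [hx, hx, sub_smul]; abel
      rw [e1, nz_smul, hg, mul_one]
      have : |((j t : ℤ) - j t')| ≤ l := by rw [abs_le]; constructor <;> omega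
      exact_mod_cast this
    have hzz : (nz ((uz t).2 - (uz t').2) : ℝ) ≤ 2 * (C1 * r * M) + 1 / (1024 * L * C ^ 3 * Q) * κ * M := by
      have q1 : nz ((uz t).2 - (uz t').2) ≤ nz ((uz t).2 - x (j t)) + nz (x (j t) - x (j t')) +
          nz ((uz t').2 - x (j t')) := by
        have e1 : (uz t).2 - (uz t').2 = ((uz t).2 - x (j t)) + (x (j t) - x (j t')) +
            -((uz t').2 - x (j t')) := by abel
        rw [e1]
        refine (nz_add _ _).trans ?_
        rw [nz_neg]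
        have := nz_add ((uz t).2 - x (j t)) (x (j t) - x (j t'))
        omega
      have q2 : (nz ((uz t).2 - (uz t').2) : ℝ) ≤ nz ((uz t).2 - x (j t)) + nz (x (j t) - x (j t')) +
          nz ((uz t').2 - x (j t')) := by exact_mod_cast q1
      have q3 := huz2 t htm
      have q4 := huz2 t' htm'
      linarith
    obtain ⟨E, hE⟩ : ∃ E, E = 2 * C * (nz ((uz t).2 - (uz t').2) + nz (x (j t) - x (j t'))) := ⟨_, rfl⟩
    have hap := rays_apart S hQ hda (hd1 _ hjt) (hd1 _ hjt') (a := x (j t)) (a' := x (j t')) (by omega) (by omega)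
      R1 R2 (by omega) hE.symm.le
    -- the sines differ
    have hdiff : κ / (2 * L) ≤ |det2 (dir P e a) (dir P e (x (j t))) - det2 (dir P e a) (dir P e (x (j t')))| := by
      have q1 := hj2 t htm
      have q2 := hj2 t' htm'
      have q3 : |h (j t) - h (j t')| ≤
          |det2 (dir P e a) (dir P e (x (j t))) - det2 (dir P e a) (dir P e (x (j t')))| := by
        rw [hh, hh]; exact abs_abs_sub_abs_le_abs_sub _ _
      refine le_trans ?_ q3
      have q4 : κ / L ≤ |(t : ℝ) * (κ / L) - t' * (κ / L)| := by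
        rw [← sub_mul, abs_mul, abs_of_pos (by positivity : 0 < κ / L)]
        have q5 : (1 : ℝ) ≤ |(t : ℝ) - t'| := by
          have : (1 : ℤ) ≤ |(t : ℤ) - t'| := Int.one_le_abs (by omega)
          exact_mod_cast this
        exact le_mul_of_one_le_left (by positivity) q5
      have q6 : |(t : ℝ) * (κ / L) - t' * (κ / L)| ≤ |h (j t) - h (j t')| + 2 * s0 := by
        have e1 : (t : ℝ) * (κ / L) - t' * (κ / L) = (h (j t) - h (j t')) - (h (j t) - t * (κ / L)) +
            (h (j t') - t' * (κ / L)) := by ring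
        rw [e1]
        refine (abs_add_le _ _).trans ?_
        have := abs_sub (h (j t) - h (j t')) (h (j t) - t * (κ / L))
        linarith
      have q7 : κ / (2 * L) = κ / L / 2 := by field_simp
      have q8 : κ / (8 * L) = κ / L / 8 := by field_simp
      rw [q8] at hεκ
      rw [q7]
      have : 0 < κ / L := by positivity
      linarith
    have q1 : M / (16 * C ^ 2 * Q) * (κ / (2 * L)) ≤ 2 * E + 8 * C :=
      (mul_le_mul_of_nonneg_left hdiff (by positivity)).trans hap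
    have q2 : E ≤ 2 * C * (2 * (C1 * r * M) + 2 * (1 / (1024 * L * C ^ 3 * Q) * κ * M)) := by
      rw [hE]
      refine mul_le_mul_of_nonneg_left ?_ (by positivity)
      linarith
    have q3 : C1 * r * M ≤ κ / (1024 * L * C ^ 3 * Q) * M := mul_le_mul_of_nonneg_right hrκ hM0.le
    obtain ⟨Y, hY⟩ : ∃ Y, Y = κ * M / (1024 * L * C ^ 2 * Q) := ⟨_, rfl⟩
    have q4 : C * (κ / (1024 * L * C ^ 3 * Q) * M) = Y := by rw [hY]; field_simp
    have q5 : C * (1 / (1024 * L * C ^ 3 * Q) * κ * M) = Y := by rw [hY]; field_simp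
    have q6 : M / (16 * C ^ 2 * Q) * (κ / (2 * L)) = 32 * Y := by rw [hY]; field_simp; norm_num
    have q7 : C ≤ Y := by
      rw [hY, le_div_iff₀ (by positivity)]
      calc C * (1024 * L * C ^ 2 * Q) = 1024 * L * C ^ 3 * Q := by ring
        _ ≤ κ * M := g2
    have q8 : C * (C1 * r * M) ≤ Y := by
      rw [← q4]; exact mul_le_mul_of_nonneg_left q3 hC0.le
    rw [q6] at q1
    have q9 : E ≤ 4 * Y + 4 * Y := by
      refine q2.trans ?_
      have : 2 * C * (2 * (C1 * r * M) + 2 * (1 / (1024 * L * C ^ 3 * Q) * κ * M)) =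
          4 * (C * (C1 * r * M)) + 4 * (C * (1 / (1024 * L * C ^ 3 * Q) * κ * M)) := by ring
      rw [this, q5]
      linarith
    have hYpos : 0 < Y := lt_of_lt_of_le hC0 q7
    linarith
  -- the cosine is positive
  have hs0κ : s0 ≤ 1 / 16 := by
    refine hεκ.trans ?_
    rw [div_le_iff₀ (by positivity)]
    linarith
  have hcos : ∀ i, i ≤ l → 0 < chi (dir P e a) (dir P e (x i)) := by
    intro i
    induction i with
    | zero =>
      intro _
      rw [hx0]
      have : chi (dir P e a) (dir P e a) = 1 := by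
        have h1 := unit_sq hda hda
        rw [det2_self] at h1
        have h2 : 0 ≤ chi (dir P e a) (dir P e a) := by
          simp only [chi]; nlinarith [sq_nonneg (dir P e a).re, sq_nonneg (dir P e a).im]
        nlinarith
      rw [this]; norm_num
    | succ i ih =>
      intro hi
      have h1 := ih (by omega)
      have h2 : 3 / 4 ≤ chi (dir P e a) (dir P e (x i)) :=
        Near.chi_ge hda (hd1 i (by omega)) ⟨hsine i (by omega), h1⟩ hκ2
      have h3 := chi_le (dir P e a) (dir P e (x (i + 1)) - dir P e (x i))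
      rw [hda, one_mul, chi_sub] at h3
      have h4 := (abs_le.mp (h3.trans (hstep i (by omega)))).1
      linarith
  have := hsine l le_rfl
  have h2 := hcos l le_rfl
  rw [hx] at this h2
  exact ⟨this, h2⟩

end

end Pool.Agent.Lib.MP_a768d2_co.SL
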