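import Pool.Agent.Lib.MP_a768d2_coT.SlH

/-! # Slowly varying lattices: rows have an almost constant direction -/

namespace Pool.Agent.Lib.MP_a768d2_co.SL

noncomputable section

/-- modulus of continuity of the directions -/
theorem modulus2 (C : ℝ) (hC : 1 ≤ C) (c : ℝ) (hc : 0 < c) (H : ℕ) (hH : 1 ≤ H) :
    ∃ c9 : ℝ, 0 < c9 ∧ ∀ κ, 0 < κ → κ ≤ 1 / 2 → ∃ ε, 0 < ε ∧ ∃ M0 : ℤ, ∀ M, M0 ≤ M → ∀ P, Slow M C ε P →
      HH M c P → ∀ e : ℤ × ℤ, e ≠ 0 → nz e ≤ H → ∀ a a' : ℤ × ℤ, 4 * nz a ≤ M → 4 * nz a' ≤ M →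
        (nz (a' - a) : ℝ) ≤ c9 * κ * M → Near κ (dir P e a) (dir P e a') := by
  have hC0 : 0 < C := by linarith
  obtain ⟨c9, hc9, h⟩ := modulus1 C hC c hc H hH
  refine ⟨c9 / 2, by positivity, ?_⟩
  intro κ hκ hκ2
  obtain ⟨ε1, hε1, M1, h1⟩ := h (κ / 2) (by positivity) (by linarith)
  have hHR : (0 : ℝ) < H := by exact_mod_cast hH
  obtain ⟨ε, hε⟩ : ∃ ε : ℝ, ε = min ε1 (1 / (8 * (H : ℝ) ^ 2 * C ^ 2)) := ⟨_, rfl⟩
  have hε0 : 0 < ε := by rw [hε]; exact lt_min hε1 (by positivity)
  have hεε1 : ε ≤ ε1 := by rw [hε]; exact min_le_left _ _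
  have hεH : 8 * (H : ℝ) ^ 2 * C ^ 2 * ε ≤ 1 := by
    have : ε ≤ 1 / (8 * (H : ℝ) ^ 2 * C ^ 2) := by rw [hε]; exact min_le_right _ _
    rw [le_div_iff₀ (by positivity)] at this
    linarith
  refine ⟨ε, hε0, max M1 (4 * ((H : ℤ) + 4)), ?_⟩
  intro M hM P S HC e he heH a a' ha ha' haa
  have hMM1 : M1 ≤ M := (le_max_left _ _).trans hM
  have hMM2 : 4 * ((H : ℤ) + 4) ≤ M := (le_max_right _ _).trans hM
  have key := h1 M hMM1 P (S.mono hεε1) HC e he heH
  have unit : ∀ x : ℤ × ℤ, 4 * nz x ≤ M → ‖dir P e x‖ = 1 := by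
    intro x hx
    exact norm_dir (lt_of_lt_of_le (by positivity) (S.F_ge (H := H) he heH (by omega) hεH))
  have a1 := abs_fst_le a
  have a2 := abs_snd_le a
  have b1 := abs_fst_le a'
  have b2 := abs_snd_le a'
  have c1 := abs_fst_le (a' - a)
  have c2 := abs_snd_le (a' - a)
  rw [Prod.fst_sub] at c1
  rw [Prod.snd_sub] at c2
  rw [abs_le] at a1 a2 b1 b2
  -- a segment
  have seg : ∀ (x y g : ℤ × ℤ) (l : ℕ), nz g = 1 → y = x + (l : ℤ) • g →
      (∀ i : ℕ, i ≤ l → 4 * nz (x + (i : ℤ) • g) ≤ M) → (l : ℤ) ≤ nz (a' - a) →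
      Near (κ / 2) (dir P e x) (dir P e y) := by
    intro x y g l hg hy hi hl
    rw [hy]
    refine key x g hg l hi ?_
    have h2 : (l : ℝ) ≤ nz (a' - a) := by exact_mod_cast hl
    calc (l : ℝ) ≤ c9 / 2 * κ * M := h2.trans haa
      _ = c9 * (κ / 2) * M := by ring
  have box : ∀ x : ℤ × ℤ, 4 * |x.1| ≤ M → 4 * |x.2| ≤ M → 4 * nz x ≤ M := by
    intro x h1 h2
    unfold nz
    rcases max_choice |x.1| |x.2| with h3 | h3
    · rw [h3]; exact h1
    · rw [h3]; exact h2
  have s1 : Near (κ / 2) (dir P e a) (dir P e (a'.1, a.2)) := by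
    rcases le_total a.1 a'.1 with hle | hle
    · refine seg a (a'.1, a.2) (1, 0) (a'.1 - a.1).toNat nz_e0 ?_ ?_ ?_
      · apply Prod.ext
        · simp only [Prod.fst_add, Prod.smul_fst, smul_eq_mul, mul_one]; omega
        · simp only [Prod.snd_add, Prod.smul_snd, smul_eq_mul, mul_zero, add_zero]
      · intro i hi
        apply box
        · simp only [Prod.fst_add, Prod.smul_fst, smul_eq_mul, mul_one]
          have : |a.1 + (i : ℤ)| ≤ max (nz a) (nz a') := by
            rw [abs_le]; constructor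
            · have := le_max_left (nz a) (nz a'); omega
            · have := le_max_right (nz a) (nz a'); omega
          rcases max_choice (nz a) (nz a') with h3 | h3 <;> rw [h3] at this <;> omega
        · simp only [Prod.snd_add, Prod.smul_snd, smul_eq_mul, mul_zero, add_zero]
          have := abs_snd_le a; omega
      · rw [abs_le] at c1; omega
    · refine seg a (a'.1, a.2) (-1, 0) (a.1 - a'.1).toNat (by simp [nz]) ?_ ?_ ?_
      · apply Prod.ext
        · simp only [Prod.fst_add, Prod.smul_fst, smul_eq_mul, mul_neg, mul_one]; omega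
        · simp only [Prod.snd_add, Prod.smul_snd, smul_eq_mul, mul_zero, add_zero]
      · intro i hi
        apply box
        · simp only [Prod.fst_add, Prod.smul_fst, smul_eq_mul, mul_neg, mul_one]
          have : |a.1 + -(i : ℤ)| ≤ max (nz a) (nz a') := by
            rw [abs_le]; constructor
            · have := le_max_right (nz a) (nz a'); omega
            · have := le_max_left (nz a) (nz a'); omega
          rcases max_choice (nz a) (nz a') with h3 | h3 <;> rw [h3] at this <;> omega
        · simp only [Prod.snd_add, Prod.smul_snd, smul_eq_mul, mul_zero, add_zero]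
          have := abs_snd_le a; omega
      · rw [abs_le] at c1; omega
  have s2 : Near (κ / 2) (dir P e (a'.1, a.2)) (dir P e a') := by
    rcases le_total a.2 a'.2 with hle | hle
    · refine seg (a'.1, a.2) a' (0, 1) (a'.2 - a.2).toNat nz_e1 ?_ ?_ ?_
      · apply Prod.ext
        · simp only [Prod.fst_add, Prod.smul_fst, smul_eq_mul, mul_zero, add_zero]
        · simp only [Prod.snd_add, Prod.smul_snd, smul_eq_mul, mul_one]; omega
      · intro i hi
        apply box
        · simp only [Prod.fst_add, Prod.smul_fst, smul_eq_mul, mul_zero, add_zero]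
          have := abs_fst_le a'; omega
        · simp only [Prod.snd_add, Prod.smul_snd, smul_eq_mul, mul_one]
          have : |a.2 + (i : ℤ)| ≤ max (nz a) (nz a') := by
            rw [abs_le]; constructor
            · have := le_max_left (nz a) (nz a'); omega
            · have := le_max_right (nz a) (nz a'); omega
          rcases max_choice (nz a) (nz a') with h3 | h3 <;> rw [h3] at this <;> omega
      · rw [abs_le] at c2; omega
    · refine seg (a'.1, a.2) a' (0, -1) (a.2 - a'.2).toNat (by simp [nz]) ?_ ?_ ?_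
      · apply Prod.ext
        · simp only [Prod.fst_add, Prod.smul_fst, smul_eq_mul, mul_zero, add_zero]
        · simp only [Prod.snd_add, Prod.smul_snd, smul_eq_mul, mul_neg, mul_one]; omega
      · intro i hi
        apply box
        · simp only [Prod.fst_add, Prod.smul_fst, smul_eq_mul, mul_zero, add_zero]
          have := abs_fst_le a'; omega
        · simp only [Prod.snd_add, Prod.smul_snd, smul_eq_mul, mul_neg, mul_one]
          have : |a.2 + -(i : ℤ)| ≤ max (nz a) (nz a') := by
            rw [abs_le]; constructor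
            · have := le_max_right (nz a) (nz a'); omega
            · have := le_max_left (nz a) (nz a'); omega
          rcases max_choice (nz a) (nz a') with h3 | h3 <;> rw [h3] at this <;> omega
      · rw [abs_le] at c2; omega
  have hmid : 4 * nz ((a'.1, a.2) : ℤ × ℤ) ≤ M := by
    apply box
    · have := abs_fst_le a'; simp only; omega
    · have := abs_snd_le a; simp only; omega
  have := Near.trans (unit a ha) (unit _ hmid) (unit a' ha') s1 s2 (by linarith) (by linarith)
  rwa [add_halves] at this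

theorem par_of_det_zero {u u' : ℤ × ℤ} (hu : Int.gcd u.1 u.2 = 1) (hu' : Int.gcd u'.1 u'.2 = 1)
    (h : u.1 * u'.2 - u.2 * u'.1 = 0) : u' = u ∨ u' = -u := by
  -- apply `uniq` with a vector orthogonal to both
  have hu0 : u ≠ 0 := by rintro rfl; simp at hu
  have hpar : (u.1 : ℝ) * u'.2 - u.2 * u'.1 = 0 := by exact_mod_cast h
  refine uniq (s := 0) (p := -(u.2 : ℝ)) (q := (u.1 : ℝ)) (A := 1) one_pos ?_ hu hu'
    (Q := max (nz u) (nz u')) (le_max_left _ _) (le_max_right _ _)
    ?_ ?_ (by norm_num)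
  · have h1 := nz_pos hu0
    have h2 : nz u ≤ |u.1| + |u.2| := max_le (by have := abs_nonneg u.2; omega) (by have := abs_nonneg u.1; omega)
    have h3 : (1 : ℤ) ≤ |u.2| + |u.1| := by omega
    rw [abs_neg]
    have : (1 : ℝ) ≤ |(u.2 : ℝ)| + |(u.1 : ℝ)| := by exact_mod_cast h3
    linarith
  · have : (u.1 : ℝ) * -u.2 + u.2 * u.1 = 0 := by ring
    rw [this, abs_zero]
  · have : (u'.1 : ℝ) * -u.2 + u'.2 * u.1 = 0 := by linarith
    rw [this, abs_zero]

end

end Pool.Agent.Lib.MP_a768d2_co.SL
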