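import Pool.Agent.Lib.MP_a768d2_coT.SlI

/-! # Slowly varying lattices: rows have an almost constant direction -/

namespace Pool.Agent.Lib.MP_a768d2_co.SL

noncomputable section

theorem det2_real_scale (x y : ℝ) (z w : ℂ) : det2 ((x : ℂ) * z) ((y : ℂ) * w) = x * y * det2 z w := by
  rw [det2_real_mul, det2_real_mul']; ring

/-- the determinant of two rows -/
theorem Slow.det_FF {M : ℤ} {C ε : ℝ} {P : ℤ × ℤ → ℂ} (S : Slow M C ε P) {e u a : ℤ × ℤ} {H : ℕ}
    (heH : nz e ≤ H) (huH : nz u ≤ H) (ha : nz a + H + 1 ≤ M) :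
    |((e.1 * u.2 - e.2 * u.1 : ℤ) : ℝ)| / C ≤ |det2 (F P e a) (F P u a)| + 16 * C * H ^ 3 * ε := by
  have hC0 : 0 < C := by linarith [S.hC]
  have hε := S.hε
  have he := nz_nonneg e
  have hH0 : (0 : ℝ) ≤ H := by positivity
  have e1 : det2 (lin P e a) (lin P u a) = ((e.1 * u.2 - e.2 * u.1 : ℤ) : ℝ) *
      det2 (F P (1, 0) a) (F P (0, 1) a) := by
    unfold lin det2
    simp only [Complex.add_re, Complex.mul_re, Complex.intCast_re, Complex.intCast_im, zero_mul, sub_zero,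
      Complex.add_im, Complex.mul_im, add_zero]
    push_cast; ring
  have hD := S.hdet a (by omega)
  have h1 : |((e.1 * u.2 - e.2 * u.1 : ℤ) : ℝ)| / C ≤ |det2 (lin P e a) (lin P u a)| := by
    rw [e1, abs_mul, abs_of_pos (lt_of_lt_of_le (by positivity) hD)]
    calc |((e.1 * u.2 - e.2 * u.1 : ℤ) : ℝ)| / C = |((e.1 * u.2 - e.2 * u.1 : ℤ) : ℝ)| * (1 / C) := by ring
      _ ≤ _ := mul_le_mul_of_nonneg_left hD (abs_nonneg _)
  have f1 := S.F_lin (u := e) (R := H) (y := a) heH (by omega)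
  have f2 := S.F_lin (u := u) (R := H) (y := a) huH (by omega)
  push_cast at f1 f2
  have g1 := S.F_le (e := u) (a := a) huH ha
  have g2 : ‖lin P e a‖ ≤ 2 * C * H := by
    refine (S.lin_le (u := e) (y := a) (by omega)).trans ?_
    have : (nz e : ℝ) ≤ H := by exact_mod_cast heH
    exact mul_le_mul_of_nonneg_left this (by positivity)
  have e2 : det2 (F P e a) (F P u a) - det2 (lin P e a) (lin P u a) =
      det2 (F P e a - lin P e a) (F P u a) + det2 (lin P e a) (F P u a - lin P u a) := by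
    simp only [det2, Complex.sub_re, Complex.sub_im]; ring
  have h2 : |det2 (F P e a) (F P u a) - det2 (lin P e a) (lin P u a)| ≤ 16 * C * H ^ 3 * ε := by
    rw [e2]
    refine (abs_add_le _ _).trans ?_
    have k1 := (det2_le (F P e a - lin P e a) (F P u a)).trans
      (mul_le_mul f1 g1 (norm_nonneg _) (by positivity))
    have k2 := (det2_le (lin P e a) (F P u a - lin P u a)).trans
      (mul_le_mul g2 f2 (norm_nonneg _) (by positivity))
    nlinarith
  have h3 := abs_sub_abs_le_abs_sub (det2 (lin P e a) (lin P u a)) (det2 (F P e a) (F P u a))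
  rw [abs_sub_comm] at h3
  linarith

/-- (A6), (A7): rows have an almost constant direction -/
theorem rowD (C : ℝ) (hC : 1 ≤ C) (c : ℝ) (hc : 0 < c) (H : ℕ) (hH : 1 ≤ H) :
    ∃ ρ : ℝ, 0 < ρ ∧ ∀ δ, 0 < δ → δ ≤ 1 / 2 → ∃ ε, 0 < ε ∧ ∃ M0 : ℤ, ∀ M, M0 ≤ M → ∀ P, Slow M C ε P →
      HH M c P → ∀ e : ℤ × ℤ, Int.gcd e.1 e.2 = 1 → nz e ≤ H → ∀ a : ℤ × ℤ, 16 * nz a ≤ M → ∀ j : ℕ,
        (j : ℝ) ≤ ρ * M → Near δ (dir P e a) (dir P e (a + (j : ℤ) • e)) := by
  have hC0 : 0 < C := by linarith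
  have hC2 : (1 : ℝ) ≤ C ^ 2 := one_le_pow₀ hC
  have hH0 : (0 : ℝ) < H := by exact_mod_cast hH
  obtain ⟨c1, hc1⟩ : ∃ c1, c1 = min 1 (c / (2 * C * H)) := ⟨_, rfl⟩
  have hc10 : 0 < c1 := by rw [hc1]; exact lt_min one_pos (by positivity)
  have hc11 : c1 ≤ 1 := by rw [hc1]; exact min_le_left _ _
  have hc12 : c1 ≤ c / (2 * C * H) := by rw [hc1]; exact min_le_right _ _
  obtain ⟨Q, C1, r3, hQ, hC1, hr3, hray⟩ := ray C hC c1 hc10 hc11
  obtain ⟨H', hH'⟩ : ∃ H', H' = max H Q := ⟨_, rfl⟩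
  have hHH' : H ≤ H' := by rw [hH']; exact le_max_left _ _
  have hQH' : Q ≤ H' := by rw [hH']; exact le_max_right _ _
  have hH'1 : 1 ≤ H' := hH.trans hHH'
  have hH'0 : (0 : ℝ) < H' := by exact_mod_cast hH'1
  have hH'R : (1 : ℝ) ≤ H' := by exact_mod_cast hH'1
  obtain ⟨c9, hc9, hmod⟩ := modulus2 C hC c hc H' hH'1
  refine ⟨1 / (16 * H'), by positivity, ?_⟩
  intro δ hδ hδ2
  obtain ⟨κ, hκ⟩ : ∃ κ : ℝ, κ = min (δ / 4) (1 / (64 * C ^ 3 * (H' : ℝ) ^ 2)) := ⟨_, rfl⟩
  have hκ0 : 0 < κ := by rw [hκ]; exact lt_min (by positivity) (by positivity)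
  have hκδ : κ ≤ δ / 4 := by rw [hκ]; exact min_le_left _ _
  have hκH : 64 * C ^ 3 * (H' : ℝ) ^ 2 * κ ≤ 1 := by
    have : κ ≤ 1 / (64 * C ^ 3 * (H' : ℝ) ^ 2) := by rw [hκ]; exact min_le_right _ _
    rw [le_div_iff₀ (by positivity)] at this
    linarith
  have hκ18 : κ ≤ 1 / 8 := by linarith
  obtain ⟨r, hr⟩ : ∃ r, r = min r3 (min (c9 * κ / C1) (1 / (16 * C1))) := ⟨_, rfl⟩
  have hr0 : 0 < r := by rw [hr]; exact lt_min hr3 (lt_min (by positivity) (by positivity))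
  have hrr3 : r ≤ r3 := by rw [hr]; exact min_le_left _ _
  have hrκ : C1 * r ≤ c9 * κ := by
    have : r ≤ c9 * κ / C1 := by rw [hr]; exact (min_le_right _ _).trans (min_le_left _ _)
    rw [le_div_iff₀ hC1] at this; linarith
  have hr16 : 16 * (C1 * r) ≤ 1 := by
    have : r ≤ 1 / (16 * C1) := by rw [hr]; exact (min_le_right _ _).trans (min_le_right _ _)
    rw [le_div_iff₀ (by positivity)] at this; linarith
  obtain ⟨σ, hσ⟩ : ∃ σ : ℝ, σ = κ / (4 * C ^ 2) := ⟨_, rfl⟩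
  have hσ0 : 0 < σ := by rw [hσ]; positivity
  have hσκ : 4 * C ^ 2 * σ = κ := by rw [hσ]; field_simp
  obtain ⟨ε1, hε1, M1, hM1⟩ := hray r hr0 hrr3 σ hσ0
  obtain ⟨ε2, hε2, M2, hM2⟩ := hmod κ hκ0 (by linarith)
  obtain ⟨ε, hε⟩ : ∃ ε : ℝ, ε = min (min ε1 ε2) (min (σ / (8 * (H' : ℝ) ^ 2 * C ^ 2))
    (1 / (64 * C ^ 2 * (H' : ℝ) ^ 3))) := ⟨_, rfl⟩
  have hε0 : 0 < ε := by
    rw [hε]; exact lt_min (lt_min hε1 hε2) (lt_min (by positivity) (by positivity))
  have hεε1 : ε ≤ ε1 := by rw [hε]; exact (min_le_left _ _).trans (min_le_left _ _)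
  have hεε2 : ε ≤ ε2 := by rw [hε]; exact (min_le_left _ _).trans (min_le_right _ _)
  have hεσ : 8 * (H' : ℝ) ^ 2 * C ^ 2 * ε ≤ σ := by
    have : ε ≤ σ / (8 * (H' : ℝ) ^ 2 * C ^ 2) := by rw [hε]; exact (min_le_right _ _).trans (min_le_left _ _)
    rw [le_div_iff₀ (by positivity)] at this
    linarith
  have hεH : 64 * C ^ 2 * (H' : ℝ) ^ 3 * ε ≤ 1 := by
    have : ε ≤ 1 / (64 * C ^ 2 * (H' : ℝ) ^ 3) := by rw [hε]; exact (min_le_right _ _).trans (min_le_right _ _)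
    rw [le_div_iff₀ (by positivity)] at this
    linarith
  have hσ1 : σ ≤ 1 / 32 := by
    rw [hσ, div_le_iff₀ (by positivity)]; nlinarith
  have hσC : 32 * σ ≤ 1 / C ^ 2 := by
    rw [hσ, le_div_iff₀ (by positivity)]
    have e : 32 * (κ / (4 * C ^ 2)) * C ^ 2 = 8 * κ := by field_simp; norm_num
    rw [e]; linarith
  obtain ⟨M3, hM3⟩ := exists_nat_ge (4 * C * H / r + 16 * (H' + 4))
  refine ⟨ε, hε0, max (max M1 M2) (M3 : ℤ), ?_⟩
  intro M hM P S HC e he heH a ha j hj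
  have hMM1 : M1 ≤ M := ((le_max_left _ _).trans (le_max_left _ _)).trans hM
  have hMM2 : M2 ≤ M := ((le_max_right _ _).trans (le_max_left _ _)).trans hM
  have hMM3 : (M3 : ℝ) ≤ M := by exact_mod_cast (le_max_right _ _).trans hM
  have p1 : 0 ≤ 4 * C * H / r := by positivity
  have g1 : 4 * C * H ≤ r * M := by
    have : 4 * C * H / r ≤ M := by linarith
    rw [div_le_iff₀ hr0] at this; linarith
  have g3 : 16 * ((H' : ℤ) + 4) ≤ M := by
    have : 16 * ((H' : ℝ) + 4) ≤ M := by linarith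
    exact_mod_cast this
  have hM0 : (0 : ℝ) < M := by
    have : 0 < M := by omega
    exact_mod_cast this
  have he0 : e ≠ 0 := by rintro rfl; simp at he
  have heH' : nz e ≤ H' := heH.trans (by exact_mod_cast hHH')
  have hεH2 : 8 * (H' : ℝ) ^ 2 * C ^ 2 * ε ≤ 1 := by linarith
  have hεH3 : 8 * (H : ℝ) ^ 2 * C ^ 2 * ε ≤ 1 := by
    refine le_trans ?_ hεH2
    have h1 : (H : ℝ) ≤ H' := by exact_mod_cast hHH'
    have h2 : (H : ℝ) ^ 2 ≤ (H' : ℝ) ^ 2 := pow_le_pow_left₀ hH0.le h1 2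
    have h3 : 0 ≤ C ^ 2 * ε := by positivity
    have h4 := mul_le_mul_of_nonneg_right h2 h3
    have e1 : 8 * (H : ℝ) ^ 2 * C ^ 2 * ε = 8 * ((H : ℝ) ^ 2 * (C ^ 2 * ε)) := by ring
    have e2 : 8 * (H' : ℝ) ^ 2 * C ^ 2 * ε = 8 * ((H' : ℝ) ^ 2 * (C ^ 2 * ε)) := by ring
    rw [e1, e2]
    linarith
  have hMH : ∀ x : ℤ × ℤ, 4 * nz x ≤ M → nz x + H' + 1 ≤ M := by intro x hx; omega
  have hge : ∀ v x : ℤ × ℤ, v ≠ 0 → nz v ≤ H' → 4 * nz x ≤ M → 1 / (2 * C ^ 2) ≤ ‖F P v x‖ := by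
    intro v x hv hvH hx
    exact S.F_ge hv hvH (hMH x hx) hεH2
  have unit : ∀ v x : ℤ × ℤ, v ≠ 0 → nz v ≤ H' → 4 * nz x ≤ M → ‖dir P v x‖ = 1 := by
    intro v x hv hvH hx
    exact norm_dir (lt_of_lt_of_le (by positivity) (hge v x hv hvH hx))
  obtain ⟨d, hd⟩ : ∃ d, d = dir P e a := ⟨_, rfl⟩
  have hd1 : ‖d‖ = 1 := by rw [hd]; exact unit e a he0 heH' (by omega)
  obtain ⟨u, z0, Rw, hz0⟩ := hM1 M hMM1 P (S.mono hεε1) a (by omega) d hd1 (by
    intro z hz hz2
    rw [hd] at hz2 ⊢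
    have q3 := S.void hc HC hH he0 heH (by omega) hεH3 (X := r * M) g1 z hz hz2
    refine le_trans ?_ q3
    exact mul_le_mul_of_nonneg_right hc12 (sq_nonneg _))
  have hu0 : u ≠ 0 := by
    have := Rw.gcd
    rintro rfl; simp at this
  have huH' : nz u ≤ H' := Rw.ht.trans (by exact_mod_cast hQH')
  have hz0' : (nz (z0 - a) : ℝ) ≤ c9 * κ * M := hz0.trans (mul_le_mul_of_nonneg_right hrκ hM0.le)
  have hz016 : 16 * nz (z0 - a) ≤ M := by
    have : 16 * (nz (z0 - a) : ℝ) ≤ M := by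
      calc 16 * (nz (z0 - a) : ℝ) ≤ 16 * (C1 * r * M) := by linarith
        _ = (16 * (C1 * r)) * M := by ring
        _ ≤ 1 * (M : ℝ) := mul_le_mul_of_nonneg_right hr16 hM0.le
        _ = M := one_mul _
    exact_mod_cast this
  have hz0M : 8 * nz z0 ≤ M := by
    have := nz_add (z0 - a) a; rw [sub_add_cancel] at this; omega
  -- the direction of the row `z0 + j u`
  have hrowdir : ∀ i : ℕ, 4 * (Q : ℤ) * i ≤ M → 4 * nz (z0 + (i : ℤ) • u) ≤ M →
      Near κ d (dir P u (z0 + (i : ℤ) • u)) := by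
    intro i hi hi2
    obtain ⟨z, hz⟩ : ∃ z, z = z0 + (i : ℤ) • u := ⟨_, rfl⟩
    have k1 := Rw.dt i hi
    have k2 := Rw.pos i hi
    rw [← hz] at k1 k2 hi2 ⊢
    have f1 := S.F_lin (u := u) (R := H') (y := z) huH' (by have := hMH z hi2; omega)
    push_cast at f1
    have f2 : ‖F P u z - lin P u z‖ ≤ σ := by
      refine f1.trans (le_trans ?_ hεσ)
      have h4 : (0 : ℝ) ≤ 4 * (H' : ℝ) ^ 2 * ε := by positivity
      have h5 := mul_le_mul_of_nonneg_left hC2 h4
      have e2 : 8 * (H' : ℝ) ^ 2 * C ^ 2 * ε = 2 * (4 * (H' : ℝ) ^ 2 * ε * C ^ 2) := by ring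
      rw [e2]
      linarith
    have hF := hge u z hu0 huH' hi2
    have hF0 : 0 < ‖F P u z‖ := lt_of_lt_of_le (by positivity) hF
    have b1 := det2_le d (F P u z - lin P u z)
    rw [hd1, one_mul, det2_sub] at b1
    have b2 := chi_le d (F P u z - lin P u z)
    rw [hd1, one_mul, chi_sub] at b2
    have k3 := S.chi_lin hd1 (u := u) (y := z) (by omega) k1
    rw [abs_of_pos k2] at k3
    have hu1 : (1 : ℝ) ≤ nz u := by exact_mod_cast nz_pos hu0
    have c6 : 1 / C ^ 2 ≤ (nz u : ℝ) / C ^ 2 := div_le_div_of_nonneg_right hu1 (by positivity)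
    constructor
    · unfold dir
      rw [det2_real_mul, abs_mul, abs_of_pos (by positivity : 0 < 1 / ‖F P u z‖)]
      have b3 := abs_sub_abs_le_abs_sub (det2 d (F P u z)) (det2 d (lin P u z))
      have b4 : |det2 d (F P u z)| ≤ 2 * σ := by linarith
      rw [one_div, ← div_eq_inv_mul, div_le_iff₀ hF0]
      have b5 : κ * (1 / (2 * C ^ 2)) ≤ κ * ‖F P u z‖ := mul_le_mul_of_nonneg_left hF hκ0.le
      have b6 : κ * (1 / (2 * C ^ 2)) = 2 * σ := by rw [← hσκ]; field_simp; norm_num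
      linarith
    · unfold dir
      rw [chi_real_mul]
      have b3 := (abs_le.mp (b2.trans f2)).1
      have : 0 < chi d (F P u z) := by linarith
      positivity
  -- `u = e`
  have hda : Near (2 * κ) d (dir P u a) := by
    have n1 : Near κ d (dir P u z0) := by
      have := hrowdir 0 (by simp; omega) (by simp; omega)
      simpa using this
    have n2 := hM2 M hMM2 P (S.mono hεε2) HC u hu0 huH' a z0 (by omega) (by omega) hz0'
    have := Near.trans hd1 (unit u z0 hu0 huH' (by omega)) (unit u a hu0 huH' (by omega)) n1 n2.symm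
      (by linarith) (by linarith)
    rwa [← two_mul] at this
  have hue : u = e := by
    have hFe := S.F_le (e := e) (a := a) heH' (by omega)
    have hFu := S.F_le (e := u) (a := a) huH' (by omega)
    have hgeE := hge e a he0 heH' (by omega)
    have hgeU := hge u a hu0 huH' (by omega)
    have hFe0 : 0 < ‖F P e a‖ := lt_of_lt_of_le (by positivity) hgeE
    have hFu0 : 0 < ‖F P u a‖ := lt_of_lt_of_le (by positivity) hgeU
    have q1 := S.det_FF (e := e) (u := u) (a := a) heH' huH' (by omega)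
    have q2 : |det2 (F P e a) (F P u a)| ≤ 8 * C ^ 2 * (H' : ℝ) ^ 2 * κ := by
      have e1 : |det2 (F P e a) (F P u a)| = ‖F P e a‖ * ‖F P u a‖ * |det2 d (dir P u a)| := by
        rw [hd]
        unfold dir
        rw [det2_real_scale, abs_mul, abs_mul, abs_of_pos (by positivity : 0 < 1 / ‖F P e a‖),
          abs_of_pos (by positivity : 0 < 1 / ‖F P u a‖)]
        field_simp
      rw [e1]
      have e2 : ‖F P e a‖ * ‖F P u a‖ ≤ (2 * C * H') * (2 * C * H') :=
        mul_le_mul hFe hFu (norm_nonneg _) (by positivity)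
      calc ‖F P e a‖ * ‖F P u a‖ * |det2 d (dir P u a)| ≤ (2 * C * H') * (2 * C * H') * (2 * κ) :=
            mul_le_mul e2 hda.1 (abs_nonneg _) (by positivity)
        _ = _ := by ring
    have hD0 : e.1 * u.2 - e.2 * u.1 = 0 := by
      by_contra hne
      have h7 : (1 : ℝ) ≤ |((e.1 * u.2 - e.2 * u.1 : ℤ) : ℝ)| := by
        have : 1 ≤ |e.1 * u.2 - e.2 * u.1| := Int.one_le_abs hne
        exact_mod_cast this
      have h8 : 1 / C ≤ 8 * C ^ 2 * (H' : ℝ) ^ 2 * κ + 16 * C * (H' : ℝ) ^ 3 * ε := by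
        have : 1 / C ≤ |((e.1 * u.2 - e.2 * u.1 : ℤ) : ℝ)| / C := div_le_div_of_nonneg_right h7 hC0.le
        linarith
      rw [div_le_iff₀ hC0] at h8
      have h9 : (8 * C ^ 2 * (H' : ℝ) ^ 2 * κ + 16 * C * (H' : ℝ) ^ 3 * ε) * C =
          (64 * C ^ 3 * (H' : ℝ) ^ 2 * κ) / 8 + (64 * C ^ 2 * (H' : ℝ) ^ 3 * ε) / 4 := by ring
      rw [h9] at h8
      linarith
    rcases par_of_det_zero he Rw.gcd hD0 with h | h
    · exact h
    · exfalso
      have hpos := hda.2
      rw [h] at hpos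
      unfold dir at hpos
      rw [chi_real_mul] at hpos
      have hpos2 : 0 < chi d (F P (-e) a) := by
        rw [h] at hFu0
        have : 0 < 1 / ‖F P (-e) a‖ := by positivity
        by_contra hc; push Not at hc
        have := mul_nonpos_of_nonneg_of_nonpos this.le hc
        linarith
      have e1 : F P (-e) a = -(F P e (a - e)) := by
        unfold F
        rw [sub_add_cancel, ← sub_eq_add_neg]; ring
      have haeM : nz (a - e) + nz e + 1 ≤ M := by
        have := nz_sub a e; omega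
      have q3 := S.F_sub (e := e) (y := a) (y' := a - e) (by omega) haeM
      have q4 : nz (a - e - a) = nz e := by
        rw [show a - e - a = -e by abel, nz_neg]
      rw [q4] at q3
      have q5 := chi_le d (F P e (a - e) - F P e a)
      rw [hd1, one_mul, chi_sub] at q5
      have q6 : chi d (F P e a) = ‖F P e a‖ := by
        rw [hd]; unfold dir
        have : chi (((1 / ‖F P e a‖ : ℝ) : ℂ) * F P e a) (F P e a) = 1 / ‖F P e a‖ * ‖F P e a‖ ^ 2 := by
          rw [chi_symm, chi_real_mul, Complex.sq_norm, Complex.normSq_apply]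
          simp only [chi]
        rw [this]; field_simp
      rw [e1] at hpos2
      have q7 : chi d (-(F P e (a - e))) = -chi d (F P e (a - e)) := by
        simp only [chi, Complex.neg_re, Complex.neg_im]; ring
      rw [q7] at hpos2
      have q8 := (abs_le.mp (q5.trans q3)).1
      have q9 : 2 * (nz e : ℝ) * (2 * nz e * ε) < 1 / (2 * C ^ 2) := by
        have r1 : (nz e : ℝ) ≤ H' := by exact_mod_cast heH'
        have r0 : (0 : ℝ) ≤ nz e := by exact_mod_cast nz_nonneg e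
        have r2 : (nz e : ℝ) * nz e ≤ H' * H' := mul_le_mul r1 r1 r0 (by positivity)
        rw [lt_div_iff₀ (by positivity)]
        have r3 : 2 * (nz e : ℝ) * (2 * nz e * ε) * (2 * C ^ 2) = 8 * (nz e * nz e) * C ^ 2 * ε := by ring
        rw [r3]
        have r4 : 8 * ((nz e : ℝ) * nz e) * C ^ 2 * ε ≤ 8 * (H' : ℝ) ^ 2 * C ^ 2 * ε := by
          have h3 : 0 ≤ C ^ 2 * ε := by positivity
          have h4 := mul_le_mul_of_nonneg_right r2 h3
          have e1 : 8 * ((nz e : ℝ) * nz e) * C ^ 2 * ε = 8 * (((nz e : ℝ) * nz e) * (C ^ 2 * ε)) := by ring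
          have e2 : 8 * (H' : ℝ) ^ 2 * C ^ 2 * ε = 8 * (((H' : ℝ) * H') * (C ^ 2 * ε)) := by ring
          rw [e1, e2]
          linarith
        linarith
      linarith
  -- the row through `a`
  rw [hue] at hrowdir
  have hje : 16 * ((j : ℤ) * H') ≤ M := by
    have h1 : (j : ℝ) ≤ 1 / (16 * H') * M := hj
    have h2 : 16 * ((j : ℝ) * H') ≤ M := by
      calc 16 * ((j : ℝ) * H') ≤ 16 * ((1 / (16 * H') * M) * H') := by
            have := mul_le_mul_of_nonneg_right h1 hH'0.le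
            linarith
        _ = M := by field_simp
    exact_mod_cast h2
  have hjn : 16 * nz ((j : ℤ) • e) ≤ M := by
    rw [nz_smul, abs_of_nonneg (by positivity)]
    have : (j : ℤ) * nz e ≤ j * H' := mul_le_mul_of_nonneg_left heH' (by positivity)
    omega
  have hy1 : 4 * nz (a + (j : ℤ) • e) ≤ M := by
    have := nz_add a ((j : ℤ) • e); omega
  have hz1 : 4 * nz (z0 + (j : ℤ) • e) ≤ M := by
    have := nz_add z0 ((j : ℤ) • e); omega
  have hjQ : 4 * (Q : ℤ) * j ≤ M := by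
    have h1 : (j : ℤ) * Q ≤ j * H' := mul_le_mul_of_nonneg_left (by exact_mod_cast hQH') (by positivity)
    have h2 : 0 ≤ (j : ℤ) * H' := by positivity
    have e : 4 * (Q : ℤ) * j = 4 * (j * Q) := by ring
    rw [e]
    omega
  have n1 := hrowdir j hjQ hz1
  have n2 := hM2 M hMM2 P (S.mono hεε2) HC e he0 heH' (a + (j : ℤ) • e) (z0 + (j : ℤ) • e) hy1 hz1 (by
    rw [add_sub_add_right_eq_sub]; exact hz0')
  have n3 := Near.trans hd1 (unit e _ he0 heH' hz1) (unit e _ he0 heH' hy1) n1 n2.symm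
      (by linarith) (by linarith)
  rw [hd] at n3
  exact n3.mono (by linarith)

end

end Pool.Agent.Lib.MP_a768d2_co.SL
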