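import Pool.Agent.Lib.MP_a768d2_coT.SlJ

/-! # Slowly varying lattices: a window with almost constant directions -/

namespace Pool.Agent.Lib.MP_a768d2_co.SL

noncomputable section

/-- the sines of all angles are at least `c / M²` -/
def HS (M : ℤ) (c : ℝ) (P : ℤ × ℤ → ℂ) : Prop := ∀ x x' z, nz x + 1 ≤ M → nz x' + 1 ≤ M → nz z + 1 ≤ M →
  P x ≠ P x' → P x ≠ P z → P x' ≠ P z →
  c * (‖P x - P z‖ * ‖P x' - P z‖) ≤ (M : ℝ) ^ 2 * |det2 (P x - P z) (P x' - P z)|

theorem HS.HH {M : ℤ} {c : ℝ} {P : ℤ × ℤ → ℂ} (hc : 0 ≤ c) (h : HS M c P) : HH M (c / 2) P := by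
  intro x x' z hx hx' hz hne hle
  have h0 : 0 < ‖P x' - P x‖ := norm_pos_iff.mpr (sub_ne_zero.mpr hne)
  have h1 : ‖P z - P x‖ ≤ 2 * ‖P x' - P z‖ := by
    have e : P z - P x = (P x' - P x) - (P x' - P z) := by ring
    have := norm_sub_le (P x' - P x) (P x' - P z)
    rw [← e] at this
    linarith
  have h2 := h x x' z hx hx' hz hne.symm (by
    intro h3
    have h4 : ‖P z - P x‖ = 0 := by rw [h3, sub_self, norm_zero]
    linarith) (by
    intro h3
    have h4 : ‖P x' - P z‖ = 0 := by rw [h3, sub_self, norm_zero]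
    linarith)
  have e2 : det2 (P x - P z) (P x' - P z) = det2 (P x' - P x) (P z - P x) := by
    simp only [det2, Complex.sub_re, Complex.sub_im]; ring
  rw [e2] at h2
  refine le_trans ?_ h2
  rw [norm_sub_rev (P x)]
  have h3 : ‖P z - P x‖ * ‖P z - P x‖ ≤ ‖P z - P x‖ * (2 * ‖P x' - P z‖) :=
    mul_le_mul_of_nonneg_left h1 (norm_nonneg _)
  nlinarith

/-- an integer vector as a complex number -/
def cx (e : ℤ × ℤ) : ℂ := (e.1 : ℂ) + (e.2 : ℂ) * Complex.I

/-- the four directions -/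
def E4 : Set (ℤ × ℤ) := {(1, 0), (0, 1), (1, 1), (1, -1)}

theorem E4_nz {e : ℤ × ℤ} (he : e ∈ E4) : nz e = 1 := by
  simp only [E4, Set.mem_insert_iff, Set.mem_singleton_iff] at he
  rcases he with h | h | h | h <;> rw [h] <;> simp [nz]

theorem E4_gcd {e : ℤ × ℤ} (he : e ∈ E4) : Int.gcd e.1 e.2 = 1 := by
  simp only [E4, Set.mem_insert_iff, Set.mem_singleton_iff] at he
  rcases he with h | h | h | h <;> rw [h] <;> simp

theorem E4_ne {e : ℤ × ℤ} (he : e ∈ E4) : e ≠ 0 := by
  rintro rfl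
  have := E4_nz he
  rw [nz_zero] at this
  omega

/-- the frames are almost parallel to fixed directions and rows have an almost constant direction -/
structure Dirl (W : ℤ) (C κ δ ε : ℝ) (P : ℤ × ℤ → ℂ) : Prop where
  slow : Slow W C ε P
  hdir : ∀ e ∈ E4, ∀ y, nz y + nz e + 1 ≤ W → |det2 (cx e) (F P e y)| ≤ κ ∧ 0 < chi (cx e) (F P e y)
  hrow : ∀ e ∈ E4, ∀ (a : ℤ × ℤ) (j : ℕ), nz a + 2 ≤ W → nz (a + (j : ℤ) • e) + 2 ≤ W →
    |det2 (F P e a) (F P e (a + (j : ℤ) • e))| ≤ δ

/-! ## the linear change of coordinates -/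

/-- coordinates with respect to the basis `U, V` -/
def lc (U V w : ℂ) : ℂ := ⟨det2 w V / det2 U V, det2 U w / det2 U V⟩

theorem lc_sub (U V w w' : ℂ) : lc U V (w - w') = lc U V w - lc U V w' := by
  apply Complex.ext <;> simp only [lc, Complex.sub_re, Complex.sub_im, det2] <;> ring

theorem lc_add (U V w w' : ℂ) : lc U V (w + w') = lc U V w + lc U V w' := by
  apply Complex.ext <;> simp only [lc, Complex.add_re, Complex.add_im, det2] <;> ring

theorem lc_real_mul (U V w : ℂ) (t : ℝ) : lc U V ((t : ℂ) * w) = (t : ℂ) * lc U V w := by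
  apply Complex.ext <;> simp only [lc, Complex.mul_re, Complex.mul_im, Complex.ofReal_re, Complex.ofReal_im, det2] <;>
    ring

theorem lc_basis {U V : ℂ} (h : det2 U V ≠ 0) (p q : ℤ) : lc U V ((p : ℂ) * U + (q : ℂ) * V) = cx (p, q) := by
  apply Complex.ext
  · simp only [lc, cx, Complex.add_re, Complex.mul_re, Complex.intCast_re, Complex.intCast_im, Complex.I_re,
      Complex.I_im]
    rw [div_eq_iff h]
    simp only [det2, Complex.add_re, Complex.add_im, Complex.mul_re, Complex.mul_im, Complex.intCast_re,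
      Complex.intCast_im]
    ring
  · simp only [lc, cx, Complex.add_im, Complex.mul_im, Complex.intCast_re, Complex.intCast_im, Complex.I_re,
      Complex.I_im]
    rw [div_eq_iff h]
    simp only [det2, Complex.add_re, Complex.add_im, Complex.mul_re, Complex.mul_im, Complex.intCast_re,
      Complex.intCast_im]
    ring

theorem lc_det {U V : ℂ} (h : det2 U V ≠ 0) (w w' : ℂ) : det2 (lc U V w) (lc U V w') = det2 w w' / det2 U V := by
  have e : det2 (lc U V w) (lc U V w') = (det2 w V / det2 U V) * (det2 U w' / det2 U V) -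
      (det2 U w / det2 U V) * (det2 w' V / det2 U V) := rfl
  have e2 : (det2 w V / det2 U V) * (det2 U w' / det2 U V) - (det2 U w / det2 U V) * (det2 w' V / det2 U V) =
      (det2 w V * det2 U w' - det2 U w * det2 w' V) / (det2 U V * det2 U V) := by
    field_simp
  rw [e, e2, div_eq_div_iff (mul_ne_zero h h) h]
  simp only [det2]; ring

theorem lc_norm {C : ℝ} (hC : 1 ≤ C) {U V : ℂ} (hU : ‖U‖ ≤ C) (hV : ‖V‖ ≤ C) (hD : 1 / C ≤ det2 U V) (w : ℂ) :
    ‖lc U V w‖ ≤ 2 * C ^ 2 * ‖w‖ := by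
  have hC0 : 0 < C := by linarith
  have hD0 : 0 < det2 U V := lt_of_lt_of_le (by positivity) hD
  have hinv : 1 ≤ C * det2 U V := by
    have := mul_le_mul_of_nonneg_left hD hC0.le
    rwa [mul_one_div_cancel hC0.ne'] at this
  have h1 : |det2 w V / det2 U V| ≤ C ^ 2 * ‖w‖ := by
    rw [abs_div, abs_of_pos hD0, div_le_iff₀ hD0]
    have a1 := det2_le w V
    have a2 : ‖w‖ * ‖V‖ ≤ ‖w‖ * C := mul_le_mul_of_nonneg_left hV (norm_nonneg _)
    have a3 : ‖w‖ * C * 1 ≤ ‖w‖ * C * (C * det2 U V) := mul_le_mul_of_nonneg_left hinv (by positivity)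
    nlinarith
  have h2 : |det2 U w / det2 U V| ≤ C ^ 2 * ‖w‖ := by
    rw [abs_div, abs_of_pos hD0, div_le_iff₀ hD0]
    have a1 := det2_le U w
    have a2 : ‖U‖ * ‖w‖ ≤ C * ‖w‖ := mul_le_mul_of_nonneg_right hU (norm_nonneg _)
    have a3 : C * ‖w‖ * 1 ≤ C * ‖w‖ * (C * det2 U V) := mul_le_mul_of_nonneg_left hinv (by positivity)
    nlinarith
  have h3 := Complex.norm_le_abs_re_add_abs_im (lc U V w)
  have e1 : (lc U V w).re = det2 w V / det2 U V := rfl
  have e2 : (lc U V w).im = det2 U w / det2 U V := rfl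
  rw [e1, e2] at h3
  linarith

theorem lc_inj {U V : ℂ} (h : det2 U V ≠ 0) {w w' : ℂ} (he : lc U V w = lc U V w') : w = w' := by
  have h1 : lc U V (w - w') = 0 := by rw [lc_sub, he, sub_self]
  have a1 : det2 (w - w') V = 0 := by
    have : (lc U V (w - w')).re = 0 := by rw [h1]; rfl
    have e : (lc U V (w - w')).re = det2 (w - w') V / det2 U V := rfl
    rw [e, div_eq_zero_iff] at this
    exact this.resolve_right h
  have a2 : det2 U (w - w') = 0 := by
    have : (lc U V (w - w')).im = 0 := by rw [h1]; rfl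
    have e : (lc U V (w - w')).im = det2 U (w - w') / det2 U V := rfl
    rw [e, div_eq_zero_iff] at this
    exact this.resolve_right h
  have k1 : (w - w').re * det2 U V = det2 (w - w') V * U.re + det2 U (w - w') * V.re := by
    simp only [det2]; ring
  have k2 : (w - w').im * det2 U V = det2 (w - w') V * U.im + det2 U (w - w') * V.im := by
    simp only [det2]; ring
  rw [a1, a2] at k1 k2
  simp only [zero_mul, add_zero] at k1 k2
  have k3 : (w - w').re = 0 := (mul_eq_zero.mp k1).resolve_right h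
  have k4 : (w - w').im = 0 := (mul_eq_zero.mp k2).resolve_right h
  exact sub_eq_zero.mp (Complex.ext k3 k4)

theorem cx_norm {e : ℤ × ℤ} (he : e ∈ E4) : 1 ≤ ‖cx e‖ ∧ ‖cx e‖ ≤ 2 := by
  simp only [E4, Set.mem_insert_iff, Set.mem_singleton_iff] at he
  have h0 : (0 : ℝ) ≤ ‖cx e‖ := norm_nonneg _
  have key : ∀ t : ℝ, ‖cx e‖ ^ 2 = t → 1 ≤ t → t ≤ 4 → 1 ≤ ‖cx e‖ ∧ ‖cx e‖ ≤ 2 := by
    intro t h1 h2 h3
    constructor <;> nlinarith
  rcases he with h | h | h | h
  · refine key 1 ?_ (by norm_num) (by norm_num)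
    rw [h, Complex.sq_norm, Complex.normSq_apply]; simp [cx]
  · refine key 1 ?_ (by norm_num) (by norm_num)
    rw [h, Complex.sq_norm, Complex.normSq_apply]; simp [cx]
  · refine key 2 ?_ (by norm_num) (by norm_num)
    rw [h, Complex.sq_norm, Complex.normSq_apply]; simp [cx]; norm_num
  · refine key 2 ?_ (by norm_num) (by norm_num)
    rw [h, Complex.sq_norm, Complex.normSq_apply]; simp [cx]; norm_num

end

end Pool.Agent.Lib.MP_a768d2_co.SL
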