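import Pool.Agent.Lib.MP_a768d2_coT.SlK

/-! # Slowly varying lattices: extraction of the window -/

namespace Pool.Agent.Lib.MP_a768d2_co.SL

noncomputable section

theorem F_lc (P : ℤ × ℤ → ℂ) (U V : ℂ) (e y : ℤ × ℤ) :
    F (fun y => lc U V (P y)) e y = lc U V (F P e y) := by
  unfold F; rw [lc_sub]

theorem det2_norm_le {U V : ℂ} {C : ℝ} (hU : ‖U‖ ≤ C) (hV : ‖V‖ ≤ C) : det2 U V ≤ C ^ 2 := by
  have h := (le_abs_self _).trans (det2_le U V)
  have h2 : ‖U‖ * ‖V‖ ≤ C * C := mul_le_mul hU hV (norm_nonneg _) ((norm_nonneg _).trans hU)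
  linarith [sq C]

theorem window (C : ℝ) (hC : 1 ≤ C) (c : ℝ) (hc : 0 < c) (κ : ℝ) (hκ : 0 < κ) (hκ1 : κ ≤ 1) :
    ∃ c' : ℝ, 0 < c' ∧ ∀ δ, 0 < δ → ∀ ε', 0 < ε' → ∀ W0 : ℤ, ∃ ε, 0 < ε ∧ ∃ M0 : ℤ, ∀ M, M0 ≤ M →
      ∀ P, Slow M C ε P → HS M c P → ∃ W, W0 ≤ W ∧ ∃ P', Dirl W (2 * C ^ 3) κ δ ε' P' ∧ HS W c' P' := by
  have hC0 : 0 < C := by linarith
  have hC2 : (1 : ℝ) ≤ C ^ 2 := one_le_pow₀ hC
  have hC3 : (1 : ℝ) ≤ C ^ 3 := one_le_pow₀ hC
  have hC6 : (1 : ℝ) ≤ C ^ 6 := one_le_pow₀ hC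
  obtain ⟨c9, hc9, hmod⟩ := modulus2 C hC (c / 2) (by positivity) 1 le_rfl
  obtain ⟨ρ, hρ, hrow⟩ := rowD C hC (c / 2) (by positivity) 1 le_rfl
  obtain ⟨κ', hκ'⟩ : ∃ κ' : ℝ, κ' = κ / (128 * C ^ 6) := ⟨_, rfl⟩
  have hκ'0 : 0 < κ' := by rw [hκ']; positivity
  have hκ'2 : κ' ≤ 1 / 2 := by
    rw [hκ', div_le_iff₀ (by positivity)]; nlinarith
  have hκ'3 : 4 * C ^ 3 * κ' ≤ κ / 2 := by
    rw [hκ', mul_div_assoc', div_le_iff₀ (by positivity)]
    have : 4 * C ^ 3 ≤ 64 * C ^ 6 := by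
      have e : C ^ 6 = C ^ 3 * C ^ 3 := by ring
      rw [e]; nlinarith
    nlinarith
  have hκ'4 : 8 * C ^ 3 * κ' ≤ 1 / (16 * C ^ 3) := by
    rw [hκ', le_div_iff₀ (by positivity)]
    have e : 8 * C ^ 3 * (κ / (128 * C ^ 6)) * (16 * C ^ 3) = κ := by field_simp; norm_num
    rw [e]; exact hκ1
  obtain ⟨w, hw⟩ : ∃ w : ℝ, w = min (min (c9 * κ') (1 / 16)) (ρ / 2) := ⟨_, rfl⟩
  have hw0 : 0 < w := by rw [hw]; exact lt_min (lt_min (by positivity) (by norm_num)) (by positivity)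
  have hw1 : w ≤ c9 * κ' := by rw [hw]; exact (min_le_left _ _).trans (min_le_left _ _)
  have hw2 : w ≤ 1 / 16 := by rw [hw]; exact (min_le_left _ _).trans (min_le_right _ _)
  have hw3 : w ≤ ρ / 2 := by rw [hw]; exact min_le_right _ _
  refine ⟨c * w ^ 2 / (16 * C ^ 6), by positivity, ?_⟩
  intro δ hδ ε' hε' W0
  obtain ⟨δ', hδ'⟩ : ∃ δ' : ℝ, δ' = min (δ / (4 * C ^ 3)) (1 / 2) := ⟨_, rfl⟩
  have hδ'0 : 0 < δ' := by rw [hδ']; exact lt_min (by positivity) (by norm_num)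
  have hδ'1 : 4 * C ^ 3 * δ' ≤ δ := by
    have : δ' ≤ δ / (4 * C ^ 3) := by rw [hδ']; exact min_le_left _ _
    rw [le_div_iff₀ (by positivity)] at this
    linarith
  have hδ'2 : δ' ≤ 1 / 2 := by rw [hδ']; exact min_le_right _ _
  obtain ⟨ε1, hε1, M1, hM1⟩ := hmod κ' hκ'0 hκ'2
  obtain ⟨ε2, hε2, M2, hM2⟩ := hrow δ' hδ'0 hδ'2
  obtain ⟨ε, hε⟩ : ∃ ε : ℝ, ε = min (min ε1 ε2) (min (κ / (64 * C ^ 5)) (ε' / (2 * C ^ 2))) := ⟨_, rfl⟩
  have hε0 : 0 < ε := by rw [hε]; exact lt_min (lt_min hε1 hε2) (lt_min (by positivity) (by positivity))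
  have hεε1 : ε ≤ ε1 := by rw [hε]; exact (min_le_left _ _).trans (min_le_left _ _)
  have hεε2 : ε ≤ ε2 := by rw [hε]; exact (min_le_left _ _).trans (min_le_right _ _)
  have hεκ : 64 * C ^ 5 * ε ≤ κ := by
    have : ε ≤ κ / (64 * C ^ 5) := by rw [hε]; exact (min_le_right _ _).trans (min_le_left _ _)
    rw [le_div_iff₀ (by positivity)] at this
    linarith
  have hεε' : 2 * C ^ 2 * ε ≤ ε' := by
    have : ε ≤ ε' / (2 * C ^ 2) := by rw [hε]; exact (min_le_right _ _).trans (min_le_right _ _)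
    rw [le_div_iff₀ (by positivity)] at this
    linarith
  have hεC2 : 64 * C ^ 2 * ε ≤ 1 := by
    have h1 : C ^ 2 ≤ C ^ 5 := pow_le_pow_right₀ hC (by norm_num)
    have h2 : C ^ 2 * ε ≤ C ^ 5 * ε := mul_le_mul_of_nonneg_right h1 hε0.le
    linarith
  obtain ⟨M3, hM3⟩ := exists_nat_ge ((|(W0 : ℝ)| + 1) / w + 2 / w + 64)
  refine ⟨ε, hε0, max (max M1 M2) (M3 : ℤ), ?_⟩
  intro M hM P S HSc
  have hMM1 : M1 ≤ M := ((le_max_left _ _).trans (le_max_left _ _)).trans hM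
  have hMM2 : M2 ≤ M := ((le_max_right _ _).trans (le_max_left _ _)).trans hM
  have hMM3 : (M3 : ℝ) ≤ M := by exact_mod_cast (le_max_right _ _).trans hM
  have p1 : 0 ≤ (|(W0 : ℝ)| + 1) / w := by positivity
  have p2 : 0 ≤ 2 / w := by positivity
  have g1 : |(W0 : ℝ)| + 1 ≤ w * M := by
    have : (|(W0 : ℝ)| + 1) / w ≤ M := by linarith
    rw [div_le_iff₀ hw0] at this; linarith
  have g2 : 2 ≤ w * M := by
    have : 2 / w ≤ M := by linarith
    rw [div_le_iff₀ hw0] at this; linarith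
  have g3 : (64 : ℤ) ≤ M := by
    have : (64 : ℝ) ≤ M := by linarith
    exact_mod_cast this
  have hM0 : (0 : ℝ) < M := by
    have : 0 < M := by omega
    exact_mod_cast this
  have HC := HSc.HH hc.le
  obtain ⟨W, hW⟩ : ∃ W : ℤ, W = ⌊w * M⌋ := ⟨_, rfl⟩
  have hW1 : (W : ℝ) ≤ w * M := by rw [hW]; exact Int.floor_le _
  have hW2 : w * M < W + 1 := by rw [hW]; exact Int.lt_floor_add_one _
  have hW3 : w * M / 2 ≤ W := by linarith
  have hWM : 16 * W ≤ M := by
    have : 16 * (W : ℝ) ≤ M := by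
      have : w * M ≤ 1 / 16 * M := mul_le_mul_of_nonneg_right hw2 hM0.le
      linarith
    exact_mod_cast this
  have hW0W : W0 ≤ W := by
    have h1 : (W0 : ℝ) < W + 1 := by
      have := le_abs_self (W0 : ℝ)
      linarith
    have h2 : W0 < W + 1 := by exact_mod_cast h1
    omega
  have hWpos : 0 < W := by
    have : (0 : ℝ) < W := by linarith
    exact_mod_cast this
  -- the frame at the origin
  obtain ⟨U, hU⟩ : ∃ U, U = F P (1, 0) 0 := ⟨_, rfl⟩
  obtain ⟨V, hV⟩ : ∃ V, V = F P (0, 1) 0 := ⟨_, rfl⟩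
  have h00 : nz (0 : ℤ × ℤ) + 1 ≤ M := by rw [nz_zero]; omega
  have hUn : ‖U‖ ≤ C := by rw [hU]; exact S.hU 0 h00
  have hVn : ‖V‖ ≤ C := by rw [hV]; exact S.hV 0 h00
  have hD : 1 / C ≤ det2 U V := by rw [hU, hV]; exact S.hdet 0 h00
  have hD0 : 0 < det2 U V := lt_of_lt_of_le (by positivity) hD
  have hDC : det2 U V ≤ C ^ 2 := det2_norm_le hUn hVn
  have hinv : 1 / det2 U V ≤ C := by
    rw [div_le_iff₀ hD0]
    have := mul_le_mul_of_nonneg_left hD hC0.le
    rwa [mul_one_div_cancel hC0.ne'] at this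
  have hLn := lc_norm hC hUn hVn hD
  have hLd := lc_det hD0.ne'
  obtain ⟨P', hP'⟩ : ∃ P' : ℤ × ℤ → ℂ, P' = fun y => lc U V (P y) := ⟨_, rfl⟩
  have hF : ∀ e y, F P' e y = lc U V (F P e y) := by
    intro e y; rw [hP', F_lc]
  have sc : ∀ z z' : ℂ, ‖z' - z‖ ≤ ε → ‖lc U V z' - lc U V z‖ ≤ ε' := by
    intro z z' h
    rw [← lc_sub]
    refine (hLn _).trans (le_trans ?_ hεε')
    exact mul_le_mul_of_nonneg_left h (by positivity)
  have hS' : Slow W (2 * C ^ 3) ε' P' := by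
    refine ⟨by linarith, hε'.le, ?_, ?_, ?_, ?_, ?_, ?_, ?_⟩
    · intro y hy
      rw [hF]
      calc ‖lc U V (F P (1, 0) y)‖ ≤ 2 * C ^ 2 * ‖F P (1, 0) y‖ := hLn _
        _ ≤ 2 * C ^ 2 * C := mul_le_mul_of_nonneg_left (S.hU y (by omega)) (by positivity)
        _ = 2 * C ^ 3 := by ring
    · intro y hy
      rw [hF]
      calc ‖lc U V (F P (0, 1) y)‖ ≤ 2 * C ^ 2 * ‖F P (0, 1) y‖ := hLn _
        _ ≤ 2 * C ^ 2 * C := mul_le_mul_of_nonneg_left (S.hV y (by omega)) (by positivity)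
        _ = 2 * C ^ 3 := by ring
    · intro y hy
      rw [hF, hF, hLd, div_le_div_iff₀ (by positivity) hD0]
      have h1 := S.hdet y (by omega)
      have h2 : 1 / C * (2 * C ^ 3) ≤ det2 (F P (1, 0) y) (F P (0, 1) y) * (2 * C ^ 3) :=
        mul_le_mul_of_nonneg_right h1 (by positivity)
      have e : 1 / C * (2 * C ^ 3) = 2 * C ^ 2 := by field_simp
      rw [e] at h2
      linarith
    · intro y h1 h2
      rw [hF, hF]; exact sc _ _ (S.hU0 y (by omega) (by omega))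
    · intro y h1 h2
      rw [hF, hF]; exact sc _ _ (S.hU1 y (by omega) (by omega))
    · intro y h1 h2
      rw [hF, hF]; exact sc _ _ (S.hV0 y (by omega) (by omega))
    · intro y h1 h2
      rw [hF, hF]; exact sc _ _ (S.hV1 y (by omega) (by omega))
  have hε8 : 8 * ((1 : ℕ) : ℝ) ^ 2 * C ^ 2 * ε ≤ 1 := by
    push_cast; linarith
  have hε4 : (0 : ℝ) ≤ C ^ 2 * ε := by positivity
  have hge : ∀ e ∈ E4, ∀ y, nz y + 2 ≤ M → 1 / (2 * C ^ 2) ≤ ‖F P e y‖ := by
    intro e he y hy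
    exact S.F_ge (H := 1) (E4_ne he) (by rw [E4_nz he]; simp) (by push_cast; omega) hε8
  have hle : ∀ e ∈ E4, ∀ y, nz y + 2 ≤ M → ‖F P e y‖ ≤ 2 * C := by
    intro e he y hy
    have := S.F_le (H := 1) (e := e) (a := y) (by rw [E4_nz he]; simp) (by push_cast; omega)
    push_cast at this
    linarith
  refine ⟨W, hW0W, P', ⟨hS', ?_, ?_⟩, ?_⟩
  · intro e he y hy
    have he1 := E4_nz he
    obtain ⟨cx1, cx2⟩ := cx_norm he
    have hy0 : 0 ≤ nz y := nz_nonneg y
    have n1 := hM1 M hMM1 P (S.mono hεε1) HC e (E4_ne he) (by rw [he1]; simp) 0 y (by rw [nz_zero]; omega)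
      (by omega) (by
        rw [sub_zero]
        have h1 : (nz y : ℝ) ≤ W := by
          have : nz y ≤ W := by omega
          exact_mod_cast this
        calc (nz y : ℝ) ≤ W := h1
          _ ≤ w * M := hW1
          _ ≤ c9 * κ' * M := mul_le_mul_of_nonneg_right hw1 hM0.le)
    have hg0 := hge e he 0 (by rw [nz_zero]; omega)
    have hgy := hge e he y (by omega)
    have hl0 := hle e he 0 (by rw [nz_zero]; omega)
    have hly := hle e he y (by omega)
    have hF0 : 0 < ‖F P e 0‖ := lt_of_lt_of_le (by positivity) hg0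
    have hFy : 0 < ‖F P e y‖ := lt_of_lt_of_le (by positivity) hgy
    have hd0 := norm_dir hF0
    have hdy := norm_dir hFy
    -- the linear part at the origin
    have hlin : ‖lc U V (F P e 0) - cx e‖ ≤ 8 * (C ^ 2 * ε) := by
      have e1 : cx e = lc U V (lin P e 0) := by
        unfold lin; rw [← hU, ← hV, lc_basis hD0.ne']
      rw [e1, ← lc_sub]
      have h1 := S.F_lin (u := e) (R := 1) (y := 0) (by rw [he1]) (by rw [nz_zero]; omega)
      push_cast at h1
      refine (hLn _).trans ?_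
      have := mul_le_mul_of_nonneg_left h1 (by positivity : 0 ≤ 2 * C ^ 2)
      linarith
    have hLy : ‖lc U V (F P e y)‖ ≤ 4 * C ^ 3 := by
      calc _ ≤ 2 * C ^ 2 * ‖F P e y‖ := hLn _
        _ ≤ 2 * C ^ 2 * (2 * C) := mul_le_mul_of_nonneg_left hly (by positivity)
        _ = _ := by ring
    rw [hF]
    constructor
    · have e2 : det2 (cx e) (lc U V (F P e y)) = det2 (lc U V (F P e 0)) (lc U V (F P e y)) -
          det2 (lc U V (F P e 0) - cx e) (lc U V (F P e y)) := by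
        simp only [det2, Complex.sub_re, Complex.sub_im]; ring
      rw [e2]
      refine (abs_sub _ _).trans ?_
      have b1 : |det2 (lc U V (F P e 0)) (lc U V (F P e y))| ≤ 4 * C ^ 3 * κ' := by
        rw [hLd, abs_div, abs_of_pos hD0]
        have b2 : |det2 (F P e 0) (F P e y)| = ‖F P e 0‖ * ‖F P e y‖ * |det2 (dir P e 0) (dir P e y)| := by
          unfold dir
          rw [det2_real_scale, abs_mul, abs_mul, abs_of_pos (by positivity : 0 < 1 / ‖F P e 0‖),
            abs_of_pos (by positivity : 0 < 1 / ‖F P e y‖)]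
          field_simp
        rw [b2]
        have b3 : ‖F P e 0‖ * ‖F P e y‖ ≤ (2 * C) * (2 * C) := mul_le_mul hl0 hly (norm_nonneg _) (by positivity)
        have b4 : ‖F P e 0‖ * ‖F P e y‖ * |det2 (dir P e 0) (dir P e y)| ≤ (2 * C) * (2 * C) * κ' :=
          mul_le_mul b3 n1.1 (abs_nonneg _) (by positivity)
        calc _ ≤ (2 * C) * (2 * C) * κ' / det2 U V := div_le_div_of_nonneg_right b4 hD0.le
          _ = (2 * C) * (2 * C) * κ' * (1 / det2 U V) := by ring
          _ ≤ (2 * C) * (2 * C) * κ' * C := mul_le_mul_of_nonneg_left hinv (by positivity)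
          _ = _ := by ring
      have b5 : |det2 (lc U V (F P e 0) - cx e) (lc U V (F P e y))| ≤ 8 * (C ^ 2 * ε) * (4 * C ^ 3) :=
        (det2_le _ _).trans (mul_le_mul hlin hLy (norm_nonneg _) (by positivity))
      have b6 : 8 * (C ^ 2 * ε) * (4 * C ^ 3) = (64 * C ^ 5 * ε) / 2 := by ring
      linarith
    · -- decomposition of `F y` along `F 0`
      obtain ⟨t, ht⟩ : ∃ t : ℝ, t = ‖F P e y‖ * chi (dir P e 0) (dir P e y) / ‖F P e 0‖ := ⟨_, rfl⟩
      obtain ⟨q, hq⟩ : ∃ q : ℂ, q = F P e y - (t : ℂ) * F P e 0 := ⟨_, rfl⟩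
      have hchi := n1.chi_ge hd0 hdy hκ'2
      have ht1 : 3 / (16 * C ^ 3) ≤ t := by
        rw [ht, le_div_iff₀ hF0]
        calc 3 / (16 * C ^ 3) * ‖F P e 0‖ ≤ 3 / (16 * C ^ 3) * (2 * C) :=
              mul_le_mul_of_nonneg_left hl0 (by positivity)
          _ = 1 / (2 * C ^ 2) * (3 / 4) := by field_simp; norm_num
          _ ≤ _ := mul_le_mul hgy hchi (by norm_num) (norm_nonneg _)
      have hqn : ‖q‖ ≤ 2 * C * κ' := by
        have e0 : F P e 0 = ((‖F P e 0‖ : ℝ) : ℂ) * dir P e 0 := by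
          unfold dir
          rw [← mul_assoc, ← Complex.ofReal_mul, mul_one_div_cancel hF0.ne', Complex.ofReal_one, one_mul]
        have ey : F P e y = ((‖F P e y‖ : ℝ) : ℂ) * dir P e y := by
          unfold dir
          rw [← mul_assoc, ← Complex.ofReal_mul, mul_one_div_cancel hFy.ne', Complex.ofReal_one, one_mul]
        have c1 : chi (dir P e 0) (dir P e 0) = 1 := by
          have : chi (dir P e 0) (dir P e 0) = ‖dir P e 0‖ ^ 2 := by
            rw [Complex.sq_norm, Complex.normSq_apply]; rfl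
          rw [this, hd0]; norm_num
        have c2 : chi (dir P e 0) q = 0 := by
          rw [hq, chi_sub, chi_real_mul, ht]
          have a1 : chi (dir P e 0) (F P e y) = ‖F P e y‖ * chi (dir P e 0) (dir P e y) := by
            conv_lhs => rw [ey]
            rw [chi_real_mul]
          have a2 : chi (dir P e 0) (F P e 0) = ‖F P e 0‖ := by
            conv_lhs => rw [e0]
            rw [chi_real_mul, c1, mul_one]
          rw [a1, a2]; field_simp; ring
        have c3 : |det2 (dir P e 0) q| ≤ 2 * C * κ' := by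
          rw [hq, det2_sub, det2_real_mul]
          have a1 : det2 (dir P e 0) (F P e y) = ‖F P e y‖ * det2 (dir P e 0) (dir P e y) := by
            conv_lhs => rw [ey]
            rw [det2_real_mul]
          have a2 : det2 (dir P e 0) (F P e 0) = 0 := by
            conv_lhs => rw [e0]
            rw [det2_real_mul, det2_self, mul_zero]
          rw [a1, a2, mul_zero, sub_zero, abs_mul, abs_of_pos hFy]
          exact mul_le_mul hly n1.1 (abs_nonneg _) (by positivity)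
        have := norm_le_add (dir P e 0) q
        rw [hd0, one_mul, c2, abs_zero, add_zero] at this
        exact this.trans c3
      have e3 : lc U V (F P e y) = (t : ℂ) * lc U V (F P e 0) + lc U V q := by
        rw [← lc_real_mul, ← lc_add]; congr 1; rw [hq]; ring
      rw [e3, chi_add, chi_real_mul]
      have b1 : 1 / 2 ≤ chi (cx e) (lc U V (F P e 0)) := by
        have e4 : chi (cx e) (lc U V (F P e 0)) = chi (cx e) (cx e) + chi (cx e) (lc U V (F P e 0) - cx e) := by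
          rw [chi_sub]; ring
        have b2 : 1 ≤ chi (cx e) (cx e) := by
          have : chi (cx e) (cx e) = ‖cx e‖ ^ 2 := by
            rw [Complex.sq_norm, Complex.normSq_apply]; rfl
          rw [this]; nlinarith
        have b3 := (abs_le.mp ((chi_le (cx e) (lc U V (F P e 0) - cx e)).trans
          (mul_le_mul cx2 hlin (norm_nonneg _) (by norm_num)))).1
        rw [e4]
        linarith
      have b4 := (abs_le.mp ((chi_le (cx e) (lc U V q)).trans
          (mul_le_mul cx2 ((hLn q).trans (mul_le_mul_of_nonneg_left hqn (by positivity))) (norm_nonneg _)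
            (by norm_num)))).1
      have b5 : 3 / (16 * C ^ 3) * (1 / 2) ≤ t * chi (cx e) (lc U V (F P e 0)) :=
        mul_le_mul ht1 b1 (by norm_num) (le_trans (by positivity) ht1)
      have b6 : 2 * (2 * C ^ 2 * (2 * C * κ')) = 8 * C ^ 3 * κ' := by ring
      have b7 : 3 / (16 * C ^ 3) * (1 / 2) = 3 / 2 * (1 / (16 * C ^ 3)) := by ring
      have b8 : 0 < 1 / (16 * C ^ 3) := by positivity
      linarith
  · intro e he a j ha haj
    have he1 := E4_nz he
    have ha0 := nz_nonneg a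
    have haj0 := nz_nonneg (a + (j : ℤ) • e)
    have hj : (j : ℤ) ≤ 2 * W := by
      have h1 : nz ((j : ℤ) • e) = j := by
        rw [nz_smul, he1, mul_one, abs_of_nonneg (by positivity)]
      have h2 := nz_sub (a + (j : ℤ) • e) a
      rw [add_sub_cancel_left, h1] at h2
      omega
    have n1 := hM2 M hMM2 P (S.mono hεε2) HC e (E4_gcd he) (by rw [he1]; simp) a (by omega) j (by
      have h1 : (j : ℝ) ≤ 2 * W := by exact_mod_cast hj
      calc (j : ℝ) ≤ 2 * W := h1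
        _ ≤ 2 * (w * M) := by linarith
        _ ≤ 2 * (ρ / 2 * M) := by
            have := mul_le_mul_of_nonneg_right hw3 hM0.le
            linarith
        _ = ρ * M := by ring)
    have hga := hge e he a (by omega)
    have hgb := hge e he (a + (j : ℤ) • e) (by omega)
    have hla := hle e he a (by omega)
    have hlb := hle e he (a + (j : ℤ) • e) (by omega)
    have hFa : 0 < ‖F P e a‖ := lt_of_lt_of_le (by positivity) hga
    have hFb : 0 < ‖F P e (a + (j : ℤ) • e)‖ := lt_of_lt_of_le (by positivity) hgb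
    rw [hF, hF, hLd, abs_div, abs_of_pos hD0]
    have b2 : |det2 (F P e a) (F P e (a + (j : ℤ) • e))| = ‖F P e a‖ * ‖F P e (a + (j : ℤ) • e)‖ *
        |det2 (dir P e a) (dir P e (a + (j : ℤ) • e))| := by
      unfold dir
      rw [det2_real_scale, abs_mul, abs_mul, abs_of_pos (by positivity : 0 < 1 / ‖F P e a‖),
        abs_of_pos (by positivity : 0 < 1 / ‖F P e (a + (j : ℤ) • e)‖)]
      field_simp
    rw [b2]
    have b3 : ‖F P e a‖ * ‖F P e (a + (j : ℤ) • e)‖ ≤ (2 * C) * (2 * C) :=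
      mul_le_mul hla hlb (norm_nonneg _) (by positivity)
    have b4 : ‖F P e a‖ * ‖F P e (a + (j : ℤ) • e)‖ * |det2 (dir P e a) (dir P e (a + (j : ℤ) • e))| ≤
        (2 * C) * (2 * C) * δ' := mul_le_mul b3 n1.1 (abs_nonneg _) (by positivity)
    calc _ ≤ (2 * C) * (2 * C) * δ' / det2 U V := div_le_div_of_nonneg_right b4 hD0.le
      _ = (2 * C) * (2 * C) * δ' * (1 / det2 U V) := by ring
      _ ≤ (2 * C) * (2 * C) * δ' * C := mul_le_mul_of_nonneg_left hinv (by positivity)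
      _ = 4 * C ^ 3 * δ' := by ring
      _ ≤ δ := hδ'1
  · intro x x' z hx hx' hz h1 h2 h3
    rw [hP'] at h1 h2 h3 ⊢
    simp only at h1 h2 h3 ⊢
    have k1 := HSc x x' z (by omega) (by omega) (by omega) (by rintro h; exact h1 (by rw [h]))
      (by rintro h; exact h2 (by rw [h])) (by rintro h; exact h3 (by rw [h]))
    rw [← lc_sub, ← lc_sub, hLd, abs_div, abs_of_pos hD0]
    obtain ⟨A, hA⟩ : ∃ A, A = P x - P z := ⟨_, rfl⟩
    obtain ⟨B, hB⟩ : ∃ B, B = P x' - P z := ⟨_, rfl⟩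
    rw [← hA, ← hB] at k1 ⊢
    have k2 : ‖lc U V A‖ * ‖lc U V B‖ ≤ (2 * C ^ 2 * ‖A‖) * (2 * C ^ 2 * ‖B‖) :=
      mul_le_mul (hLn A) (hLn B) (norm_nonneg _) (by positivity)
    have k3 : c * w ^ 2 / (16 * C ^ 6) * (‖lc U V A‖ * ‖lc U V B‖) ≤
        (w / 2) ^ 2 / C ^ 2 * (c * (‖A‖ * ‖B‖)) := by
      calc _ ≤ c * w ^ 2 / (16 * C ^ 6) * ((2 * C ^ 2 * ‖A‖) * (2 * C ^ 2 * ‖B‖)) :=
            mul_le_mul_of_nonneg_left k2 (by positivity)
        _ = _ := by field_simp; norm_num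
    refine k3.trans ?_
    have k4 : (w / 2) ^ 2 / C ^ 2 * (c * (‖A‖ * ‖B‖)) ≤ (w / 2) ^ 2 / C ^ 2 * ((M : ℝ) ^ 2 * |det2 A B|) :=
      mul_le_mul_of_nonneg_left k1 (by positivity)
    refine k4.trans ?_
    have k5 : (w / 2) ^ 2 * (M : ℝ) ^ 2 ≤ (W : ℝ) ^ 2 := by
      rw [← mul_pow]
      refine pow_le_pow_left₀ (by positivity) ?_ 2
      linarith
    have k6 : 1 / C ^ 2 ≤ 1 / det2 U V := one_div_le_one_div_of_le hD0 hDC
    calc (w / 2) ^ 2 / C ^ 2 * ((M : ℝ) ^ 2 * |det2 A B|) =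
          ((w / 2) ^ 2 * (M : ℝ) ^ 2) * (|det2 A B| * (1 / C ^ 2)) := by ring
      _ ≤ (W : ℝ) ^ 2 * (|det2 A B| * (1 / det2 U V)) :=
          mul_le_mul k5 (mul_le_mul_of_nonneg_left k6 (abs_nonneg _)) (by positivity) (by positivity)
      _ = _ := by ring

end

end Pool.Agent.Lib.MP_a768d2_co.SL
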