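import Pool.Agent.Lib.MP_a768d2_coT.SlZ
import Pool.Agent.Lib.MP_a768d2_coD.Geo

/-! # Slowly varying lattices: passage to the directional normal form -/

namespace Pool.Agent.Lib.MP_a768d2_co.SL

open Pool.Agent.Lib.MP_a768d2_coT (DF Void Bd Oct Dir Fr)

noncomputable section

/-- the statement about grids in directional normal form -/
def WebD : Prop := ∀ L : ℝ, 1 ≤ L → ∃ κ0 : ℝ, 0 < κ0 ∧ ∀ c : ℝ, 0 < c → ∃ δ1 : ℝ, 0 < δ1 ∧ ∃ N1 : ℕ,
  ∀ N : ℕ, N1 ≤ N → ∀ (P : ℤ → ℤ → ℂ) (ℓ : ℤ → ℤ → ℝ) (κ : ℝ), 0 ≤ κ → κ ≤ κ0 → DF P ℓ N κ L →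
    Void P N c → Bd P δ1 (Oct (N / 8)) → False

theorem det2_eqG (z w : ℂ) : Pool.Agent.Lib.MP_a768d2_coG.det2 z w = det2 z w := rfl

theorem nz_le_iff {x y : ℤ} {N : ℤ} : nz (x, y) ≤ N ↔ |x| ≤ N ∧ |y| ≤ N := by
  unfold nz; exact max_le_iff

theorem webFalse_of (h : WebD) : WebFalse := by
  intro C hC
  have hC0 : 0 < C := by linarith
  have hC2 : (1 : ℝ) ≤ C ^ 2 := one_le_pow₀ hC
  have hC3 : (1 : ℝ) ≤ C ^ 3 := one_le_pow₀ hC
  obtain ⟨κ0, hκ0, h1⟩ := h (2 * C ^ 3) (by linarith)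
  obtain ⟨κ, hκ⟩ : ∃ κ : ℝ, κ = min (min 1 (1 / (2 * C))) (κ0 / (12 * C ^ 2)) := ⟨_, rfl⟩
  have hκ00 : 0 < κ := by rw [hκ]; exact lt_min (lt_min one_pos (by positivity)) (by positivity)
  have hκ1 : κ ≤ 1 := by rw [hκ]; exact (min_le_left _ _).trans (min_le_left _ _)
  have hκ2 : 2 * C * κ ≤ 1 := by
    have : κ ≤ 1 / (2 * C) := by rw [hκ]; exact (min_le_left _ _).trans (min_le_right _ _)
    rw [le_div_iff₀ (by positivity)] at this; linarith
  have hκ3 : 12 * C ^ 2 * κ ≤ κ0 := by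
    have : κ ≤ κ0 / (12 * C ^ 2) := by rw [hκ]; exact min_le_right _ _
    rw [le_div_iff₀ (by positivity)] at this; linarith
  refine ⟨κ, hκ00, hκ1, ?_⟩
  intro c hc
  obtain ⟨δ1, hδ1, N1, h2⟩ := h1 (c / 8) (by positivity)
  refine ⟨δ1 / (4 * C ^ 4), by positivity, κ, hκ00, 2 * (N1 : ℤ) + 20, ?_⟩
  intro W hW P D HSc
  obtain ⟨S, hdir, hrow⟩ := D
  have HC := HSc.HH hc.le
  obtain ⟨N, hN⟩ : ∃ N : ℕ, N = (W - 3).toNat := ⟨_, rfl⟩
  have hNW : (N : ℤ) + 3 = W := by omega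
  have hN1 : N1 ≤ N := by omega
  have hN0 : (0 : ℝ) < N := by
    have : 0 < N := by omega
    exact_mod_cast this
  obtain ⟨s, hs⟩ : ∃ s : ℝ, s = 2 * C ^ 2 := ⟨_, rfl⟩
  have hs0 : 0 < s := by rw [hs]; positivity
  have hs2 : s * s = 4 * C ^ 4 := by rw [hs]; ring
  obtain ⟨P', hP'⟩ : ∃ P' : ℤ → ℤ → ℂ, ∀ x y, P' x y = (s : ℂ) * P (x, y) := ⟨_, fun _ _ => rfl⟩
  obtain ⟨ℓ, hℓ⟩ : ∃ ℓ : ℤ → ℤ → ℝ, ∀ x y, ℓ x y = s * (F P (1, 0) (x, y)).re := ⟨_, fun _ _ => rfl⟩
  -- the frames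
  have frame : ∀ x y : ℤ, |x| ≤ N → |y| ≤ N → |(F P (1, 0) (x, y)).im| ≤ κ ∧
      0 < (F P (1, 0) (x, y)).re ∧ (F P (1, 0) (x, y)).re ≤ C ∧ |(F P (0, 1) (x, y)).re| ≤ κ ∧
      |(F P (0, 1) (x, y)).im - (F P (1, 0) (x, y)).re| ≤ 5 * κ ∧ 1 / (2 * C ^ 2) ≤ (F P (1, 0) (x, y)).re := by
    intro x y hx hy
    have hxy : nz (x, y) ≤ N := nz_le_iff.mpr ⟨hx, hy⟩
    have a1 := hdir (1, 0) (by simp [E4]) (x, y) (by rw [nz_e0]; omega)
    have a2 := hdir (0, 1) (by simp [E4]) (x, y) (by rw [nz_e1]; omega)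
    have a3 := hdir (1, 1) (by simp [E4]) (x, y) (by
      have : nz ((1, 1) : ℤ × ℤ) = 1 := by simp [nz]
      rw [this]; omega)
    have hn1 : nz ((x, y) + (1, 0)) + 1 ≤ W := by
      have := nz_add (x, y) (1, 0); rw [nz_e0] at this; omega
    have a4 := S.hV0 (x, y) (by omega) hn1
    have a5 := S.hdet (x, y) (by omega)
    have a6 := S.hU (x, y) (by omega)
    have a7 := S.hV (x, y) (by omega)
    obtain ⟨U, hU⟩ : ∃ U, U = F P (1, 0) (x, y) := ⟨_, rfl⟩
    obtain ⟨V, hV⟩ : ∃ V, V = F P (0, 1) (x, y) := ⟨_, rfl⟩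
    obtain ⟨V', hV'⟩ : ∃ V', V' = F P (0, 1) ((x, y) + (1, 0)) := ⟨_, rfl⟩
    have e3 : F P (1, 1) (x, y) = U + V' := by
      rw [hU, hV']; unfold F
      have : (x, y) + (1, 0) + (0, 1) = (x, y) + ((1, 1) : ℤ × ℤ) := by
        rw [add_assoc]; norm_num
      rw [this]; ring
    rw [e3] at a3
    rw [← hU] at a1 a5 a6 ⊢
    rw [← hV] at a2 a4 a5 a7 ⊢
    rw [← hV'] at a4
    have b1 : |U.im| ≤ κ := by
      have : det2 (cx (1, 0)) U = U.im := by simp [det2, cx]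
      rw [this] at a1; exact a1.1
    have b2 : 0 < U.re := by
      have : chi (cx (1, 0)) U = U.re := by simp [chi, cx]
      rw [this] at a1; exact a1.2
    have b3 : |V.re| ≤ κ := by
      have : det2 (cx (0, 1)) V = -V.re := by simp [det2, cx]
      rw [this, abs_neg] at a2; exact a2.1
    have b4 : U.re ≤ C := (Complex.re_le_norm U).trans a6
    have b5 : |V'.re - V.re| ≤ κ := by
      have := Complex.abs_re_le_norm (V' - V)
      rw [Complex.sub_re] at this; exact this.trans a4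
    have b6 : |V'.im - V.im| ≤ κ := by
      have := Complex.abs_im_le_norm (V' - V)
      rw [Complex.sub_im] at this; exact this.trans a4
    have b7 : |(U.im + V'.im) - (U.re + V'.re)| ≤ κ := by
      have : det2 (cx (1, 1)) (U + V') = (U.im + V'.im) - (U.re + V'.re) := by
        simp [det2, cx]
      rw [this] at a3; exact a3.1
    have b8 : |V.im - U.re| ≤ 5 * κ := by
      rw [abs_le] at b1 b3 b5 b6 b7 ⊢
      constructor <;> linarith
    refine ⟨b1, b2, b4, b3, b8, ?_⟩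
    -- lower bound
    have b9 : V.im ≤ C := (Complex.im_le_norm V).trans a7
    have b10 : |U.im * V.re| ≤ κ * κ := by
      rw [abs_mul]; exact mul_le_mul b1 b3 (abs_nonneg _) hκ00.le
    have b11 : 1 / C ≤ U.re * V.im - U.im * V.re := a5
    have b12 := (abs_le.mp b10).1
    have b13 : κ * κ ≤ 1 / (2 * C) := by
      rw [le_div_iff₀ (by positivity)]
      nlinarith
    have b14 : 1 / C = 1 / (2 * C) + 1 / (2 * C) := by field_simp; norm_num
    have b15 : 1 / (2 * C) ≤ U.re * V.im := by linarith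
    have b16 : U.re * V.im ≤ U.re * C := mul_le_mul_of_nonneg_left b9 b2.le
    have b17 : 1 / (2 * C) ≤ U.re * C := b15.trans b16
    rw [div_le_iff₀ (by positivity)] at b17 ⊢
    linarith
  have difx : ∀ x y : ℤ, P' (x + 1) y - P' x y = (s : ℂ) * F P (1, 0) (x, y) := by
    intro x y
    rw [hP', hP']; unfold F
    have : ((x, y) : ℤ × ℤ) + (1, 0) = (x + 1, y) := by simp
    rw [this]; ring
  have dify : ∀ x y : ℤ, P' x (y + 1) - P' x y = (s : ℂ) * F P (0, 1) (x, y) := by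
    intro x y
    rw [hP', hP']; unfold F
    have : ((x, y) : ℤ × ℤ) + (0, 1) = (x, y + 1) := by simp
    rw [this]; ring
  have hDF : DF P' ℓ N (12 * C ^ 2 * κ) (2 * C ^ 3) := by
    refine ⟨?_, ?_, ?_, ?_⟩
    · intro x y hx hy
      obtain ⟨b1, b2, b3, b4, b5, b6⟩ := frame x y hx hy
      rw [hℓ, hs]
      rw [div_le_iff₀ (by positivity)] at b6
      linarith
    · intro x y hx hy
      obtain ⟨b1, b2, b3, b4, b5, b6⟩ := frame x y hx hy
      rw [hℓ, hs]
      calc 2 * C ^ 2 * (F P (1, 0) (x, y)).re ≤ 2 * C ^ 2 * C := mul_le_mul_of_nonneg_left b3 (by positivity)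
        _ = _ := by ring
    · intro x y hx hy
      obtain ⟨b1, b2, b3, b4, b5, b6⟩ := frame x y hx hy
      rw [difx, hℓ]
      have e : (s : ℂ) * F P (1, 0) (x, y) - ((s * (F P (1, 0) (x, y)).re : ℝ) : ℂ) =
          (s : ℂ) * (((F P (1, 0) (x, y)).im : ℂ) * Complex.I) := by
        apply Complex.ext <;> simp
      rw [e, norm_mul, norm_mul, Complex.norm_real, Complex.norm_real, Complex.norm_I, mul_one,
        Real.norm_eq_abs, Real.norm_eq_abs, abs_of_pos hs0, hs]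
      have := mul_le_mul_of_nonneg_left b1 (by positivity : 0 ≤ 2 * C ^ 2)
      have h0 : 0 ≤ C ^ 2 * κ := by positivity
      linarith
    · intro x y hx hy
      obtain ⟨b1, b2, b3, b4, b5, b6⟩ := frame x y hx hy
      rw [dify, hℓ]
      have e : (s : ℂ) * F P (0, 1) (x, y) - ((s * (F P (1, 0) (x, y)).re : ℝ) : ℂ) * Complex.I =
          (s : ℂ) * (((F P (0, 1) (x, y)).re : ℂ) +
            (((F P (0, 1) (x, y)).im - (F P (1, 0) (x, y)).re : ℝ) : ℂ) * Complex.I) := by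
        apply Complex.ext <;> (simp; try ring)
      rw [e, norm_mul, Complex.norm_real, Real.norm_eq_abs, abs_of_pos hs0, hs]
      have h5 : ‖((F P (0, 1) (x, y)).re : ℂ) +
            (((F P (0, 1) (x, y)).im - (F P (1, 0) (x, y)).re : ℝ) : ℂ) * Complex.I‖ ≤ κ + 5 * κ := by
        refine (norm_add_le _ _).trans ?_
        rw [norm_mul, Complex.norm_real, Complex.norm_real, Complex.norm_I, mul_one, Real.norm_eq_abs,
          Real.norm_eq_abs]
        exact add_le_add b4 b5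
      have := mul_le_mul_of_nonneg_left h5 (by positivity : 0 ≤ 2 * C ^ 2)
      linarith
  have hVoid : Void P' N (c / 8) := by
    intro x y x' y' x'' y'' hx hy hx' hy' hx'' hy'' hne hle
    have hnz : ∀ x y : ℤ, |x| ≤ N → |y| ≤ N → nz (x, y) + 1 ≤ W := by
      intro x y hx hy
      have : nz (x, y) ≤ N := nz_le_iff.mpr ⟨hx, hy⟩
      omega
    rw [hP', hP'] at hne
    rw [hP', hP', hP', ← mul_sub, ← mul_sub, norm_mul, norm_mul, Complex.norm_real, Real.norm_eq_abs,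
      abs_of_pos hs0] at hle
    have hle' : 2 * ‖P (x', y') - P (x, y)‖ ≤ ‖P (x'', y'') - P (x, y)‖ := by
      have : s * (2 * ‖P (x', y') - P (x, y)‖) ≤ s * ‖P (x'', y'') - P (x, y)‖ := by linarith
      exact le_of_mul_le_mul_left this hs0
    have k := HC (x, y) (x', y') (x'', y'') (hnz _ _ hx hy) (hnz _ _ hx' hy') (hnz _ _ hx'' hy'') (by
      intro h; exact hne (by rw [h])) hle'
    rw [hP', hP', hP', ← mul_sub, ← mul_sub, norm_mul, Complex.norm_real, Real.norm_eq_abs, abs_of_pos hs0,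
      det2_eqG, det2_real_scale, abs_mul, abs_of_pos (mul_pos hs0 hs0)]
    have hWN : (W : ℝ) ≤ 2 * N := by
      have : W ≤ 2 * (N : ℤ) := by omega
      exact_mod_cast this
    have hW0 : (0 : ℝ) ≤ W := by
      have : 0 ≤ W := by omega
      exact_mod_cast this
    have hWN2 : (W : ℝ) ^ 2 ≤ 4 * (N : ℝ) ^ 2 := by nlinarith
    obtain ⟨A, hA⟩ : ∃ A, A = ‖P (x'', y'') - P (x, y)‖ := ⟨_, rfl⟩
    obtain ⟨B, hB⟩ : ∃ B, B = |det2 (P (x', y') - P (x, y)) (P (x'', y'') - P (x, y))| := ⟨_, rfl⟩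
    rw [← hA, ← hB] at k ⊢
    have hB0 : 0 ≤ B := by rw [hB]; positivity
    have k2 : c / 2 * A ^ 2 ≤ 4 * (N : ℝ) ^ 2 * B := k.trans (mul_le_mul_of_nonneg_right hWN2 hB0)
    have k3 : c / 8 * A ^ 2 ≤ (N : ℝ) ^ 2 * B := by linarith
    calc c / 8 * (s * A) ^ 2 = s * s * (c / 8 * A ^ 2) := by ring
      _ ≤ s * s * ((N : ℝ) ^ 2 * B) := mul_le_mul_of_nonneg_left k3 (by positivity)
      _ = _ := by ring
  have hBd : Bd P' δ1 (Oct (N / 8)) := by
    have hin : ∀ x y : ℤ, Oct (N / 8) x y → nz (x, y) + 4 ≤ W := by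
      intro x y ho
      have h3 : 8 * |x| ≤ N := by
        have : 8 * |(x : ℝ)| ≤ N := by linarith [ho.1]
        exact_mod_cast this
      have h4 : 8 * |y| ≤ N := by
        have : 8 * |(y : ℝ)| ≤ N := by linarith [ho.2.1]
        exact_mod_cast this
      have : nz (x, y) ≤ N / 8 := nz_le_iff.mpr ⟨by omega, by omega⟩
      omega
    -- the four directions with any sign of the step
    have base : ∀ e ∈ E4, ∀ (a : ℤ × ℤ) (m : ℤ), nz a + 2 ≤ W → nz (a + m • e) + 2 ≤ W →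
        |det2 (F P e a) (F P e (a + m • e))| ≤ δ1 / (4 * C ^ 4) := by
      intro e he a m ha ham
      rcases le_total 0 m with hm | hm
      · obtain ⟨j, rfl⟩ := Int.eq_ofNat_of_zero_le hm
        exact hrow e he a j ha ham
      · obtain ⟨j, hj⟩ := Int.eq_ofNat_of_zero_le (neg_nonneg.mpr hm)
        have hm' : m = -(j : ℤ) := by omega
        have e1 : a + m • e + (j : ℤ) • e = a := by rw [hm', neg_smul]; abel
        have := hrow e he (a + m • e) j ham (by rw [e1]; exact ha)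
        rw [e1] at this
        rw [det2_anti, abs_neg]; exact this
    have fr : ∀ e1 e2 x y : ℤ, Fr P' e1 e2 x y = (s : ℂ) * F P (e1, e2) (x, y) := by
      intro e1 e2 x y
      unfold Fr F
      rw [hP', hP', ← mul_sub]
      simp
    have pos : ∀ e1 e2 : ℤ, ((e1, e2) : ℤ × ℤ) ∈ E4 → ∀ x y m : ℤ, Oct (N / 8) x y →
        Oct (N / 8) (x + m * e1) (y + m * e2) →
        |det2 (F P (e1, e2) (x, y)) (F P (e1, e2) (x + m * e1, y + m * e2))| ≤ δ1 / (4 * C ^ 4) := by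
      intro e1 e2 he x y m h3 h4
      have e5 : ((x + m * e1, y + m * e2) : ℤ × ℤ) = (x, y) + m • (e1, e2) := by
        apply Prod.ext <;> simp
      rw [e5]
      refine base (e1, e2) he (x, y) m (by have := hin x y h3; omega) ?_
      rw [← e5]
      have := hin _ _ h4; omega
    have neg : ∀ e1 e2 : ℤ, ((e1, e2) : ℤ × ℤ) ∈ E4 → ∀ x y m : ℤ, Oct (N / 8) x y →
        Oct (N / 8) (x + m * (-e1)) (y + m * (-e2)) →
        |det2 (F P (-e1, -e2) (x, y)) (F P (-e1, -e2) (x + m * (-e1), y + m * (-e2)))| ≤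
          δ1 / (4 * C ^ 4) := by
      intro e1 e2 he x y m h3 h4
      have hF : ∀ a : ℤ × ℤ, F P (-e1, -e2) a = -F P (e1, e2) (a - (e1, e2)) := by
        intro a
        unfold F
        rw [sub_add_cancel]
        have : a + ((-e1, -e2) : ℤ × ℤ) = a - (e1, e2) := by
          rw [sub_eq_add_neg]; rfl
        rw [this]; ring
      have e5 : ((x + m * (-e1), y + m * (-e2)) : ℤ × ℤ) - (e1, e2) = ((x, y) - (e1, e2)) + (-m) • (e1, e2) := by
        apply Prod.ext <;> simp <;> ring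
      rw [hF, hF, e5]
      have e6 : ∀ z w : ℂ, det2 (-z) (-w) = det2 z w := by
        intro z w; simp only [det2, Complex.neg_re, Complex.neg_im]; ring
      rw [e6]
      have hn1 := E4_nz he
      refine base (e1, e2) he ((x, y) - (e1, e2)) (-m) ?_ ?_
      · have := nz_sub (x, y) (e1, e2)
        have := hin x y h3; omega
      · rw [← e5]
        have := nz_sub (x + m * (-e1), y + m * (-e2)) (e1, e2)
        have := hin _ _ h4; omega
    intro e1 e2 g1 g2 hd x y m h3 h4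
    rw [fr, fr, det2_eqG, det2_real_scale, abs_mul, abs_of_pos (mul_pos hs0 hs0), hs2]
    have key : |det2 (F P (e1, e2) (x, y)) (F P (e1, e2) (x + m * e1, y + m * e2))| ≤ δ1 / (4 * C ^ 4) := by
      rcases hd with ⟨rfl, rfl, -, -⟩ | ⟨rfl, rfl, -, -⟩ | ⟨rfl, rfl, -, -⟩ | ⟨rfl, rfl, -, -⟩ |
        ⟨rfl, rfl, -, -⟩ | ⟨rfl, rfl, -, -⟩ | ⟨rfl, rfl, -, -⟩ | ⟨rfl, rfl, -, -⟩
      · exact pos 1 0 (by simp [E4]) x y m h3 h4
      · have := neg 1 0 (by simp [E4]) x y m h3 (by simpa using h4)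
        simpa using this
      · exact pos 0 1 (by simp [E4]) x y m h3 h4
      · have := neg 0 1 (by simp [E4]) x y m h3 (by simpa using h4)
        simpa using this
      · exact pos 1 1 (by simp [E4]) x y m h3 h4
      · exact neg 1 1 (by simp [E4]) x y m h3 h4
      · exact pos 1 (-1) (by simp [E4]) x y m h3 h4
      · have := neg 1 (-1) (by simp [E4]) x y m h3 (by simpa using h4)
        simpa using this
    calc 4 * C ^ 4 * |det2 (F P (e1, e2) (x, y)) (F P (e1, e2) (x + m * e1, y + m * e2))| ≤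
          4 * C ^ 4 * (δ1 / (4 * C ^ 4)) := mul_le_mul_of_nonneg_left key (by positivity)
      _ = δ1 := by field_simp
  exact h2 N hN1 P' ℓ (12 * C ^ 2 * κ) (by positivity) hκ3 hDF hVoid hBd

end

end Pool.Agent.Lib.MP_a768d2_co.SL
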