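import Pool.Agent.Lib.MP_a768d2_coT.SlL

/-! # Slowly varying lattices: from angles to sines, and the final assembly -/

namespace Pool.Agent.Lib.MP_a768d2_co.SL

noncomputable section

theorem det2_angle (v w : ℂ) : |det2 v w| = Real.sin (InnerProductGeometry.angle v w) * (‖v‖ * ‖w‖) := by
  rw [InnerProductGeometry.sin_angle_mul_norm_mul_norm, ← Real.sqrt_sq_eq_abs]
  congr 1
  simp only [Complex.inner, Complex.mul_re, Complex.conj_re, Complex.conj_im, det2]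
  ring

/-- all angles at least `α` give large sines -/
theorem sine_ge {α : ℝ} (hα : 0 ≤ α) {p q r : ℂ} (hpr : p ≠ r)
    (h1 : α ≤ EuclideanGeometry.angle p r q) (h2 : α ≤ EuclideanGeometry.angle r q p) :
    2 / Real.pi * α * (‖p - r‖ * ‖q - r‖) ≤ |det2 (p - r) (q - r)| := by
  have hpi := Real.pi_pos
  rw [det2_angle]
  have e : InnerProductGeometry.angle (p - r) (q - r) = EuclideanGeometry.angle p r q := rfl
  rw [e]
  obtain ⟨θ, hθ⟩ : ∃ θ, θ = EuclideanGeometry.angle p r q := ⟨_, rfl⟩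
  rw [← hθ] at h1 ⊢
  have hθ0 : 0 ≤ θ := hα.trans h1
  have hsum := EuclideanGeometry.angle_add_angle_add_angle_eq_pi q (p₁ := p) (p₂ := r) (by exact hpr.symm)
  refine mul_le_mul_of_nonneg_right ?_ (by positivity)
  rcases le_total θ (Real.pi / 2) with h | h
  · have h3 := Real.mul_le_sin hθ0 h
    exact (mul_le_mul_of_nonneg_left h1 (by positivity)).trans h3
  · have h5 : α ≤ Real.pi - θ := by
      have h4 := EuclideanGeometry.angle_nonneg q p r
      rw [← hθ] at hsum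
      linarith
    have h6 : θ ≤ Real.pi := by rw [hθ]; exact EuclideanGeometry.angle_le_pi _ _ _
    have h3 := Real.mul_le_sin (x := Real.pi - θ) (by linarith) (by linarith)
    rw [Real.sin_pi_sub] at h3
    exact (mul_le_mul_of_nonneg_left h5 (by positivity)).trans h3

/-- the array without the sign condition on the determinant -/
structure Slow0 (M : ℤ) (C ε : ℝ) (P : ℤ × ℤ → ℂ) : Prop where
  hU : ∀ y, nz y + 1 ≤ M → ‖F P (1, 0) y‖ ≤ C
  hV : ∀ y, nz y + 1 ≤ M → ‖F P (0, 1) y‖ ≤ C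
  hdet : ∀ y, nz y + 1 ≤ M → 1 / C ≤ |det2 (F P (1, 0) y) (F P (0, 1) y)|
  hU0 : ∀ y, nz y + 1 ≤ M → nz (y + (1, 0)) + 1 ≤ M → ‖F P (1, 0) (y + (1, 0)) - F P (1, 0) y‖ ≤ ε
  hU1 : ∀ y, nz y + 1 ≤ M → nz (y + (0, 1)) + 1 ≤ M → ‖F P (1, 0) (y + (0, 1)) - F P (1, 0) y‖ ≤ ε
  hV0 : ∀ y, nz y + 1 ≤ M → nz (y + (1, 0)) + 1 ≤ M → ‖F P (0, 1) (y + (1, 0)) - F P (0, 1) y‖ ≤ ε
  hV1 : ∀ y, nz y + 1 ≤ M → nz (y + (0, 1)) + 1 ≤ M → ‖F P (0, 1) (y + (0, 1)) - F P (0, 1) y‖ ≤ ε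

theorem conj_det (z w : ℂ) : det2 ((starRingEnd ℂ) z) ((starRingEnd ℂ) w) = -det2 z w := by
  simp only [det2, Complex.conj_re, Complex.conj_im]; ring

/-- up to a reflection the determinant is positive -/
theorem Slow0.sign {M : ℤ} {C ε : ℝ} {P : ℤ × ℤ → ℂ} (S : Slow0 M C ε P) (hC : 1 ≤ C) (hε : 0 ≤ ε)
    (hεC : C ^ 2 * ε < 1) (hM : 1 ≤ M) :
    Slow M C ε P ∨ Slow M C ε (fun y => (starRingEnd ℂ) (P y)) := by
  have hC0 : 0 < C := by linarith
  obtain ⟨D, hD⟩ : ∃ D : ℤ × ℤ → ℝ, ∀ y, D y = det2 (F P (1, 0) y) (F P (0, 1) y) := ⟨_, fun _ => rfl⟩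
  have hDabs : ∀ y, nz y + 1 ≤ M → 1 / C ≤ |D y| := by intro y hy; rw [hD]; exact S.hdet y hy
  have hDne : ∀ y, nz y + 1 ≤ M → D y ≠ 0 := by
    intro y hy h
    have := hDabs y hy
    rw [h, abs_zero] at this
    have : 0 < 1 / C := by positivity
    linarith
  have step : ∀ y y', nz y + 1 ≤ M → nz y' + 1 ≤ M → ‖F P (1, 0) y' - F P (1, 0) y‖ ≤ ε →
      ‖F P (0, 1) y' - F P (0, 1) y‖ ≤ ε → 0 < D y * D y' := by
    intro y y' hy hy' h1 h2
    have h3 : |D y' - D y| ≤ 2 * C * ε := by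
      have e : D y' - D y = det2 (F P (1, 0) y' - F P (1, 0) y) (F P (0, 1) y') +
          det2 (F P (1, 0) y) (F P (0, 1) y' - F P (0, 1) y) := by
        rw [hD, hD]; simp only [det2, Complex.sub_re, Complex.sub_im]; ring
      rw [e]
      refine (abs_add_le _ _).trans ?_
      have a1 := (det2_le (F P (1, 0) y' - F P (1, 0) y) (F P (0, 1) y')).trans
        (mul_le_mul h1 (S.hV y' hy') (norm_nonneg _) hε)
      have a2 := (det2_le (F P (1, 0) y) (F P (0, 1) y' - F P (0, 1) y)).trans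
        (mul_le_mul (S.hU y hy) h2 (norm_nonneg _) hC0.le)
      linarith
    refine same_sign (t := 1 / (2 * C)) ?_ ?_ ?_
    · have := hDabs y hy
      have e : 2 * (1 / (2 * C)) = 1 / C := by field_simp
      rw [e]; exact this
    · have := hDabs y' hy'
      have e : 2 * (1 / (2 * C)) = 1 / C := by field_simp
      rw [e]; exact this
    · refine lt_of_le_of_lt h3 ?_
      have e : 4 * (1 / (2 * C)) = 2 / C := by field_simp; norm_num
      rw [e, lt_div_iff₀ hC0]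
      nlinarith
  have h00 : nz (0 : ℤ × ℤ) + 1 ≤ M := by rw [nz_zero]; omega
  -- constant sign
  have key : ∀ y, nz y + 1 ≤ M → 0 < D 0 * D y := by
    obtain ⟨f, hf⟩ : ∃ f : ℤ × ℤ → ℂ, ∀ y, f y = ((D y / |D y| : ℝ) : ℂ) := ⟨_, fun _ => rfl⟩
    have hfs : ∀ y y', nz y + 1 ≤ M → nz y' + 1 ≤ M → 0 < D y * D y' → ‖f y' - f y‖ ≤ 0 := by
      intro y y' hy hy' h
      rw [hf, hf]
      rcases lt_or_gt_of_ne (hDne y hy) with h1 | h1
      · have h2 : D y' < 0 := by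
          by_contra hc; push Not at hc
          have := mul_nonpos_of_nonpos_of_nonneg h1.le hc; linarith
        rw [abs_of_neg h1, abs_of_neg h2, div_neg, div_neg, div_self (hDne y hy), div_self (hDne y' hy')]
        simp
      · have h2 : 0 < D y' := by
          by_contra hc; push Not at hc
          have := mul_nonpos_of_nonneg_of_nonpos h1.le hc; linarith
        rw [abs_of_pos h1, abs_of_pos h2, div_self (hDne y hy), div_self (hDne y' hy')]
        simp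
    intro y hy
    have h := path2 f 0 le_rfl (M - 1) 0 (by
      intro z h1 h2
      rw [sub_zero] at h1 h2
      exact hfs _ _ (by omega) (by omega) (step _ _ (by omega) (by omega) (S.hU0 z (by omega) (by omega))
        (S.hV0 z (by omega) (by omega)))) (by
      intro z h1 h2
      rw [sub_zero] at h1 h2
      exact hfs _ _ (by omega) (by omega) (step _ _ (by omega) (by omega) (S.hU1 z (by omega) (by omega))
        (S.hV1 z (by omega) (by omega)))) 0 y (by rw [sub_zero]; omega) (by rw [sub_zero]; omega)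
    rw [mul_zero] at h
    have h1 : f y = f 0 := by
      have := norm_le_zero_iff.mp h
      exact sub_eq_zero.mp this
    rw [hf, hf] at h1
    have h2 : D y / |D y| = D 0 / |D 0| := by exact_mod_cast h1
    have hy0 := hDne y hy
    have h00' := hDne 0 h00
    have p1 : 0 < |D y| := abs_pos.mpr hy0
    have p2 : 0 < |D 0| := abs_pos.mpr h00'
    have h3 : D y = D 0 * (|D y| / |D 0|) := by
      field_simp at h2 ⊢
      linarith
    rw [h3]
    have : D 0 * (D 0 * (|D y| / |D 0|)) = D 0 ^ 2 * (|D y| / |D 0|) := by ring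
    rw [this]
    have : 0 < D 0 ^ 2 := by positivity
    positivity
  rcases lt_or_gt_of_ne (hDne 0 h00) with h1 | h1
  · right
    have hF : ∀ e y, F (fun y => (starRingEnd ℂ) (P y)) e y = (starRingEnd ℂ) (F P e y) := by
      intro e y; unfold F; rw [map_sub]
    refine ⟨hC, hε, ?_, ?_, ?_, ?_, ?_, ?_, ?_⟩
    · intro y hy; rw [hF, Complex.norm_conj]; exact S.hU y hy
    · intro y hy; rw [hF, Complex.norm_conj]; exact S.hV y hy
    · intro y hy
      rw [hF, hF, conj_det, ← hD]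
      have h2 := key y hy
      have h3 : D y < 0 := by
        by_contra hc; push Not at hc
        have := mul_nonpos_of_nonpos_of_nonneg h1.le hc; linarith
      have h4 := hDabs y hy
      rw [abs_of_neg h3] at h4
      exact h4
    · intro y h2 h3; rw [hF, hF, ← map_sub, Complex.norm_conj]; exact S.hU0 y h2 h3
    · intro y h2 h3; rw [hF, hF, ← map_sub, Complex.norm_conj]; exact S.hU1 y h2 h3
    · intro y h2 h3; rw [hF, hF, ← map_sub, Complex.norm_conj]; exact S.hV0 y h2 h3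
    · intro y h2 h3; rw [hF, hF, ← map_sub, Complex.norm_conj]; exact S.hV1 y h2 h3
  · left
    refine ⟨hC, hε, S.hU, S.hV, ?_, S.hU0, S.hU1, S.hV0, S.hV1⟩
    intro y hy
    rw [← hD]
    have h2 := key y hy
    have h3 : 0 < D y := by
      by_contra hc; push Not at hc
      have := mul_nonpos_of_nonneg_of_nonpos h1.le hc; linarith
    have h4 := hDabs y hy
    rw [abs_of_pos h3] at h4
    exact h4

/-- the statement about windows -/
def WebFalse : Prop := ∀ C : ℝ, 1 ≤ C → ∃ κ : ℝ, 0 < κ ∧ κ ≤ 1 ∧ ∀ c : ℝ, 0 < c → ∃ δ : ℝ, 0 < δ ∧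
  ∃ ε : ℝ, 0 < ε ∧ ∃ W0 : ℤ, ∀ W, W0 ≤ W → ∀ P, Dirl W C κ δ ε P → HS W c P → False

/-- centred arrays -/
theorem slow_centred (hweb : WebFalse) (C : ℝ) (hC : 1 ≤ C) (c : ℝ) (hc : 0 < c) :
    ∃ ε : ℝ, 0 < ε ∧ ∃ M0 : ℤ, ∀ M, M0 ≤ M → ∀ P, Slow0 M C ε P → HS M c P → False := by
  have hC3 : (1 : ℝ) ≤ 2 * C ^ 3 := by have := one_le_pow₀ hC (n := 3); linarith
  obtain ⟨κ, hκ, hκ1, h1⟩ := hweb (2 * C ^ 3) hC3
  obtain ⟨c', hc', h2⟩ := window C hC c hc κ hκ hκ1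
  obtain ⟨δ, hδ, ε', hε', W0, h3⟩ := h1 c' hc'
  obtain ⟨ε, hε, M0, h4⟩ := h2 δ hδ ε' hε' W0
  have hC0 : 0 < C := by linarith
  refine ⟨min ε (1 / (2 * C ^ 2)), lt_min hε (by positivity), max M0 1, ?_⟩
  intro M hM P S HSc
  have hMM0 : M0 ≤ M := (le_max_left _ _).trans hM
  have hM1 : 1 ≤ M := (le_max_right _ _).trans hM
  have hεC : C ^ 2 * min ε (1 / (2 * C ^ 2)) < 1 := by
    calc C ^ 2 * min ε (1 / (2 * C ^ 2)) ≤ C ^ 2 * (1 / (2 * C ^ 2)) :=
          mul_le_mul_of_nonneg_left (min_le_right _ _) (by positivity)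
      _ = 1 / 2 := by field_simp
      _ < 1 := by norm_num
  rcases S.sign hC (le_of_lt (lt_min hε (by positivity))) hεC hM1 with S' | S'
  · obtain ⟨W, hW, P', D', H'⟩ := h4 M hMM0 P (S'.mono (min_le_left _ _)) HSc
    exact h3 W hW P' D' H'
  · have HS' : HS M c (fun y => (starRingEnd ℂ) (P y)) := by
      intro x x' z hx hx' hz k1 k2 k3
      simp only at k1 k2 k3 ⊢
      have := HSc x x' z hx hx' hz (by intro h; exact k1 (by rw [h])) (by intro h; exact k2 (by rw [h]))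
        (by intro h; exact k3 (by rw [h]))
      rw [← map_sub, ← map_sub, Complex.norm_conj, Complex.norm_conj, conj_det, abs_neg]
      exact this
    obtain ⟨W, hW, P', D', H'⟩ := h4 M hMM0 _ (S'.mono (min_le_left _ _)) HS'
    exact h3 W hW P' D' H'

/-- the theorem -/
theorem slow_main (hweb : WebFalse) (C : ℝ) (hC : 1 ≤ C) (c : ℝ) (hc : 0 < c) :
    ∃ ε : ℝ, 0 < ε ∧ ∃ N₀ : ℕ, ∀ (n : ℕ) (x : Fin n → ℂ) (s : ℝ) (N : ℕ) (g : ℕ → ℕ → Fin n), N₀ ≤ N → 0 < s →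
      (∀ i j, i < N → j ≤ N → ‖x (g (i + 1) j) - x (g i j)‖ ≤ C * s) →
      (∀ i j, i ≤ N → j < N → ‖x (g i (j + 1)) - x (g i j)‖ ≤ C * s) →
      (∀ i j, i < N → j < N → s ^ 2 / C ≤ |det2 (x (g (i + 1) j) - x (g i j)) (x (g i (j + 1)) - x (g i j))|) →
      (∀ i j, i + 1 < N → j ≤ N →
        ‖(x (g (i + 2) j) - x (g (i + 1) j)) - (x (g (i + 1) j) - x (g i j))‖ ≤ ε * s) →
      (∀ i j, i ≤ N → j + 1 < N →
        ‖(x (g i (j + 2)) - x (g i (j + 1))) - (x (g i (j + 1)) - x (g i j))‖ ≤ ε * s) →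
      (∀ i j, i < N → j < N →
        ‖(x (g (i + 1) (j + 1)) - x (g i (j + 1))) - (x (g (i + 1) j) - x (g i j))‖ ≤ ε * s) →
      ∃ i j k : Fin n, i ≠ j ∧ j ≠ k ∧ i ≠ k ∧ EuclideanGeometry.angle (x i) (x j) (x k) < c / N ^ 2 := by
  have hpi := Real.pi_pos
  obtain ⟨ε, hε, M0, hmain⟩ := slow_centred hweb C hC (2 / Real.pi * c / 9) (by positivity)
  refine ⟨ε, hε, 2 * M0.toNat + 4, ?_⟩
  intro n x s N g hN hs hx hy hdet hxx hyy hxy
  by_contra hcon
  push Not at hcon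
  obtain ⟨M, hM⟩ : ∃ M : ℕ, M = N / 2 := ⟨_, rfl⟩
  have hM1 : 2 * M ≤ N := by omega
  have hM2 : N ≤ 3 * M := by omega
  have hM3 : M0 ≤ M := by omega
  obtain ⟨P, hP⟩ : ∃ P : ℤ × ℤ → ℂ, ∀ y, P y = ((1 / s : ℝ) : ℂ) * x (g (y.1 + M).toNat (y.2 + M).toNat) :=
    ⟨_, fun _ => rfl⟩
  have hs1 : 0 < 1 / s := by positivity
  have hMR : (0 : ℝ) < M := by
    have : 0 < M := by omega
    exact_mod_cast this
  have hNR : (0 : ℝ) < N := by
    have : 0 < N := by omega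
    exact_mod_cast this
  -- coordinates
  have co : ∀ y : ℤ × ℤ, nz y ≤ M → ∃ i j : ℕ, (y.1 + M).toNat = i ∧ (y.2 + M).toNat = j ∧ i ≤ 2 * M ∧ j ≤ 2 * M ∧
      (i : ℤ) = y.1 + M ∧ (j : ℤ) = y.2 + M := by
    intro y hy
    have h1 := abs_le.mp ((abs_fst_le y).trans hy)
    have h2 := abs_le.mp ((abs_snd_le y).trans hy)
    exact ⟨(y.1 + M).toNat, (y.2 + M).toNat, rfl, rfl, by omega, by omega, by omega, by omega⟩
  have sc : ∀ z w : ℂ, ((1 / s : ℝ) : ℂ) * z - ((1 / s : ℝ) : ℂ) * w = ((1 / s : ℝ) : ℂ) * (z - w) := by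
    intro z w; ring
  have nrm : ∀ (z : ℂ) (t : ℝ), ‖z‖ ≤ t * s → ‖((1 / s : ℝ) : ℂ) * z‖ ≤ t := by
    intro z t h
    rw [norm_mul, Complex.norm_real, Real.norm_eq_abs, abs_of_pos hs1]
    calc 1 / s * ‖z‖ ≤ 1 / s * (t * s) := mul_le_mul_of_nonneg_left h hs1.le
      _ = t := by field_simp
  -- differences
  have dif : ∀ (y : ℤ × ℤ) (i j : ℕ), (y.1 + M).toNat = i → (y.2 + M).toNat = j → (i : ℤ) = y.1 + M →
      (j : ℤ) = y.2 + M → ∀ p q : ℕ, P (y + ((p : ℤ), (q : ℤ))) = ((1 / s : ℝ) : ℂ) * x (g (i + p) (j + q)) := by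
    intro y i j h1 h2 h3 h4 p q
    rw [hP]
    have e1 : ((y + ((p : ℤ), (q : ℤ))).1 + M).toNat = i + p := by simp only [Prod.fst_add]; omega
    have e2 : ((y + ((p : ℤ), (q : ℤ))).2 + M).toNat = j + q := by simp only [Prod.snd_add]; omega
    rw [e1, e2]
  have e00 : ∀ y : ℤ × ℤ, y + (((0 : ℕ) : ℤ), ((0 : ℕ) : ℤ)) = y := by
    intro y; simp
  have S : Slow0 (M : ℤ) C ε P := by
    have gen : ∀ y : ℤ × ℤ, nz y + 1 ≤ M → ∃ i j : ℕ, i < N ∧ j < N ∧ (i : ℤ) = y.1 + M ∧ (j : ℤ) = y.2 + M ∧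
        ∀ p q : ℕ, P (y + ((p : ℤ), (q : ℤ))) = ((1 / s : ℝ) : ℂ) * x (g (i + p) (j + q)) := by
      intro y hy
      obtain ⟨i, j, h1, h2, h3, h4, h5, h6⟩ := co y (by omega)
      have h7 := abs_le.mp (abs_fst_le y)
      have h8 := abs_le.mp (abs_snd_le y)
      exact ⟨i, j, by omega, by omega, h5, h6, dif y i j h1 h2 h5 h6⟩
    have c1 : ∀ y : ℤ × ℤ, y + (1, 0) = y + (((1 : ℕ) : ℤ), ((0 : ℕ) : ℤ)) := by intro y; simp
    have c2 : ∀ y : ℤ × ℤ, y + (0, 1) = y + (((0 : ℕ) : ℤ), ((1 : ℕ) : ℤ)) := by intro y; simp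
    have c3 : ∀ y : ℤ × ℤ, y + (1, 0) + (1, 0) = y + (((2 : ℕ) : ℤ), ((0 : ℕ) : ℤ)) := by
      intro y; rw [add_assoc]; norm_num
    have c4 : ∀ y : ℤ × ℤ, y + (0, 1) + (0, 1) = y + (((0 : ℕ) : ℤ), ((2 : ℕ) : ℤ)) := by
      intro y; rw [add_assoc]; norm_num
    have c5 : ∀ y : ℤ × ℤ, y + (1, 0) + (0, 1) = y + (((1 : ℕ) : ℤ), ((1 : ℕ) : ℤ)) := by
      intro y; rw [add_assoc]; norm_num
    have c6 : ∀ y : ℤ × ℤ, y + (0, 1) + (1, 0) = y + (((1 : ℕ) : ℤ), ((1 : ℕ) : ℤ)) := by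
      intro y; rw [add_assoc]; norm_num
    refine ⟨?_, ?_, ?_, ?_, ?_, ?_, ?_⟩
    · intro y h1
      obtain ⟨i, j, hi, hj, hi2, hj2, h⟩ := gen y h1
      have h0 := h 0 0
      rw [e00] at h0
      unfold F
      rw [c1, h, h0, sc]
      exact nrm _ _ (hx i j hi hj.le)
    · intro y h1
      obtain ⟨i, j, hi, hj, hi2, hj2, h⟩ := gen y h1
      have h0 := h 0 0
      rw [e00] at h0
      unfold F
      rw [c2, h, h0, sc]
      exact nrm _ _ (hy i j hi.le hj)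
    · intro y h1
      obtain ⟨i, j, hi, hj, hi2, hj2, h⟩ := gen y h1
      have h0 := h 0 0
      rw [e00] at h0
      unfold F
      rw [c1, c2, h, h, h0, sc, sc, det2_real_scale, abs_mul, abs_of_pos (by positivity)]
      have := hdet i j hi hj
      calc 1 / C = 1 / s * (1 / s) * (s ^ 2 / C) := by field_simp
        _ ≤ _ := mul_le_mul_of_nonneg_left this (by positivity)
    · intro y h1 h2
      obtain ⟨i, j, hi, hj, hi2, hj2, h⟩ := gen y h1
      have h0 := h 0 0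
      rw [e00] at h0
      have b := abs_le.mp ((abs_fst_le (y + (1, 0))).trans (show nz (y + (1, 0)) ≤ M - 1 by omega))
      simp only [Prod.fst_add] at b
      unfold F
      rw [c3, c1, h, h, h0, sc, sc, sc]
      exact nrm _ _ (hxx i j (by omega) hj.le)
    · intro y h1 h2
      obtain ⟨i, j, hi, hj, hi2, hj2, h⟩ := gen y h1
      have h0 := h 0 0
      rw [e00] at h0
      unfold F
      rw [c6, c2, c1, h, h, h, h0, sc, sc, sc]
      exact nrm _ _ (hxy i j hi hj)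
    · intro y h1 h2
      obtain ⟨i, j, hi, hj, hi2, hj2, h⟩ := gen y h1
      have h0 := h 0 0
      rw [e00] at h0
      unfold F
      rw [c5, c1, c2, h, h, h, h0, sc, sc, sc]
      refine nrm _ _ ?_
      have := hxy i j hi hj
      have e : x (g (i + 1) (j + 1)) - x (g (i + 1) (j + 0)) - (x (g (i + 0) (j + 1)) - x (g (i + 0) (j + 0))) =
          (x (g (i + 1) (j + 1)) - x (g i (j + 1))) - (x (g (i + 1) j) - x (g i j)) := by
        simp only [add_zero]; ring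
      rw [e]; exact this
    · intro y h1 h2
      obtain ⟨i, j, hi, hj, hi2, hj2, h⟩ := gen y h1
      have h0 := h 0 0
      rw [e00] at h0
      have b := abs_le.mp ((abs_snd_le (y + (0, 1))).trans (show nz (y + (0, 1)) ≤ M - 1 by omega))
      simp only [Prod.snd_add] at b
      unfold F
      rw [c4, c2, h, h, h0, sc, sc, sc]
      exact nrm _ _ (hyy i j hi.le (by omega))
  refine hmain M hM3 P S ?_
  intro p q r hp hq hr h1 h2 h3
  obtain ⟨i1, j1, a1, a2, -, -, -, -⟩ := co p (by omega)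
  obtain ⟨i2, j2, b1, b2, -, -, -, -⟩ := co q (by omega)
  obtain ⟨i3, j3, d1, d2, -, -, -, -⟩ := co r (by omega)
  rw [hP, hP, a1, a2, b1, b2] at h1
  rw [hP, hP, a1, a2, d1, d2] at h2
  rw [hP, hP, b1, b2, d1, d2] at h3
  rw [hP, hP, hP, a1, a2, b1, b2, d1, d2, sc, sc, det2_real_scale, norm_mul, norm_mul, Complex.norm_real,
    Real.norm_eq_abs, abs_mul, abs_of_pos hs1, abs_of_pos (mul_pos hs1 hs1)]
  have k1 : g i1 j1 ≠ g i2 j2 := by intro h; exact h1 (by rw [h])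
  have k2 : g i1 j1 ≠ g i3 j3 := by intro h; exact h2 (by rw [h])
  have k3 : g i2 j2 ≠ g i3 j3 := by intro h; exact h3 (by rw [h])
  have k4 : x (g i1 j1) ≠ x (g i3 j3) := by intro h; exact h2 (by rw [h])
  have hα : 0 ≤ c / (N : ℝ) ^ 2 := by positivity
  have h := sine_ge hα (p := x (g i1 j1)) (q := x (g i2 j2)) (r := x (g i3 j3)) k4
    (hcon _ _ _ k2 k3.symm k1) (hcon _ _ _ k3.symm k1.symm k2.symm)
  obtain ⟨A, hA⟩ : ∃ A, A = ‖x (g i1 j1) - x (g i3 j3)‖ * ‖x (g i2 j2) - x (g i3 j3)‖ := ⟨_, rfl⟩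
  obtain ⟨B, hB⟩ : ∃ B, B = |det2 (x (g i1 j1) - x (g i3 j3)) (x (g i2 j2) - x (g i3 j3))| := ⟨_, rfl⟩
  rw [← hA, ← hB] at h
  have e1 : 2 / Real.pi * c / 9 * (1 / s * ‖x (g i1 j1) - x (g i3 j3)‖ * (1 / s * ‖x (g i2 j2) - x (g i3 j3)‖)) =
      (1 / s * (1 / s)) * (2 / Real.pi * c / 9 * A) := by rw [hA]; ring
  rw [e1, ← hB]
  have hA0 : 0 ≤ A := by rw [hA]; positivity
  have e2 : 2 / Real.pi * c / 9 * A ≤ (M : ℝ) ^ 2 * B := by
    have g1 : (N : ℝ) ^ 2 ≤ 9 * (M : ℝ) ^ 2 := by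
      have : (N : ℝ) ≤ 3 * M := by exact_mod_cast hM2
      nlinarith
    have g2 : 2 / Real.pi * c * A ≤ (N : ℝ) ^ 2 * B := by
      have : (N : ℝ) ^ 2 * (2 / Real.pi * (c / (N : ℝ) ^ 2) * A) ≤ (N : ℝ) ^ 2 * B :=
        mul_le_mul_of_nonneg_left h (by positivity)
      calc 2 / Real.pi * c * A = (N : ℝ) ^ 2 * (2 / Real.pi * (c / (N : ℝ) ^ 2) * A) := by field_simp
        _ ≤ _ := this
    have hB0 : 0 ≤ B := by rw [hB]; positivity
    have g3 : (N : ℝ) ^ 2 * B ≤ 9 * (M : ℝ) ^ 2 * B := mul_le_mul_of_nonneg_right g1 hB0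
    linarith
  calc (1 / s * (1 / s)) * (2 / Real.pi * c / 9 * A) ≤ (1 / s * (1 / s)) * ((M : ℝ) ^ 2 * B) :=
        mul_le_mul_of_nonneg_left e2 (by positivity)
    _ = _ := by push_cast; ring

end

end Pool.Agent.Lib.MP_a768d2_co.SL
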