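import Pool.Agent.Lib.MP_a768d2_coT.Geo2

/-! # Nearly straight grids: step A, all rows are straight up to a small constant -/

namespace Pool.Agent.Lib.MP_a768d2_coT

open Pool.Agent.Lib.MP_a768d2_coG

noncomputable section

variable {P : ℤ → ℤ → ℂ} {N : ℕ} {κ c lam : ℝ}

/-- signed area of the near pair `(x, y), (x, y) + e` and the point with chart coordinates `(s, t)` -/
def Ps (P : ℤ → ℤ → ℂ) (e1 e2 g1 g2 x y s t : ℤ) : ℝ :=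
  det2 (Fr P e1 e2 x y) (P (x + s * e1 + t * g1) (y + s * e2 + t * g2) - P x y)

theorem Ps_s (e1 e2 g1 g2 x y s t : ℤ) :
    Ps P e1 e2 g1 g2 x y (s + 1) t - Ps P e1 e2 g1 g2 x y s t =
      det2 (Fr P e1 e2 x y) (Fr P e1 e2 (x + s * e1 + t * g1) (y + s * e2 + t * g2)) := by
  unfold Ps
  rw [← det2_sub_right]
  congr 1
  have h1 : x + (s + 1) * e1 + t * g1 = x + s * e1 + t * g1 + e1 := by ring
  have h2 : y + (s + 1) * e2 + t * g2 = y + s * e2 + t * g2 + e2 := by ring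
  rw [h1, h2]
  simp only [Fr]
  ring

theorem Ps_t (e1 e2 g1 g2 x y s t : ℤ) :
    Ps P e1 e2 g1 g2 x y s (t + 1) - Ps P e1 e2 g1 g2 x y s t =
      det2 (Fr P e1 e2 x y) (Fr P g1 g2 (x + s * e1 + t * g1) (y + s * e2 + t * g2)) := by
  unfold Ps
  rw [← det2_sub_right]
  congr 1
  have h1 : x + s * e1 + (t + 1) * g1 = x + s * e1 + t * g1 + g1 := by ring
  have h2 : y + s * e2 + (t + 1) * g2 = y + s * e2 + t * g2 + g2 := by ring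
  rw [h1, h2]
  simp only [Fr]
  ring

theorem Dir.win {e1 e2 g1 g2 x y s t : ℤ} (hd : Dir e1 e2 g1 g2) (hN : 0 < N)
    (hx : 8 * |x| ≤ N) (hy : 8 * |y| ≤ N) (hs : 0 ≤ s) (hs' : 2 * s ≤ N) (ht : 4 * |t| ≤ N) :
    |x + s * e1 + t * g1| < N ∧ |y + s * e2 + t * g2| < N := by
  have a1 := abs_le.mp (show |x| ≤ (N : ℤ) / 8 by omega)
  have a2 := abs_le.mp (show |y| ≤ (N : ℤ) / 8 by omega)
  have a3 := abs_le.mp (show |t| ≤ (N : ℤ) / 4 by omega)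
  rw [abs_lt, abs_lt]
  rcases hd with ⟨rfl, rfl, rfl, rfl⟩ | ⟨rfl, rfl, rfl, rfl⟩ | ⟨rfl, rfl, rfl, rfl⟩ |
      ⟨rfl, rfl, rfl, rfl⟩ | ⟨rfl, rfl, rfl, rfl⟩ | ⟨rfl, rfl, rfl, rfl⟩ | ⟨rfl, rfl, rfl, rfl⟩ |
      ⟨rfl, rfl, rfl, rfl⟩ <;> refine ⟨⟨?_, ?_⟩, ?_, ?_⟩ <;> omega

/-- index distance in a chart -/
theorem Dir.dist {e1 e2 g1 g2 x y s t s' t' : ℤ} (hd : Dir e1 e2 g1 g2) {r : ℝ}
    (hs : |(s : ℝ) - s'| ≤ r) (ht : |(t : ℝ) - t'| ≤ r) :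
    |((x + s * e1 + t * g1 : ℤ) : ℝ) - ((x + s' * e1 + t' * g1 : ℤ) : ℝ)| ≤ 2 * r ∧
    |((y + s * e2 + t * g2 : ℤ) : ℝ) - ((y + s' * e2 + t' * g2 : ℤ) : ℝ)| ≤ 2 * r := by
  have hs' := abs_le.mp hs
  have ht' := abs_le.mp ht
  rw [abs_le, abs_le]
  push_cast
  rcases hd with ⟨rfl, rfl, rfl, rfl⟩ | ⟨rfl, rfl, rfl, rfl⟩ | ⟨rfl, rfl, rfl, rfl⟩ |
      ⟨rfl, rfl, rfl, rfl⟩ | ⟨rfl, rfl, rfl, rfl⟩ | ⟨rfl, rfl, rfl, rfl⟩ | ⟨rfl, rfl, rfl, rfl⟩ |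
      ⟨rfl, rfl, rfl, rfl⟩ <;> push_cast <;> refine ⟨⟨?_, ?_⟩, ?_, ?_⟩ <;> linarith

/-- increments of `Ps` -/
theorem NF.Ps_bd (F : NF P N κ c lam) (hκ : 0 ≤ κ) (hκ1 : κ ≤ 1 / 100) {e1 e2 g1 g2 x y s t : ℤ}
    (hd : Dir e1 e2 g1 g2) (hx : |x| < N) (hy : |y| < N) (hx' : |x + s * e1 + t * g1| < N)
    (hy' : |y + s * e2 + t * g2| < N) :
    |Ps P e1 e2 g1 g2 x y (s + 1) t - Ps P e1 e2 g1 g2 x y s t| ≤ 1 / 8 ∧
    1 / 2 ≤ Ps P e1 e2 g1 g2 x y s (t + 1) - Ps P e1 e2 g1 g2 x y s t ∧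
    Ps P e1 e2 g1 g2 x y s (t + 1) - Ps P e1 e2 g1 g2 x y s t ≤ 2 := by
  have hb := hd.bd
  have hn := hd.norm_e
  have f0 := F.frame hκ (abs_le.mpr hb.1) (abs_le.mpr hb.2.1) hx hy
  have f1 := F.frame hκ (abs_le.mpr hb.1) (abs_le.mpr hb.2.1) hx' hy'
  have f2 := F.frame hκ (abs_le.mpr hb.2.2.1) (abs_le.mpr hb.2.2.2) hx' hy'
  have d1 := det_close f0 f1
  have d2 := det_close f0 f2
  rw [det2_self, sub_zero] at d1
  rw [hd.det] at d2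
  rw [Ps_s, Ps_t]
  have d1' : 2 * κ * (‖vec e1 e2‖ + ‖vec e1 e2‖) + (2 * κ) ^ 2 ≤ 1 / 8 := by nlinarith [hn.2.1]
  have d2' : 2 * κ * (‖vec e1 e2‖ + ‖vec g1 g2‖) + (2 * κ) ^ 2 ≤ 1 / 8 := by
    rw [hn.2.2]; nlinarith [hn.2.1]
  have d3 := abs_le.mp (d2.trans d2')
  refine ⟨d1.trans d1', ?_, ?_⟩ <;> linarith

theorem NF.rowM (F : NF P N κ c lam) (hκ : 0 ≤ κ) (hκ1 : κ ≤ 1 / 100) (hc : 0 ≤ c)
    (hlam : 0 ≤ lam) {ρ : ℝ → ℝ} {ε : ℝ} (hε : 0 ≤ ε) (M : Mod P N ρ ε) (hN : 0 < N)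
    {e1 e2 g1 g2 x y : ℤ} (hd : Dir e1 e2 g1 g2) (hx : 8 * |x| ≤ N) (hy : 8 * |y| ≤ N)
    (S : ℕ) (hS : 2 * S ≤ N) :
    RowM (fun s t => Ps P e1 e2 g1 g2 x y s t) N S (c / 4) ⌈4 * lam⌉₊ (fun κ' => ρ (κ' / 4) / 2)
      (4 * ε) := by
  have hx1 : |x| < (N : ℤ) := by omega
  have hy1 : |y| < (N : ℤ) := by omega
  have hb := hd.bd
  have hw := F.norm_frame hκ hκ1 hd hx1 hy1
  have win : ∀ s t : ℤ, 0 ≤ s → s ≤ S → 2 * |t| ≤ S →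
      |x + s * e1 + t * g1| < N ∧ |y + s * e2 + t * g2| < N :=
    fun s t h1 h2 h3 => hd.win hN hx hy h1 (by omega) (by omega)
  refine ⟨?_, ?_, ?_, ?_, ?_, ?_, ?_⟩
  · simp [Ps, det2]
  · simp [Ps, Fr, det2_self]
  · intro s t h1 h2 h3
    exact (F.Ps_bd hκ hκ1 hd hx1 hy1 (win s t h1 h2 h3).1 (win s t h1 h2 h3).2).1
  · intro s t h1 h2 h3
    exact (F.Ps_bd hκ hκ1 hd hx1 hy1 (win s t h1 h2 h3).1 (win s t h1 h2 h3).2).2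
  · intro κ' hκ' s t s' t' h1 h2 h3 h1' h2' h3' h4 h5
    have w1 := win s t h1 h2 h3
    have w2 := win s' t' h1' h2' h3'
    have hdist := hd.dist (x := x) (y := y) h4 h5
    have e : 2 * (ρ (κ' / 4) / 2 * N) = ρ (κ' / 4) * N := by ring
    rw [e] at hdist
    have hm := M.fr (κ' := κ' / 4) (by linarith) (by linarith) (abs_le.mpr hb.1)
      (abs_le.mpr hb.2.1) w1.1 w1.2 w2.1 w2.2 hdist.1 hdist.2
    rw [Ps_s, Ps_s, ← det2_sub_right]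
    refine (det2_le' hw.2 hm).trans (le_of_eq (by ring))
  · intro κ' hκ' s t s' t' h1 h2 h3 h1' h2' h3' h4 h5
    have w1 := win s t h1 h2 h3
    have w2 := win s' t' h1' h2' h3'
    have hdist := hd.dist (x := x) (y := y) h4 h5
    have e : 2 * (ρ (κ' / 4) / 2 * N) = ρ (κ' / 4) * N := by ring
    rw [e] at hdist
    have hm := M.fr (κ' := κ' / 4) (by linarith) (by linarith) (abs_le.mpr hb.2.2.1)
      (abs_le.mpr hb.2.2.2) w1.1 w1.2 w2.1 w2.2 hdist.1 hdist.2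
    rw [Ps_t, Ps_t, ← det2_sub_right]
    refine (det2_le' hw.2 hm).trans (le_of_eq (by ring))
  · intro s t h0 h2 h3 h4
    have h1 : 0 ≤ s := by omega
    have w1 := win s t h1 h2 h4
    have hfar := F.far hκ1 hd hx1.le hy1.le w1.1.le w1.2.le h1 h3
    have hx1' := abs_lt.mp hx1
    have hy1' := abs_lt.mp hy1
    have hne : P x y ≠ P (x + e1) (y + e2) := by
      intro h
      have h5 : ‖Fr P e1 e2 x y‖ = 0 := by
        unfold Fr; rw [h, sub_self, norm_zero]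
      linarith [hw.1]
    have hs4 : 4 * lam ≤ s := by
      have h5 : ((⌈4 * lam⌉₊ : ℤ) : ℝ) ≤ s := by exact_mod_cast h0
      have h6 := Nat.le_ceil (4 * lam)
      push_cast at h5
      linarith
    have hv := F.void x y (x + e1) (y + e2) (x + s * e1 + t * g1) (y + s * e2 + t * g2)
      hx1.le hy1.le (by rw [abs_le]; constructor <;> omega) (by rw [abs_le]; constructor <;> omega)
      w1.1.le w1.2.le hne (by
        have h5 : lam * ‖P (x + e1) (y + e2) - P x y‖ ≤ lam * 2 :=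
          mul_le_mul_of_nonneg_left hw.2 hlam
        linarith)
    have hs0 : (0 : ℝ) ≤ s := by exact_mod_cast h1
    have h6 : ((s : ℝ) / 2) ^ 2 ≤ ‖P (x + s * e1 + t * g1) (y + s * e2 + t * g2) - P x y‖ ^ 2 :=
      pow_le_pow_left₀ (by positivity) hfar 2
    have h7 := mul_le_mul_of_nonneg_left h6 hc
    have h8 : c / 4 * (s : ℝ) ^ 2 = c * ((s : ℝ) / 2) ^ 2 := by ring
    rw [h8]
    exact h7.trans hv

/-- rows of a nearly straight grid: bound `δ` for the mutual slopes of all frames on one row -/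
def Bd (P : ℤ → ℤ → ℂ) (δ : ℝ) (W : ℤ → ℤ → Prop) : Prop :=
  ∀ e1 e2 g1 g2 : ℤ, Dir e1 e2 g1 g2 → ∀ x y s : ℤ, W x y → W (x + s * e1) (y + s * e2) →
    |det2 (Fr P e1 e2 x y) (Fr P e1 e2 (x + s * e1) (y + s * e2))| ≤ δ

theorem stepA (c lam : ℝ) (hc : 0 < c) (hlam : 0 ≤ lam) (ρ : ℝ → ℝ) (hρ : ∀ κ, 0 < κ → 0 < ρ κ)
    (δ : ℝ) (hδ : 0 < δ) : ∃ ε, 0 < ε ∧ ∃ N0 : ℕ, ∀ N : ℕ, N0 ≤ N → ∀ (P : ℤ → ℤ → ℂ) (κ : ℝ),
      0 ≤ κ → κ ≤ 1 / 100 → NF P N κ c lam → ∀ ε', 0 ≤ ε' → ε' ≤ ε → Mod P N ρ ε' →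
        Bd P δ (fun x y => 8 * |x| ≤ N ∧ 8 * |y| ≤ N) := by
  obtain ⟨ε, hε, _, N0, h⟩ := lock (c / 4) (by positivity) ⌈4 * lam⌉₊ (fun κ' => ρ (κ' / 4) / 2)
    (fun κ' hκ' => half_pos (hρ _ (by positivity))) δ hδ
  refine ⟨ε / 4, by positivity, N0 + 100, ?_⟩
  intro N hN P κ hκ hκ1 F ε' hε' hε'1 M
  -- forward rays
  have fwd : ∀ e1 e2 g1 g2 : ℤ, Dir e1 e2 g1 g2 → ∀ x y s : ℤ, 0 ≤ s → 4 * s ≤ N →
      8 * |x| ≤ N → 8 * |y| ≤ N →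
      |det2 (Fr P e1 e2 x y) (Fr P e1 e2 (x + s * e1) (y + s * e2))| ≤ δ := by
    intro e1 e2 g1 g2 hd x y s hs hs' hx hy
    have R := F.rowM hκ hκ1 hc.le hlam hε' M (by omega) hd hx hy (N / 2) (by omega)
    have := h N (by omega) (N / 2) (by omega) (by omega) _ (4 * ε') (by linarith) R s hs (by omega)
    rw [Ps_s] at this
    simpa using this
  intro e1 e2 g1 g2 hd x y s hW hW'
  have hb := hd.bd
  have a1 := abs_le.mp (show |x| ≤ (N : ℤ) / 8 by omega)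
  have a2 := abs_le.mp (show |y| ≤ (N : ℤ) / 8 by omega)
  have a3 := abs_le.mp (show |x + s * e1| ≤ (N : ℤ) / 8 by omega)
  have a4 := abs_le.mp (show |y + s * e2| ≤ (N : ℤ) / 8 by omega)
  have hs4 : -(N : ℤ) ≤ 4 * s ∧ 4 * s ≤ N := by
    rcases hd with ⟨rfl, rfl, rfl, rfl⟩ | ⟨rfl, rfl, rfl, rfl⟩ | ⟨rfl, rfl, rfl, rfl⟩ |
      ⟨rfl, rfl, rfl, rfl⟩ | ⟨rfl, rfl, rfl, rfl⟩ | ⟨rfl, rfl, rfl, rfl⟩ | ⟨rfl, rfl, rfl, rfl⟩ |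
      ⟨rfl, rfl, rfl, rfl⟩ <;> constructor <;> omega
  rcases le_total 0 s with h0 | h0
  · exact fwd e1 e2 g1 g2 hd x y s h0 hs4.2 hW.1 hW.2
  · have := fwd e1 e2 g1 g2 hd (x + s * e1) (y + s * e2) (-s) (by omega) (by omega) hW'.1 hW'.2
    have ex : x + s * e1 + -s * e1 = x := by ring
    have ey : y + s * e2 + -s * e2 = y := by ring
    rw [ex, ey, det2_swap, abs_neg] at this
    exact this

end

end Pool.Agent.Lib.MP_a768d2_coT
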